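import Mathlib
import Pool.Agent.Lib.MP_ca0fc2_an.Mg.G073
import Pool.Agent.Lib.MP_ca0fc2_an.Mg.G122

set_option autoImplicit false
set_option linter.unusedSectionVars false

open Metric Set MeasureTheory Filter Topology
open scoped InnerProductSpace ENNReal ContDiff

/-! # The integral of Forelli and Rudin with a small exponent -/

namespace Pool.Agent.MPca0fc2.PV

open Pool.Agent.MPca0fc2.PT

variable {E : Type*} [NormedAddCommGroup E] [InnerProductSpace ℂ E]
variable [FiniteDimensional ℂ E] [MeasurableSpace E] [BorelSpace E]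

private theorem A2_lint (μ : Measure E) [μ.IsAddHaarMeasure] (m : ℕ)
    (hm : 1 ≤ m) (hdim : Module.finrank ℂ E = m + 1) {c : ℝ} (hc : 0 < c)
    {z : E} (hz : ‖z‖ ≤ 1) {t : ℝ} (ht : 0 < t) :
    ∫⁻ w in ball (0 : E) 1,
      ENNReal.ofReal ((1 / (‖1 - ⟪w, z⟫_ℂ‖ + t)) ^ ((m + 2 : ℝ) + c)) ∂μ ≤
      ENNReal.ofReal (((m + 2 : ℝ) + c) * (4 ^ (m + 2) * μ.real (ball 0 1) *
        (1 / c * (1 / t) ^ c))) := by
  have hprop : ProperSpace E := FiniteDimensional.proper ℂ E
  have hfin : IsFiniteMeasure (μ.restrict (ball (0 : E) 1)) :=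
    ⟨by rw [Measure.restrict_apply_univ]; exact measure_ball_lt_top⟩
  set D : ℝ := 4 ^ (m + 2) * μ.real (ball 0 1) with hD
  have hD0 : 0 ≤ D := by rw [hD]; exact mul_nonneg (by positivity) measureReal_nonneg
  set p : ℝ := (m + 2 : ℝ) + c with hp
  have hp0 : 0 < p := by rw [hp]; positivity
  have hQ : ∀ w : E, 0 < ‖1 - ⟪w, z⟫_ℂ‖ + t := fun w => by positivity
  have hcont : Continuous (fun w : E => 1 / (‖1 - ⟪w, z⟫_ℂ‖ + t)) := by
    apply Continuous.div continuous_const (by fun_prop)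
    intro w; exact (hQ w).ne'
  rw [lintegral_rpow_eq_lintegral_meas_lt_mul (μ.restrict (ball (0 : E) 1))
    (Eventually.of_forall fun w => by have := hQ w; positivity)
    hcont.aemeasurable hp0, ENNReal.ofReal_mul hp0.le]
  gcongr
  have hb : ∀ s ∈ Ioi (0 : ℝ), (μ.restrict (ball (0 : E) 1))
      {w | s < 1 / (‖1 - ⟪w, z⟫_ℂ‖ + t)} * ENNReal.ofReal (s ^ (p - 1)) ≤
      (Ioc 0 (1 / t)).indicator (fun s => ENNReal.ofReal (D * s ^ (c - 1))) s := by
    intro s hs
    have hs0 : (0 : ℝ) < s := hs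
    by_cases hst : s ≤ 1 / t
    · rw [indicator_of_mem (show s ∈ Ioc 0 (1 / t) from ⟨hs0, hst⟩)]
      have h1 : (μ.restrict (ball (0 : E) 1)) {w | s < 1 / (‖1 - ⟪w, z⟫_ℂ‖ + t)} ≤
          ENNReal.ofReal (D * (1 / s) ^ (m + 2)) := by
        calc (μ.restrict (ball (0 : E) 1)) {w | s < 1 / (‖1 - ⟪w, z⟫_ℂ‖ + t)}
            ≤ (μ.restrict (ball (0 : E) 1)) {w | ‖1 - ⟪w, z⟫_ℂ‖ < 1 / s} := by
              apply measure_mono
              intro w (hw : s < 1 / (‖1 - ⟪w, z⟫_ℂ‖ + t))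
              show ‖1 - ⟪w, z⟫_ℂ‖ < 1 / s
              rw [lt_div_iff₀ (hQ w)] at hw
              rw [lt_div_iff₀ hs0]
              nlinarith
          _ = ENNReal.ofReal ((μ.restrict (ball (0 : E) 1)).real
              {w | ‖1 - ⟪w, z⟫_ℂ‖ < 1 / s}) := by
              rw [measureReal_def, ENNReal.ofReal_toReal (measure_ne_top _ _)]
          _ ≤ _ := ENNReal.ofReal_le_ofReal (SD.vol_est μ m hm hdim hz (by positivity))
      calc _ ≤ ENNReal.ofReal (D * (1 / s) ^ (m + 2)) * ENNReal.ofReal (s ^ (p - 1)) := by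
            gcongr
        _ = ENNReal.ofReal (D * s ^ (c - 1)) := by
            rw [← ENNReal.ofReal_mul (by positivity)]
            congr 1
            rw [mul_assoc]
            congr 1
            have e1 : (1 / s) ^ (m + 2) = s ^ (-(m + 2 : ℝ)) := by
              rw [Real.rpow_neg hs0.le, one_div, inv_pow]
              congr 1
              exact_mod_cast (Real.rpow_natCast s (m + 2)).symm
            rw [e1, ← Real.rpow_add hs0]
            congr 1
            rw [hp]; ring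
    · have h1 : {w : E | s < 1 / (‖1 - ⟪w, z⟫_ℂ‖ + t)} = ∅ := by
        apply eq_empty_of_forall_notMem
        intro w (hw : s < 1 / (‖1 - ⟪w, z⟫_ℂ‖ + t))
        apply hst
        have h2 : 1 / (‖1 - ⟪w, z⟫_ℂ‖ + t) ≤ 1 / t := by
          apply one_div_le_one_div_of_le ht
          linarith [norm_nonneg (1 - ⟪w, z⟫_ℂ)]
        linarith
      rw [h1]
      simp
  refine (setLIntegral_mono' measurableSet_Ioi hb).trans ?_
  calc ∫⁻ s in Ioi (0 : ℝ), (Ioc 0 (1 / t)).indicator
        (fun s => ENNReal.ofReal (D * s ^ (c - 1))) s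
    _ = ∫⁻ s in Ioc 0 (1 / t), ENNReal.ofReal (D * s ^ (c - 1)) := by
        rw [lintegral_indicator measurableSet_Ioc, Measure.restrict_restrict measurableSet_Ioc]
        congr 2
        rw [inter_eq_left]
        exact fun s hs => hs.1
    _ = ENNReal.ofReal (∫ s in Ioc 0 (1 / t), D * s ^ (c - 1)) := by
        rw [ofReal_integral_eq_lintegral_ofReal]
        · apply Integrable.const_mul
          have := intervalIntegral.intervalIntegrable_rpow' (a := 0) (b := 1 / t)
            (r := c - 1) (by linarith)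
          rw [intervalIntegrable_iff_integrableOn_Ioc_of_le (by positivity)] at this
          exact this
        · refine (ae_restrict_iff' measurableSet_Ioc).mpr (Eventually.of_forall fun s hs => ?_)
          have := hs.1
          positivity
    _ = ENNReal.ofReal (D * (1 / c * (1 / t) ^ c)) := by
        congr 1
        rw [integral_const_mul, ← intervalIntegral.integral_of_le (by positivity),
          integral_rpow (Or.inl (by linarith))]
        rw [show c - 1 + 1 = c by ring, Real.zero_rpow hc.ne']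
        ring
    _ ≤ _ := le_refl _

/-- Proof. The kernel is at most `1 ≤ ...` where it is small; as for `SD.kernel_lint` (SDKern.lean,
exponent `+ 1/2`): layer cake and the volume estimate of the sets `|1 - ⟪x, y⟫| < s` (see the
proof of `SD.kernel_lint`), now with a general exponent `c > 0`. (`kernel_quarter` in TE/G5.lean is
the case `c = 1/4`.) -/
theorem pv_ker (μ : Measure E) [μ.IsAddHaarMeasure] {m : ℕ} (hm : 1 ≤ m)
    (hdim : Module.finrank ℂ E = m + 1) {c : ℝ} (hc : 0 < c) (hc1 : c ≤ 1 / 2) :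
    ∃ C : ℝ, 0 < C ∧ ∀ y ∈ ball (0 : E) 1,
      ∫⁻ x in ball (0 : E) 1, ENNReal.ofReal (‖1 - ⟪x, y⟫_ℂ‖ ^ (-((m : ℝ) + 2 + c))) ∂μ ≤
        ENNReal.ofReal (C * (1 - ‖y‖ ^ 2) ^ (-c)) := by
  have hB : 0 ≤ μ.real (ball (0 : E) 1) := measureReal_nonneg
  set p : ℝ := (m + 2 : ℝ) + c with hp
  have hp0 : 0 < p := by rw [hp]; positivity
  refine ⟨2 ^ p * (p * (4 ^ (m + 2) * μ.real (ball 0 1) * (1 / c * 2 ^ c))) + 1,
    by positivity, fun y hy => ?_⟩
  have hy1 := mem_ball_zero_iff.mp hy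
  have ha : 0 < 1 - ‖y‖ ^ 2 := by nlinarith [norm_nonneg y]
  set t : ℝ := (1 - ‖y‖ ^ 2) / 2 with ht
  have ht0 : 0 < t := by rw [ht]; positivity
  have hcF : Continuous fun x : E => 1 / (‖1 - ⟪x, y⟫_ℂ‖ + t) := by
    apply Continuous.div continuous_const (by fun_prop)
    intro w
    have : 0 < ‖1 - ⟪w, y⟫_ℂ‖ + t := by positivity
    exact this.ne'
  calc ∫⁻ x in ball (0 : E) 1, ENNReal.ofReal (‖1 - ⟪x, y⟫_ℂ‖ ^ (-((m : ℝ) + 2 + c))) ∂μ
      ≤ ∫⁻ x in ball (0 : E) 1, ENNReal.ofReal (2 ^ p) *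
          ENNReal.ofReal ((1 / (‖1 - ⟪x, y⟫_ℂ‖ + t)) ^ p) ∂μ := by
        refine setLIntegral_mono' measurableSet_ball fun x hx => ?_
        rw [mem_ball_zero_iff] at hx
        rw [← ENNReal.ofReal_mul (by positivity)]
        apply ENNReal.ofReal_le_ofReal
        have h1 : ‖⟪x, y⟫_ℂ‖ ≤ ‖y‖ := by
          calc ‖⟪x, y⟫_ℂ‖ ≤ ‖x‖ * ‖y‖ := norm_inner_le_norm x y
            _ ≤ 1 * ‖y‖ := by gcongr
            _ = ‖y‖ := one_mul _
        have h2 : 1 - ‖y‖ ≤ ‖1 - ⟪x, y⟫_ℂ‖ := by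
          have := norm_sub_norm_le (1 : ℂ) ⟪x, y⟫_ℂ
          rw [norm_one] at this
          linarith
        have h3 : t ≤ ‖1 - ⟪x, y⟫_ℂ‖ := by
          rw [ht]
          nlinarith [norm_nonneg y]
        have hD : 0 < ‖1 - ⟪x, y⟫_ℂ‖ := lt_of_lt_of_le ht0 h3
        rw [show (-((m : ℝ) + 2 + c)) = -p by rw [hp], Real.rpow_neg hD.le,
          ← Real.mul_rpow (by norm_num) (by positivity), ← Real.inv_rpow hD.le]
        apply Real.rpow_le_rpow (by positivity) _ hp0.le
        rw [mul_one_div, le_div_iff₀ (by positivity), inv_mul_eq_div, div_le_iff₀ hD]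
        linarith
    _ = ENNReal.ofReal (2 ^ p) * ∫⁻ x in ball (0 : E) 1,
          ENNReal.ofReal ((1 / (‖1 - ⟪x, y⟫_ℂ‖ + t)) ^ p) ∂μ := by
        rw [lintegral_const_mul _ (hcF.measurable.pow_const _).ennreal_ofReal]
    _ ≤ ENNReal.ofReal (2 ^ p) * ENNReal.ofReal (p * (4 ^ (m + 2) * μ.real (ball 0 1) *
        (1 / c * (1 / t) ^ c))) :=
        mul_le_mul_right (A2_lint μ m hm hdim hc hy1.le ht0) _
    _ ≤ _ := by
        rw [← ENNReal.ofReal_mul (by positivity)]
        apply ENNReal.ofReal_le_ofReal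
        have e1 : (1 / t) ^ c = 2 ^ c * (1 - ‖y‖ ^ 2) ^ (-c) := by
          rw [Real.rpow_neg ha.le, ← Real.inv_rpow ha.le,
            ← Real.mul_rpow (by norm_num) (by positivity)]
          congr 1
          rw [ht]
          field_simp
        have h0 : 0 ≤ (1 - ‖y‖ ^ 2) ^ (-c) := Real.rpow_nonneg ha.le _
        rw [e1]
        calc 2 ^ p * (p * (4 ^ (m + 2) * μ.real (ball 0 1) *
              (1 / c * (2 ^ c * (1 - ‖y‖ ^ 2) ^ (-c)))))
            = 2 ^ p * (p * (4 ^ (m + 2) * μ.real (ball 0 1) * (1 / c * 2 ^ c))) *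
              (1 - ‖y‖ ^ 2) ^ (-c) := by ring
          _ ≤ _ := by
            apply mul_le_mul_of_nonneg_right _ h0
            linarith

end Pool.Agent.MPca0fc2.PV
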