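import Mathlib
import Pool.Agent.Lib.MP_ca0fc2_an.Mg.G122
import Pool.Agent.Lib.MP_ca0fc2_an.Mg.G049

/-!
# Definitions of campaign PV (data which are calm off a complex line), MP_ca0fc2_an

`P` is an orthogonal projection of `E`, `ro P z = (1 - ‖z‖²) / (1 - ‖P z‖²)` (it is comparable with
`exp (- 2 dist (z, im P))`), `Th W` is the slowly varying profile of the sequence `W`.
-/

set_option autoImplicit false

open Metric Set MeasureTheory Filter Topology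
open scoped InnerProductSpace ENNReal ContDiff

namespace Pool.Agent.MPca0fc2.PV

open Pool.Agent.MPca0fc2.PT
open Pool.Agent.MPca0fc2.TS
open Pool.Agent.MPca0fc2.TE

variable {E : Type*} [NormedAddCommGroup E] [InnerProductSpace ℂ E]

/-- the bump -/
noncomputable def qq (x : ℝ) : ℝ := min (x ^ (1 / 32 : ℝ)) (x ^ (-(1 / 32) : ℝ))

/-- the profile of the sequence `W` -/
noncomputable def Th (W : ℕ → ℝ) (ρ : ℝ) : ℝ := ∑' i, W i * qq (2 ^ i * ρ)

/-- the ratio of the depths of `z` and `P z` -/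
noncomputable def ro (P : E →L[ℂ] E) (z : E) : ℝ := (1 - ‖z‖ ^ 2) / (1 - ‖P z‖ ^ 2)

/-- the measure with the density `(1 - |x|²)^(M - m - 2) G` on the ball (`M ≥ m + 2`) -/
noncomputable def nuG [MeasurableSpace E] (μ : Measure E) (m M : ℕ) (G : E → ℝ) : Measure E :=
  (μ.restrict (ball 0 1)).withDensity
    fun x => ENNReal.ofReal ((1 - ‖x‖ ^ 2) ^ M * G x / (1 - ‖x‖ ^ 2) ^ (m + 2))

/-- the complex line through `a` and `p` -/
def lin (a p : E) : Set E := {z | ∃ ζ : ℂ, z = a + ζ • (p - a)}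

/-- Bounded holomorphic functions on the ball, whose invariant gradient (to the power `κ`) is a
summable function of the hyperbolic distance to `S`. -/
def Calm (κ : ℝ) (S : Set E) (u : E → ℂ) : Prop :=
  DifferentiableOn ℂ u (ball 0 1) ∧ (∃ C : ℝ, ∀ z ∈ ball (0 : E) 1, ‖u z‖ ≤ C) ∧
    ∃ W : ℕ → ℝ, Summable W ∧ ∀ (k : ℕ) (z : E), z ∈ ball (0 : E) 1 →
      (∀ b ∈ S, ‖b‖ < 1 → 2 ^ k * HH b z ≤ 1) → IG2 u z ^ (κ / 2) ≤ W k

/-- the union of the complex lines through `p` and a point of `A` -/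
def linU (A : Set E) (p : E) : Set E := {z | ∃ a ∈ A, z ∈ lin a p}

open Pool.Agent.Lib.MP_ca0fc2_an in
/-- the character `X` lies over `p` -/
def Over (X : Char Unit E) (p : E) : Prop := ∀ w : E, X.φ (fun _ z => ⟪w, z⟫_ℂ) = ⟪w, p⟫_ℂ

open Pool.Agent.Lib.MP_ca0fc2_an in
/-- Characters over `p` see the cells of the functions which are calm off `S`. -/
structure GoodAt (p : E) (S : Set E) : Prop where
  /-- data with bounded solutions on a cell are not in the kernel -/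
  sol : ∀ X : Char Unit E, Over X p → ∀ (m : ℕ) (a : Fin m → E → ℂ), (∀ i, Calm 1 S (a i)) →
    ∀ s : ℝ, 0 < s → ∀ (N : ℕ) (f k : Fin N → E → ℂ) (B : ℝ),
    (∀ j, DifferentiableOn ℂ (f j) (ball 0 1)) → (∀ j, ∀ z ∈ ball (0 : E) 1, ‖f j z‖ ≤ B) →
    (∀ j, DifferentiableOn ℂ (k j) {z | z ∈ ball (0 : E) 1 ∧ ‖z - p‖ < s ∧
      ∀ i, ‖a i z - X.φ (fun _ => a i)‖ < s}) →
    (∀ z ∈ ball (0 : E) 1, ‖z - p‖ < s → (∀ i, ‖a i z - X.φ (fun _ => a i)‖ < s) →
      ∑ j, f j z * k j z = 1 ∧ ∀ j, ‖k j z‖ ≤ B) → ∃ j, X.φ (fun _ => f j) ≠ 0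
  /-- joint cluster values -/
  near : ∀ X : Char Unit E, Over X p → ∀ (m : ℕ) (a : Fin m → E → ℂ), (∀ i, Calm 1 S (a i)) →
    ∀ (N : ℕ) (v : Fin N → E → ℂ), (∀ j, Calm 2 S (v j)) → ∀ s : ℝ, 0 < s →
    ∃ z ∈ ball (0 : E) 1, ‖z - p‖ < s ∧ (∀ i, ‖a i z - X.φ (fun _ => a i)‖ < s) ∧
      ∀ j, ‖v j z - X.φ (fun _ => v j)‖ < s

end Pool.Agent.MPca0fc2.PV
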