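import Mathlib
import Pool.Agent.Lib.MP_ca0fc2_an.PV.Defs
import Pool.Agent.Lib.MP_ca0fc2_an.TE.B6
import Pool.Agent.Lib.MP_ca0fc2_an.TE.G6
import Pool.Agent.Lib.MP_ca0fc2_an.TE.L1
import Pool.Agent.Lib.MP_ca0fc2_an.TS.Gr

set_option autoImplicit false
set_option linter.unusedSectionVars false

open Metric Set MeasureTheory Filter Topology
open scoped InnerProductSpace ENNReal ContDiff

/-! # From smooth solutions to holomorphic solutions, for a general measure -/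

namespace Pool.Agent.MPca0fc2.PV

open Pool.Agent.MPca0fc2.PT
open Pool.Agent.MPca0fc2.QT
open Pool.Agent.MPca0fc2.TS
open Pool.Agent.MPca0fc2.TE

variable {E : Type*} [NormedAddCommGroup E] [InnerProductSpace ℂ E]
variable [FiniteDimensional ℂ E] [MeasurableSpace E] [BorelSpace E]

/-- chain rule for the conjugate linear derivative -/
theorem Q1_comp {Y : Type*} [NormedAddCommGroup Y] [NormedSpace ℂ Y] {h : E → Y}
    (L : E →L[ℂ] E) {z : E} (hh : DifferentiableAt ℝ h (L z)) (v : E) :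
    D01 (fun z => h (L z)) z v = D01 h (L z) (L v) := by
  have h1 : HasFDerivAt (fun z => h (L z)) ((fderiv ℝ h (L z)).comp (L.restrictScalars ℝ)) z :=
    hh.hasFDerivAt.comp z (L.restrictScalars ℝ).hasFDerivAt
  rw [D01_apply, D01_apply, h1.fderiv]
  simp only [ContinuousLinearMap.comp_apply, ContinuousLinearMap.coe_restrictScalars', map_smul]

theorem Q1_gau {d : ℝ} (hd : 0 < d) {r : ℝ} (hr : 0 ≤ r) (hr1 : r ≤ 1) (w v : E) :
    gau d ((r : ℂ) • w) ((r : ℂ) • v) ≤ gau d w v := by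
  unfold gau
  rw [inner_smul_left, inner_smul_right, Complex.conj_ofReal, norm_mul, norm_mul, norm_smul,
    Complex.norm_real, Real.norm_of_nonneg hr]
  have h1 : r * (r * ‖⟪w, v⟫_ℂ‖) ≤ ‖⟪w, v⟫_ℂ‖ := by
    have := norm_nonneg ⟪w, v⟫_ℂ
    nlinarith [mul_nonneg hr this]
  have h2 : r * ‖v‖ ≤ ‖v‖ := by nlinarith [norm_nonneg v]
  have hs : 0 < Real.sqrt d := Real.sqrt_pos.mpr hd
  gcongr

/-- The data of the descent at the level `k ≥ 1` from a smooth solution `ht` on the ball. -/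
theorem Q1_LD {N : ℕ} {f : Fin N → E → ℂ} {θ δ : ℝ} (hTD : TD f δ θ) {ν : Measure E} {M : ℕ}
    {P : E →L[ℂ] E} (hP : Prj P) {g : Fin N → E → ℂ}
    (hg : ∀ j, DifferentiableOn ℂ (fun z => g j (P z)) (ball 0 1)) {C₁ C₂ : ℝ} (hC₁ : 0 ≤ C₁)
    (hC₂ : 0 ≤ C₂) (hO : ∀ z ∈ ball (0 : E) 1, Om ν M z ≤ C₂) {ht : E → Fin N → ℂ}
    (hc2 : ContDiffOn ℝ 2 ht (ball 0 1))
    (hh : ∀ z ∈ ball (0 : E) 1, ∑ j, f j z * ht z j = 1 ∧ ‖ht z‖ ≤ C₁ ∧
      (∀ j, ht (P z) j = g j (P z)) ∧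
      ∀ v, ‖D01 ht z v‖ ≤ C₁ * Om ν M z * gau (1 - ‖z‖ ^ 2) z v) (k : ℕ) :
    ∃ σ : E → Fin N → ℂ, LD θ ν M k (C₁ + C₂ + N + 1) P σ (FF f θ k) ∧
      ∀ w ∈ ball (0 : E) 1, ∀ j, σ (P w) j = g j (P ((rt θ k : ℂ) • w)) := by
  have h0 := hTD.θ0
  have h1 := hTD.θ1
  have hN0 : (0 : ℝ) ≤ N := Nat.cast_nonneg N
  have hpow : 0 < θ ^ k := pow_pos h0 k
  have hpow1 : θ ^ k ≤ 1 := pow_le_one₀ h0.le h1.le
  have hball : ∀ w : E, ‖w‖ < RC θ k → (rt θ k : ℂ) • w ∈ ball (0 : E) 1 :=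
    fun w hw => rt_smul_mem h0 h1 (Nat.le_succ k) hw
  have hRC : (1 : ℝ) < RC θ k := by
    unfold RC
    have : 0 < θ ^ (k + 1) := pow_pos h0 _
    linarith
  have hPn : ∀ z : E, ‖P z‖ ≤ ‖z‖ := by
    intro z
    have h2 := pyth hP z
    have h3 : ‖P z‖ ^ 2 ≤ ‖z‖ ^ 2 := by
      have := sq_nonneg ‖z - P z‖
      linarith
    exact (sq_le_sq₀ (norm_nonneg _) (norm_nonneg _)).1 h3
  have hcd : ∀ z ∈ ball (0 : E) 1, ContDiffAt ℝ 2 ht z := fun z hz =>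
    hc2.contDiffAt (isOpen_ball.mem_nhds hz)
  have hdf : ∀ z ∈ ball (0 : E) 1, DifferentiableAt ℝ ht z := fun z hz =>
    (hcd z hz).differentiableAt (by norm_num)
  -- the dilation
  obtain ⟨R, hR⟩ : ∃ R : E →L[ℂ] E, ∀ w, R w = (rt θ k : ℂ) • w :=
    ⟨(rt θ k : ℂ) • ContinuousLinearMap.id ℂ E, fun w => rfl⟩
  obtain ⟨σ, hσ⟩ : ∃ σ : E → Fin N → ℂ, σ = fun w => ht (R w) := ⟨_, rfl⟩
  have hσ1 : ∀ w, σ w = ht ((rt θ k : ℂ) • w) := fun w => by rw [hσ, ← hR]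
  have hR1 : ∀ w : E, ‖w‖ < RC θ k → R w ∈ ball (0 : E) 1 := fun w hw => by
    rw [hR]
    exact hball w hw
  have hσc : ∀ w : E, ‖w‖ < RC θ k → ContDiffAt ℝ 2 σ w := by
    intro w hw
    rw [hσ]
    exact (hcd _ (hR1 w hw)).comp w (R.restrictScalars ℝ).contDiff.contDiffAt
  have hσD : ∀ w : E, ‖w‖ < RC θ k → ∀ v, D01 σ w v = D01 ht (R w) (R v) := by
    intro w hw v
    rw [hσ]
    exact Q1_comp R (hdf _ (hR1 w hw)) v
  have hone : ∀ w : E, ‖w‖ < RC θ k → FF f θ k w (σ w) = 1 := by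
    intro w hw
    have h2 : FF f θ k w (σ w) = ∑ j, uk (f j) θ k w * σ w j := by
      unfold FF
      rw [_root_.sum_apply]
      rfl
    rw [h2, hσ1]
    exact (hh _ (hball w hw)).1
  have hev : ∀ w : E, ‖w‖ < RC θ k → ∀ᶠ x in 𝓝 w, FF f θ k x (σ x) = 1 := by
    intro w hw
    have h2 : ∀ᶠ x in 𝓝 w, ‖x‖ < RC θ k :=
      (continuous_norm.continuousAt (x := w)).eventually_lt continuousAt_const hw
    filter_upwards [h2] with x hx
    exact hone x hx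
  have hPC : ∀ w : E, ‖w‖ < RC θ k → ‖P w‖ < RC θ k := fun w hw => (hPn w).trans_lt hw
  have hRP : ∀ w, R (P w) = P (R w) := fun w => by rw [hR, hR, map_smul]
  refine ⟨σ, ⟨hP, ?_, ?_, ?_, ?_, ?_, ?_, ?_⟩, ?_⟩
  · intro w hw
    refine ⟨hσc w hw, (FF_c2 hTD hw (Nat.le_succ k)).2, hone w hw, ?_⟩
    exact F_D01 (FF_c2 hTD hw (Nat.le_succ k)).2 ((hσc w hw).differentiableAt (by norm_num))
      (hev w hw)
  · intro w hw
    exact (FF_c2 hTD hw (Nat.le_succ k)).1.of_le (by norm_num)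
  · intro w hw
    rw [hσ1]
    have := (hh _ (hball w hw)).2.1
    linarith
  · intro w hw
    have := FF_le hTD hw (Nat.le_succ k)
    linarith
  · intro w hw
    rw [Wk_eq]
    have h2 : (rt θ k : ℂ) • w ∈ ball (0 : E) 1 := rt_smul_mem h0 h1 (Nat.le_succ k) hw
    have := hO _ h2
    linarith
  · intro w hw v
    rw [hσD w hw, Wk_eq, hR, hR]
    have h2 := (hh _ (hball w hw)).2.2.2 ((rt θ k : ℂ) • v)
    have h3 : (rt θ k : ℂ) • w ∈ ball (0 : E) 1 := rt_smul_mem h0 h1 (Nat.le_succ k) hw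
    have hr : 0 ≤ rt θ k := by
      unfold rt
      linarith
    have hr1 : rt θ k ≤ 1 := by
      unfold rt
      linarith
    have h4 : 1 - ‖(rt θ k : ℂ) • w‖ ^ 2 = dl θ k w := by
      rw [norm_smul, Complex.norm_real, Real.norm_of_nonneg hr]
      unfold dl
      ring
    rw [h4] at h2
    have hd : 0 < dl θ k w := by
      have := dl_ge h0 h1 (Nat.le_succ k) hw
      linarith
    have h5 := Q1_gau hd hr hr1 w v
    have h6 : 0 ≤ Om ν M ((rt θ k : ℂ) • w) :=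
      Om_nonneg (by rwa [mem_ball_zero_iff] at h3)
    have h7 : 0 ≤ gau (dl θ k w) w v := by
      unfold gau
      positivity
    refine h2.trans ?_
    have h8 : C₁ ≤ C₁ + C₂ + N + 1 := by linarith
    have h9 : 0 ≤ gau (dl θ k w) ((rt θ k : ℂ) • w) ((rt θ k : ℂ) • v) := by
      unfold gau
      positivity
    exact mul_le_mul (mul_le_mul_of_nonneg_right h8 h6) h5 h9 (by positivity)
  · intro w hw v
    rw [hσD (P w) (hPC w hw), hRP, hRP]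
    have hz := hR1 w hw
    have hPz : P (R w) ∈ ball (0 : E) 1 := by
      rw [mem_ball_zero_iff] at hz ⊢
      exact (hPn _).trans_lt hz
    rw [← Q1_comp P (hdf _ hPz)]
    have h2 : (fun z => ht (P z)) =ᶠ[𝓝 (R w)] fun z j => g j (P z) := by
      filter_upwards [isOpen_ball.mem_nhds hz] with z hz'
      funext j
      exact (hh z hz').2.2.1 j
    have h3 : DifferentiableAt ℂ (fun z => ht (P z)) (R w) := by
      refine DifferentiableAt.congr_of_eventuallyEq ?_ h2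
      rw [differentiableAt_pi]
      intro j
      exact (hg j).differentiableAt (isOpen_ball.mem_nhds hz)
    rw [D01_holo h3]
    rfl
  · intro w hw j
    rw [mem_ball_zero_iff] at hw
    rw [hσ1, ← hR, hRP, ← hR]
    exact (hh _ (hR1 w (hw.trans hRC))).2.2.1 j

/-- The general form of `smooth_hol`. -/
theorem Q1_gen (μ : Measure E) [μ.IsAddHaarMeasure] {m : ℕ} (hm : 1 ≤ m)
    (hdim : Module.finrank ℂ E = m + 1) {M : ℕ} {N : ℕ} {δ : ℝ} (hδ : 0 < δ)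
    {f : Fin N → E → ℂ} (hf : ∀ j, DifferentiableOn ℂ (f j) (ball 0 1))
    (hf1 : ∀ j, ∀ z ∈ ball (0 : E) 1, ‖f j z‖ ≤ 1)
    (hfδ : ∀ z ∈ ball (0 : E) 1, δ ≤ ∑ j, ‖f j z‖ ^ 2)
    {P : E →L[ℂ] E} (hP : Prj P) {g : Fin N → E → ℂ}
    (hg : ∀ j, DifferentiableOn ℂ (fun z => g j (P z)) (ball 0 1)) {ν : Measure E} (hν : OnB ν)
    {C₀ : ℝ} (hOm : ∀ y ∈ ball (0 : E) 1, Om ν M y ≤ C₀) {H : E → Fin N → ℂ}
    (hH : ContDiffOn ℝ 2 H (ball 0 1)) (hHC : ∀ z ∈ ball (0 : E) 1, ‖H z‖ ≤ C₀)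
    (hsol : ∀ z ∈ ball (0 : E) 1, ∑ j, f j z * H z j = 1)
    (hHg : ∀ z ∈ ball (0 : E) 1, ∀ j, H (P z) j = g j (P z))
    (hD : ∀ z ∈ ball (0 : E) 1, ∀ ξ : E,
      ‖D01 H z ξ‖ ≤ C₀ * Om ν M z * gau (1 - ‖z‖ ^ 2) z ξ) :
    ∃ (h : Fin N → E → ℂ) (C : ℝ), 0 < C ∧ (∀ j, DifferentiableOn ℂ (h j) (ball 0 1)) ∧
      ∀ z ∈ ball (0 : E) 1, ∑ j, f j z * h j z = 1 ∧ (∀ j, h j (P z) = g j (P z)) ∧
        ∀ j, ‖h j z‖ ≤ C * (1 + GI (Om ν M) P z) := by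
  have hN0 : (0 : ℝ) ≤ N := Nat.cast_nonneg N
  have hz0 : (0 : E) ∈ ball (0 : E) 1 := by simp
  have hC0 : 0 ≤ C₀ := (Om_nonneg (by simp)).trans (hOm 0 hz0)
  obtain ⟨θ, h0, h1, hTD⟩ := exists_theta (E := E) N hδ
  have hT : TD f δ θ := hTD f hf hf1 hfδ
  obtain ⟨C, hC, hlev⟩ := levelE μ hm hdim N h0 h1 (C₀ := C₀ + C₀ + N + 1) (by positivity) M
  have hW : ∀ k : ℕ, ∀ w ∈ ball (0 : E) 1, Wk ν M θ k w ≤ C₀ := by
    intro k w hw
    rw [Wk_eq]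
    refine hOm _ ?_
    rw [mem_ball_zero_iff] at hw ⊢
    rw [norm_smul, Complex.norm_real]
    have h2 : 0 ≤ rt θ k := sub_nonneg.2 (pow_le_one₀ h0.le h1.le)
    have h3 : rt θ k ≤ 1 := sub_le_self _ (pow_pos h0 _).le
    rw [Real.norm_of_nonneg h2]
    nlinarith [norm_nonneg w]
  obtain ⟨h, hh1, hh2⟩ : ∃ H : Fin N → E → ℂ, (∀ j, DifferentiableOn ℂ (H j) (ball 0 1)) ∧
      ∀ z ∈ ball (0 : E) 1, ∑ j, f j z * H j z = 1 ∧ (∀ j, H j (P z) = g j (P z)) ∧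
        ∀ j, ‖H j z‖ ≤ C * (1 + GI (Om ν M) P z) := by
    refine limitE (B := fun k z => C * (1 + GI (Wk ν M θ k) P z))
      (Φ := fun z => C * (1 + C₀ / (1 - ‖z‖ ^ 2))) h0 h1 hf hP hg ?_ ?_ ?_ ?_
    · refine continuousOn_const.mul (continuousOn_const.add (continuousOn_const.div
        (continuousOn_const.sub (continuous_norm.continuousOn.pow 2)) fun z hz => ?_))
      rw [mem_ball_zero_iff] at hz
      nlinarith [norm_nonneg z]
    · intro K z hz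
      refine mul_le_mul_of_nonneg_left ?_ hC.le
      have := GI_loc hP hC0 (Wk_cont hν M h0 h1 K) (hW K) (mem_ball_zero_iff.1 hz)
      linarith
    · intro z hz
      exact ((GI_lim hP hν M h0 h1 (mem_ball_zero_iff.1 hz)).const_add 1).const_mul C
    · intro k hk
      obtain ⟨σ, hσ, hσg⟩ := Q1_LD hT (ν := ν) (M := M) hP hg hC0 hC0 hOm hH
        (fun z hz => ⟨hsol z hz, hHC z hz, hHg z hz, hD z hz⟩) k
      obtain ⟨H', H1, H2⟩ := hlev _ hν k hk P σ (FF f θ k) hσ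
      refine ⟨H', H1, fun z hz => ⟨?_, fun j => ?_, (H2 z hz).2.2⟩⟩
      · have h2 := (H2 z hz).1
        rw [← h2]
        unfold FF
        simp only [ContinuousLinearMap.sum_apply, ContinuousLinearMap.smul_apply, smul_eq_mul,
          ContinuousLinearMap.proj_apply]
      · rw [(H2 z hz).2.1 j, hσg z hz j]
  exact ⟨h, C, hC, hh1, hh2⟩

/-- A smooth bounded solution `H` which is holomorphic on the slice and whose `∂̄` is controlled by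
the weight gives a holomorphic solution controlled by the integral of the weight.
Proof. Pattern: `TE.LD_exists` (TE/B7.lean) with `H` (defined on the whole ball) instead of the
output `ht` of `transport`, and `TE.extend_N` (TE/Main.lean). `exists_theta N hδ` gives `θ` with
`TD f δ θ`. For `k ≥ 1`: `σ w := H (rt θ k • w)` (`‖rt θ k • w‖ < 1` for `‖w‖ < RC θ k`),
`F := FF f θ k`; `LD θ ν M k C₀' P σ F` with `C₀' = max C₀ ..`: `sol` from `hH`, `FF_c2`, `hsol`;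
`ds` from `hD`, `Wk_eq` and `gau (1 - ‖r w‖²) (r w) (r v) ≤ gau (dl θ k w) w v`; `zer`:
`H ∘ P = g ∘ P` is holomorphic on the ball, so `0 = D01 (H ∘ P) z v = D01 H (P z) (P v)`. Then
`levelE`, `limitE` with `B K z = C (1 + GI (Wk ν M θ K) P z)`, `Φ z = C (1 + C₀/(1 - ‖z‖²))`
(`GI_loc`, `Wk_cont`), `GI_lim`. -/
theorem smooth_hol (μ : Measure E) [μ.IsAddHaarMeasure] {m : ℕ} (hm : 1 ≤ m)
    (hdim : Module.finrank ℂ E = m + 1) {M : ℕ} {N : ℕ} {δ : ℝ} (hδ : 0 < δ)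
    {f : Fin N → E → ℂ} (hf : ∀ j, DifferentiableOn ℂ (f j) (ball 0 1))
    (hfδ : ∀ z ∈ ball (0 : E) 1, δ ≤ ∑ j, ‖f j z‖ ^ 2 ∧ ∑ j, ‖f j z‖ ^ 2 ≤ 1)
    {P : E →L[ℂ] E} (hP : Prj P) {g : Fin N → E → ℂ}
    (hg : ∀ j, DifferentiableOn ℂ (fun z => g j (P z)) (ball 0 1)) {ν : Measure E} (hν : OnB ν)
    {C₀ : ℝ} (hOm : ∀ y ∈ ball (0 : E) 1, Om ν M y ≤ C₀) {H : E → Fin N → ℂ}
    (hH : ContDiffOn ℝ 2 H (ball 0 1)) (hHC : ∀ z ∈ ball (0 : E) 1, ‖H z‖ ≤ C₀)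
    (hsol : ∀ z ∈ ball (0 : E) 1, ∑ j, f j z * H z j = 1)
    (hHg : ∀ z ∈ ball (0 : E) 1, ∀ j, H (P z) j = g j (P z))
    (hD : ∀ z ∈ ball (0 : E) 1, ∀ ξ : E,
      ‖D01 H z ξ‖ ≤ C₀ * Om ν M z * gau (1 - ‖z‖ ^ 2) z ξ) :
    ∃ (h : Fin N → E → ℂ) (C : ℝ), 0 < C ∧ (∀ j, DifferentiableOn ℂ (h j) (ball 0 1)) ∧
      ∀ z ∈ ball (0 : E) 1, ∑ j, f j z * h j z = 1 ∧ (∀ j, h j (P z) = g j (P z)) ∧
        ∀ j, ‖h j z‖ ≤ C * (1 + GI (Om ν M) P z) := by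
  refine Q1_gen μ hm hdim hδ hf ?_ (fun z hz => (hfδ z hz).1) hP hg hν hOm hH hHC hsol hHg hD
  intro j z hz
  have h2 := (hfδ z hz).2
  have h3 : ‖f j z‖ ^ 2 ≤ ∑ j, ‖f j z‖ ^ 2 :=
    Finset.single_le_sum (f := fun j => ‖f j z‖ ^ 2) (fun _ _ => sq_nonneg _)
      (Finset.mem_univ j)
  nlinarith [norm_nonneg (f j z)]

end Pool.Agent.MPca0fc2.PV
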