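import Mathlib
import Pool.Agent.Lib.MP_ca0fc2_an.PV.Q1
import Pool.Agent.Lib.MP_ca0fc2_an.TS.Sharp
import Pool.Agent.Lib.MP_ca0fc2_an.Mg.G023

set_option autoImplicit false
set_option linter.unusedSectionVars false

open Metric Set MeasureTheory Filter Topology
open scoped InnerProductSpace ENNReal ContDiff

/-! # The core lemma -/

namespace Pool.Agent.MPca0fc2.PV

open Pool.Agent.MPca0fc2.PT
open Pool.Agent.MPca0fc2.QT
open Pool.Agent.MPca0fc2.TS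
open Pool.Agent.MPca0fc2.TE

variable {E : Type*} [NormedAddCommGroup E] [InnerProductSpace ℂ E]
variable [FiniteDimensional ℂ E] [MeasurableSpace E] [BorelSpace E]

/-- the derivative of `u + q • R`, `u` and `q` holomorphic -/
private theorem Q2_D01 {N : ℕ} {u R : E → Fin N → ℂ} {q : E → ℂ} {z : E}
    (hu : DifferentiableAt ℂ u z) (hq : DifferentiableAt ℂ q z) (hR : DifferentiableAt ℝ R z)
    (v : E) : D01 (fun z => u z + q z • R z) z v = q z • D01 R z v := by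
  have hu' : DifferentiableAt ℝ u z := hu.restrictScalars ℝ
  have hq' : DifferentiableAt ℝ q z := hq.restrictScalars ℝ
  have h1 : D01 (fun z => u z + q z • R z) z v = D01 u z v + D01 (fun z => q z • R z) z v := by
    have h2 : DifferentiableAt ℝ (fun z => q z • R z) z := hq'.smul hR
    have h3 : fderiv ℝ (fun z => u z + q z • R z) z =
        fderiv ℝ u z + fderiv ℝ (fun z => q z • R z) z := fderiv_fun_add hu' h2
    rw [D01_apply, D01_apply, D01_apply, h3, add_apply, add_apply, ← smul_add]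
    congr 1
    rw [smul_add]
    abel
  rw [h1, D01_smul hq' hR, D01_holo hu, D01_holo hq]
  simp

/-- THE CORE LEMMA (helper11's form of the gluing). Proof. Scale: `F j = f j / λ`,
`λ = √N |B| + 1`, `R' = λ R`, `g' = λ g`; `∑ ‖F j‖² ≤ 1`, and `1 = ‖∑ F j R' j‖` with
`‖R'‖ ≤ λ C₀` gives `δ ≤ ∑ ‖F j‖²` (Cauchy-Schwarz). Let
`H z j = g' j (P z) + (1 - ∑ i, F i z * g' i (P z)) * R' z j`. Then `∑ F j z * H z j = 1`, `H` is
bounded and `C²`, `H (P z) j = g' j (P z)` (the bracket vanishes at `P z`; `hP.idem`), and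
`D01 H z ξ = (1 - ∑ F i z g' i (P z)) • D01 R' z ξ` because the bracket and `g' j ∘ P` are
holomorphic (`D01_holo`, product rule; see TS/Sharp, QTDefs). `smooth_hol`, and divide the solution
by `λ`. -/
theorem core (μ : Measure E) [μ.IsAddHaarMeasure] {m : ℕ} (hm : 1 ≤ m)
    (hdim : Module.finrank ℂ E = m + 1) {M : ℕ} {N : ℕ} {f : Fin N → E → ℂ}
    (hf : ∀ j, DifferentiableOn ℂ (f j) (ball 0 1)) {B : ℝ}
    (hfB : ∀ j, ∀ z ∈ ball (0 : E) 1, ‖f j z‖ ≤ B) {P : E →L[ℂ] E} (hP : Prj P)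
    {g : Fin N → E → ℂ} {A : ℝ} (hg : ∀ j, DifferentiableOn ℂ (fun z => g j (P z)) (ball 0 1))
    (hgf : ∀ z ∈ ball (0 : E) 1, ∑ j, f j (P z) * g j (P z) = 1 ∧ ∀ j, ‖g j (P z)‖ ≤ A)
    {ν : Measure E} (hν : OnB ν) {C₀ : ℝ} (hOm : ∀ y ∈ ball (0 : E) 1, Om ν M y ≤ C₀)
    (hGI : ∀ z ∈ ball (0 : E) 1, GI (Om ν M) P z ≤ C₀) {R : E → Fin N → ℂ}
    (hR : ContDiffOn ℝ 2 R (ball 0 1)) (hRC : ∀ z ∈ ball (0 : E) 1, ‖R z‖ ≤ C₀)
    (hRs : ∀ z ∈ ball (0 : E) 1, ∑ j, f j z * R z j = 1)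
    (hRD : ∀ z ∈ ball (0 : E) 1, ∀ ξ : E,
      ‖D01 R z ξ‖ ≤ C₀ * Om ν M z * gau (1 - ‖z‖ ^ 2) z ξ) :
    ∃ (h : Fin N → E → ℂ) (C : ℝ), (∀ j, DifferentiableOn ℂ (h j) (ball 0 1)) ∧
      ∀ z ∈ ball (0 : E) 1, ∑ j, f j z * h j z = 1 ∧ (∀ j, h j (P z) = g j (P z)) ∧
        ∀ j, ‖h j z‖ ≤ C := by
  have hN0 : (0 : ℝ) ≤ N := Nat.cast_nonneg N
  have hz0 : (0 : E) ∈ ball (0 : E) 1 := by simp
  have hC0 : 0 ≤ C₀ := (norm_nonneg _).trans (hRC 0 hz0)
  obtain ⟨L, hL⟩ : ∃ L : ℝ, L = |B| + 1 := ⟨_, rfl⟩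
  have hL1 : 1 ≤ L := by rw [hL]; linarith [abs_nonneg B]
  have hL0 : 0 < L := by linarith
  have hLC : (L : ℂ) ≠ 0 := by exact_mod_cast hL0.ne'
  have hPn : ∀ z : E, ‖P z‖ ≤ ‖z‖ := by
    intro z
    have h2 := pyth hP z
    have h3 : ‖P z‖ ^ 2 ≤ ‖z‖ ^ 2 := by
      have := sq_nonneg ‖z - P z‖
      linarith
    exact (sq_le_sq₀ (norm_nonneg _) (norm_nonneg _)).1 h3
  have hPb : ∀ z ∈ ball (0 : E) 1, P z ∈ ball (0 : E) 1 := fun z hz => by
    rw [mem_ball_zero_iff] at hz ⊢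
    exact (hPn z).trans_lt hz
  obtain ⟨δ, hδe⟩ : ∃ δ : ℝ, δ = 1 / ((L * C₀ + 1) ^ 2 * (N + 1)) := ⟨_, rfl⟩
  have hδ : 0 < δ := by rw [hδe]; positivity
  -- the scaled data
  obtain ⟨F, hF⟩ : ∃ F : Fin N → E → ℂ, F = fun j z => (L : ℂ)⁻¹ * f j z := ⟨_, rfl⟩
  have hFd : ∀ j, DifferentiableOn ℂ (F j) (ball 0 1) := fun j => by
    rw [hF]; exact (hf j).const_mul _
  have hF1 : ∀ j, ∀ z ∈ ball (0 : E) 1, ‖F j z‖ ≤ 1 := by
    intro j z hz
    rw [hF]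
    simp only [norm_mul, norm_inv, Complex.norm_real, Real.norm_of_nonneg hL0.le]
    rw [inv_mul_le_iff₀ hL0, mul_one]
    have := hfB j z hz
    have := le_abs_self B
    rw [hL]; linarith
  have hlow : ∀ z ∈ ball (0 : E) 1, δ ≤ ∑ j, ‖F j z‖ ^ 2 := by
    intro z hz
    have h3 : (1 : ℝ) ≤ (∑ j, ‖F j z‖) * (L * C₀ + 1) := by
      have h4 : ‖∑ j, f j z * R z j‖ ≤ ∑ j, ‖F j z‖ * (L * C₀ + 1) := by
        refine (norm_sum_le _ _).trans (Finset.sum_le_sum fun j _ => ?_)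
        have h5 : f j z * R z j = F j z * ((L : ℂ) * R z j) := by
          rw [hF]
          field_simp
        rw [h5, norm_mul]
        refine mul_le_mul_of_nonneg_left ?_ (norm_nonneg _)
        rw [norm_mul, Complex.norm_real, Real.norm_of_nonneg hL0.le]
        have h6 := (norm_le_pi_norm (R z) j).trans (hRC z hz)
        nlinarith
      rw [hRs z hz, norm_one, ← Finset.sum_mul] at h4
      exact h4
    have h5 : (∑ j, ‖F j z‖) ^ 2 ≤ N * ∑ j, ‖F j z‖ ^ 2 := by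
      have := sq_sum_le_card_mul_sum_sq (s := (Finset.univ : Finset (Fin N)))
        (f := fun j => ‖F j z‖)
      simpa using this
    have h6 : 0 ≤ ∑ j, ‖F j z‖ ^ 2 := Finset.sum_nonneg fun _ _ => sq_nonneg _
    have h7 : (1 : ℝ) ≤ (∑ j, ‖F j z‖) ^ 2 * (L * C₀ + 1) ^ 2 := by
      rw [← mul_pow]
      exact one_le_pow₀ h3
    rw [hδe, div_le_iff₀ (by positivity)]
    have h8 : (∑ j, ‖F j z‖) ^ 2 * (L * C₀ + 1) ^ 2 ≤
        (N * ∑ j, ‖F j z‖ ^ 2) * (L * C₀ + 1) ^ 2 := mul_le_mul_of_nonneg_right h5 (sq_nonneg _)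
    have h9 : 0 ≤ (∑ j, ‖F j z‖ ^ 2) * (L * C₀ + 1) ^ 2 := mul_nonneg h6 (sq_nonneg _)
    nlinarith
  obtain ⟨G, hG⟩ : ∃ G : Fin N → E → ℂ, G = fun j z => (L : ℂ) * g j z := ⟨_, rfl⟩
  have hGd : ∀ j, DifferentiableOn ℂ (fun z => G j (P z)) (ball 0 1) := fun j => by
    rw [hG]; exact (hg j).const_mul _
  -- the glued solution
  obtain ⟨q, hq⟩ : ∃ q : E → ℂ, q = fun z => (L : ℂ) * (1 - ∑ j, f j z * g j (P z)) := ⟨_, rfl⟩
  obtain ⟨u, hu⟩ : ∃ u : E → Fin N → ℂ, u = fun z j => G j (P z) := ⟨_, rfl⟩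
  obtain ⟨H, hH⟩ : ∃ H : E → Fin N → ℂ, H = fun z => u z + q z • R z := ⟨_, rfl⟩
  have hqd : DifferentiableOn ℂ q (ball 0 1) := by
    rw [hq]
    refine DifferentiableOn.const_mul ?_ _
    exact (differentiableOn_const _).sub (DifferentiableOn.fun_sum fun j _ => (hf j).mul (hg j))
  have hud : DifferentiableOn ℂ u (ball 0 1) := by
    rw [hu]
    exact differentiableOn_pi.2 hGd
  have hA0 : ∀ z ∈ ball (0 : E) 1, ∀ j, ‖g j (P z)‖ ≤ |A| := fun z hz j =>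
    ((hgf z hz).2 j).trans (le_abs_self A)
  have hB0 : ∀ z ∈ ball (0 : E) 1, ∀ j, ‖f j z‖ ≤ |B| := fun z hz j =>
    (hfB j z hz).trans (le_abs_self B)
  obtain ⟨Q, hQ⟩ : ∃ Q : ℝ, Q = L * (1 + N * (|B| * |A|)) := ⟨_, rfl⟩
  have hQ0 : 0 ≤ Q := by rw [hQ]; positivity
  have hqn : ∀ z ∈ ball (0 : E) 1, ‖q z‖ ≤ Q := by
    intro z hz
    rw [hq, hQ]
    simp only [norm_mul, Complex.norm_real, Real.norm_of_nonneg hL0.le]
    refine mul_le_mul_of_nonneg_left ?_ hL0.le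
    refine (norm_sub_le _ _).trans (add_le_add (by simp) ?_)
    refine (norm_sum_le _ _).trans ?_
    have h3 : ∀ j ∈ (Finset.univ : Finset (Fin N)), ‖f j z * g j (P z)‖ ≤ |B| * |A| := fun j _ => by
      rw [norm_mul]
      exact mul_le_mul (hB0 z hz j) (hA0 z hz j) (norm_nonneg _) (abs_nonneg _)
    refine (Finset.sum_le_sum h3).trans ?_
    simp
  have hun : ∀ z ∈ ball (0 : E) 1, ‖u z‖ ≤ L * |A| := by
    intro z hz
    rw [hu]
    refine (pi_norm_le_iff_of_nonneg (by positivity)).2 fun j => ?_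
    rw [hG]
    simp only [norm_mul, Complex.norm_real, Real.norm_of_nonneg hL0.le]
    exact mul_le_mul_of_nonneg_left (hA0 z hz j) hL0.le
  have hRd : ∀ z ∈ ball (0 : E) 1, DifferentiableAt ℝ R z := fun z hz =>
    (hR.contDiffAt (isOpen_ball.mem_nhds hz)).differentiableAt (by norm_num)
  have hq2 : ContDiffOn ℝ 2 q (ball 0 1) := (QTXc_hol isOpen_ball hqd).restrict_scalars ℝ
  have hu2 : ContDiffOn ℝ 2 u (ball 0 1) := by
    rw [hu]
    refine contDiffOn_pi.2 fun j => ?_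
    exact (QTXc_hol isOpen_ball (hGd j)).restrict_scalars ℝ
  obtain ⟨C₁, hC₁⟩ : ∃ C₁ : ℝ, C₁ = C₀ + L * |A| + Q * C₀ := ⟨_, rfl⟩
  have hLA : 0 ≤ L * |A| := by positivity
  have hQC : 0 ≤ Q * C₀ := by positivity
  obtain ⟨h, C, hC, hh1, hh2⟩ := Q1_gen μ hm hdim hδ hFd hF1 hlow hP hGd hν (C₀ := C₁)
    (fun y hy => (hOm y hy).trans (by rw [hC₁]; linarith)) (H := H)
    (by rw [hH]; exact hu2.add (hq2.smul hR))
    (fun z hz => by
      rw [hH]
      refine (norm_add_le _ _).trans ?_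
      rw [norm_smul]
      have h3 : ‖q z‖ * ‖R z‖ ≤ Q * C₀ :=
        mul_le_mul (hqn z hz) (hRC z hz) (norm_nonneg _) hQ0
      have h4 := hun z hz
      rw [hC₁]
      linarith)
    (fun z hz => by
      have h3 : ∀ j, F j z * H z j = f j z * g j (P z) +
          (1 - ∑ i, f i z * g i (P z)) * (f j z * R z j) := by
        intro j
        rw [hH, hF, hu, hG, hq]
        simp only [Pi.add_apply, Pi.smul_apply, smul_eq_mul]
        field_simp
      rw [Finset.sum_congr rfl fun j _ => h3 j, Finset.sum_add_distrib, ← Finset.mul_sum, hRs z hz]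
      ring)
    (fun z hz j => by
      have h3 : q (P z) = 0 := by
        rw [hq]
        simp only [hP.idem]
        rw [(hgf z hz).1, sub_self, mul_zero]
      rw [hH]
      simp only [Pi.add_apply, h3, zero_smul, Pi.zero_apply, add_zero]
      rw [hu]
      simp only [hP.idem])
    (fun z hz ξ => by
      rw [hH, Q2_D01 (hud.differentiableAt (isOpen_ball.mem_nhds hz))
        (hqd.differentiableAt (isOpen_ball.mem_nhds hz)) (hRd z hz), norm_smul]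
      have h3 := hRD z hz ξ
      have h4 := hqn z hz
      have h5 : 0 ≤ Om ν M z := Om_nonneg (mem_ball_zero_iff.1 hz)
      have h6 : 0 < 1 - ‖z‖ ^ 2 := by
        have := mem_ball_zero_iff.1 hz
        nlinarith [norm_nonneg z]
      have h7 : 0 ≤ gau (1 - ‖z‖ ^ 2) z ξ := by
        unfold gau
        positivity
      calc ‖q z‖ * ‖D01 R z ξ‖ ≤ Q * (C₀ * Om ν M z * gau (1 - ‖z‖ ^ 2) z ξ) :=
            mul_le_mul h4 h3 (norm_nonneg _) hQ0
        _ = (Q * C₀) * (Om ν M z * gau (1 - ‖z‖ ^ 2) z ξ) := by ring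
        _ ≤ C₁ * (Om ν M z * gau (1 - ‖z‖ ^ 2) z ξ) := by
            refine mul_le_mul_of_nonneg_right ?_ (mul_nonneg h5 h7)
            rw [hC₁]
            linarith
        _ = C₁ * Om ν M z * gau (1 - ‖z‖ ^ 2) z ξ := by ring)
  refine ⟨fun j z => (L : ℂ)⁻¹ * h j z, C * (1 + C₀), fun j => (hh1 j).const_mul _,
    fun z hz => ⟨?_, fun j => ?_, fun j => ?_⟩⟩
  · have h3 := (hh2 z hz).1
    rw [← h3]
    refine Finset.sum_congr rfl fun j _ => ?_
    rw [hF]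
    ring
  · simp only
    rw [(hh2 z hz).2.1 j, hG]
    field_simp
  · simp only [norm_mul, norm_inv, Complex.norm_real, Real.norm_of_nonneg hL0.le]
    have h3 := (hh2 z hz).2.2 j
    have h4 := hGI z hz
    have h5 : L⁻¹ ≤ 1 := inv_le_one_of_one_le₀ hL1
    have h6 : L⁻¹ * ‖h j z‖ ≤ 1 * ‖h j z‖ := mul_le_mul_of_nonneg_right h5 (norm_nonneg _)
    have h7 : C * (1 + GI (Om ν M) P z) ≤ C * (1 + C₀) :=
      mul_le_mul_of_nonneg_left (by linarith) hC.le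
    linarith

end Pool.Agent.MPca0fc2.PV
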