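import Mathlib
import Pool.Agent.Lib.MP_ca0fc2_an.PV.Defs
import Pool.Agent.Lib.MP_ca0fc2_an.TE.G1
import Pool.Agent.Lib.MP_ca0fc2_an.Mg.G008
import Pool.Agent.Lib.MP_ca0fc2_an.PTGrad
import Pool.Agent.Lib.MP_ca0fc2_an.CGInv

set_option autoImplicit false
set_option linter.unusedSectionVars false

open Metric Set MeasureTheory Filter Topology
open scoped InnerProductSpace ENNReal ContDiff

/-! # The ratio of the depths -/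

namespace Pool.Agent.MPca0fc2.PV

open Pool.Agent.MPca0fc2.PT
open Pool.Agent.MPca0fc2.TS
open Pool.Agent.MPca0fc2.TE

variable {E : Type*} [NormedAddCommGroup E] [InnerProductSpace ℂ E]

private theorem A1_dpos {x : E} (hx : ‖x‖ < 1) : 0 < 1 - ‖x‖ ^ 2 := by
  nlinarith [norm_nonneg x]

private theorem A1_ds {P : E →L[ℂ] E} (h : Prj P) (x : E) :
    1 - ‖x‖ ^ 2 ≤ 1 - ‖P x‖ ^ 2 := by
  have := pyth h x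
  nlinarith [sq_nonneg ‖x - P x‖]

private theorem A1_spos {P : E →L[ℂ] E} (h : Prj P) {x : E} (hx : ‖x‖ < 1) :
    0 < 1 - ‖P x‖ ^ 2 :=
  lt_of_lt_of_le (A1_dpos hx) (A1_ds h x)

private theorem A1_low (a b : E) : 1 - ‖a‖ * ‖b‖ ≤ ‖1 - ⟪a, b⟫_ℂ‖ := by
  have h1 := norm_sub_norm_le (1 : ℂ) ⟪a, b⟫_ℂ
  have h2 := norm_inner_le_norm (𝕜 := ℂ) a b
  rw [norm_one] at h1
  linarith

private theorem A1_split {P : E →L[ℂ] E} (h : Prj P) (x y : E) :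
    ⟪x, y⟫_ℂ = ⟪P x, P y⟫_ℂ + ⟪x - P x, y - P y⟫_ℂ := by
  have h1 : ⟪P x, y⟫_ℂ = ⟪P x, P y⟫_ℂ := by rw [← h.sa (P x) y, h.idem]
  have h2 : ⟪x, P y⟫_ℂ = ⟪P x, P y⟫_ℂ := by rw [h.sa x (P y), h.idem]
  rw [inner_sub_left, inner_sub_right, inner_sub_right, h1, h2]
  ring

theorem ro_pos {P : E →L[ℂ] E} (h : Prj P) {x : E} (hx : ‖x‖ < 1) : 0 < ro P x ∧ ro P x ≤ 1 := by
  unfold ro
  refine ⟨div_pos (A1_dpos hx) (A1_spos h hx), ?_⟩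
  rw [div_le_one (A1_spos h hx)]
  exact A1_ds h x

/-- Proof. Let `s x = 1 - ‖P x‖²`, `d x = 1 - ‖x‖² ≤ s x`, `D = ‖1 - ⟪x, y⟫‖`; `d x ≤ 2 D`. If
`s y ≤ 16 s x`, then `d x / s x ≤ 16 d x / s y ≤ 32 D / s y`. Otherwise
`⟪x, y⟫ = ⟪P x, P y⟫ + ⟪x - P x, y - P y⟫`, `‖1 - ⟪P x, P y⟫‖ ≥ (s x + s y) / 2`,
`‖x - P x‖² = ‖x‖² - ‖P x‖² ≤ s x`, the same for `y`, `√(s x s y) ≤ s y / 4`, so `D ≥ s y / 4` and
`d x / s x ≤ 1 ≤ 4 D / s y`. -/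
theorem pv_s {P : E →L[ℂ] E} (h : Prj P) {x y : E} (hx : ‖x‖ < 1) (hy : ‖y‖ < 1) :
    ro P x ≤ 32 * (‖1 - ⟪x, y⟫_ℂ‖ / (1 - ‖P y‖ ^ 2)) := by
  have hdx := A1_dpos hx
  have hsx := A1_spos h hx
  have hsy := A1_spos h hy
  have hds := A1_ds h x
  have hD0 := A1_low x y
  have hdD : 1 - ‖x‖ ^ 2 ≤ 2 * ‖1 - ⟪x, y⟫_ℂ‖ := by
    have h1 : ‖x‖ * ‖y‖ ≤ ‖x‖ := by nlinarith [norm_nonneg x, norm_nonneg y]
    nlinarith [norm_nonneg x]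
  rw [← mul_div_assoc, le_div_iff₀ hsy]
  by_cases hc : 1 - ‖P y‖ ^ 2 ≤ 16 * (1 - ‖P x‖ ^ 2)
  · have h1 : ro P x * (1 - ‖P y‖ ^ 2) ≤ ro P x * (16 * (1 - ‖P x‖ ^ 2)) :=
      mul_le_mul_of_nonneg_left hc (ro_pos h hx).1.le
    have h2 : ro P x * (16 * (1 - ‖P x‖ ^ 2)) = 16 * (1 - ‖x‖ ^ 2) := by
      unfold ro
      field_simp
    linarith
  · push Not at hc
    have hx2 : ‖x - P x‖ ^ 2 ≤ 1 - ‖P x‖ ^ 2 := by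
      have := pyth h x
      nlinarith
    have hy2 : ‖y - P y‖ ^ 2 ≤ 1 - ‖P y‖ ^ 2 := by
      have := pyth h y
      have := A1_dpos hy
      nlinarith
    have hab : ‖x - P x‖ * ‖y - P y‖ ≤ (1 - ‖P y‖ ^ 2) / 4 := by
      refine abs_le_of_sq_le_sq' ?_ (by linarith) |>.2
      have h3 : (‖x - P x‖ * ‖y - P y‖) ^ 2 ≤ (1 - ‖P x‖ ^ 2) * (1 - ‖P y‖ ^ 2) := by
        rw [mul_pow]
        exact mul_le_mul hx2 hy2 (sq_nonneg _) hsx.le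
      nlinarith
    have h4 := A1_low (P x) (P y)
    have h5 : ‖P x‖ * ‖P y‖ ≤ (‖P x‖ ^ 2 + ‖P y‖ ^ 2) / 2 := by
      nlinarith [sq_nonneg (‖P x‖ - ‖P y‖)]
    have h6 : ‖1 - ⟪P x, P y⟫_ℂ‖ ≤ ‖1 - ⟪x, y⟫_ℂ‖ + ‖x - P x‖ * ‖y - P y‖ := by
      have h7 : (1 : ℂ) - ⟪P x, P y⟫_ℂ = (1 - ⟪x, y⟫_ℂ) + ⟪x - P x, y - P y⟫_ℂ := by
        rw [A1_split h x y]
        ring
      rw [h7]
      exact (norm_add_le _ _).trans (add_le_add le_rfl (norm_inner_le_norm _ _))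
    have h8 := (ro_pos h hx).2
    have h9 : ro P x * (1 - ‖P y‖ ^ 2) ≤ 1 * (1 - ‖P y‖ ^ 2) :=
      mul_le_mul_of_nonneg_right h8 hsy.le
    linarith [norm_nonneg (1 - ⟪x, y⟫_ℂ)]

/-- `pv_s` for `(x, y)` and for `(y, x)`, divided by `ro P y`, `ro P x`. -/
theorem ro_cmp {P : E →L[ℂ] E} (h : Prj P) {x y : E} (hx : ‖x‖ < 1) (hy : ‖y‖ < 1) :
    ro P x / ro P y ≤ 32 * (‖1 - ⟪x, y⟫_ℂ‖ / (1 - ‖y‖ ^ 2)) ∧
      ro P y / ro P x ≤ 32 * (‖1 - ⟪x, y⟫_ℂ‖ / (1 - ‖x‖ ^ 2)) := by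
  have hsym : ‖1 - ⟪y, x⟫_ℂ‖ = ‖1 - ⟪x, y⟫_ℂ‖ := by
    rw [← inner_conj_symm x y, ← Complex.norm_conj]
    simp
  have key : ∀ {a b : E}, ‖a‖ < 1 → ‖b‖ < 1 →
      ro P a / ro P b ≤ 32 * (‖1 - ⟪a, b⟫_ℂ‖ / (1 - ‖b‖ ^ 2)) := by
    intro a b ha hb
    have h1 := pv_s h ha hb
    have h2 := (ro_pos h hb).1
    have hdb := A1_dpos hb
    have hsb := A1_spos h hb
    rw [div_le_iff₀ h2]
    refine h1.trans (le_of_eq ?_)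
    unfold ro
    field_simp
  refine ⟨key hx hy, ?_⟩
  rw [← hsym]
  exact key hy hx

end Pool.Agent.MPca0fc2.PV
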