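import Mathlib
import Pool.Agent.Lib.MP_ca0fc2_an.PV.Defs

set_option autoImplicit false
set_option linter.unusedSectionVars false

open Metric Set MeasureTheory Filter Topology
open scoped InnerProductSpace ENNReal ContDiff

/-! # The profile -/

namespace Pool.Agent.MPca0fc2.PV

theorem qq_pos {x : ℝ} (hx : 0 < x) : 0 < qq x ∧ qq x ≤ 1 := by
  unfold qq
  refine ⟨lt_min (Real.rpow_pos_of_pos hx _) (Real.rpow_pos_of_pos hx _), ?_⟩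
  rcases le_total x 1 with h | h
  · exact (min_le_left _ _).trans (Real.rpow_le_one hx.le h (by norm_num))
  · exact (min_le_right _ _).trans (Real.rpow_le_one_of_one_le_of_nonpos h (by norm_num))

private theorem T1_qq_low {x : ℝ} (hx : 0 < x) (hx1 : x ≤ 1) : qq x = x ^ (1 / 32 : ℝ) := by
  unfold qq
  apply min_eq_left
  exact (Real.rpow_le_one hx.le hx1 (by norm_num)).trans
    (Real.one_le_rpow_of_pos_of_le_one_of_nonpos hx hx1 (by norm_num))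

/-- `x ≤ q y` and `y ≤ q x` give `qq x ≤ q^(1/32) qq y`: the sum form. Proof. `x^(1/32) =
(x/y)^(1/32) y^(1/32)`, `x^(-1/32) = (y/x)^(1/32) y^(-1/32)`; case distinction on which of the two
is the minimum in `qq y`. -/
theorem qq_cmp {x y : ℝ} (hx : 0 < x) (hy : 0 < y) :
    qq x ≤ ((x / y) ^ (1 / 32 : ℝ) + (y / x) ^ (1 / 32 : ℝ)) * qq y := by
  have hs : 0 < (x / y) ^ (1 / 32 : ℝ) := Real.rpow_pos_of_pos (by positivity) _
  have ht : 0 < (y / x) ^ (1 / 32 : ℝ) := Real.rpow_pos_of_pos (by positivity) _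
  have hq := (qq_pos hy).1
  have e1 : x ^ (1 / 32 : ℝ) = (x / y) ^ (1 / 32 : ℝ) * y ^ (1 / 32 : ℝ) := by
    rw [← Real.mul_rpow (by positivity) hy.le, div_mul_cancel₀ _ hy.ne']
  have e2 : x ^ (-(1 / 32) : ℝ) = (y / x) ^ (1 / 32 : ℝ) * y ^ (-(1 / 32) : ℝ) := by
    rw [Real.rpow_neg hx.le, Real.rpow_neg hy.le, Real.div_rpow hy.le hx.le]
    have h1 : 0 < x ^ (1 / 32 : ℝ) := Real.rpow_pos_of_pos hx _
    have h2 : 0 < y ^ (1 / 32 : ℝ) := Real.rpow_pos_of_pos hy _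
    field_simp
  rcases min_choice (y ^ (1 / 32 : ℝ)) (y ^ (-(1 / 32) : ℝ)) with h | h
  · have h1 : qq y = y ^ (1 / 32 : ℝ) := h
    calc qq x ≤ x ^ (1 / 32 : ℝ) := min_le_left _ _
      _ = (x / y) ^ (1 / 32 : ℝ) * qq y := by rw [h1]; exact e1
      _ ≤ _ := by nlinarith
  · have h1 : qq y = y ^ (-(1 / 32) : ℝ) := h
    calc qq x ≤ x ^ (-(1 / 32) : ℝ) := min_le_right _ _
      _ = (y / x) ^ (1 / 32 : ℝ) * qq y := by rw [h1]; exact e2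
      _ ≤ _ := by nlinarith

theorem Th_sum {W : ℕ → ℝ} (hW0 : ∀ i, 0 ≤ W i) (hW : Summable W) {ρ : ℝ} (hρ : 0 < ρ) :
    Summable fun i => W i * qq (2 ^ i * ρ) := by
  refine Summable.of_nonneg_of_le (fun i => mul_nonneg (hW0 i) (qq_pos (by positivity)).1.le)
    (fun i => ?_) hW
  exact mul_le_of_le_one_right (hW0 i) (qq_pos (by positivity)).2

theorem Th_nonneg {W : ℕ → ℝ} (hW0 : ∀ i, 0 ≤ W i) {ρ : ℝ} (hρ : 0 < ρ) : 0 ≤ Th W ρ := by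
  exact tsum_nonneg fun i => mul_nonneg (hW0 i) (qq_pos (by positivity)).1.le

theorem Th_le {W : ℕ → ℝ} (hW0 : ∀ i, 0 ≤ W i) (hW : Summable W) {ρ : ℝ} (hρ : 0 < ρ) :
    Th W ρ ≤ ∑' i, W i := by
  exact (Th_sum hW0 hW hρ).tsum_le_tsum
    (fun i => mul_le_of_le_one_right (hW0 i) (qq_pos (by positivity)).2) hW

/-- Proof. Let `k` be the natural number with `2 ^ k * ρ ≤ 1 < 2 ^ (k + 1) * ρ`; then
`qq (2 ^ k * ρ) = (2 ^ k * ρ) ^ (1/32) ≥ (1/2) ^ (1/32) ≥ 1/2`; one term of the sum. -/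
theorem Th_ge {W : ℕ → ℝ} (hW0 : ∀ i, 0 ≤ W i) (hW : Summable W) {ρ : ℝ} (hρ : 0 < ρ)
    (hρ1 : ρ ≤ 1) : ∃ k : ℕ, 2 ^ k * ρ ≤ 1 ∧ W k ≤ 2 * Th W ρ := by
  obtain ⟨k, hk1, hk2⟩ := exists_nat_pow_near (x := 1 / ρ) (y := 2)
    (by rw [le_div_iff₀ hρ]; linarith) (by norm_num)
  rw [le_div_iff₀ hρ] at hk1
  rw [div_lt_iff₀ hρ, pow_succ] at hk2
  refine ⟨k, hk1, ?_⟩
  have hz : (0 : ℝ) < 2 ^ k * ρ := by positivity
  have h1 : (1 / 2 : ℝ) ≤ qq (2 ^ k * ρ) := by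
    rw [T1_qq_low hz hk1]
    have h2 : (2 ^ k * ρ) ^ (1 : ℝ) ≤ (2 ^ k * ρ) ^ (1 / 32 : ℝ) :=
      Real.rpow_le_rpow_of_exponent_ge hz hk1 (by norm_num)
    rw [Real.rpow_one] at h2
    nlinarith
  have h3 : W k * qq (2 ^ k * ρ) ≤ Th W ρ :=
    (Th_sum hW0 hW hρ).le_tsum k fun i _ => mul_nonneg (hW0 i) (qq_pos (by positivity)).1.le
  nlinarith [hW0 k]

/-- the term `i = 0` -/
theorem Th_low {W : ℕ → ℝ} (hW0 : ∀ i, 0 ≤ W i) (hW : Summable W) {ρ : ℝ} (hρ : 0 < ρ)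
    (hρ1 : ρ ≤ 1) : W 0 * ρ ^ (1 / 32 : ℝ) ≤ Th W ρ := by
  have h3 : W 0 * qq (2 ^ 0 * ρ) ≤ Th W ρ :=
    (Th_sum hW0 hW hρ).le_tsum 0 fun i _ => mul_nonneg (hW0 i) (qq_pos (by positivity)).1.le
  rw [pow_zero, one_mul, T1_qq_low hρ hρ1] at h3
  exact h3

/-- `qq_cmp` termwise -/
theorem Th_cmp {W : ℕ → ℝ} (hW0 : ∀ i, 0 ≤ W i) (hW : Summable W) {ρ σ : ℝ} (hρ : 0 < ρ)
    (hσ : 0 < σ) : Th W ρ ≤ ((ρ / σ) ^ (1 / 32 : ℝ) + (σ / ρ) ^ (1 / 32 : ℝ)) * Th W σ := by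
  unfold Th
  rw [← tsum_mul_left]
  refine (Th_sum hW0 hW hρ).tsum_le_tsum (fun i => ?_) ((Th_sum hW0 hW hσ).mul_left _)
  have h := qq_cmp (x := 2 ^ i * ρ) (y := 2 ^ i * σ) (by positivity) (by positivity)
  rw [mul_div_mul_left _ _ (by positivity : (2 : ℝ) ^ i ≠ 0),
    mul_div_mul_left _ _ (by positivity : (2 : ℝ) ^ i ≠ 0)] at h
  calc W i * qq (2 ^ i * ρ) ≤ W i * (((ρ / σ) ^ (1 / 32 : ℝ) + (σ / ρ) ^ (1 / 32 : ℝ)) *
        qq (2 ^ i * σ)) := mul_le_mul_of_nonneg_left h (hW0 i)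
    _ = _ := by ring

/-- `continuousOn_tsum` -/
theorem Th_cont {W : ℕ → ℝ} (hW0 : ∀ i, 0 ≤ W i) (hW : Summable W) :
    ContinuousOn (Th W) (Ioi 0) := by
  unfold Th
  refine continuousOn_tsum (u := W) (fun i => ?_) hW fun i ρ hρ => ?_
  · apply ContinuousOn.mul continuousOn_const
    unfold qq
    have h0 : ∀ x ∈ Ioi (0 : ℝ), (2 : ℝ) ^ i * x ≠ 0 := fun x hx =>
      (mul_pos (by positivity) hx).ne'
    have hc : ContinuousOn (fun x : ℝ => (2 : ℝ) ^ i * x) (Ioi 0) :=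
      continuousOn_const.mul continuousOn_id
    exact ContinuousOn.inf (hc.rpow_const fun x hx => Or.inl (h0 x hx))
      (hc.rpow_const fun x hx => Or.inl (h0 x hx))
  · have hq := qq_pos (x := 2 ^ i * ρ) (mul_pos (by positivity) hρ)
    rw [Real.norm_of_nonneg (mul_nonneg (hW0 i) hq.1.le)]
    exact mul_le_of_le_one_right (hW0 i) hq.2

theorem Th_smul (c : ℝ) (W : ℕ → ℝ) (ρ : ℝ) : Th (fun i => c * W i) ρ = c * Th W ρ := by
  unfold Th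
  rw [← tsum_mul_left]
  exact tsum_congr fun i => by ring

end Pool.Agent.MPca0fc2.PV
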