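import Mathlib
import Pool.Agent.Lib.MP_ca0fc2_an.PV.A1
import Pool.Agent.Lib.MP_ca0fc2_an.PV.A2
import Pool.Agent.Lib.MP_ca0fc2_an.PV.T1
import Pool.Agent.Lib.MP_ca0fc2_an.TS.Gr
import Pool.Agent.Lib.MP_ca0fc2_an.TE.G2

set_option autoImplicit false
set_option linter.unusedSectionVars false

open Metric Set MeasureTheory Filter Topology
open scoped InnerProductSpace ENNReal ContDiff

/-! # The weight of a density with a profile: upper bound -/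

namespace Pool.Agent.MPca0fc2.PV

open Pool.Agent.MPca0fc2.PT
open Pool.Agent.MPca0fc2.TS
open Pool.Agent.MPca0fc2.TE

variable {E : Type*} [NormedAddCommGroup E] [InnerProductSpace ℂ E]
variable [FiniteDimensional ℂ E] [MeasurableSpace E] [BorelSpace E]

/-- the energy measure is of this type -/
theorem nuE_eq (μ : Measure E) (m M : ℕ) {N : ℕ} (f : Fin N → E → ℂ) :
    nuE μ m M f = nuG μ m M (fun x => ∑ j, IG2 (f j) x) := rfl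

theorem nuG_OnB (μ : Measure E) [μ.IsAddHaarMeasure] {m M : ℕ} (hM : m + 2 ≤ M) {G : E → ℝ}
    {B : ℝ} (hG : ∀ x ∈ ball (0 : E) 1, 0 ≤ G x ∧ G x ≤ B) : OnB (nuG μ m M G) := by
  have hprop : ProperSpace E := FiniteDimensional.proper ℂ E
  have hB0 : 0 ≤ B := (hG 0 (mem_ball_self one_pos)).1.trans (hG 0 (mem_ball_self one_pos)).2
  refine ⟨⟨?_⟩, ?_⟩
  · unfold nuG
    rw [withDensity_apply _ MeasurableSet.univ, Measure.restrict_univ]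
    have hle : ∫⁻ x in ball (0 : E) 1, ENNReal.ofReal
        ((1 - ‖x‖ ^ 2) ^ M * G x / (1 - ‖x‖ ^ 2) ^ (m + 2)) ∂μ ≤
        ∫⁻ x in ball (0 : E) 1, ENNReal.ofReal B ∂μ := by
      refine setLIntegral_mono' measurableSet_ball fun x hx => ?_
      obtain ⟨hs0, hs⟩ := hG x hx
      rw [mem_ball_zero_iff] at hx
      apply ENNReal.ofReal_le_ofReal
      have h0 : 0 < 1 - ‖x‖ ^ 2 := by nlinarith [norm_nonneg x]
      have h1 : 1 - ‖x‖ ^ 2 ≤ 1 := by nlinarith [norm_nonneg x]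
      have hp : (1 - ‖x‖ ^ 2) ^ M ≤ (1 - ‖x‖ ^ 2) ^ (m + 2) := pow_le_pow_of_le_one h0.le h1 hM
      rw [div_le_iff₀ (pow_pos h0 _), mul_comm]
      exact mul_le_mul hs hp (pow_pos h0 _).le hB0
    refine lt_of_le_of_lt hle ?_
    rw [lintegral_const, Measure.restrict_apply_univ]
    exact ENNReal.mul_lt_top ENNReal.ofReal_lt_top measure_ball_lt_top
  · unfold nuG
    refine withDensity_absolutelyContinuous _ _ ?_
    rw [Measure.restrict_apply measurableSet_ball.compl, compl_inter_self, measure_empty]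

omit [FiniteDimensional ℂ E] [MeasurableSpace E] [BorelSpace E] in
private theorem A3_den {x y : E} (hx : ‖x‖ < 1) (hy : ‖y‖ < 1) :
    0 < ‖1 - ⟪x, y⟫_ℂ‖ ∧ 1 - ‖x‖ ^ 2 ≤ 2 * ‖1 - ⟪x, y⟫_ℂ‖ := by
  have h1 := norm_inner_le_norm (𝕜 := ℂ) x y
  have h2 := norm_sub_norm_le (1 : ℂ) ⟪x, y⟫_ℂ
  rw [norm_one] at h2
  have hx0 := norm_nonneg x
  have hy0 := norm_nonneg y
  have h3 : 0 ≤ ‖x‖ * (1 - ‖y‖) := mul_nonneg hx0 (by linarith)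
  constructor
  · nlinarith
  · nlinarith [sq_nonneg (1 - ‖x‖)]

private theorem A3_r32 {D b R : ℝ} (hD : 0 < D) (hb : 0 < b) (hR0 : 0 ≤ R) (hR : R ≤ 32 * (D / b)) :
    R ^ (1 / 32 : ℝ) ≤ 2 * (D ^ (1 / 32 : ℝ) * b ^ (-(1 / 32) : ℝ)) := by
  have h1 : R ^ (1 / 32 : ℝ) ≤ (32 * (D / b)) ^ (1 / 32 : ℝ) :=
    Real.rpow_le_rpow hR0 hR (by norm_num)
  have h2 : (32 : ℝ) ^ (1 / 32 : ℝ) ≤ 2 := by
    have h3 : (32 : ℝ) ^ (1 / 32 : ℝ) ≤ ((2 : ℝ) ^ (32 : ℕ)) ^ (1 / 32 : ℝ) :=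
      Real.rpow_le_rpow (by norm_num) (by norm_num) (by norm_num)
    have h4 : ((2 : ℝ) ^ (32 : ℕ)) ^ (1 / 32 : ℝ) = 2 := by
      rw [← Real.rpow_natCast, ← Real.rpow_mul (by norm_num)]
      norm_num
    linarith
  rw [Real.mul_rpow (by norm_num) (by positivity), Real.div_rpow hD.le hb.le] at h1
  rw [Real.rpow_neg hb.le, ← div_eq_mul_inv]
  have h5 : 0 ≤ D ^ (1 / 32 : ℝ) / b ^ (1 / 32 : ℝ) := by positivity
  nlinarith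

private theorem A3_real {m : ℕ} {D a b T G R S : ℝ} (hD : 0 < D) (ha : 0 < a) (hb : 0 < b)
    (haD : a ≤ 2 * D) (hT : 0 ≤ T) (hG : G ≤ (R ^ (1 / 32 : ℝ) + S ^ (1 / 32 : ℝ)) * T)
    (hR0 : 0 ≤ R) (hS0 : 0 ≤ S) (hR : R ≤ 32 * (D / b)) (hS : S ≤ 32 * (D / a)) :
    a ^ (m + 3) * G / a ^ (m + 2) * D ^ (-(((m + 3 : ℕ) : ℝ) + 1 / 4)) ≤
      4 * T * b ^ (-(1 / 32) : ℝ) * D ^ (-((m : ℝ) + 2 + 7 / 32)) +
        4 * T * D ^ (-((m : ℝ) + 2 + 1 / 4)) := by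
  have h1 := A3_r32 hD hb hR0 hR
  have h2 := A3_r32 hD ha hS0 hS
  obtain ⟨κ, hκ⟩ : ∃ κ, κ = D ^ (-(((m + 3 : ℕ) : ℝ) + 1 / 4)) := ⟨_, rfl⟩
  have hκ0 : 0 < κ := by rw [hκ]; positivity
  have h3 : a ^ (m + 3) * G / a ^ (m + 2) = a * G := by
    rw [pow_succ]
    field_simp
  have h4 : G ≤ (2 * (D ^ (1 / 32 : ℝ) * b ^ (-(1 / 32) : ℝ)) +
      2 * (D ^ (1 / 32 : ℝ) * a ^ (-(1 / 32) : ℝ))) * T :=
    hG.trans (mul_le_mul_of_nonneg_right (add_le_add h1 h2) hT)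
  have h5 : D * D ^ (1 / 32 : ℝ) * κ = D ^ (-((m : ℝ) + 2 + 7 / 32)) := by
    rw [hκ]
    nth_rewrite 1 [← Real.rpow_one D]
    rw [← Real.rpow_add hD, ← Real.rpow_add hD]
    congr 1
    push_cast
    ring
  have h6 : a * a ^ (-(1 / 32) : ℝ) ≤ 2 * D ^ (31 / 32 : ℝ) := by
    have h7 : a * a ^ (-(1 / 32) : ℝ) = a ^ (31 / 32 : ℝ) := by
      nth_rewrite 1 [← Real.rpow_one a]
      rw [← Real.rpow_add ha]
      norm_num
    rw [h7]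
    have h8 : a ^ (31 / 32 : ℝ) ≤ (2 * D) ^ (31 / 32 : ℝ) :=
      Real.rpow_le_rpow ha.le haD (by norm_num)
    rw [Real.mul_rpow (by norm_num) hD.le] at h8
    have h9 : (2 : ℝ) ^ (31 / 32 : ℝ) ≤ 2 ^ (1 : ℝ) :=
      Real.rpow_le_rpow_of_exponent_le (by norm_num) (by norm_num)
    rw [Real.rpow_one] at h9
    have h10 : 0 ≤ D ^ (31 / 32 : ℝ) := by positivity
    nlinarith
  have h7 : D ^ (31 / 32 : ℝ) * D ^ (1 / 32 : ℝ) * κ = D ^ (-((m : ℝ) + 2 + 1 / 4)) := by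
    rw [hκ, ← Real.rpow_add hD, ← Real.rpow_add hD]
    congr 1
    push_cast
    ring
  rw [h3, ← hκ, ← h5, ← h7]
  have hb0 : 0 ≤ b ^ (-(1 / 32) : ℝ) := by positivity
  have hd0 : 0 ≤ D ^ (1 / 32 : ℝ) := by positivity
  calc a * G * κ ≤ a * ((2 * (D ^ (1 / 32 : ℝ) * b ^ (-(1 / 32) : ℝ)) +
      2 * (D ^ (1 / 32 : ℝ) * a ^ (-(1 / 32) : ℝ))) * T) * κ := by gcongr
    _ = 2 * T * (a * D ^ (1 / 32 : ℝ) * b ^ (-(1 / 32) : ℝ) * κ) +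
        2 * T * (a * a ^ (-(1 / 32) : ℝ) * D ^ (1 / 32 : ℝ) * κ) := by ring
    _ ≤ 2 * T * (2 * D * D ^ (1 / 32 : ℝ) * b ^ (-(1 / 32) : ℝ) * κ) +
        2 * T * (2 * D ^ (31 / 32 : ℝ) * D ^ (1 / 32 : ℝ) * κ) := by gcongr
    _ = _ := by ring

/-- the functions which behave like `ro P` -/
def Cmp {E : Type*} [NormedAddCommGroup E] [InnerProductSpace ℂ E] (ρ : E → ℝ) : Prop :=
  ∀ x y : E, ‖x‖ < 1 → ‖y‖ < 1 → 0 < ρ x ∧ ρ x ≤ 1 ∧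
    ρ x / ρ y ≤ 32 * (‖1 - ⟪x, y⟫_ℂ‖ / (1 - ‖y‖ ^ 2))

omit [FiniteDimensional ℂ E] [MeasurableSpace E] [BorelSpace E] in
theorem ro_Cmp {P : E →L[ℂ] E} (h : Prj P) : Cmp (ro P) := fun _ _ hx hy =>
  ⟨(ro_pos h hx).1, (ro_pos h hx).2, (ro_cmp h hx hy).1⟩

omit [FiniteDimensional ℂ E] [MeasurableSpace E] [BorelSpace E] in
private theorem A3_symm (x y : E) : ‖1 - ⟪x, y⟫_ℂ‖ = ‖1 - ⟪y, x⟫_ℂ‖ := by
  have h1 : (starRingEnd ℂ) (1 - ⟪x, y⟫_ℂ) = 1 - ⟪y, x⟫_ℂ := by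
    rw [map_sub, map_one, inner_conj_symm]
  rw [← h1, Complex.norm_conj]

/-- `pv_Om` for the functions which behave like `ro P` -/
theorem pv_Om' (μ : Measure E) [μ.IsAddHaarMeasure] {m : ℕ} (hm : 1 ≤ m)
    (hdim : Module.finrank ℂ E = m + 1) :
    ∃ C : ℝ, 0 < C ∧ ∀ (ρ : E → ℝ), Cmp ρ → ∀ W : ℕ → ℝ, (∀ i, 0 ≤ W i) → Summable W →
      ∀ G : E → ℝ, AEMeasurable G (μ.restrict (ball 0 1)) →
      (∀ x ∈ ball (0 : E) 1, 0 ≤ G x ∧ G x ≤ Th W (ρ x)) →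
      ∀ y : E, ‖y‖ < 1 → Om (nuG μ m (m + 3) G) (m + 3) y ≤ C * Th W (ρ y) := by
  have hprop : ProperSpace E := FiniteDimensional.proper ℂ E
  obtain ⟨C1, hC1, hk1⟩ := pv_ker μ hm hdim (c := 7 / 32) (by norm_num) (by norm_num)
  obtain ⟨C2, hC2, hk2⟩ := pv_ker μ hm hdim (c := 1 / 4) (by norm_num) (by norm_num)
  refine ⟨4 * (C1 + C2), by positivity, ?_⟩
  intro ρ hρ W hW0 hW G hGm hG y hy
  obtain ⟨T, hT⟩ : ∃ T, T = Th W (ρ y) := ⟨_, rfl⟩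
  have hT0 : 0 ≤ T := by
    rw [hT]
    exact Th_nonneg hW0 (hρ y y hy hy).1
  have hb : 0 < 1 - ‖y‖ ^ 2 := by nlinarith [norm_nonneg y]
  have hcont : Continuous fun x : E => ‖1 - ⟪x, y⟫_ℂ‖ := by fun_prop
  have hkr : ∀ p : ℝ, Measurable fun x : E => ‖1 - ⟪x, y⟫_ℂ‖ ^ p := fun p =>
    hcont.measurable.pow_const _
  have hkm : ∀ p : ℝ, Measurable fun x : E => ENNReal.ofReal (‖1 - ⟪x, y⟫_ℂ‖ ^ p) := fun p =>
    ENNReal.measurable_ofReal.comp (hkr p)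
  have hyb : y ∈ ball (0 : E) 1 := by rwa [mem_ball_zero_iff]
  have hgm : AEMeasurable (fun x : E => ENNReal.ofReal
      ((1 - ‖x‖ ^ 2) ^ (m + 3) * G x / (1 - ‖x‖ ^ 2) ^ (m + 2))) (μ.restrict (ball 0 1)) := by
    apply AEMeasurable.ennreal_ofReal
    have h5 : Measurable fun x : E => 1 - ‖x‖ ^ 2 := measurable_const.sub (measurable_norm.pow_const 2)
    exact ((h5.pow_const (m + 3)).aemeasurable.mul hGm).div (h5.pow_const (m + 2)).aemeasurable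
  obtain ⟨b, hbdef⟩ : ∃ b, b = 1 - ‖y‖ ^ 2 := ⟨_, rfl⟩
  have hk1' := hk1 y hyb
  have hk2' := hk2 y hyb
  rw [← hbdef] at hb hk1' hk2'
  have hle : ∫⁻ x, ENNReal.ofReal (‖1 - ⟪x, y⟫_ℂ‖ ^ (-(((m + 3 : ℕ) : ℝ) + 1 / 4)))
      ∂(nuG μ m (m + 3) G) ≤ ENNReal.ofReal (4 * (C1 + C2) * b ^ (-(1 / 4) : ℝ) * T) := by
    unfold nuG
    rw [lintegral_withDensity_eq_lintegral_mul₀ hgm (hkm _).aemeasurable]
    have h1 : ∀ x ∈ ball (0 : E) 1, ((fun x : E => ENNReal.ofReal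
        ((1 - ‖x‖ ^ 2) ^ (m + 3) * G x / (1 - ‖x‖ ^ 2) ^ (m + 2))) *
        fun x : E => ENNReal.ofReal (‖1 - ⟪x, y⟫_ℂ‖ ^ (-(((m + 3 : ℕ) : ℝ) + 1 / 4)))) x ≤
        ENNReal.ofReal (4 * T * b ^ (-(1 / 32) : ℝ)) *
          ENNReal.ofReal (‖1 - ⟪x, y⟫_ℂ‖ ^ (-((m : ℝ) + 2 + 7 / 32))) +
        ENNReal.ofReal (4 * T) * ENNReal.ofReal (‖1 - ⟪x, y⟫_ℂ‖ ^ (-((m : ℝ) + 2 + 1 / 4))) := by
      intro x hx
      obtain ⟨hG0, hG1⟩ := hG x hx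
      rw [mem_ball_zero_iff] at hx
      obtain ⟨hD, haD⟩ := A3_den hx hy
      have ha : 0 < 1 - ‖x‖ ^ 2 := by nlinarith [norm_nonneg x]
      obtain ⟨_, _, hc1⟩ := hρ x y hx hy
      obtain ⟨_, _, hc2⟩ := hρ y x hy hx
      rw [A3_symm y x] at hc2
      have hrx := (hρ x x hx hx).1
      have hry := (hρ y y hy hy).1
      have hTh := Th_cmp hW0 hW hrx hry
      rw [← hT] at hTh
      rw [← hbdef] at hc1
      rw [Pi.mul_apply, ← ENNReal.ofReal_mul (by positivity), ← ENNReal.ofReal_mul (by positivity),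
        ← ENNReal.ofReal_mul (by positivity), ← ENNReal.ofReal_add (by positivity) (by positivity)]
      apply ENNReal.ofReal_le_ofReal
      exact A3_real hD ha hb haD hT0 (hG1.trans hTh) (by positivity) (by positivity) hc1 hc2
    calc _ ≤ ∫⁻ x in ball (0 : E) 1, (ENNReal.ofReal (4 * T * b ^ (-(1 / 32) : ℝ)) *
          ENNReal.ofReal (‖1 - ⟪x, y⟫_ℂ‖ ^ (-((m : ℝ) + 2 + 7 / 32))) +
        ENNReal.ofReal (4 * T) * ENNReal.ofReal (‖1 - ⟪x, y⟫_ℂ‖ ^ (-((m : ℝ) + 2 + 1 / 4)))) ∂μ :=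
          setLIntegral_mono' measurableSet_ball h1
      _ = ENNReal.ofReal (4 * T * b ^ (-(1 / 32) : ℝ)) *
          ∫⁻ x in ball (0 : E) 1, ENNReal.ofReal (‖1 - ⟪x, y⟫_ℂ‖ ^ (-((m : ℝ) + 2 + 7 / 32))) ∂μ +
        ENNReal.ofReal (4 * T) *
          ∫⁻ x in ball (0 : E) 1, ENNReal.ofReal (‖1 - ⟪x, y⟫_ℂ‖ ^ (-((m : ℝ) + 2 + 1 / 4))) ∂μ := by
          rw [lintegral_add_left ((hkm _).const_mul _), lintegral_const_mul _ (hkm _),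
            lintegral_const_mul _ (hkm _)]
      _ ≤ ENNReal.ofReal (4 * T * b ^ (-(1 / 32) : ℝ)) * ENNReal.ofReal (C1 * b ^ (-(7 / 32) : ℝ)) +
        ENNReal.ofReal (4 * T) * ENNReal.ofReal (C2 * b ^ (-(1 / 4) : ℝ)) := by gcongr
      _ = ENNReal.ofReal (4 * (C1 + C2) * b ^ (-(1 / 4) : ℝ) * T) := by
          rw [← ENNReal.ofReal_mul (by positivity), ← ENNReal.ofReal_mul (by positivity),
            ← ENNReal.ofReal_add (by positivity) (by positivity)]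
          congr 1
          have h2 : b ^ (-(1 / 32) : ℝ) * b ^ (-(7 / 32) : ℝ) = b ^ (-(1 / 4) : ℝ) := by
            rw [← Real.rpow_add hb]
            norm_num
          rw [← h2]
          ring
  have hPP : PP (nuG μ m (m + 3) G) (((m + 3 : ℕ) : ℝ) + 1 / 4) y ≤
      4 * (C1 + C2) * b ^ (-(1 / 4) : ℝ) * T := by
    unfold PP
    rw [integral_eq_lintegral_of_nonneg_ae (ae_of_all _ fun _ => Real.rpow_nonneg (norm_nonneg _) _)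
      (hkr _).aestronglyMeasurable]
    exact ENNReal.toReal_le_of_le_ofReal (by positivity) hle
  unfold Om
  rw [← hT, ← hbdef]
  calc b ^ (1 / 4 : ℝ) * PP (nuG μ m (m + 3) G) (((m + 3 : ℕ) : ℝ) + 1 / 4) y
      ≤ b ^ (1 / 4 : ℝ) * (4 * (C1 + C2) * b ^ (-(1 / 4) : ℝ) * T) := by gcongr
    _ = 4 * (C1 + C2) * T * (b ^ (1 / 4 : ℝ) * b ^ (-(1 / 4) : ℝ)) := by ring
    _ = 4 * (C1 + C2) * T := by
        rw [← Real.rpow_add hb]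
        norm_num

/-- Proof. `Om (nuG ..) (m + 3) y = (1 - ‖y‖²)^(1/4) ∫_ball (1 - ‖x‖²)^(m+3) G x / (1 - ‖x‖²)^(m+2)
‖1 - ⟪x, y⟫‖^(-(m + 3 + 1/4)) dμ` (see the proof of `PP_eq` in
`Results/MP_ca0fc2_an/EnergyGrowth.lean`: `integral_withDensity_eq_integral_toReal_smul`). With
`D = ‖1 - ⟪x, y⟫‖`, `d x = 1 - ‖x‖² ≤ 2 D`, `d y ≤ 2 D`, `T = Th W (ro P y)`: by `Th_cmp` and
`ro_cmp`, `G x ≤ Th W (ro P x) ≤ ((32 D / d y)^(1/32) + (32 D / d x)^(1/32)) T`, so the integrand is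
`≤ C T (d x D^(-(m+3) - 7/32) (d y)^(-1/32) + (d x)^(31/32) D^(-(m+3) - 7/32))
≤ C T (D^(-(m+2) - 7/32) (d y)^(-1/32) + D^(-(m+2) - 1/4))`; `pv_ker` for `c = 7/32` and `1/4`. -/
theorem pv_Om (μ : Measure E) [μ.IsAddHaarMeasure] {m : ℕ} (hm : 1 ≤ m)
    (hdim : Module.finrank ℂ E = m + 1) :
    ∃ C : ℝ, 0 < C ∧ ∀ (P : E →L[ℂ] E), Prj P → ∀ W : ℕ → ℝ, (∀ i, 0 ≤ W i) → Summable W →
      ∀ G : E → ℝ, AEMeasurable G (μ.restrict (ball 0 1)) →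
      (∀ x ∈ ball (0 : E) 1, 0 ≤ G x ∧ G x ≤ Th W (ro P x)) →
      ∀ y : E, ‖y‖ < 1 → Om (nuG μ m (m + 3) G) (m + 3) y ≤ C * Th W (ro P y) := by
  obtain ⟨C, hC, h⟩ := pv_Om' μ hm hdim
  exact ⟨C, hC, fun P hP => h (ro P) (ro_Cmp hP)⟩

end Pool.Agent.MPca0fc2.PV
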