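import Mathlib
import Pool.Agent.Lib.MP_ca0fc2_an.PV.A3
import Pool.Agent.Lib.MP_ca0fc2_an.Mg.G049
import Pool.Agent.Lib.MP_ca0fc2_an.TWCov

set_option autoImplicit false
set_option linter.unusedSectionVars false

open Metric Set MeasureTheory Filter Topology
open scoped InnerProductSpace ENNReal ContDiff

/-! # The weight of the measure with the density `Th W (ro P x)`: lower bound -/

namespace Pool.Agent.MPca0fc2.PV

open Pool.Agent.MPca0fc2.PT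
open Pool.Agent.MPca0fc2.TS
open Pool.Agent.MPca0fc2.TE

variable {E : Type*} [NormedAddCommGroup E] [InnerProductSpace ℂ E]
variable [FiniteDimensional ℂ E] [MeasurableSpace E] [BorelSpace E]

/-- `Th_cont`, `ro` is continuous and positive on the ball -/
theorem Th_aem (μ : Measure E) {P : E →L[ℂ] E} (h : Prj P) {W : ℕ → ℝ} (hW0 : ∀ i, 0 ≤ W i)
    (hW : Summable W) : AEMeasurable (fun x => Th W (ro P x)) (μ.restrict (ball 0 1)) := by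
  have hP : ∀ x : E, ‖x‖ < 1 → 0 < 1 - ‖P x‖ ^ 2 := by
    intro x hx
    have h1 := pyth h x
    nlinarith [norm_nonneg x, sq_nonneg ‖x - P x‖]
  have hc : ContinuousOn (fun x => Th W (ro P x)) (ball (0 : E) 1) := by
    refine (Th_cont hW0 hW).comp (f := fun x => ro P x) ?_ ?_
    · unfold ro
      refine ContinuousOn.div (by fun_prop) (by fun_prop) ?_
      intro x hx
      rw [mem_ball_zero_iff] at hx
      exact (hP x hx).ne'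
    · intro x hx
      rw [mem_ball_zero_iff] at hx
      exact (ro_pos h hx).1
  exact hc.aemeasurable measurableSet_ball

omit [FiniteDimensional ℂ E] [MeasurableSpace E] [BorelSpace E] in
private theorem A4_den {y x : E} (hy : ‖y‖ < 1) (hx : ‖x‖ < 1 / 2) :
    1 / 2 ≤ ‖1 + ⟪y, x⟫_ℂ‖ ∧ ‖1 + ⟪y, x⟫_ℂ‖ ≤ 3 / 2 := by
  have h1 : ‖⟪y, x⟫_ℂ‖ ≤ 1 / 2 := by
    have h2 := norm_inner_le_norm (𝕜 := ℂ) y x
    nlinarith [norm_nonneg y, norm_nonneg x]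
  have h3 := norm_sub_norm_le (1 : ℂ) (-⟪y, x⟫_ℂ)
  rw [sub_neg_eq_add, norm_neg, norm_one] at h3
  have h4 := norm_add_le (1 : ℂ) ⟪y, x⟫_ℂ
  rw [norm_one] at h4
  exact ⟨by linarith, by linarith⟩

omit [FiniteDimensional ℂ E] [MeasurableSpace E] [BorelSpace E] in
private theorem A4_ker {y x : E} (hy : ‖y‖ < 1) (hx : ‖x‖ < 1) :
    ‖1 - ⟪gg y x, y⟫_ℂ‖ = (1 - ‖y‖ ^ 2) / ‖1 + ⟪y, x⟫_ℂ‖ := by
  have h1 := congrArg (starRingEnd ℂ) (inner_gg_self hy hx.le)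
  rw [map_sub, map_one, inner_conj_symm] at h1
  have ha : 0 ≤ 1 - ‖y‖ ^ 2 := by nlinarith [norm_nonneg y]
  rw [h1, Complex.norm_conj, norm_div, Complex.norm_real, Real.norm_of_nonneg ha]

omit [FiniteDimensional ℂ E] [MeasurableSpace E] [BorelSpace E] in
private theorem A4_pt {y x : E} (hy : ‖y‖ < 1) (hx : ‖x‖ < 1 / 2) (M : ℕ) :
    (1 / 2) ^ (M + 1) * (1 - ‖y‖ ^ 2) ^ (-(1 / 4) : ℝ) ≤
      ‖1 - ⟪gg y x, y⟫_ℂ‖ ^ (-((M : ℝ) + 1 / 4)) * (1 - ‖gg y x‖ ^ 2) ^ M := by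
  obtain ⟨hD1, hD2⟩ := A4_den hy hx
  have hx1 : ‖x‖ < 1 := by linarith
  rw [A4_ker hy hx1, norm_gg hy hx1.le]
  have ha : 0 < 1 - ‖y‖ ^ 2 := by nlinarith [norm_nonneg y]
  have hb : 3 / 4 ≤ 1 - ‖x‖ ^ 2 := by nlinarith [norm_nonneg x]
  generalize ‖1 + ⟪y, x⟫_ℂ‖ = D at *
  generalize 1 - ‖y‖ ^ 2 = a at *
  generalize 1 - ‖x‖ ^ 2 = b at *
  have hD0 : 0 < D := by linarith
  have haD : 0 < a / D := by positivity
  have h1 : (a / D) ^ (-((M : ℝ) + 1 / 4)) = ((a / D) ^ M)⁻¹ * (a / D) ^ (-(1 / 4) : ℝ) := by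
    rw [neg_add, Real.rpow_add haD, Real.rpow_neg haD.le, Real.rpow_natCast]
  have h2 : (a * b / D ^ 2) ^ M = (a / D) ^ M * (b / D) ^ M := by
    rw [← mul_pow]
    congr 1
    field_simp
  have h3 : (1 / 2 : ℝ) ^ M ≤ (b / D) ^ M := by
    apply pow_le_pow_left₀ (by norm_num)
    rw [le_div_iff₀ hD0]
    linarith
  have h4 : 1 / 2 * a ^ (-(1 / 4) : ℝ) ≤ (a / D) ^ (-(1 / 4) : ℝ) := by
    have h5 : (2 * a) ^ (-(1 / 4) : ℝ) ≤ (a / D) ^ (-(1 / 4) : ℝ) := by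
      apply Real.rpow_le_rpow_of_nonpos haD _ (by norm_num)
      rw [div_le_iff₀ hD0]
      nlinarith
    have h6 : (1 / 2 : ℝ) ≤ 2 ^ (-(1 / 4) : ℝ) := by
      have h7 : (2 : ℝ) ^ (-1 : ℝ) ≤ 2 ^ (-(1 / 4) : ℝ) :=
        Real.rpow_le_rpow_of_exponent_le (by norm_num) (by norm_num)
      rw [Real.rpow_neg_one] at h7
      linarith
    rw [Real.mul_rpow (by norm_num) ha.le] at h5
    have h8 : 0 ≤ a ^ (-(1 / 4) : ℝ) := Real.rpow_nonneg ha.le _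
    nlinarith
  rw [h1, h2]
  have h9 : 0 ≤ a ^ (-(1 / 4) : ℝ) := Real.rpow_nonneg ha.le _
  have h10 : 0 < (a / D) ^ M := by positivity
  calc (1 / 2) ^ (M + 1) * a ^ (-(1 / 4) : ℝ) = (1 / 2 * a ^ (-(1 / 4) : ℝ)) * (1 / 2) ^ M := by
        rw [pow_succ]; ring
    _ ≤ (a / D) ^ (-(1 / 4) : ℝ) * (b / D) ^ M := by gcongr
    _ = ((a / D) ^ M)⁻¹ * (a / D) ^ (-(1 / 4) : ℝ) * ((a / D) ^ M * (b / D) ^ M) := by
        field_simp

omit [FiniteDimensional ℂ E] in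
private theorem A4_int {ν : Measure E} (hν : OnB ν) {p : ℝ} (hp : 0 ≤ p) {y : E}
    (hy : ‖y‖ < 1) : Integrable (fun x => ‖1 - ⟪x, y⟫_ℂ‖ ^ (-p)) ν := by
  have := hν.fin
  have hcont : Continuous fun x : E => ‖1 - ⟪x, y⟫_ℂ‖ := by fun_prop
  have hmeas : Measurable fun x : E => ‖1 - ⟪x, y⟫_ℂ‖ ^ (-p) := hcont.measurable.pow_const _
  refine Integrable.mono' (integrable_const ((1 - ‖y‖) ^ (-p))) hmeas.aestronglyMeasurable ?_
  have hae : ∀ᵐ x ∂ν, x ∈ ball (0 : E) 1 := by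
    rw [ae_iff]
    exact hν.supp
  filter_upwards [hae] with x hx
  rw [mem_ball_zero_iff] at hx
  rw [Real.norm_of_nonneg (Real.rpow_nonneg (norm_nonneg _) _)]
  apply Real.rpow_le_rpow_of_nonpos (by linarith) _ (by linarith)
  have h1 := norm_inner_le_norm (𝕜 := ℂ) x y
  have h2 := norm_sub_norm_le (1 : ℂ) ⟪x, y⟫_ℂ
  rw [norm_one] at h2
  nlinarith [norm_nonneg y, norm_nonneg x]

private theorem A4_r32 {R : ℝ} (hR0 : 0 ≤ R) (hR : R ≤ 192) : R ^ (1 / 32 : ℝ) ≤ 3 / 2 := by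
  have h3 : R ^ (1 / 32 : ℝ) ≤ ((3 / 2 : ℝ) ^ (32 : ℕ)) ^ (1 / 32 : ℝ) :=
    Real.rpow_le_rpow hR0 (hR.trans (by norm_num)) (by norm_num)
  have h4 : ((3 / 2 : ℝ) ^ (32 : ℕ)) ^ (1 / 32 : ℝ) = 3 / 2 := by
    rw [← Real.rpow_natCast, ← Real.rpow_mul (by norm_num)]
    norm_num
  linarith

omit [FiniteDimensional ℂ E] [MeasurableSpace E] [BorelSpace E] in
private theorem A4_Th {ρ : E → ℝ} (hρ : Cmp ρ) {W : ℕ → ℝ} (hW0 : ∀ i, 0 ≤ W i)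
    (hW : Summable W) {y x : E} (hy : ‖y‖ < 1) (hx : ‖x‖ < 1 / 2) :
    Th W (ρ y) ≤ 3 * Th W (ρ (gg y x)) := by
  have hx1 : ‖x‖ < 1 := by linarith
  have hgx := gg_lt hy hx1
  obtain ⟨hD1, hD2⟩ := A4_den hy hx
  have ha : 0 < 1 - ‖y‖ ^ 2 := by nlinarith [norm_nonneg y]
  have hβ : 3 / 4 ≤ 1 - ‖x‖ ^ 2 := by nlinarith [norm_nonneg x]
  obtain ⟨hrx, _, hc1⟩ := hρ _ _ hgx hy
  obtain ⟨hry, _, hc2⟩ := hρ _ _ hy hgx
  have hsy : ‖1 - ⟪y, gg y x⟫_ℂ‖ = ‖1 - ⟪gg y x, y⟫_ℂ‖ := by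
    have h1 : (starRingEnd ℂ) (1 - ⟪y, gg y x⟫_ℂ) = 1 - ⟪gg y x, y⟫_ℂ := by
      rw [map_sub, map_one, inner_conj_symm]
    rw [← h1, Complex.norm_conj]
  rw [hsy] at hc2
  have hTh := Th_cmp hW0 hW hry hrx
  have hTx := Th_nonneg hW0 hrx
  rw [A4_ker hy hx1] at hc1 hc2
  rw [norm_gg hy hx1.le] at hc2
  have hD0 : 0 < ‖1 + ⟪y, x⟫_ℂ‖ := by linarith
  have h1 : ρ (gg y x) / ρ y ≤ 192 := by
    refine hc1.trans ?_
    have e : 32 * ((1 - ‖y‖ ^ 2) / ‖1 + ⟪y, x⟫_ℂ‖ / (1 - ‖y‖ ^ 2)) = 32 / ‖1 + ⟪y, x⟫_ℂ‖ := by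
      field_simp
    rw [e, div_le_iff₀ hD0]
    linarith
  have h2 : ρ y / ρ (gg y x) ≤ 192 := by
    refine hc2.trans ?_
    have hβ0 : 0 < 1 - ‖x‖ ^ 2 := by linarith
    have e : 32 * ((1 - ‖y‖ ^ 2) / ‖1 + ⟪y, x⟫_ℂ‖ /
        ((1 - ‖y‖ ^ 2) * (1 - ‖x‖ ^ 2) / ‖1 + ⟪y, x⟫_ℂ‖ ^ 2)) =
        32 * ‖1 + ⟪y, x⟫_ℂ‖ / (1 - ‖x‖ ^ 2) := by
      field_simp
    rw [e, div_le_iff₀ hβ0]
    linarith
  have h3 := A4_r32 (by positivity) h1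
  have h4 := A4_r32 (by positivity) h2
  calc Th W (ρ y) ≤ ((ρ y / ρ (gg y x)) ^ (1 / 32 : ℝ) +
        (ρ (gg y x) / ρ y) ^ (1 / 32 : ℝ)) * Th W (ρ (gg y x)) := hTh
    _ ≤ (3 / 2 + 3 / 2) * Th W (ρ (gg y x)) := by gcongr
    _ = 3 * Th W (ρ (gg y x)) := by ring

omit [FiniteDimensional ℂ E] in
/-- `Th_cont` -/
theorem Th_aem' (μ : Measure E) {ρ : E → ℝ} (h : Cmp ρ) (hc : ContinuousOn ρ (ball 0 1))
    {W : ℕ → ℝ} (hW0 : ∀ i, 0 ≤ W i) (hW : Summable W) :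
    AEMeasurable (fun x => Th W (ρ x)) (μ.restrict (ball 0 1)) := by
  refine ContinuousOn.aemeasurable ?_ measurableSet_ball
  refine (Th_cont hW0 hW).comp (f := fun x => ρ x) hc ?_
  intro x hx
  rw [mem_ball_zero_iff] at hx
  exact (h x x hx hx).1

omit [FiniteDimensional ℂ E] [MeasurableSpace E] [BorelSpace E] in
theorem ro_cont {P : E →L[ℂ] E} (h : Prj P) : ContinuousOn (ro P) (ball 0 1) := by
  unfold ro
  refine ContinuousOn.div (by fun_prop) (by fun_prop) ?_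
  intro x hx
  rw [mem_ball_zero_iff] at hx
  have h1 := pyth h x
  have h2 : 0 < 1 - ‖P x‖ ^ 2 := by nlinarith [norm_nonneg x, sq_nonneg ‖x - P x‖]
  exact h2.ne'

/-- `pv_low` for the functions which behave like `ro P` -/
theorem pv_low' (μ : Measure E) [μ.IsAddHaarMeasure] {m : ℕ} (hm : 1 ≤ m)
    (hdim : Module.finrank ℂ E = m + 1) :
    ∃ C : ℝ, 0 < C ∧ ∀ (ρ : E → ℝ), Cmp ρ → ContinuousOn ρ (ball 0 1) → ∀ W : ℕ → ℝ, (∀ i, 0 ≤ W i) → Summable W →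
      ∀ y : E, ‖y‖ < 1 →
        Th W (ρ y) ≤ C * Om (nuG μ m (m + 3) (fun x => Th W (ρ x))) (m + 3) y := by
  have hprop : ProperSpace E := FiniteDimensional.proper ℂ E
  obtain ⟨M, hM⟩ : ∃ M : ℕ, M = m + 3 := ⟨_, rfl⟩
  rw [← hM]
  set V : ℝ := μ.real (ball (0 : E) (1 / 2)) with hV
  have hV0 : 0 < V :=
    ENNReal.toReal_pos (measure_ball_pos μ 0 (by norm_num)).ne' measure_ball_lt_top.ne
  have hVV : μ (ball (0 : E) (1 / 2)) = ENNReal.ofReal V := by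
    rw [hV, ofReal_measureReal]
  refine ⟨3 * 2 ^ (M + 1) / V, by positivity, ?_⟩
  intro ρ hρ hρc W hW0 hW y hy
  have hG : ∀ x ∈ ball (0 : E) 1, 0 ≤ Th W (ρ x) ∧ Th W (ρ x) ≤ ∑' i, W i := by
    intro x hx
    rw [mem_ball_zero_iff] at hx
    exact ⟨Th_nonneg hW0 (hρ x x hx hx).1, Th_le hW0 hW (hρ x x hx hx).1⟩
  have hB : OnB (nuG μ m M (fun x => Th W (ρ x))) := nuG_OnB μ (by omega) hG
  have ha : 0 < 1 - ‖y‖ ^ 2 := by nlinarith [norm_nonneg y]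
  obtain ⟨T, hT⟩ : ∃ T, T = Th W (ρ y) := ⟨_, rfl⟩
  have hT0 : 0 ≤ T := by
    rw [hT]
    exact Th_nonneg hW0 (hρ y y hy hy).1
  obtain ⟨Q, hQ⟩ : ∃ Q, Q = PP (nuG μ m M (fun x => Th W (ρ x))) ((M : ℝ) + 1 / 4) y := ⟨_, rfl⟩
  have hQ0 : 0 ≤ Q := by
    rw [hQ]
    exact integral_nonneg fun x => Real.rpow_nonneg (norm_nonneg _) _
  obtain ⟨c, hc⟩ : ∃ c : ℝ, c = (1 / 2) ^ (M + 1) * (1 - ‖y‖ ^ 2) ^ (-(1 / 4) : ℝ) := ⟨_, rfl⟩
  have hc0 : 0 < c := by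
    rw [hc]
    have := Real.rpow_pos_of_pos ha (-(1 / 4) : ℝ)
    positivity
  have hdm : AEMeasurable (fun x : E => ENNReal.ofReal ((1 - ‖x‖ ^ 2) ^ M * Th W (ρ x) /
      (1 - ‖x‖ ^ 2) ^ (m + 2))) (μ.restrict (ball 0 1)) := by
    apply AEMeasurable.ennreal_ofReal
    have h5 : Measurable fun x : E => 1 - ‖x‖ ^ 2 := measurable_const.sub (measurable_norm.pow_const 2)
    exact ((h5.pow_const M).aemeasurable.mul (Th_aem' μ hρ hρc hW0 hW)).div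
      (h5.pow_const (m + 2)).aemeasurable
  have hkm : Measurable fun x : E => ENNReal.ofReal (‖1 - ⟪x, y⟫_ℂ‖ ^ (-((M : ℝ) + 1 / 4))) := by
    have hcont : Continuous fun x : E => ‖1 - ⟪x, y⟫_ℂ‖ := by fun_prop
    exact ENNReal.measurable_ofReal.comp (hcont.measurable.pow_const _)
  have h2 : ENNReal.ofReal Q = ∫⁻ x in ball (0 : E) 1,
      ENNReal.ofReal (((1 - ‖y‖ ^ 2) / ‖1 + ⟪y, x⟫_ℂ‖ ^ 2) ^ (m + 2)) *
        (ENNReal.ofReal ((1 - ‖gg y x‖ ^ 2) ^ M * Th W (ρ (gg y x)) /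
          (1 - ‖gg y x‖ ^ 2) ^ (m + 2)) *
          ENNReal.ofReal (‖1 - ⟪gg y x, y⟫_ℂ‖ ^ (-((M : ℝ) + 1 / 4)))) ∂μ := by
    rw [hQ, PP, ofReal_integral_eq_lintegral_ofReal (A4_int hB (by positivity) hy)
      (ae_of_all _ fun _ => Real.rpow_nonneg (norm_nonneg _) _), nuG,
      lintegral_withDensity_eq_lintegral_mul₀ hdm hkm.aemeasurable, lintegral_gg μ hdim hy]
    rfl
  have h3 : ENNReal.ofReal (c * (T / 3)) * ENNReal.ofReal V ≤ ENNReal.ofReal Q := by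
    rw [h2, ← hVV, ← setLIntegral_const]
    refine le_trans ?_ (lintegral_mono_set (ball_subset_ball (by norm_num : (1 : ℝ) / 2 ≤ 1)))
    apply setLIntegral_mono' measurableSet_ball
    intro x hx
    rw [mem_ball_zero_iff] at hx
    have hx1 : ‖x‖ < 1 := by linarith
    have hgx := gg_lt hy hx1
    have hw : 0 < 1 - ‖gg y x‖ ^ 2 := by nlinarith [norm_nonneg (gg y x)]
    have hS0 : 0 ≤ Th W (ρ (gg y x)) := Th_nonneg hW0 (hρ _ _ hgx hgx).1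
    have hTT := A4_Th hρ hW0 hW hy hx
    rw [← hT] at hTT
    have hpos3 : 0 < ‖1 + ⟪y, x⟫_ℂ‖ := norm_pos_iff.mpr (one_add_ne hy hx1.le)
    have hk := A4_pt hy hx M
    rw [← hc] at hk
    have hk0 : 0 ≤ ‖1 - ⟪gg y x, y⟫_ℂ‖ ^ (-((M : ℝ) + 1 / 4)) := Real.rpow_nonneg (norm_nonneg _) _
    have hng := norm_gg hy hx1.le
    have hbx : 0 < 1 - ‖x‖ ^ 2 := by nlinarith [norm_nonneg x]
    have hbx1 : 1 - ‖x‖ ^ 2 ≤ 1 := by nlinarith [norm_nonneg x]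
    rw [← ENNReal.ofReal_mul (by positivity), ← ENNReal.ofReal_mul (by positivity)]
    apply ENNReal.ofReal_le_ofReal
    generalize ‖1 - ⟪gg y x, y⟫_ℂ‖ ^ (-((M : ℝ) + 1 / 4)) = κ at *
    generalize Th W (ρ (gg y x)) = S at *
    generalize 1 - ‖gg y x‖ ^ 2 = w at *
    generalize ‖1 + ⟪y, x⟫_ℂ‖ = D at *
    generalize 1 - ‖x‖ ^ 2 = β at *
    generalize 1 - ‖y‖ ^ 2 = a at *
    have e1 : (a / D ^ 2) ^ (m + 2) * (w ^ M * S / w ^ (m + 2) * κ) =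
        (κ * w ^ M) * S / β ^ (m + 2) := by
      have e2 : (a / D ^ 2) ^ (m + 2) = w ^ (m + 2) / β ^ (m + 2) := by
        rw [← div_pow, hng]
        congr 1
        field_simp
      rw [e2]
      field_simp
    rw [e1, le_div_iff₀ (by positivity)]
    have e3 : β ^ (m + 2) ≤ 1 := pow_le_one₀ hbx.le hbx1
    have e4 : T / 3 ≤ S := by linarith
    calc c * (T / 3) * β ^ (m + 2) ≤ c * (T / 3) * 1 := by gcongr
      _ = c * (T / 3) := mul_one _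
      _ ≤ κ * w ^ M * S := by gcongr
  rw [← ENNReal.ofReal_mul (by positivity), ENNReal.ofReal_le_ofReal_iff hQ0] at h3
  unfold Om
  rw [← hT, ← hQ]
  have h7 : (1 - ‖y‖ ^ 2) ^ (1 / 4 : ℝ) = ((1 / 2) ^ (M + 1)) / c := by
    rw [hc, Real.rpow_neg ha.le]
    have := Real.rpow_pos_of_pos ha (1 / 4 : ℝ)
    field_simp
  rw [h7]
  have h8 : 3 * 2 ^ (M + 1) / V * ((1 / 2) ^ (M + 1) / c * Q) = 3 * Q / (c * V) := by
    have h9 : (2 : ℝ) ^ (M + 1) * (1 / 2) ^ (M + 1) = 1 := by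
      rw [← mul_pow]; norm_num
    calc _ = 3 * Q * ((2 : ℝ) ^ (M + 1) * (1 / 2) ^ (M + 1)) / (c * V) := by
          field_simp
      _ = _ := by rw [h9, mul_one]
  rw [h8, le_div_iff₀ (by positivity)]
  nlinarith

/-- Proof. Restrict the integral to the image under `gg y` of the ball of radius `1/2` and use the
invariance of `(1 - ‖x‖²)^(-(m+2)) dμ` under `gg y` (see the proof of `IG_mean` in TS/GdE.lean and
PTMeas/TWCov for the change of variables). For `x = gg y x'`, `‖x'‖ ≤ 1/2`: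
`‖1 - ⟪x, y⟫‖ ≤ 2 (1 - ‖y‖²)` (`inner_gg` with `y = gg y 0`), `1 - ‖x‖² ≥ (1 - ‖y‖²)/3`
(`norm_gg`), so `ro P x / ro P y` and `ro P y / ro P x` are at most `200` (`ro_cmp`) and
`Th W (ro P y) ≤ 3 Th W (ro P x)` (`Th_cmp`, `200^(1/32) ≤ 3/2`), and the integrand
`(1 - ‖x‖²)^(m+3) ‖1 - ⟪x, y⟫‖^(-(m+3+1/4))` is at least `c (1 - ‖y‖²)^(-1/4)`. -/
theorem pv_low (μ : Measure E) [μ.IsAddHaarMeasure] {m : ℕ} (hm : 1 ≤ m)
    (hdim : Module.finrank ℂ E = m + 1) :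
    ∃ C : ℝ, 0 < C ∧ ∀ (P : E →L[ℂ] E), Prj P → ∀ W : ℕ → ℝ, (∀ i, 0 ≤ W i) → Summable W →
      ∀ y : E, ‖y‖ < 1 →
        Th W (ro P y) ≤ C * Om (nuG μ m (m + 3) (fun x => Th W (ro P x))) (m + 3) y := by
  obtain ⟨C, hC, h⟩ := pv_low' μ hm hdim
  exact ⟨C, hC, fun P hP => h (ro P) (ro_Cmp hP) (ro_cont hP)⟩

end Pool.Agent.MPca0fc2.PV
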