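import Mathlib
import Pool.Agent.Lib.MP_ca0fc2_an.PV.Defs
import Pool.Agent.Lib.MP_ca0fc2_an.CGInv
import Pool.Agent.Lib.MP_ca0fc2_an.PTGrad

set_option autoImplicit false
set_option linter.unusedSectionVars false

open Metric Set MeasureTheory Filter Topology
open scoped InnerProductSpace ENNReal ContDiff

/-! # The calm functions are an algebra; local uniform limits of calm functions -/

namespace Pool.Agent.MPca0fc2.PV

open Pool.Agent.Lib.MP_ca0fc2_an
open Pool.Agent.MPca0fc2.PT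
open Pool.Agent.MPca0fc2.TE

variable {E : Type*} [NormedAddCommGroup E] [InnerProductSpace ℂ E]

variable [FiniteDimensional ℂ E]

/-- `√(IG2 (u + v)) ≤ √(IG2 u) + √(IG2 v)`: with `IG_rep` (CGInv), `fderiv u z (gg' z 0 v) =
⟪b, v⟫`, `‖b‖² = IG2 u z`, the vector of the sum is the sum of the vectors (the functions are
differentiable at `z`). -/
theorem IG_add {u v : E → ℂ} (hu : DifferentiableOn ℂ u (ball 0 1))
    (hv : DifferentiableOn ℂ v (ball 0 1)) {z : E} (hz : ‖z‖ < 1) :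
    Real.sqrt (IG2 (fun z => u z + v z) z) ≤ Real.sqrt (IG2 u z) + Real.sqrt (IG2 v z) := by
  obtain ⟨bu, hu1, hu2⟩ := CG.IG_rep (u := u) hz
  obtain ⟨bv, hv1, hv2⟩ := CG.IG_rep (u := v) hz
  obtain ⟨b, h1, h2⟩ := CG.IG_rep (u := fun z => u z + v z) hz
  have hzm : z ∈ ball (0 : E) 1 := mem_ball_zero_iff.mpr hz
  have hua : DifferentiableAt ℂ u z := hu.differentiableAt (isOpen_ball.mem_nhds hzm)
  have hva : DifferentiableAt ℂ v z := hv.differentiableAt (isOpen_ball.mem_nhds hzm)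
  have hd : fderiv ℂ (fun z => u z + v z) z = fderiv ℂ u z + fderiv ℂ v z := fderiv_fun_add hua hva
  have hb : b = bu + bv := by
    refine ext_inner_right ℂ fun x => ?_
    rw [← h1 x, hd, add_apply, hu1, hv1, inner_add_left]
  rw [← h2, ← hu2, ← hv2, Real.sqrt_sq (norm_nonneg _), Real.sqrt_sq (norm_nonneg _),
    Real.sqrt_sq (norm_nonneg _), hb]
  exact norm_add_le _ _

/-- product rule and `IG_rep` -/
theorem IG_mul {u v : E → ℂ} (hu : DifferentiableOn ℂ u (ball 0 1))
    (hv : DifferentiableOn ℂ v (ball 0 1)) {z : E} (hz : ‖z‖ < 1) :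
    Real.sqrt (IG2 (fun z => u z * v z) z) ≤
      ‖u z‖ * Real.sqrt (IG2 v z) + ‖v z‖ * Real.sqrt (IG2 u z) := by
  obtain ⟨bu, hu1, hu2⟩ := CG.IG_rep (u := u) hz
  obtain ⟨bv, hv1, hv2⟩ := CG.IG_rep (u := v) hz
  obtain ⟨b, h1, h2⟩ := CG.IG_rep (u := fun z => u z * v z) hz
  have hzm : z ∈ ball (0 : E) 1 := mem_ball_zero_iff.mpr hz
  have hua : DifferentiableAt ℂ u z := hu.differentiableAt (isOpen_ball.mem_nhds hzm)
  have hva : DifferentiableAt ℂ v z := hv.differentiableAt (isOpen_ball.mem_nhds hzm)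
  have hd : fderiv ℂ (fun z => u z * v z) z = u z • fderiv ℂ v z + v z • fderiv ℂ u z :=
    fderiv_fun_mul hua hva
  have hb : b = (starRingEnd ℂ (u z)) • bv + (starRingEnd ℂ (v z)) • bu := by
    refine ext_inner_right ℂ fun x => ?_
    rw [← h1 x, hd, add_apply, smul_apply, smul_apply, hu1, hv1, inner_add_left, inner_smul_left,
      inner_smul_left, Complex.conj_conj, Complex.conj_conj, smul_eq_mul, smul_eq_mul]
  rw [← h2, ← hu2, ← hv2, Real.sqrt_sq (norm_nonneg _), Real.sqrt_sq (norm_nonneg _),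
    Real.sqrt_sq (norm_nonneg _), hb]
  refine (norm_add_le _ _).trans ?_
  rw [norm_smul, norm_smul, RCLike.norm_conj, RCLike.norm_conj]

end Pool.Agent.MPca0fc2.PV
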