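import Mathlib
import Pool.Agent.Lib.MP_ca0fc2_an.PV.A1

set_option autoImplicit false
set_option linter.unusedSectionVars false

open Metric Set MeasureTheory Filter Topology
open scoped InnerProductSpace ENNReal ContDiff

/-! # Functions of the form `F ∘ pt P r` are calm -/

namespace Pool.Agent.MPca0fc2.PV

open Pool.Agent.Lib.MP_ca0fc2_an
open Pool.Agent.MPca0fc2.PT
open Pool.Agent.MPca0fc2.TE

variable {E : Type*} [NormedAddCommGroup E] [InnerProductSpace ℂ E]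

/-- the orthogonal projection on the line through `0` and the unit vector `e` -/
noncomputable def Pe (e : E) : E →L[ℂ] E := (innerSL ℂ e).smulRight e

/-- `⟪e, e⟫ = 1` -/
theorem Pe_prj {e : E} (he : ‖e‖ = 1) : Prj (Pe e) := by
  have h1 : ⟪e, e⟫_ℂ = 1 := by
    rw [inner_self_eq_norm_sq_to_K, he]
    simp
  have h2 : ∀ x : E, Pe e x = ⟪e, x⟫_ℂ • e := fun x => rfl
  refine ⟨fun x => ?_, fun x y => ?_⟩
  · rw [h2, h2, inner_smul_right, h1, mul_one]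
  · rw [h2, h2, inner_smul_left, inner_smul_right, inner_conj_symm, mul_comm]

theorem pt_Pe (e : E) (r : ℝ) (z : E) :
    pt (Pe e) r z = ⟪e, z⟫_ℂ • e + (r : ℂ) • (z - ⟪e, z⟫_ℂ • e) := rfl

/-- orthogonality -/
private theorem V4_orth {P : E →L[ℂ] E} (h : Prj P) (x y : E) :
    ⟪P x, y - P y⟫_ℂ = 0 ∧ ⟪x - P x, P y⟫_ℂ = 0 := by
  constructor
  · rw [inner_sub_right, h.sa x y, h.sa x (P y), h.idem, sub_self]
  · rw [inner_sub_left, h.sa x (P y), h.idem, sub_self]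

/-- the product of two points of the path -/
private theorem V4_inner {P : E →L[ℂ] E} (h : Prj P) (r : ℝ) (x y : E) :
    ⟪pt P r x, pt P r y⟫_ℂ = ⟪x, y⟫_ℂ - ((1 - r ^ 2 : ℝ) : ℂ) * ⟪x - P x, y - P y⟫_ℂ := by
  have h1 := (V4_orth h x y).1
  have h2 := (V4_orth h x y).2
  have h3 : ⟪x, y⟫_ℂ = ⟪P x, P y⟫_ℂ + ⟪x - P x, y - P y⟫_ℂ := by
    have h4 : ⟪P x + (x - P x), P y + (y - P y)⟫_ℂ =
        ⟪P x, P y⟫_ℂ + ⟪x - P x, y - P y⟫_ℂ := by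
      rw [inner_add_left, inner_add_right, inner_add_right, h1, h2, add_zero, zero_add]
    rwa [add_sub_cancel, add_sub_cancel] at h4
  unfold pt
  rw [inner_add_left, inner_add_right, inner_add_right, inner_smul_left, inner_smul_right,
    inner_smul_right, inner_smul_left, h1, h2, h3, Complex.conj_ofReal]
  push_cast
  ring

/-- the linear map `pt P r` -/
private noncomputable def V4_T (P : E →L[ℂ] E) (r : ℝ) : E →L[ℂ] E :=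
  P + (r : ℂ) • (ContinuousLinearMap.id ℂ E - P)

private theorem V4_nrm {P : E →L[ℂ] E} (h : Prj P) {r : ℝ} (hr0 : 0 ≤ r) (hr : r ≤ 1) (z : E) :
    ‖pt P r z‖ ≤ ‖z‖ := by
  have h1 := Dp_eq h r z
  have h2 := pyth h z
  unfold Dp at h1
  have h3 : r ^ 2 * ‖z - P z‖ ^ 2 ≤ 1 * ‖z - P z‖ ^ 2 :=
    mul_le_mul_of_nonneg_right (by nlinarith) (by positivity)
  refine le_of_sq_le_sq ?_ (norm_nonneg _)
  linarith

/-- the vector `gg' z 0 v` -/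
private theorem V4_X {z : E} (hz : ‖z‖ < 1) (v : E) :
    ⟪z, gg' z 0 v⟫_ℂ = ((1 - ‖z‖ ^ 2 : ℝ) : ℂ) * ⟪z, v⟫_ℂ ∧ ‖gg' z 0 v‖ ≤ 2 * ss z * ‖v‖ := by
  have hd : 0 < 1 - ‖z‖ ^ 2 := by nlinarith [norm_nonneg z]
  have hs0 : 0 < ss z := Real.sqrt_pos.2 hd
  have hs2 : ss z ^ 2 = 1 - ‖z‖ ^ 2 := Real.sq_sqrt hd.le
  have hX : gg' z 0 v = ((ss z : ℝ) : ℂ) • v -
      (((ss z * (1 + ss z)⁻¹ : ℝ) : ℂ) * ⟪z, v⟫_ℂ) • z := by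
    have h1 : gg' z 0 v = ((ss z : ℝ) : ℂ) • v + (((1 + ss z)⁻¹ : ℝ) : ℂ) • ⟪z, v⟫_ℂ • z -
        ⟪z, v⟫_ℂ • z := by
      simp [gg', gg, AA]
    have h2 : ((ss z * (1 + ss z)⁻¹ : ℝ) : ℂ) = 1 - (((1 + ss z)⁻¹ : ℝ) : ℂ) := by
      have h3 : ss z * (1 + ss z)⁻¹ = 1 - (1 + ss z)⁻¹ := by
        field_simp
        ring
      rw [h3]
      push_cast
      ring
    rw [h1, h2]
    module
  constructor
  · have hzz : ⟪z, z⟫_ℂ = ((‖z‖ ^ 2 : ℝ) : ℂ) := by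
      rw [inner_self_eq_norm_sq_to_K]
      push_cast
      rfl
    rw [hX, inner_sub_right, inner_smul_right, inner_smul_right, hzz]
    have h3 : ss z - ss z * (1 + ss z)⁻¹ * ‖z‖ ^ 2 = 1 - ‖z‖ ^ 2 := by
      have h4 : ‖z‖ ^ 2 = 1 - ss z ^ 2 := by linarith
      rw [h4]
      field_simp
      ring
    rw [← h3]
    push_cast
    ring
  · rw [hX]
    refine (norm_sub_le _ _).trans ?_
    rw [norm_smul, norm_smul, norm_mul, Complex.norm_real, Complex.norm_real,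
      Real.norm_of_nonneg hs0.le, Real.norm_of_nonneg (by positivity)]
    have h5 : ‖⟪z, v⟫_ℂ‖ ≤ ‖z‖ * ‖v‖ := norm_inner_le_norm z v
    have h6 : (1 + ss z)⁻¹ ≤ 1 := inv_le_one_of_one_le₀ (by linarith)
    have h7 : ‖⟪z, v⟫_ℂ‖ ≤ 1 * ‖v‖ :=
      h5.trans (mul_le_mul_of_nonneg_right hz.le (norm_nonneg _))
    have h8 : ss z * (1 + ss z)⁻¹ * ‖⟪z, v⟫_ℂ‖ * ‖z‖ ≤ ss z * 1 * (1 * ‖v‖) * 1 := by
      gcongr
    linarith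

/-- the bound for the derivative -/
private theorem V4_der [FiniteDimensional ℂ E] {P : E →L[ℂ] E} (h : Prj P) {r : ℝ} (hr0 : 0 ≤ r)
    (hr : r < 1) {F : E → ℂ} (hF : DifferentiableOn ℂ F (ball 0 1))
    (hFM : ∀ z ∈ ball (0 : E) 1, ‖F z‖ ≤ 1) {z : E} (hz : ‖z‖ < 1) (v : E) :
    ‖fderiv ℂ (fun z => F (pt P r z)) z (gg' z 0 v)‖ ≤
      15 / (1 - r ^ 2) * (√(1 - ‖z‖ ^ 2) / √(1 - ‖P z‖ ^ 2)) * ‖v‖ := by
  let : MeasurableSpace E := borel E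
  have : BorelSpace E := ⟨rfl⟩
  obtain ⟨X, hX⟩ : ∃ X, X = gg' z 0 v := ⟨_, rfl⟩
  obtain ⟨hX1, hX2⟩ := V4_X hz v
  rw [← hX] at hX1 hX2 ⊢
  have hyz : ‖pt P r z‖ < 1 := (V4_nrm h hr0 hr.le z).trans_lt hz
  have hder : fderiv ℂ (fun z => F (pt P r z)) z X = fderiv ℂ F (pt P r z) (pt P r X) := by
    have h1 : DifferentiableAt ℂ F (V4_T P r z) :=
      hF.differentiableAt (isOpen_ball.mem_nhds (mem_ball_zero_iff.2 hyz))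
    have h2 := (h1.hasFDerivAt.comp z (V4_T P r).hasFDerivAt).fderiv
    have h3 : fderiv ℂ (fun z => F (pt P r z)) z = fderiv ℂ (F ∘ V4_T P r) z := rfl
    rw [h3, h2]
    rfl
  rw [hder]
  refine (grad_bounded hF hFM hyz _).trans ?_
  have hd : 0 < 1 - ‖z‖ ^ 2 := by nlinarith [norm_nonneg z]
  obtain ⟨σ, hσ⟩ : ∃ σ, σ = √(1 - ‖z‖ ^ 2) := ⟨_, rfl⟩
  obtain ⟨τ, hτ⟩ : ∃ τ, τ = √(1 - ‖P z‖ ^ 2) := ⟨_, rfl⟩
  have hpy := pyth h z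
  have hs : 0 < 1 - ‖P z‖ ^ 2 := by nlinarith [norm_nonneg (z - P z)]
  have hσ0 : 0 < σ := by rw [hσ]; exact Real.sqrt_pos.2 hd
  have hτ0 : 0 < τ := by rw [hτ]; exact Real.sqrt_pos.2 hs
  have hσ2 : σ ^ 2 = 1 - ‖z‖ ^ 2 := by rw [hσ]; exact Real.sq_sqrt hd.le
  have hτ2 : τ ^ 2 = 1 - ‖P z‖ ^ 2 := by rw [hτ]; exact Real.sq_sqrt hs.le
  have hστ : σ ≤ τ := by
    rw [hσ, hτ]
    exact Real.sqrt_le_sqrt (by nlinarith [norm_nonneg (z - P z)])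
  have hss : ss z = σ := by rw [hσ]; rfl
  rw [hss] at hX2
  rw [← hσ, ← hτ]
  obtain ⟨κ, hκ⟩ : ∃ κ, κ = 1 - r ^ 2 := ⟨_, rfl⟩
  have hκ0 : 0 < κ := by rw [hκ]; nlinarith
  have hκ1 : κ ≤ 1 := by rw [hκ]; nlinarith
  rw [← hκ]
  have hD := Dp_eq h r z
  unfold Dp at hD
  have hDlow : κ * τ ^ 2 ≤ 1 - ‖pt P r z‖ ^ 2 := by
    have h1 : ‖z - P z‖ ^ 2 = τ ^ 2 - σ ^ 2 := by linarith
    rw [hD, h1, ← hτ2, hκ]
    nlinarith [mul_nonneg (sq_nonneg r) (sq_nonneg σ)]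
  have hDs : κ * τ ≤ √(1 - ‖pt P r z‖ ^ 2) := by
    refine Real.le_sqrt_of_sq_le ?_
    refine le_trans ?_ hDlow
    rw [mul_pow]
    have : κ ^ 2 ≤ κ := by nlinarith
    exact mul_le_mul_of_nonneg_right this (sq_nonneg _)
  have hXP : ‖X - P X‖ ≤ ‖X‖ := by
    have h1 := pyth h X
    refine le_of_sq_le_sq ?_ (norm_nonneg _)
    nlinarith [sq_nonneg ‖P X‖]
  have hzP : ‖z - P z‖ ≤ τ := by
    refine le_of_sq_le_sq ?_ hτ0.le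
    nlinarith
  have hin : ‖⟪pt P r z, pt P r X⟫_ℂ‖ ≤ 3 * (τ * σ) * ‖v‖ := by
    rw [V4_inner h r z X]
    refine (norm_sub_le _ _).trans ?_
    rw [hX1, norm_mul, norm_mul, Complex.norm_real, Complex.norm_real,
      Real.norm_of_nonneg hd.le, ← hκ, Real.norm_of_nonneg hκ0.le, ← hσ2]
    have h1 : ‖⟪z, v⟫_ℂ‖ ≤ 1 * ‖v‖ :=
      (norm_inner_le_norm z v).trans (mul_le_mul_of_nonneg_right hz.le (norm_nonneg _))
    have h2 : ‖⟪z - P z, X - P X⟫_ℂ‖ ≤ τ * (2 * σ * ‖v‖) :=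
      (norm_inner_le_norm _ _).trans
        (mul_le_mul hzP (hXP.trans hX2) (norm_nonneg _) hτ0.le)
    have h3 : σ ^ 2 * ‖⟪z, v⟫_ℂ‖ ≤ (τ * σ) * (1 * ‖v‖) := by
      refine mul_le_mul ?_ h1 (norm_nonneg _) (by positivity)
      rw [pow_two]
      exact mul_le_mul_of_nonneg_right hστ hσ0.le
    have h4 : κ * ‖⟪z - P z, X - P X⟫_ℂ‖ ≤ 1 * (τ * (2 * σ * ‖v‖)) :=
      mul_le_mul hκ1 h2 (norm_nonneg _) zero_le_one
    linarith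
  have hY : ‖pt P r X‖ ≤ 2 * σ * ‖v‖ := (V4_nrm h hr0 hr.le X).trans hX2
  unfold gau
  have h1 : ‖⟪pt P r z, pt P r X⟫_ℂ‖ / (1 - ‖pt P r z‖ ^ 2) ≤
      3 * (τ * σ) * ‖v‖ / (κ * τ ^ 2) :=
    div_le_div₀ (by positivity) hin (by positivity) hDlow
  have h2 : ‖pt P r X‖ / √(1 - ‖pt P r z‖ ^ 2) ≤ 2 * σ * ‖v‖ / (κ * τ) :=
    div_le_div₀ (by positivity) hY (by positivity) hDs
  calc 3 * 1 * (‖⟪pt P r z, pt P r X⟫_ℂ‖ / (1 - ‖pt P r z‖ ^ 2) +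
        ‖pt P r X‖ / √(1 - ‖pt P r z‖ ^ 2))
      ≤ 3 * 1 * (3 * (τ * σ) * ‖v‖ / (κ * τ ^ 2) + 2 * σ * ‖v‖ / (κ * τ)) := by
        have := add_le_add h1 h2
        linarith
    _ = 15 / κ * (σ / τ) * ‖v‖ := by
        field_simp
        ring

/-- The data `z ↦ F (P z + r (z - P z))`, `r < 1`. Proof. `IG_rep`: `IG2 u z = ‖b‖²` with
`fderiv u z (gg' z 0 v) = ⟪b, v⟫`, so it suffices that `‖fderiv u z (gg' z 0 v)‖ ≤
15 / (1 - r²) √(d / s) ‖v‖`, `d = 1 - ‖z‖²`, `s = 1 - ‖P z‖² ≥ d`. Let `X = gg' z 0 v`; from the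
definition `X = AA z v - ⟪z, v⟫ z` one gets `⟪z, X⟫ = d ⟪z, v⟫` and `‖X‖ ≤ 2 √d ‖v‖`
(`AA z v = √d v + (1 + √d)⁻¹ ⟪z, v⟫ z`). Let `y = pt P r z`, `Y = pt P r X`; `pt P r` is
linear, so `fderiv u z X = fderiv F y Y`; `1 - ‖y‖² ≥ (1 - r²) s`, `‖Y‖ ≤ ‖X‖`,
`⟪y, Y⟫ = ⟪z, X⟫ - (1 - r²) ⟪z - P z, X - P X⟫`, so `‖⟪y, Y⟫‖ ≤ d ‖v‖ + √s ‖X‖ ≤ 3 √(s d) ‖v‖`;
`grad_bounded` for `F` (with `M = 1`) and the definition of `gau`. -/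
theorem pv_grad [FiniteDimensional ℂ E] {P : E →L[ℂ] E} (h : Prj P) {r : ℝ} (hr0 : 0 ≤ r)
    (hr : r < 1) {F : E → ℂ} (hF : DifferentiableOn ℂ F (ball 0 1))
    (hFM : ∀ z ∈ ball (0 : E) 1, ‖F z‖ ≤ 1) {z : E} (hz : ‖z‖ < 1) :
    IG2 (fun z => F (pt P r z)) z ≤ 225 / (1 - r ^ 2) ^ 2 * ro P z := by
  obtain ⟨b, hb1, hb2⟩ := CG.IG_rep (u := fun z => F (pt P r z)) hz
  have hκ0 : 0 < 1 - r ^ 2 := by nlinarith
  have hd : 0 < 1 - ‖z‖ ^ 2 := by nlinarith [norm_nonneg z]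
  have hpy := pyth h z
  have hs : 0 < 1 - ‖P z‖ ^ 2 := by nlinarith [norm_nonneg (z - P z)]
  obtain ⟨K, hK⟩ : ∃ K, K = 15 / (1 - r ^ 2) * (√(1 - ‖z‖ ^ 2) / √(1 - ‖P z‖ ^ 2)) := ⟨_, rfl⟩
  have hK0 : 0 ≤ K := by rw [hK]; positivity
  have h1 : ‖b‖ * ‖b‖ ≤ K * ‖b‖ := by
    have h2 := V4_der h hr0 hr hF hFM hz b
    rw [hb1 b, inner_self_eq_norm_sq_to_K, norm_pow, ← hK] at h2
    have h3 : ‖((‖b‖ : ℝ) : ℂ)‖ = ‖b‖ := by simp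
    have h4 : ‖((‖b‖ : ℝ) : ℂ)‖ ^ 2 ≤ K * ‖b‖ := h2
    rw [h3] at h4
    nlinarith
  have h2 : ‖b‖ ≤ K := by
    rcases (norm_nonneg b).eq_or_lt with h3 | h3
    · rw [← h3]; exact hK0
    · exact le_of_mul_le_mul_right h1 h3
  have h3 : ‖b‖ ^ 2 ≤ K ^ 2 := pow_le_pow_left₀ (norm_nonneg _) h2 2
  rw [← hb2]
  refine h3.trans (le_of_eq ?_)
  rw [hK, mul_pow, div_pow, div_pow, Real.sq_sqrt hd.le, Real.sq_sqrt hs.le]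
  unfold ro
  norm_num

end Pool.Agent.MPca0fc2.PV
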