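import Mathlib
import Pool.Agent.Lib.MP_ca0fc2_an.PV.Defs
import Pool.Agent.Lib.MP_ca0fc2_an.PV.V4

/-!
# Definitions for several lines through a boundary point, MP_ca0fc2_an

`‖p‖ = 1`. In the Siegel coordinates with pole `p` the point `z` has the horizontal coordinate
`zt p z` (orthogonal to `p`), the height `tt p z`, and `(1 + ⟪p, z⟫)/(1 - ⟪p, z⟫)` has the real part
`tt p z + ‖zt p z‖²`. The complex lines through `p` are the sets `zt p z = const`.
-/

set_option autoImplicit false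

open Metric Set MeasureTheory Filter Topology
open scoped InnerProductSpace ENNReal ContDiff

namespace Pool.Agent.MPca0fc2.PV

open Pool.Agent.MPca0fc2.PT
open Pool.Agent.MPca0fc2.TS
open Pool.Agent.MPca0fc2.TE

variable {E : Type*} [NormedAddCommGroup E] [InnerProductSpace ℂ E]

/-- horizontal coordinate with the pole `p` -/
noncomputable def zt (p z : E) : E := (1 - ⟪p, z⟫_ℂ)⁻¹ • (z - ⟪p, z⟫_ℂ • p)

/-- height with the pole `p` -/
noncomputable def tt (p z : E) : ℝ := (1 - ‖z‖ ^ 2) / ‖1 - ⟪p, z⟫_ℂ‖ ^ 2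

/-- the inner function with the pole `p` -/
noncomputable def EE (p z : E) : ℂ := Complex.exp (-((1 + ⟪p, z⟫_ℂ) / (1 - ⟪p, z⟫_ℂ)))

/-- the depth relative to the complex line `zt p = b`: the supremum of `HH · z` over the line -/
noncomputable def rs (p b z : E) : ℝ := tt p z / (tt p z + ‖zt p z - b‖ ^ 2)

/-- the line through `0` and `p` is, up to the factor `K`, the nearest one to `z` -/
def Nr (K : ℝ) (A : Set E) (p z : E) : Prop :=
  ∀ b ∈ linU A p, ‖b‖ < 1 → HH b z ≤ K * ro (Pe p) z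

/-- the depth relative to a set -/
noncomputable def HS (S : Set E) (z : E) : ℝ := sSup ((fun b => HH b z) '' (S ∩ ball 0 1))

/-- Bounded holomorphic functions on the ball, whose invariant gradient (to the power `κ`) is, near
`p`, a summable function of the hyperbolic distance to `S`. -/
def CalmN (κ : ℝ) (S : Set E) (p : E) (u : E → ℂ) : Prop :=
  DifferentiableOn ℂ u (ball 0 1) ∧ (∃ C : ℝ, ∀ z ∈ ball (0 : E) 1, ‖u z‖ ≤ C) ∧
    ∃ s : ℝ, 0 < s ∧ ∃ W : ℕ → ℝ, Summable W ∧ ∀ (k : ℕ) (z : E), z ∈ ball (0 : E) 1 →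
      ‖z - p‖ < s → (∀ b ∈ S, ‖b‖ < 1 → 2 ^ k * HH b z ≤ 1) → IG2 u z ^ (κ / 2) ≤ W k

open Pool.Agent.Lib.MP_ca0fc2_an in
/-- Characters over `p` see the cells of the functions which are calm off `S` near `p`. -/
structure GoodN (p : E) (S : Set E) : Prop where
  /-- data with bounded solutions on a cell are not in the kernel -/
  sol : ∀ X : Char Unit E, Over X p → ∀ (m : ℕ) (a : Fin m → E → ℂ), (∀ i, CalmN 1 S p (a i)) →
    ∀ s : ℝ, 0 < s → ∀ (N : ℕ) (f k : Fin N → E → ℂ) (B : ℝ),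
    (∀ j, DifferentiableOn ℂ (f j) (ball 0 1)) → (∀ j, ∀ z ∈ ball (0 : E) 1, ‖f j z‖ ≤ B) →
    (∀ j, DifferentiableOn ℂ (k j) {z | z ∈ ball (0 : E) 1 ∧ ‖z - p‖ < s ∧
      ∀ i, ‖a i z - X.φ (fun _ => a i)‖ < s}) →
    (∀ z ∈ ball (0 : E) 1, ‖z - p‖ < s → (∀ i, ‖a i z - X.φ (fun _ => a i)‖ < s) →
      ∑ j, f j z * k j z = 1 ∧ ∀ j, ‖k j z‖ ≤ B) → ∃ j, X.φ (fun _ => f j) ≠ 0
  /-- joint cluster values -/
  near : ∀ X : Char Unit E, Over X p → ∀ (m : ℕ) (a : Fin m → E → ℂ),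
    (∀ i, CalmN 1 S p (a i)) → ∀ (N : ℕ) (v : Fin N → E → ℂ), (∀ j, CalmN 2 S p (v j)) →
    ∀ s : ℝ, 0 < s → ∃ z ∈ ball (0 : E) 1, ‖z - p‖ < s ∧
      (∀ i, ‖a i z - X.φ (fun _ => a i)‖ < s) ∧ ∀ j, ‖v j z - X.φ (fun _ => v j)‖ < s

end Pool.Agent.MPca0fc2.PV
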