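import Mathlib
import Pool.Agent.Lib.MP_ca0fc2_an.PV.M0
import Pool.Agent.Lib.MP_ca0fc2_an.Mg.G049

set_option autoImplicit false
set_option linter.unusedSectionVars false

open Metric Set MeasureTheory Filter Topology
open scoped InnerProductSpace ENNReal ContDiff

/-! # The depth relative to a set, and the weight of a density with a profile -/

namespace Pool.Agent.MPca0fc2.PV

open Pool.Agent.MPca0fc2.PT
open Pool.Agent.MPca0fc2.TS
open Pool.Agent.MPca0fc2.TE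

variable {E : Type*} [NormedAddCommGroup E] [InnerProductSpace ℂ E]

/-- `HH_le_one`, `le_csSup` -/
theorem HS_ge {S : Set E} {z b : E} (hz : ‖z‖ < 1) (hb : b ∈ S) (hb1 : ‖b‖ < 1) :
    HH b z ≤ HS S z := by
  refine le_csSup ⟨1, ?_⟩ ⟨b, ⟨hb, mem_ball_zero_iff.2 hb1⟩, rfl⟩
  rintro _ ⟨c, ⟨_, hc⟩, rfl⟩
  exact HH_le_one (mem_ball_zero_iff.1 hc) hz

theorem HS_le {S : Set E} (hS : (S ∩ ball 0 1).Nonempty) {z : E} {c : ℝ}
    (h : ∀ b ∈ S, ‖b‖ < 1 → HH b z ≤ c) : HS S z ≤ c := by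
  refine csSup_le (hS.image _) ?_
  rintro _ ⟨b, ⟨hb, hb1⟩, rfl⟩
  exact h b hb (mem_ball_zero_iff.1 hb1)

theorem HS_pos {S : Set E} (hS : (S ∩ ball 0 1).Nonempty) {z : E} (hz : ‖z‖ < 1) :
    0 < HS S z ∧ HS S z ≤ 1 := by
  refine ⟨?_, HS_le hS fun b _ hb1 => HH_le_one hb1 hz⟩
  obtain ⟨b, hb, hb1⟩ := hS
  have hb1 : ‖b‖ < 1 := mem_ball_zero_iff.1 hb1
  exact (HH_pos hb1 hz).trans_le (HS_ge hz hb hb1)

/-- `HH_mul` -/
theorem HS_mul {S : Set E} (hS : (S ∩ ball 0 1).Nonempty) {x y : E} (hx : ‖x‖ < 1)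
    (hy : ‖y‖ < 1) : HS S x * HH x y ≤ 4 * HS S y := by
  have h0 := HH_pos hx hy
  rw [← le_div_iff₀ h0]
  refine HS_le hS fun b hb hb1 => ?_
  rw [le_div_iff₀ h0]
  have h1 := HH_mul hb1 hx hy
  have h2 := HS_ge hy hb hb1
  linarith

end Pool.Agent.MPca0fc2.PV
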