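import Mathlib
import Pool.Agent.Lib.MP_ca0fc2_an.PV.T1
import Pool.Agent.Lib.MP_ca0fc2_an.TE.G1

set_option autoImplicit false
set_option linter.unusedSectionVars false

open Metric Set MeasureTheory Filter Topology
open scoped InnerProductSpace ENNReal ContDiff

/-! # The integral of the profile over a geodesic -/

namespace Pool.Agent.MPca0fc2.PV

open Pool.Agent.MPca0fc2.TE

private theorem T2_qq_cont : ContinuousOn qq (Ioi 0) := by
  have h1 : ContinuousOn (fun x : ℝ => x ^ (1 / 32 : ℝ)) (Ioi 0) :=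
    (continuous_id.rpow_const (fun x => Or.inr (by norm_num))).continuousOn
  have h2 : ContinuousOn (fun x : ℝ => x ^ (-(1 / 32) : ℝ)) (Ioi 0) :=
    continuousOn_id.rpow_const (fun x hx => Or.inl (ne_of_gt hx))
  exact h1.inf h2

private noncomputable def T2_F (u : ℝ) : ℝ :=
  32 * (min u 1) ^ (1 / 32 : ℝ) + (64 - 32 * (max u 1) ^ (-(1 / 32) : ℝ)) - 32

private theorem T2_F_cont : Continuous T2_F := by
  unfold T2_F
  have h1 : Continuous fun u : ℝ => (min u 1) ^ (1 / 32 : ℝ) :=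
    (continuous_id.min continuous_const).rpow_const (fun x => Or.inr (by norm_num))
  have h2 : Continuous fun u : ℝ => (max u 1) ^ (-(1 / 32) : ℝ) :=
    (continuous_id.max continuous_const).rpow_const
      (fun x => Or.inl (ne_of_gt (lt_of_lt_of_le one_pos (le_max_right _ _))))
  fun_prop

private theorem T2_F_bd {u : ℝ} (hu : 0 ≤ u) : 0 ≤ T2_F u ∧ T2_F u ≤ 64 := by
  unfold T2_F
  have h1 : 0 ≤ (min u 1) ^ (1 / 32 : ℝ) := Real.rpow_nonneg (le_min hu zero_le_one) _
  have h2 : (min u 1) ^ (1 / 32 : ℝ) ≤ 1 :=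
    Real.rpow_le_one (le_min hu zero_le_one) (min_le_right _ _) (by norm_num)
  have h3 : 0 ≤ (max u 1) ^ (-(1 / 32) : ℝ) :=
    Real.rpow_nonneg (le_trans zero_le_one (le_max_right _ _)) _
  have h4 : (max u 1) ^ (-(1 / 32) : ℝ) ≤ 1 :=
    Real.rpow_le_one_of_one_le_of_nonpos (le_max_right _ _) (by norm_num)
  constructor <;> linarith

private theorem T2_F_deriv {u : ℝ} (hu : 0 < u) (hu1 : u ≠ 1) : HasDerivAt T2_F (qq u / u) u := by
  rcases lt_or_gt_of_ne hu1 with h | h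
  · have hd : HasDerivAt (fun u : ℝ => 32 * u ^ (1 / 32 : ℝ)) (32 * ((1 / 32 : ℝ) * u ^ ((1 / 32 : ℝ) - 1))) u :=
      (Real.hasDerivAt_rpow_const (Or.inl hu.ne')).const_mul 32
    have he : T2_F =ᶠ[𝓝 u] fun u : ℝ => 32 * u ^ (1 / 32 : ℝ) := by
      filter_upwards [Iio_mem_nhds h] with v hv
      have hv1 : v < 1 := hv
      unfold T2_F
      rw [min_eq_left hv1.le, max_eq_right hv1.le, Real.one_rpow]
      ring
    have hq : qq u = u ^ (1 / 32 : ℝ) := by
      unfold qq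
      apply min_eq_left
      exact le_trans (Real.rpow_le_one hu.le h.le (by norm_num))
        (Real.one_le_rpow_of_pos_of_le_one_of_nonpos hu h.le (by norm_num))
    have hval : qq u / u = 32 * ((1 / 32 : ℝ) * u ^ ((1 / 32 : ℝ) - 1)) := by
      rw [hq, Real.rpow_sub hu, Real.rpow_one]
      ring
    rw [hval]
    exact hd.congr_of_eventuallyEq he
  · have hd : HasDerivAt (fun u : ℝ => 64 - 32 * u ^ (-(1 / 32) : ℝ))
        (-(32 * ((-(1 / 32) : ℝ) * u ^ ((-(1 / 32) : ℝ) - 1)))) u :=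
      ((Real.hasDerivAt_rpow_const (Or.inl hu.ne')).const_mul 32).const_sub 64
    have he : T2_F =ᶠ[𝓝 u] fun u : ℝ => 64 - 32 * u ^ (-(1 / 32) : ℝ) := by
      filter_upwards [Ioi_mem_nhds h] with v hv
      have hv1 : 1 < v := hv
      unfold T2_F
      rw [min_eq_right hv1.le, max_eq_left hv1.le, Real.one_rpow]
      ring
    have hq : qq u = u ^ (-(1 / 32) : ℝ) := by
      unfold qq
      apply min_eq_right
      exact le_trans (Real.rpow_le_one_of_one_le_of_nonpos h.le (by norm_num))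
        (Real.one_le_rpow h.le (by norm_num))
    have hval : qq u / u = -(32 * ((-(1 / 32) : ℝ) * u ^ ((-(1 / 32) : ℝ) - 1))) := by
      rw [hq, Real.rpow_sub hu, Real.rpow_one]
      ring
    rw [hval]
    exact hd.congr_of_eventuallyEq he

private theorem T2_one_sub {t r : ℝ} (ht : t ∈ Icc (0 : ℝ) 1) (hr : 0 ≤ r) (hr1 : r < 1) :
    0 < 1 - t * r := by
  have : t * r ≤ r := mul_le_of_le_one_left hr ht.2
  linarith

private theorem T2_cont {c r : ℝ} (hc : 0 < c) (hr : 0 ≤ r) (hr1 : r < 1) :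
    ContinuousOn (fun t : ℝ => qq (c * (1 - t * r)) * (r / (1 - t * r))) (Icc 0 1) := by
  apply ContinuousOn.mul
  · apply T2_qq_cont.comp (by fun_prop)
    intro t ht
    exact mul_pos hc (T2_one_sub ht hr hr1)
  · apply ContinuousOn.div (by fun_prop) (by fun_prop)
    intro t ht
    exact (T2_one_sub ht hr hr1).ne'

/-- The antiderivative of `qq u / u` is `32 u^(1/32)` for `u ≤ 1` and `64 - 32 u^(-1/32)` for
`u ≥ 1` (of class `C¹`, between `0` and `64`); substitute `u = c (1 - t r)`. -/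
theorem qq_int {c r : ℝ} (hc : 0 < c) (hr : 0 ≤ r) (hr1 : r < 1) :
    ∫ t in Icc (0 : ℝ) 1, qq (c * (1 - t * r)) * (r / (1 - t * r)) ≤ 64 := by
  rcases eq_or_lt_of_le hr with h0 | h0
  · subst h0
    simp
  · have hlt : ∀ t ∈ Icc (0 : ℝ) 1, 0 < 1 - t * r := fun t ht => T2_one_sub ht hr hr1
    rw [integral_Icc_eq_integral_Ioc, ← intervalIntegral.integral_of_le zero_le_one]
    have hcont : ContinuousOn (fun t : ℝ => -(qq (c * (1 - t * r)) * (r / (1 - t * r)))) (Icc 0 1) :=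
      (T2_cont hc hr hr1).neg
    have hcont' : ContinuousOn (fun t : ℝ => -(qq (c * (1 - t * r)) * (r / (1 - t * r))))
        (uIcc 0 1) := by
      rwa [uIcc_of_le zero_le_one]
    have hs : ({t : ℝ | c * (1 - t * r) = 1}).Countable := by
      apply Set.Subsingleton.countable
      intro a ha b hb
      have ha' : c * (1 - a * r) = 1 := ha
      have hb' : c * (1 - b * r) = 1 := hb
      have h1 : c * (1 - a * r) = c * (1 - b * r) := by rw [ha', hb']
      have h2 : 1 - a * r = 1 - b * r := mul_left_cancel₀ hc.ne' h1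
      have h3 : a * r = b * r := by linarith
      exact mul_right_cancel₀ h0.ne' h3
    have key := MeasureTheory.integral_eq_of_hasDerivAt_off_countable
      (fun t : ℝ => T2_F (c * (1 - t * r)))
      (fun t : ℝ => -(qq (c * (1 - t * r)) * (r / (1 - t * r)))) (a := 0) (b := 1) hs
      ((T2_F_cont.comp (by fun_prop)).continuousOn) ?_ hcont'.intervalIntegrable
    · rw [intervalIntegral.integral_neg] at key
      have e0 := T2_F_bd (u := c * (1 - 0 * r)) (mul_pos hc (hlt 0 ⟨le_refl _, zero_le_one⟩)).le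
      have e1 := T2_F_bd (u := c * (1 - 1 * r)) (mul_pos hc (hlt 1 ⟨zero_le_one, le_refl _⟩)).le
      linarith [e0.2, e1.1]
    · intro t ht
      have ht' : t ∈ Ioo (0 : ℝ) 1 := by
        have := ht.1
        rwa [min_eq_left zero_le_one, max_eq_right zero_le_one] at this
      have hpos := hlt t ⟨ht'.1.le, ht'.2.le⟩
      have hne : c * (1 - t * r) ≠ 1 := ht.2
      have h1 := T2_F_deriv (mul_pos hc hpos) hne
      have h2 : HasDerivAt (fun t : ℝ => c * (1 - t * r)) (c * (-(1 * r))) t :=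
        (((hasDerivAt_id t).mul_const r).const_sub 1).const_mul c
      have h3 := h1.comp t h2
      have hv : -(qq (c * (1 - t * r)) * (r / (1 - t * r))) =
          qq (c * (1 - t * r)) / (c * (1 - t * r)) * (c * (-(1 * r))) := by
        field_simp
      rw [hv]
      exact h3

/-- Proof. For `0 ≤ t ≤ 1`: `1 - t r ≤ 1 - t² r² ≤ 2 (1 - t r)`, so `Th W (1 - t² r²) ≤
3 Th W (1 - t r)` (`Th_cmp`) and `r / (1 - t² r²) ≤ r / (1 - t r)`. The integral of
`Th W (1 - t r) r / (1 - t r)` is the sum of the integrals of the terms (`hasSum_integral_of_...`,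
`integral_tsum`, or with `lintegral_tsum`; the terms are nonnegative and continuous), each at most
`64 W i` by `qq_int`. `3 * 64 ≤ 200`. -/
theorem Th_int {W : ℕ → ℝ} (hW0 : ∀ i, 0 ≤ W i) (hW : Summable W) {r : ℝ} (hr : 0 ≤ r)
    (hr1 : r < 1) :
    ∫ t in Icc (0 : ℝ) 1, Th W (1 - t ^ 2 * r ^ 2) * (r / (1 - t ^ 2 * r ^ 2)) ≤
      200 * ∑' i, W i := by
  have hlt : ∀ t ∈ Icc (0 : ℝ) 1, 0 < 1 - t * r := fun t ht => T2_one_sub ht hr hr1
  have hlt2 : ∀ t ∈ Icc (0 : ℝ) 1, 1 - t * r ≤ 1 - t ^ 2 * r ^ 2 := by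
    intro t ht
    have h1 : 0 ≤ t * r := mul_nonneg ht.1 hr
    have h2 := hlt t ht
    nlinarith
  have hlt3 : ∀ t ∈ Icc (0 : ℝ) 1, 0 < 1 - t ^ 2 * r ^ 2 := fun t ht =>
    lt_of_lt_of_le (hlt t ht) (hlt2 t ht)
  have hcW : Summable fun i => 64 * W i := hW.mul_left 64
  have hterm : ∀ i, IntegrableOn (fun t : ℝ => W i * qq (2 ^ i * (1 - t * r)) * (r / (1 - t * r)))
      (Icc 0 1) := by
    intro i
    have h0 : ContinuousOn (fun t : ℝ => W i * qq (2 ^ i * (1 - t * r)) * (r / (1 - t * r)))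
        (Icc 0 1) := by
      have h1 : ContinuousOn
          (fun t : ℝ => W i * (qq (2 ^ i * (1 - t * r)) * (r / (1 - t * r)))) (Icc 0 1) :=
        continuousOn_const.mul (T2_cont (c := (2 : ℝ) ^ i) (by positivity) hr hr1)
      refine h1.congr (fun t _ => ?_)
      ring
    exact h0.integrableOn_Icc
  have hnn : ∀ i, ∀ t ∈ Icc (0 : ℝ) 1, 0 ≤ W i * qq (2 ^ i * (1 - t * r)) * (r / (1 - t * r)) := by
    intro i t ht
    have h1 := hlt t ht
    have h2 : 0 < qq (2 ^ i * (1 - t * r)) := (qq_pos (by positivity)).1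
    have := hW0 i
    positivity
  have hle : ∀ i, ∫ t in Icc (0 : ℝ) 1, W i * qq (2 ^ i * (1 - t * r)) * (r / (1 - t * r)) ≤
      64 * W i := by
    intro i
    have h1 : ∫ t in Icc (0 : ℝ) 1, W i * qq (2 ^ i * (1 - t * r)) * (r / (1 - t * r)) =
        W i * ∫ t in Icc (0 : ℝ) 1, qq (2 ^ i * (1 - t * r)) * (r / (1 - t * r)) := by
      rw [← integral_const_mul]
      congr 1
      ext t
      ring
    rw [h1]
    have h2 := qq_int (c := (2 : ℝ) ^ i) (by positivity) hr hr1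
    nlinarith [hW0 i]
  have hnorm : ∀ i, ∫ t in Icc (0 : ℝ) 1, ‖W i * qq (2 ^ i * (1 - t * r)) * (r / (1 - t * r))‖ =
      ∫ t in Icc (0 : ℝ) 1, W i * qq (2 ^ i * (1 - t * r)) * (r / (1 - t * r)) := by
    intro i
    apply setIntegral_congr_fun measurableSet_Icc
    intro t ht
    exact Real.norm_of_nonneg (hnn i t ht)
  have hS : Summable fun i => ∫ t in Icc (0 : ℝ) 1,
      ‖W i * qq (2 ^ i * (1 - t * r)) * (r / (1 - t * r))‖ := by
    apply Summable.of_nonneg_of_le (fun i => integral_nonneg (fun t => norm_nonneg _)) _ hcW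
    intro i
    rw [hnorm i]
    exact hle i
  have hsum := hasSum_integral_of_summable_integral_norm hterm hS
  have hT : ∫ t in Icc (0 : ℝ) 1, Th W (1 - t * r) * (r / (1 - t * r)) ≤ 64 * ∑' i, W i := by
    have h1 : ∫ t in Icc (0 : ℝ) 1, Th W (1 - t * r) * (r / (1 - t * r)) =
        ∫ t in Icc (0 : ℝ) 1, ∑' i, W i * qq (2 ^ i * (1 - t * r)) * (r / (1 - t * r)) := by
      apply setIntegral_congr_fun measurableSet_Icc
      intro t ht
      change Th W (1 - t * r) * (r / (1 - t * r)) =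
        ∑' i, W i * qq (2 ^ i * (1 - t * r)) * (r / (1 - t * r))
      unfold Th
      rw [← tsum_mul_right]
    rw [h1, ← hsum.tsum_eq, ← tsum_mul_left]
    exact hsum.summable.tsum_le_tsum hle hcW
  have hcT1 : ContinuousOn (fun t : ℝ => Th W (1 - t ^ 2 * r ^ 2) * (r / (1 - t ^ 2 * r ^ 2)))
      (Icc 0 1) := by
    apply ContinuousOn.mul
    · exact (Th_cont hW0 hW).comp (by fun_prop) (fun t ht => hlt3 t ht)
    · exact ContinuousOn.div (by fun_prop) (by fun_prop) (fun t ht => (hlt3 t ht).ne')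
  have hcT2 : ContinuousOn (fun t : ℝ => 3 * (Th W (1 - t * r) * (r / (1 - t * r))))
      (Icc 0 1) := by
    apply ContinuousOn.mul continuousOn_const
    apply ContinuousOn.mul
    · exact (Th_cont hW0 hW).comp (by fun_prop) (fun t ht => hlt t ht)
    · exact ContinuousOn.div (by fun_prop) (by fun_prop) (fun t ht => (hlt t ht).ne')
  have hmono : ∫ t in Icc (0 : ℝ) 1, Th W (1 - t ^ 2 * r ^ 2) * (r / (1 - t ^ 2 * r ^ 2)) ≤
      ∫ t in Icc (0 : ℝ) 1, 3 * (Th W (1 - t * r) * (r / (1 - t * r))) := by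
    apply setIntegral_mono_on hcT1.integrableOn_Icc hcT2.integrableOn_Icc measurableSet_Icc
    intro t ht
    have a1 := hlt t ht
    have a2 := hlt2 t ht
    have a3 := hlt3 t ht
    have b0 : 0 ≤ Th W (1 - t * r) := Th_nonneg hW0 a1
    have b1 := Th_cmp hW0 hW a3 a1
    have c1 : ((1 - t ^ 2 * r ^ 2) / (1 - t * r)) ^ (1 / 32 : ℝ) ≤ 2 := by
      have d1 : (1 - t ^ 2 * r ^ 2) / (1 - t * r) = 1 + t * r := by
        field_simp
        ring
      rw [d1]
      have d2 : t * r ≤ 1 := by linarith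
      have d3 : 1 ≤ 1 + t * r := by linarith [mul_nonneg ht.1 hr]
      calc (1 + t * r) ^ (1 / 32 : ℝ) ≤ (1 + t * r) ^ (1 : ℝ) :=
            Real.rpow_le_rpow_of_exponent_le d3 (by norm_num)
        _ = 1 + t * r := Real.rpow_one _
        _ ≤ 2 := by linarith
    have c2 : ((1 - t * r) / (1 - t ^ 2 * r ^ 2)) ^ (1 / 32 : ℝ) ≤ 1 := by
      apply Real.rpow_le_one (by positivity) _ (by norm_num)
      rw [div_le_one a3]
      exact a2
    have b2 : Th W (1 - t ^ 2 * r ^ 2) ≤ 3 * Th W (1 - t * r) := by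
      refine le_trans b1 ?_
      apply mul_le_mul_of_nonneg_right _ b0
      linarith
    have b3 : r / (1 - t ^ 2 * r ^ 2) ≤ r / (1 - t * r) :=
      div_le_div_of_nonneg_left hr a1 a2
    calc Th W (1 - t ^ 2 * r ^ 2) * (r / (1 - t ^ 2 * r ^ 2))
        ≤ (3 * Th W (1 - t * r)) * (r / (1 - t * r)) :=
          mul_le_mul b2 b3 (by positivity) (by positivity)
      _ = 3 * (Th W (1 - t * r) * (r / (1 - t * r))) := by ring
  rw [integral_const_mul] at hmono
  have hs0 : 0 ≤ ∑' i, W i := tsum_nonneg hW0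
  linarith

variable {E : Type*} [NormedAddCommGroup E] [InnerProductSpace ℂ E]

/-- Proof. `r = rr P z ∈ [0, 1)`; `P (pt P t z) = P z` and `ro P (pt P t z) = 1 - t² r²`
(`rr_facts`, `Dp_eq`), so the integrand of `GI` is at most `A * Th W (1 - t² r²) (r/(1 - t² r²))`,
which is continuous in `t` (`Th_cont`), and `Th_int`. If the integrand of `GI` is not integrable,
then `GI = 0`. -/
theorem pv_GI {P : E →L[ℂ] E} (h : Prj P) {Φ : E → ℝ} {A : ℝ} (hA : 0 ≤ A) {W : ℕ → ℝ}
    (hW0 : ∀ i, 0 ≤ W i) (hW : Summable W) (hΦ0 : ∀ y : E, ‖y‖ < 1 → 0 ≤ Φ y)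
    (hΦ : ∀ y : E, ‖y‖ < 1 → Φ y ≤ A * Th W (ro P y)) {z : E} (hz : ‖z‖ < 1) :
    GI Φ P z ≤ 200 * A * ∑' i, W i := by
  have hs0 : 0 ≤ ∑' i, W i := tsum_nonneg hW0
  have hR : 0 ≤ 200 * A * ∑' i, W i := by positivity
  obtain ⟨r0, r1, hb, -, -⟩ := rr_facts h hz 0
  have hlt3 : ∀ t ∈ Icc (0 : ℝ) 1, 0 < 1 - t ^ 2 * rr P z ^ 2 := by
    intro t ht
    have h1 := T2_one_sub ht r0 r1
    have h2 : 0 ≤ t * rr P z := mul_nonneg ht.1 r0
    nlinarith
  have hPpt : ∀ t : ℝ, P (pt P t z) = P z := by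
    intro t
    unfold pt
    rw [map_add, map_smul, map_sub, h.idem, sub_self, smul_zero, add_zero]
  have hDp : ∀ t : ℝ, 1 - ‖pt P t z‖ ^ 2 = (1 - ‖P z‖ ^ 2) * (1 - t ^ 2 * rr P z ^ 2) := by
    intro t
    rw [Dp_eq h]
    exact (rr_facts h hz t).2.2.2.2
  have hro : ∀ t : ℝ, ro P (pt P t z) = 1 - t ^ 2 * rr P z ^ 2 := by
    intro t
    unfold ro
    rw [hPpt, hDp]
    field_simp
  have hn : ∀ t ∈ Icc (0 : ℝ) 1, ‖pt P t z‖ < 1 := by
    intro t ht
    have h1 : 0 < 1 - ‖pt P t z‖ ^ 2 := by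
      rw [hDp]
      exact mul_pos hb (hlt3 t ht)
    by_contra hcon
    push Not at hcon
    nlinarith [norm_nonneg (pt P t z)]
  unfold GI
  by_cases hint : IntegrableOn
      (fun t : ℝ => Φ (pt P t z) * (rr P z / (1 - t ^ 2 * rr P z ^ 2))) (Icc 0 1)
  · have hcT1 : ContinuousOn (fun t : ℝ => A * (Th W (1 - t ^ 2 * rr P z ^ 2) *
        (rr P z / (1 - t ^ 2 * rr P z ^ 2)))) (Icc 0 1) := by
      apply ContinuousOn.mul continuousOn_const
      apply ContinuousOn.mul
      · exact (Th_cont hW0 hW).comp (by fun_prop) (fun t ht => hlt3 t ht)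
      · exact ContinuousOn.div (by fun_prop) (by fun_prop) (fun t ht => (hlt3 t ht).ne')
    have hmono : ∫ t in Icc (0 : ℝ) 1, Φ (pt P t z) * (rr P z / (1 - t ^ 2 * rr P z ^ 2)) ≤
        ∫ t in Icc (0 : ℝ) 1, A * (Th W (1 - t ^ 2 * rr P z ^ 2) *
        (rr P z / (1 - t ^ 2 * rr P z ^ 2))) := by
      apply setIntegral_mono_on hint hcT1.integrableOn_Icc measurableSet_Icc
      intro t ht
      have a1 := hΦ _ (hn t ht)
      rw [hro t] at a1
      have a2 : 0 ≤ rr P z / (1 - t ^ 2 * rr P z ^ 2) := div_nonneg r0 (hlt3 t ht).le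
      calc Φ (pt P t z) * (rr P z / (1 - t ^ 2 * rr P z ^ 2))
          ≤ (A * Th W (1 - t ^ 2 * rr P z ^ 2)) * (rr P z / (1 - t ^ 2 * rr P z ^ 2)) :=
            mul_le_mul_of_nonneg_right a1 a2
        _ = A * (Th W (1 - t ^ 2 * rr P z ^ 2) * (rr P z / (1 - t ^ 2 * rr P z ^ 2))) := by ring
    rw [integral_const_mul] at hmono
    have hI := Th_int hW0 hW r0 r1
    calc ∫ t in Icc (0 : ℝ) 1, Φ (pt P t z) * (rr P z / (1 - t ^ 2 * rr P z ^ 2))
        ≤ A * ∫ t in Icc (0 : ℝ) 1, Th W (1 - t ^ 2 * rr P z ^ 2) *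
          (rr P z / (1 - t ^ 2 * rr P z ^ 2)) := hmono
      _ ≤ A * (200 * ∑' i, W i) := mul_le_mul_of_nonneg_left hI hA
      _ = 200 * A * ∑' i, W i := by ring
  · rw [integral_undef hint]
    exact hR

end Pool.Agent.MPca0fc2.PV
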