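import Mathlib
import Pool.Agent.Lib.MP_ca0fc2_an.PV.M0
import Pool.Agent.Lib.MP_ca0fc2_an.Mg.G049

set_option autoImplicit false

open Metric Set MeasureTheory Filter Topology
open scoped InnerProductSpace ENNReal ContDiff

/-! # Siegel coordinates with the pole `p` -/

namespace Pool.Agent.MPca0fc2.PV

open Pool.Agent.MPca0fc2.PT
open Pool.Agent.MPca0fc2.TS
open Pool.Agent.MPca0fc2.TE

variable {E : Type*} [NormedAddCommGroup E] [InnerProductSpace ℂ E]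

/-- `‖⟪p, z⟫‖ ≤ ‖z‖ < 1` -/
theorem den_ne {p z : E} (hp : ‖p‖ = 1) (hz : ‖z‖ < 1) : 1 - ⟪p, z⟫_ℂ ≠ 0 := by
  intro h
  have h1 : ⟪p, z⟫_ℂ = 1 := (sub_eq_zero.mp h).symm
  have h2 := norm_inner_le_norm (𝕜 := ℂ) p z
  rw [h1, norm_one, hp, one_mul] at h2
  linarith

private theorem M1_pp {p : E} (hp : ‖p‖ = 1) : ⟪p, p⟫_ℂ = 1 := by
  rw [inner_self_eq_norm_sq_to_K, hp]
  simp

private theorem M1_orth {p : E} (hp : ‖p‖ = 1) (z : E) : ⟪p, z - ⟪p, z⟫_ℂ • p⟫_ℂ = 0 := by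
  rw [inner_sub_right, inner_smul_right, M1_pp hp, mul_one, sub_self]

private theorem M1_sq {p : E} (hp : ‖p‖ = 1) (x : ℂ) {w : E} (hw : ⟪p, w⟫_ℂ = 0) :
    ‖x • p + w‖ ^ 2 = ‖x‖ ^ 2 + ‖w‖ ^ 2 := by
  rw [norm_add_sq (𝕜 := ℂ), inner_smul_left, hw, mul_zero, norm_smul, hp]
  simp

private theorem M1_norm {p : E} (hp : ‖p‖ = 1) (z : E) :
    ‖z‖ ^ 2 = ‖⟪p, z⟫_ℂ‖ ^ 2 + ‖z - ⟪p, z⟫_ℂ • p‖ ^ 2 := by
  rw [← M1_sq hp _ (M1_orth hp z), add_sub_cancel]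

private theorem M1_zt {p z : E} : ‖zt p z‖ ^ 2 =
    ‖z - ⟪p, z⟫_ℂ • p‖ ^ 2 / ‖1 - ⟪p, z⟫_ℂ‖ ^ 2 := by
  unfold zt
  rw [norm_smul, norm_inv, mul_pow, inv_pow]
  ring

private theorem M1_sum {p z : E} (hp : ‖p‖ = 1) : tt p z + ‖zt p z‖ ^ 2 =
    (1 - ‖⟪p, z⟫_ℂ‖ ^ 2) / ‖1 - ⟪p, z⟫_ℂ‖ ^ 2 := by
  rw [M1_zt, tt, ← add_div, M1_norm hp z]
  congr 1
  ring

theorem tt_pos {p z : E} (hp : ‖p‖ = 1) (hz : ‖z‖ < 1) : 0 < tt p z := by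
  have h1 := norm_pos_iff.mpr (den_ne hp hz)
  have h2 : 0 < 1 - ‖z‖ ^ 2 := by nlinarith [norm_nonneg z]
  unfold tt
  positivity

/-- `⟪p, z - ⟪p, z⟫ p⟫ = 0` -/
theorem inner_zt {p z : E} (hp : ‖p‖ = 1) : ⟪p, zt p z⟫_ℂ = 0 := by
  unfold zt
  rw [inner_smul_right, M1_orth hp z, mul_zero]

/-- `‖z‖² = ‖x‖² + ‖z - x p‖²`, `x = ⟪p, z⟫`, `re ((1 + x)/(1 - x)) = (1 - |x|²)/|1 - x|²`, and
`1 - |x|² = (1 - ‖z‖²) + ‖z - x p‖²`. -/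
theorem om_re {p z : E} (hp : ‖p‖ = 1) (hz : ‖z‖ < 1) :
    ((1 + ⟪p, z⟫_ℂ) / (1 - ⟪p, z⟫_ℂ)).re = tt p z + ‖zt p z‖ ^ 2 := by
  have h1 := norm_pos_iff.mpr (den_ne hp hz)
  rw [M1_sum hp, Complex.div_re, ← add_div, Complex.normSq_eq_norm_sq,
    ← Complex.normSq_eq_norm_sq ⟪p, z⟫_ℂ]
  congr 1
  simp only [Complex.add_re, Complex.one_re, Complex.sub_re, Complex.add_im, Complex.one_im,
    Complex.sub_im, Complex.normSq_apply]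
  ring

/-- `Complex.norm_exp`, `om_re` -/
theorem norm_EE {p z : E} (hp : ‖p‖ = 1) (hz : ‖z‖ < 1) :
    ‖EE p z‖ = Real.exp (-(tt p z + ‖zt p z‖ ^ 2)) := by
  unfold EE
  rw [Complex.norm_exp, Complex.neg_re, om_re hp hz]

/-- The kernel in the coordinates. Proof. `z = x p + (1 - x) zt p z`, `x = ⟪p, z⟫`, the same for
`b` with `y = ⟪p, b⟫`; `⟪b, z⟫ = conj y x + conj (1 - y) (1 - x) ⟪zt p b, zt p z⟫`, and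
`(1 - conj y x) / (conj (1 - y) (1 - x)) = (conj ((1 + y)/(1 - y)) + (1 + x)/(1 - x)) / 2`. -/
theorem inner_siegel {p b z : E} (hp : ‖p‖ = 1) (hb : ‖b‖ < 1) (hz : ‖z‖ < 1) :
    1 - ⟪b, z⟫_ℂ = (starRingEnd ℂ) (1 - ⟪p, b⟫_ℂ) * (1 - ⟪p, z⟫_ℂ) *
      (((starRingEnd ℂ) ((1 + ⟪p, b⟫_ℂ) / (1 - ⟪p, b⟫_ℂ)) +
        (1 + ⟪p, z⟫_ℂ) / (1 - ⟪p, z⟫_ℂ)) / 2 - ⟪zt p b, zt p z⟫_ℂ) := by
  have hdz := den_ne hp hz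
  have hdb := den_ne hp hb
  have hdb' : (starRingEnd ℂ) (1 - ⟪p, b⟫_ℂ) ≠ 0 := (map_ne_zero _).mpr hdb
  have ez : z = ⟪p, z⟫_ℂ • p + (1 - ⟪p, z⟫_ℂ) • zt p z := by
    unfold zt
    rw [smul_smul, mul_inv_cancel₀ hdz, one_smul, add_sub_cancel]
  have eb : b = ⟪p, b⟫_ℂ • p + (1 - ⟪p, b⟫_ℂ) • zt p b := by
    unfold zt
    rw [smul_smul, mul_inv_cancel₀ hdb, one_smul, add_sub_cancel]
  have h0 : ⟪zt p b, p⟫_ℂ = 0 := by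
    rw [← inner_conj_symm, inner_zt hp, map_zero]
  have h1 : ⟪b, z⟫_ℂ = (starRingEnd ℂ) ⟪p, b⟫_ℂ * ⟪p, z⟫_ℂ +
      (starRingEnd ℂ) (1 - ⟪p, b⟫_ℂ) * (1 - ⟪p, z⟫_ℂ) * ⟪zt p b, zt p z⟫_ℂ := by
    have h2 : ⟪⟪p, b⟫_ℂ • p + (1 - ⟪p, b⟫_ℂ) • zt p b, ⟪p, z⟫_ℂ • p +
        (1 - ⟪p, z⟫_ℂ) • zt p z⟫_ℂ = (starRingEnd ℂ) ⟪p, b⟫_ℂ * ⟪p, z⟫_ℂ +
      (starRingEnd ℂ) (1 - ⟪p, b⟫_ℂ) * (1 - ⟪p, z⟫_ℂ) * ⟪zt p b, zt p z⟫_ℂ := by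
      rw [inner_add_left, inner_add_right, inner_add_right, inner_smul_left, inner_smul_right,
        inner_smul_left, inner_smul_right, inner_smul_left, inner_smul_right, inner_smul_left,
        inner_smul_right, M1_pp hp, inner_zt hp, h0]
      ring
    rwa [← ez, ← eb] at h2
  rw [h1, map_div₀]
  have h3 : (starRingEnd ℂ) (1 + ⟪p, b⟫_ℂ) = 2 - (starRingEnd ℂ) (1 - ⟪p, b⟫_ℂ) := by
    rw [map_add, map_sub, map_one]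
    ring
  have h4 : (starRingEnd ℂ) ⟪p, b⟫_ℂ = 1 - (starRingEnd ℂ) (1 - ⟪p, b⟫_ℂ) := by
    rw [map_sub, map_one]
    ring
  rw [h3, h4]
  generalize (starRingEnd ℂ) (1 - ⟪p, b⟫_ℂ) = u at hdb' ⊢
  field_simp
  ring

/-- the points of the line through `a` and `p` have the same horizontal coordinate:
`b = a + ζ (p - a)` gives `1 - ⟪p, b⟫ = (1 - ζ) (1 - ⟪p, a⟫)`,
`b - ⟪p, b⟫ p = (1 - ζ) (a - ⟪p, a⟫ p)`; `ζ ≠ 1` because `‖b‖ < 1`. -/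
theorem zt_lin {p a b : E} (hp : ‖p‖ = 1) (ha : ‖a‖ < 1) (hb : b ∈ lin a p) (hb1 : ‖b‖ < 1) :
    zt p b = zt p a := by
  obtain ⟨ζ, rfl⟩ := hb
  have hζ : 1 - ζ ≠ 0 := by
    intro h
    have h1 : ζ = 1 := (sub_eq_zero.mp h).symm
    rw [h1, one_smul, add_sub_cancel, hp] at hb1
    exact lt_irrefl 1 hb1
  have h1 : 1 - ⟪p, a + ζ • (p - a)⟫_ℂ = (1 - ζ) * (1 - ⟪p, a⟫_ℂ) := by
    rw [inner_add_right, inner_smul_right, inner_sub_right, M1_pp hp]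
    ring
  have h2 : a + ζ • (p - a) - ⟪p, a + ζ • (p - a)⟫_ℂ • p = (1 - ζ) • (a - ⟪p, a⟫_ℂ • p) := by
    rw [inner_add_right, inner_smul_right, inner_sub_right, M1_pp hp]
    module
  unfold zt
  rw [h1, h2, smul_smul, mul_inv_rev, mul_assoc, inv_mul_cancel₀ hζ, mul_one]

theorem rs_pos {p b z : E} (hp : ‖p‖ = 1) (hz : ‖z‖ < 1) : 0 < rs p b z ∧ rs p b z ≤ 1 := by
  have h1 := tt_pos hp hz
  unfold rs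
  refine ⟨by positivity, ?_⟩
  rw [div_le_one (by positivity)]
  have : 0 ≤ ‖zt p z - b‖ ^ 2 := by positivity
  linarith

/-- `ro (Pe p) z = (1 - ‖z‖²)/(1 - |x|²)` and `1 - |x|² = |1 - x|² (tt + ‖zt‖²)` (`om_re`);
`zt p 0 = 0`. -/
theorem rs_zero {p z : E} (hp : ‖p‖ = 1) (hz : ‖z‖ < 1) : rs p (zt p 0) z = ro (Pe p) z := by
  have h1 := norm_pos_iff.mpr (den_ne hp hz)
  have h2 : zt p 0 = 0 := by
    unfold zt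
    simp
  have h3 : ‖Pe p z‖ = ‖⟪p, z⟫_ℂ‖ := by
    have : Pe p z = ⟪p, z⟫_ℂ • p := rfl
    rw [this, norm_smul, hp, mul_one]
  unfold rs ro
  rw [h2, sub_zero, M1_sum hp, h3, tt, div_div_div_cancel_right₀ (by positivity)]

/-- `⟪p, pt (Pe p) r z⟫ = ⟪p, z⟫` (`pt_Pe`) -/
theorem zt_pt {p z : E} (hp : ‖p‖ = 1) (r : ℝ) : zt p (pt (Pe p) r z) = (r : ℂ) • zt p z := by
  have h1 : ⟪p, pt (Pe p) r z⟫_ℂ = ⟪p, z⟫_ℂ := by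
    rw [pt_Pe, inner_add_right, inner_smul_right, inner_smul_right, M1_orth hp, M1_pp hp]
    ring
  unfold zt
  rw [h1, pt_Pe, add_sub_cancel_left, smul_comm]

/-- `1 - ‖pt P r z‖² = 1 - |x|² - r² ‖z - x p‖²` (`Dp_eq`, `Pe_prj`), `⟪p, pt P r z⟫ = ⟪p, z⟫`. -/
theorem tt_pt {p z : E} (hp : ‖p‖ = 1) (hz : ‖z‖ < 1) (r : ℝ) :
    tt p (pt (Pe p) r z) = tt p z + (1 - r ^ 2) * ‖zt p z‖ ^ 2 := by
  have h1 : ⟪p, pt (Pe p) r z⟫_ℂ = ⟪p, z⟫_ℂ := by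
    rw [pt_Pe, inner_add_right, inner_smul_right, inner_smul_right, M1_orth hp, M1_pp hp]
    ring
  have h0 : ⟪p, (r : ℂ) • (z - ⟪p, z⟫_ℂ • p)⟫_ℂ = 0 := by
    rw [inner_smul_right, M1_orth hp, mul_zero]
  have h2 : ‖pt (Pe p) r z‖ ^ 2 = ‖⟪p, z⟫_ℂ‖ ^ 2 + r ^ 2 * ‖z - ⟪p, z⟫_ℂ • p‖ ^ 2 := by
    rw [pt_Pe, M1_sq hp _ h0, norm_smul, Complex.norm_real, mul_pow, Real.norm_eq_abs, sq_abs]
  rw [M1_zt]
  unfold tt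
  rw [h1, h2, M1_norm hp z]
  ring

end Pool.Agent.MPca0fc2.PV
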