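import Mathlib
import Pool.Agent.Lib.MP_ca0fc2_an.PV.M1

set_option autoImplicit false

open Metric Set MeasureTheory Filter Topology
open scoped InnerProductSpace ENNReal ContDiff

/-! # The kernel `HH` on the lines through `p` -/

namespace Pool.Agent.MPca0fc2.PV

open Pool.Agent.MPca0fc2.PT
open Pool.Agent.MPca0fc2.TS
open Pool.Agent.MPca0fc2.TE

variable {E : Type*} [NormedAddCommGroup E] [InnerProductSpace ℂ E]

private theorem M1b_HH {p b z : E} (hp : ‖p‖ = 1) (hb : ‖b‖ < 1) (hz : ‖z‖ < 1) :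
    HH b z = tt p b * tt p z / ‖((starRingEnd ℂ) ((1 + ⟪p, b⟫_ℂ) / (1 - ⟪p, b⟫_ℂ)) +
        (1 + ⟪p, z⟫_ℂ) / (1 - ⟪p, z⟫_ℂ)) / 2 - ⟪zt p b, zt p z⟫_ℂ‖ ^ 2 := by
  unfold HH tt
  rw [inner_siegel hp hb hz, norm_mul, norm_mul, RCLike.norm_conj]
  have h1 : ‖1 - ⟪p, b⟫_ℂ‖ ≠ 0 := norm_ne_zero_iff.2 (den_ne hp hb)
  have h2 : ‖1 - ⟪p, z⟫_ℂ‖ ≠ 0 := norm_ne_zero_iff.2 (den_ne hp hz)
  rw [mul_pow, mul_pow, div_mul_div_comm, div_div]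

private theorem M1b_re {p b z : E} (hp : ‖p‖ = 1) (hb : ‖b‖ < 1) (hz : ‖z‖ < 1) :
    (((starRingEnd ℂ) ((1 + ⟪p, b⟫_ℂ) / (1 - ⟪p, b⟫_ℂ)) +
        (1 + ⟪p, z⟫_ℂ) / (1 - ⟪p, z⟫_ℂ)) / 2 - ⟪zt p b, zt p z⟫_ℂ).re =
      (tt p b + (tt p z + ‖zt p z - zt p b‖ ^ 2)) / 2 := by
  have h1 := om_re hp hb
  have h2 := om_re hp hz
  have h3 : ‖zt p z - zt p b‖ ^ 2 = ‖zt p z‖ ^ 2 - 2 * (⟪zt p b, zt p z⟫_ℂ).re + ‖zt p b‖ ^ 2 := by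
    have h4 := @norm_sub_sq ℂ E _ _ _ (zt p b) (zt p z)
    rw [norm_sub_rev]
    have h5 : RCLike.re ⟪zt p b, zt p z⟫_ℂ = (⟪zt p b, zt p z⟫_ℂ).re := rfl
    rw [h4, h5]
    ring
  have h6 : ∀ x : ℂ, (x / 2).re = x.re / 2 := by
    intro x
    have : x / 2 = x / ((2 : ℝ) : ℂ) := by norm_num
    rw [this, Complex.div_ofReal_re]
  rw [Complex.sub_re, h6, Complex.add_re, Complex.conj_re, h1, h2, h3]
  ring

/-- Proof. With `inner_siegel`: `HH b z = t_b t / |w|²`, `re w = (t_b + t + ‖zt p z - zt p b‖²)/2`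
(`om_re`), so `HH b z ≤ 4 t_b t / (t_b + u)²`, `u = t + ‖zt p z - zt p b‖²`, and
`4 t_b u ≤ (t_b + u)²`. `zt_lin`. -/
theorem HH_lin_le {p a b z : E} (hp : ‖p‖ = 1) (ha : ‖a‖ < 1) (hb : b ∈ lin a p) (hb1 : ‖b‖ < 1)
    (hz : ‖z‖ < 1) : HH b z ≤ rs p (zt p a) z := by
  have hzl := zt_lin hp ha hb hb1
  have hre := M1b_re hp hb1 hz
  have htb := tt_pos hp hb1
  have ht := tt_pos hp hz
  rw [M1b_HH hp hb1 hz]
  rw [hzl] at hre ⊢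
  unfold rs
  set w := ((starRingEnd ℂ) ((1 + ⟪p, b⟫_ℂ) / (1 - ⟪p, b⟫_ℂ)) +
        (1 + ⟪p, z⟫_ℂ) / (1 - ⟪p, z⟫_ℂ)) / 2 - ⟪zt p a, zt p z⟫_ℂ with hw
  set u := tt p z + ‖zt p z - zt p a‖ ^ 2 with hu
  have hu0 : 0 < u := by positivity
  have hn : ((tt p b + u) / 2) ^ 2 ≤ ‖w‖ ^ 2 := by
    rw [← hre]
    exact pow_le_pow_left₀ (by rw [hre]; positivity) (Complex.re_le_norm w) 2
  have hn0 : 0 < ((tt p b + u) / 2) ^ 2 := by positivity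
  calc tt p b * tt p z / ‖w‖ ^ 2 ≤ tt p b * tt p z / ((tt p b + u) / 2) ^ 2 :=
        div_le_div_of_nonneg_left (by positivity) hn0 hn
    _ ≤ tt p z / u := by
        rw [div_le_div_iff₀ hn0 hu0]
        have : 0 ≤ tt p z * (tt p b - u) ^ 2 := by positivity
        nlinarith

/-- Proof. Let `β = zt p a`, `u = tt p z + ‖zt p z - β‖²`, `ω` the complex number with
`re ω = ‖β‖² + u` and `im ω = im ((1 + x)/(1 - x)) - 2 im ⟪β, zt p z⟫`, `x = ⟪p, z⟫`;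
`y = (ω - 1)/(ω + 1)`, `b = y p + (1 - y) β`. Then `⟪p, b⟫ = y`, `(1 + y)/(1 - y) = ω`,
`zt p b = β`, `‖b‖² = |y|² + |1 - y|² ‖β‖²`, `1 - ‖b‖² = |1 - y|² (re ω - ‖β‖²) = |1 - y|² u > 0`,
so `tt p b = u`; `b = a + ζ (p - a)` with `1 - ζ = (1 - y)/(1 - ⟪p, a⟫)`. By `inner_siegel` the
number `w` of the proof of `HH_lin_le` is real (the imaginary parts cancel) and equal to `u`, so
`HH b z = u t / u² = t / u`. -/
theorem HH_lin_eq {p a z : E} (hp : ‖p‖ = 1) (ha : ‖a‖ < 1) (hz : ‖z‖ < 1) :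
    ∃ b ∈ lin a p, ‖b‖ < 1 ∧ HH b z = rs p (zt p a) z := by
  have ht := tt_pos hp hz
  have hβp : ⟪p, zt p a⟫_ℂ = 0 := inner_zt hp
  set β := zt p a with hβ
  set u := tt p z + ‖zt p z - β‖ ^ 2 with hu
  have hu0 : 0 < u := by positivity
  set ϖ : ℂ := ⟨‖β‖ ^ 2 + u, ((1 + ⟪p, z⟫_ℂ) / (1 - ⟪p, z⟫_ℂ)).im - 2 * (⟪β, zt p z⟫_ℂ).im⟩ with hϖ
  have hϖre : ϖ.re = ‖β‖ ^ 2 + u := rfl
  have hϖim : ϖ.im = ((1 + ⟪p, z⟫_ℂ) / (1 - ⟪p, z⟫_ℂ)).im - 2 * (⟪β, zt p z⟫_ℂ).im := rfl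
  have hϖpos : 0 < ϖ.re := by
    rw [hϖre]
    positivity
  have hϖ1 : ϖ + 1 ≠ 0 := by
    intro h
    have h' := congrArg Complex.re h
    rw [Complex.add_re, Complex.one_re, Complex.zero_re] at h'
    linarith
  set y : ℂ := (ϖ - 1) / (ϖ + 1) with hy
  have h1y : 1 - y = 2 / (ϖ + 1) := by
    rw [hy]
    field_simp
    ring
  have h1y0 : 1 - y ≠ 0 := by
    rw [h1y]
    exact div_ne_zero two_ne_zero hϖ1
  have hΩ : (1 + y) / (1 - y) = ϖ := by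
    rw [div_eq_iff h1y0, hy]
    field_simp
    ring
  have hpp : ⟪p, p⟫_ℂ = 1 := by
    rw [inner_self_eq_norm_sq_to_K, hp]
    norm_num
  set b : E := y • p + (1 - y) • β with hb
  have hpb : ⟪p, b⟫_ℂ = y := by
    rw [hb, inner_add_right, inner_smul_right, inner_smul_right, hpp, hβp]
    ring
  have hztb : zt p b = β := by
    unfold zt
    rw [hpb, hb, add_sub_cancel_left, smul_smul, inv_mul_cancel₀ h1y0, one_smul]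
  have hnb : ‖b‖ ^ 2 = ‖y‖ ^ 2 + ‖1 - y‖ ^ 2 * ‖β‖ ^ 2 := by
    have h0 : ⟪y • p, (1 - y) • β⟫_ℂ = 0 := by
      rw [inner_smul_left, inner_smul_right, hβp]
      ring
    have h1 := norm_add_sq_eq_norm_sq_add_norm_sq_of_inner_eq_zero (y • p) ((1 - y) • β) h0
    rw [norm_smul, norm_smul, hp, mul_one] at h1
    rw [hb, sq, h1]
    ring
  have hyre : 1 - ‖y‖ ^ 2 = ‖1 - y‖ ^ 2 * ϖ.re := by
    have h1 : ‖1 - y‖ ^ 2 = 4 / ‖ϖ + 1‖ ^ 2 := by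
      rw [h1y, norm_div, div_pow]
      norm_num
    have h2 : ‖y‖ ^ 2 = ‖ϖ - 1‖ ^ 2 / ‖ϖ + 1‖ ^ 2 := by
      rw [hy, norm_div, div_pow]
    have h3 : ‖ϖ + 1‖ ^ 2 ≠ 0 := pow_ne_zero 2 (norm_ne_zero_iff.2 hϖ1)
    have h4 : ‖ϖ + 1‖ ^ 2 = (ϖ.re + 1) ^ 2 + ϖ.im ^ 2 := by
      rw [← Complex.normSq_eq_norm_sq, Complex.normSq_apply]
      simp only [Complex.add_re, Complex.add_im, Complex.one_re, Complex.one_im]
      ring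
    have h5 : ‖ϖ - 1‖ ^ 2 = (ϖ.re - 1) ^ 2 + ϖ.im ^ 2 := by
      rw [← Complex.normSq_eq_norm_sq, Complex.normSq_apply]
      simp only [Complex.sub_re, Complex.sub_im, Complex.one_re, Complex.one_im]
      ring
    rw [h1, h2]
    field_simp
    rw [h4, h5]
    ring
  have hn1 : 0 < ‖1 - y‖ ^ 2 := by
    have := norm_pos_iff.2 h1y0
    positivity
  have hb1 : ‖b‖ < 1 := by
    have h1 : ‖b‖ ^ 2 < 1 := by
      rw [hnb]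
      have : ‖1 - y‖ ^ 2 * ϖ.re = ‖1 - y‖ ^ 2 * ‖β‖ ^ 2 + ‖1 - y‖ ^ 2 * u := by
        rw [hϖre]
        ring
      have h3 : 0 < ‖1 - y‖ ^ 2 * u := by positivity
      linarith
    by_contra hcon
    push Not at hcon
    nlinarith [norm_nonneg b]
  have htb : tt p b = u := by
    have h1 := om_re hp hb1
    rw [hpb, hΩ, hztb, hϖre] at h1
    linarith
  refine ⟨b, ?_, hb1, ?_⟩
  · have hya : 1 - ⟪p, a⟫_ℂ ≠ 0 := den_ne hp ha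
    have haβ : a = ⟪p, a⟫_ℂ • p + (1 - ⟪p, a⟫_ℂ) • β := by
      rw [hβ]
      unfold zt
      rw [smul_smul, mul_inv_cancel₀ hya, one_smul, add_sub_cancel]
    refine ⟨1 - (1 - y) / (1 - ⟪p, a⟫_ℂ), ?_⟩
    have e1 : a + (1 - (1 - y) / (1 - ⟪p, a⟫_ℂ)) • (p - a) =
        ((1 - y) / (1 - ⟪p, a⟫_ℂ)) • a + (1 - (1 - y) / (1 - ⟪p, a⟫_ℂ)) • p := by
      module
    rw [e1]
    nth_rewrite 2 [haβ]
    rw [smul_add, smul_smul, smul_smul, div_mul_cancel₀ _ hya, hb]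
    have e2 : y = (1 - y) / (1 - ⟪p, a⟫_ℂ) * ⟪p, a⟫_ℂ + (1 - (1 - y) / (1 - ⟪p, a⟫_ℂ)) := by
      field_simp
      ring
    have e3 : ((1 - y) / (1 - ⟪p, a⟫_ℂ) * ⟪p, a⟫_ℂ) • p + (1 - y) • β +
        (1 - (1 - y) / (1 - ⟪p, a⟫_ℂ)) • p =
        ((1 - y) / (1 - ⟪p, a⟫_ℂ) * ⟪p, a⟫_ℂ + (1 - (1 - y) / (1 - ⟪p, a⟫_ℂ))) • p +
          (1 - y) • β := by
      module
    rw [e3, ← e2]
  · have hre := M1b_re hp hb1 hz
    rw [M1b_HH hp hb1 hz]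
    rw [hztb, htb] at *
    rw [hpb, hΩ] at *
    have him : (((starRingEnd ℂ) ϖ + (1 + ⟪p, z⟫_ℂ) / (1 - ⟪p, z⟫_ℂ)) / 2 -
        ⟪β, zt p z⟫_ℂ).im = 0 := by
      have h6 : ∀ x : ℂ, (x / 2).im = x.im / 2 := by
        intro x
        have : x / 2 = x / ((2 : ℝ) : ℂ) := by norm_num
        rw [this, Complex.div_ofReal_im]
      rw [Complex.sub_im, h6, Complex.add_im, Complex.conj_im, hϖim]
      ring
    have hw : ((starRingEnd ℂ) ϖ + (1 + ⟪p, z⟫_ℂ) / (1 - ⟪p, z⟫_ℂ)) / 2 -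
        ⟪β, zt p z⟫_ℂ = ((u : ℝ) : ℂ) := by
      apply Complex.ext
      · rw [hre, Complex.ofReal_re]
        ring
      · rw [him, Complex.ofReal_im]
    rw [hw, Complex.norm_real, Real.norm_of_nonneg hu0.le]
    unfold rs
    rw [← hu]
    field_simp

end Pool.Agent.MPca0fc2.PV
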