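import Mathlib
import Pool.Agent.Lib.MP_ca0fc2_an.PV.Defs
import Pool.Agent.Lib.MP_ca0fc2_an.CGInv
import Pool.Agent.Lib.MP_ca0fc2_an.Mg.G049
import Pool.Agent.Lib.MP_ca0fc2_an.PTGrad

set_option autoImplicit false
set_option linter.unusedSectionVars false

open Metric Set MeasureTheory Filter Topology
open scoped InnerProductSpace ENNReal ContDiff

/-! # Complex lines and automorphisms of the ball; the class `Calm` -/

namespace Pool.Agent.MPca0fc2.PV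

open Pool.Agent.Lib.MP_ca0fc2_an
open Pool.Agent.MPca0fc2.PT

variable {E : Type*} [NormedAddCommGroup E] [InnerProductSpace ℂ E]

private theorem U1_IG_nonneg {u : E → ℂ} {w : E} (hw : ‖w‖ < 1) : 0 ≤ IG2 u w := by
  unfold IG2
  have h1 : ‖fderiv ℂ u w w‖ ≤ ‖fderiv ℂ u w‖ :=
    ((fderiv ℂ u w).le_opNorm w).trans (mul_le_of_le_one_right (norm_nonneg _) hw.le)
  have h2 : ‖fderiv ℂ u w w‖ ^ 2 ≤ ‖fderiv ℂ u w‖ ^ 2 := pow_le_pow_left₀ (norm_nonneg _) h1 2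
  have h3 : 0 ≤ 1 - ‖w‖ ^ 2 := by nlinarith [norm_nonneg w]
  exact mul_nonneg h3 (by linarith)

/-- `gg_holo`, `gg_maps`, `gg_neg_gg`, `gg_gg_neg` -/
theorem gg_aut [FiniteDimensional ℂ E] {a : E} (ha : ‖a‖ < 1) : IsBallAut (gg a) (gg (-a)) := by
  have ha' : ‖-a‖ < 1 := by rwa [norm_neg]
  exact ⟨CG.gg_holo ha, CG.gg_holo ha', fun z hz => CG.gg_maps ha hz,
    fun z hz => CG.gg_maps ha' hz, fun z hz => gg_neg_gg ha (mem_ball_zero_iff.mp hz).le,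
    fun z hz => CG.gg_gg_neg ha (mem_ball_zero_iff.mp hz).le⟩

/-- The automorphism `gg a` maps a line through `0` to the line through `a` and `p`.
Proof. For `b = a + ζ (p - a)` in the ball let `b' = gg (-a) b`; by the definition of `gg`,
`geo_AA_neg` and `AA_self`, `b'` is a multiple of `-a + AA a b = ζ • AA a (p - a)`. Let `e` be the
unit vector in the direction of `AA a (p - a) ≠ 0` (`geo_dist_sq`; `p ≠ a`), so `b' = c • e`,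
`‖c‖ < 1`, `b = gg a b'` (`gg_gg_neg`), `HH b (gg a w) = HH b' w` (`HH_gg`). With `t = ⟪e, w⟫`:
`HH b' w = (1 - |c|²) (1 - ‖w‖²) / |1 - conj c t|² ≤ (1 - ‖w‖²) / (1 - |t|²)` because
`|1 - conj c t|² - (1 - |c|²)(1 - |t|²) = |c - t|²`. -/
theorem pv_aff {a p : E} (ha : ‖a‖ < 1) (hp : ‖p‖ = 1) : ∃ e : E, ‖e‖ = 1 ∧
    ∀ (k : ℕ) (w : E), ‖w‖ < 1 → 2 ^ k * (1 - ‖w‖ ^ 2) ≤ 1 - ‖⟪e, w⟫_ℂ‖ ^ 2 →
      ∀ b ∈ lin a p, ‖b‖ < 1 → 2 ^ k * HH b (gg a w) ≤ 1 := by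
  have ha' : ‖-a‖ < 1 := by rwa [norm_neg]
  obtain ⟨v, hv⟩ : ∃ v, v = AA a (p - a) := ⟨_, rfl⟩
  have hpa : p - a ≠ 0 := by
    intro h
    rw [sub_eq_zero.mp h] at hp
    linarith
  have hv0 : 0 < ‖v‖ := by
    have h1 := geo_dist_sq ha.le (p - a)
    rw [← hv] at h1
    have h2 : 0 < ‖p - a‖ := norm_pos_iff.mpr hpa
    have h3 : 0 < 1 - ‖a‖ ^ 2 := by nlinarith [norm_nonneg a]
    have h4 : 0 < ‖v‖ ^ 2 := by
      rw [h1]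
      have := mul_pos h3 (pow_pos h2 2)
      positivity
    by_contra h5
    have h6 : ‖v‖ = 0 := le_antisymm (not_lt.mp h5) (norm_nonneg v)
    rw [h6] at h4
    norm_num at h4
  obtain ⟨e, he⟩ : ∃ e : E, e = ((‖v‖⁻¹ : ℝ) : ℂ) • v := ⟨_, rfl⟩
  have he1 : ‖e‖ = 1 := by
    rw [he, norm_smul, Complex.norm_real, norm_inv, norm_norm, inv_mul_cancel₀ hv0.ne']
  have hve : v = ((‖v‖ : ℝ) : ℂ) • e := by
    rw [he, smul_smul, ← Complex.ofReal_mul, mul_inv_cancel₀ hv0.ne', Complex.ofReal_one, one_smul]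
  refine ⟨e, he1, ?_⟩
  rintro k w hw hk b ⟨ζ, hb⟩ hb1
  obtain ⟨b', hb'⟩ : ∃ b', b' = gg (-a) b := ⟨_, rfl⟩
  obtain ⟨c, hc⟩ : ∃ c : ℂ, c = (1 + ⟪-a, b⟫_ℂ)⁻¹ * (ζ * ((‖v‖ : ℝ) : ℂ)) := ⟨_, rfl⟩
  have hbc : b' = c • e := by
    rw [hb', gg, geo_AA_neg]
    have h1 : -a + AA a b = ζ • v := by
      rw [hb, map_add, map_smul, AA_self ha.le, ← hv]
      abel
    rw [h1, hc, hve, smul_smul, smul_smul, norm_smul, he1, mul_one, Complex.norm_real, norm_norm,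
      mul_assoc]
  have hb'1 : ‖b'‖ < 1 := by rw [hb']; exact gg_lt ha' hb1
  have hc1 : ‖b'‖ = ‖c‖ := by rw [hbc, norm_smul, he1, mul_one]
  have hbb : b = gg a b' := by rw [hb', CG.gg_gg_neg ha hb1.le]
  have hHH : HH b (gg a w) = HH b' w := by
    conv_lhs => rw [hbb]
    exact HH_gg ha hb'1 hw
  obtain ⟨t, ht⟩ : ∃ t : ℂ, t = ⟪e, w⟫_ℂ := ⟨_, rfl⟩
  have hin : ⟪b', w⟫_ℂ = (starRingEnd ℂ) c * t := by rw [hbc, inner_smul_left, ht]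
  have ht1 : ‖t‖ < 1 := by
    rw [ht]
    exact (norm_inner_le_norm e w).trans_lt (by rw [he1, one_mul]; exact hw)
  have hc2 : ‖c‖ < 1 := by rw [← hc1]; exact hb'1
  rw [← ht] at hk
  rw [hHH, HH, hc1, hin]
  have hid : (1 - ‖c‖ ^ 2) * (1 - ‖t‖ ^ 2) ≤ ‖1 - (starRingEnd ℂ) c * t‖ ^ 2 := by
    rw [← Complex.normSq_eq_norm_sq, ← Complex.normSq_eq_norm_sq, ← Complex.normSq_eq_norm_sq,
      Complex.normSq_apply, Complex.normSq_apply, Complex.normSq_apply]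
    simp only [Complex.sub_re, Complex.sub_im, Complex.mul_re, Complex.mul_im, Complex.one_re,
      Complex.one_im, Complex.conj_re, Complex.conj_im]
    nlinarith [sq_nonneg (c.re - t.re), sq_nonneg (c.im - t.im)]
  have hne : 0 < ‖1 - (starRingEnd ℂ) c * t‖ ^ 2 := by
    refine lt_of_lt_of_le (mul_pos ?_ ?_) hid
    · nlinarith [norm_nonneg c]
    · nlinarith [norm_nonneg t]
  rw [← mul_div_assoc, div_le_one hne]
  refine le_trans ?_ hid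
  have h5 : 0 ≤ 1 - ‖c‖ ^ 2 := by nlinarith [norm_nonneg c]
  calc 2 ^ k * ((1 - ‖c‖ ^ 2) * (1 - ‖w‖ ^ 2)) = (1 - ‖c‖ ^ 2) * (2 ^ k * (1 - ‖w‖ ^ 2)) := by ring
    _ ≤ (1 - ‖c‖ ^ 2) * (1 - ‖t‖ ^ 2) := mul_le_mul_of_nonneg_left hk h5

/-- The invariant gradient is the same, the bound changes by a constant. -/
theorem Calm.sub_const {κ : ℝ} {S : Set E} {u : E → ℂ} (h : Calm κ S u) (c : ℂ) :
    Calm κ S (fun z => u z - c) := by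
  obtain ⟨h1, ⟨C, hC⟩, W, hW, hk⟩ := h
  refine ⟨h1.sub_const c, ⟨C + ‖c‖, fun z hz => (norm_sub_le _ _).trans (by linarith [hC z hz])⟩,
    W, hW, fun k z hz hb => ?_⟩
  have hI : IG2 (fun z => u z - c) z = IG2 u z := by
    unfold IG2
    rw [fderiv_sub_const]
  rw [hI]
  exact hk k z hz hb

/-- `W' k = |W k| ^ 2`; `IG2 u z = (IG2 u z ^ (1/2)) ^ 2` (`gd_IG_nonneg`); the square of a
summable nonnegative sequence is summable. -/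
theorem Calm.one_two {S : Set E} {u : E → ℂ} (h : Calm 1 S u) : Calm 2 S u := by
  obtain ⟨h1, hC, W, hW, hk⟩ := h
  refine ⟨h1, hC, fun k => W k ^ 2, ?_, fun k z hz hb => ?_⟩
  · refine Summable.of_norm_bounded_eventually_nat hW.norm ?_
    have h0 := hW.norm.tendsto_atTop_zero
    filter_upwards [h0.eventually_le_const zero_lt_one] with i hi
    rw [norm_pow]
    nlinarith [norm_nonneg (W i)]
  · have h3 := hk k z hz hb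
    have h4 : 0 ≤ IG2 u z := U1_IG_nonneg (mem_ball_zero_iff.mp hz)
    have h5 : IG2 u z ^ ((2 : ℝ) / 2) = (IG2 u z ^ ((1 : ℝ) / 2)) ^ 2 := by
      rw [← Real.rpow_natCast (IG2 u z ^ ((1 : ℝ) / 2)) 2, ← Real.rpow_mul h4]
      norm_num
    rw [h5]
    exact pow_le_pow_left₀ (Real.rpow_nonneg h4 _) h3 2

/-- Affine functions are calm. Proof. `fderiv ℂ (fun z => 1 - ⟪q, z⟫) z v = - ⟪q, v⟫`, so
`IG2 ≤ (1 - ‖z‖²) ‖q‖²`; the hypothesis with `b = a ∈ lin a p` (`ζ = 0`) gives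
`2 ^ k (1 - ‖a‖²) (1 - ‖z‖²) ≤ ‖1 - ⟪a, z⟫‖² ≤ 4`, so `IG2 ^ (1/2) ≤ 2 ‖q‖ / √(1 - ‖a‖²) (1/√2)^k`,
summable. -/
theorem calm_affine {a : E} (ha : ‖a‖ < 1) (p q : E) :
    Calm 1 (lin a p) (fun z => 1 - ⟪q, z⟫_ℂ) := by
  have hf : ∀ z : E, HasFDerivAt (𝕜 := ℂ) (fun z => 1 - ⟪q, z⟫_ℂ) (-(innerSL ℂ q)) z := by
    intro z
    have h := ((innerSL ℂ q).hasFDerivAt (x := z)).const_sub (1 : ℂ)
    exact h
  have ha0 : 0 < 1 - ‖a‖ ^ 2 := by nlinarith [norm_nonneg a]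
  have hr0 : (0 : ℝ) ≤ (1 / 2 : ℝ) ^ ((1 : ℝ) / 2) := by positivity
  have hr1 : (1 / 2 : ℝ) ^ ((1 : ℝ) / 2) < 1 :=
    Real.rpow_lt_one (by norm_num) (by norm_num) (by norm_num)
  refine ⟨fun z _ => (hf z).differentiableAt.differentiableWithinAt,
    ⟨1 + ‖q‖, fun z hz => ?_⟩,
    fun k => (4 * ‖q‖ ^ 2 / (1 - ‖a‖ ^ 2)) ^ ((1 : ℝ) / 2) * ((1 / 2 : ℝ) ^ ((1 : ℝ) / 2)) ^ k,
    (summable_geometric_of_lt_one hr0 hr1).mul_left _, fun k z hz hb => ?_⟩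
  · have h1 := norm_inner_le_norm (𝕜 := ℂ) q z
    have h2 : ‖q‖ * ‖z‖ ≤ ‖q‖ := mul_le_of_le_one_right (norm_nonneg _) (mem_ball_zero_iff.mp hz).le
    calc ‖1 - ⟪q, z⟫_ℂ‖ ≤ ‖(1 : ℂ)‖ + ‖⟪q, z⟫_ℂ‖ := norm_sub_le _ _
      _ ≤ 1 + ‖q‖ := by rw [norm_one]; linarith
  · have hz1 : ‖z‖ < 1 := mem_ball_zero_iff.mp hz
    have hz0 : 0 < 1 - ‖z‖ ^ 2 := by nlinarith [norm_nonneg z]
    have hI : IG2 (fun z => 1 - ⟪q, z⟫_ℂ) z ≤ (1 - ‖z‖ ^ 2) * ‖q‖ ^ 2 := by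
      unfold IG2
      rw [(hf z).fderiv, norm_neg, innerSL_apply_norm]
      refine mul_le_mul_of_nonneg_left ?_ hz0.le
      nlinarith [sq_nonneg ‖(-(innerSL ℂ q)) z‖]
    have h3 := hb a ⟨0, by simp⟩ ha
    have hne : 0 < ‖1 - ⟪a, z⟫_ℂ‖ ^ 2 := by
      exact pow_pos ((geo_one_sub ha hz1).1.trans_le (geo_one_sub ha hz1).2) 2
    rw [HH, ← mul_div_assoc, div_le_one hne] at h3
    have h4 : ‖1 - ⟪a, z⟫_ℂ‖ ≤ 2 := by
      have h5 := norm_inner_le_norm (𝕜 := ℂ) a z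
      have h6 : ‖a‖ * ‖z‖ ≤ 1 := by nlinarith [norm_nonneg a, norm_nonneg z]
      calc ‖1 - ⟪a, z⟫_ℂ‖ ≤ ‖(1 : ℂ)‖ + ‖⟪a, z⟫_ℂ‖ := norm_sub_le _ _
        _ ≤ 2 := by rw [norm_one]; linarith
    have h7 : ‖1 - ⟪a, z⟫_ℂ‖ ^ 2 ≤ 4 := by nlinarith [norm_nonneg (1 - ⟪a, z⟫_ℂ)]
    have h8 : 1 - ‖z‖ ^ 2 ≤ 4 / (1 - ‖a‖ ^ 2) * (1 / 2) ^ k := by
      have h9 : (0 : ℝ) < 2 ^ k := by positivity
      rw [one_div, inv_pow, ← div_eq_mul_inv, div_div, le_div_iff₀ (mul_pos ha0 h9)]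
      nlinarith
    have h10 : IG2 (fun z => 1 - ⟪q, z⟫_ℂ) z ≤ 4 * ‖q‖ ^ 2 / (1 - ‖a‖ ^ 2) * (1 / 2) ^ k := by
      refine hI.trans ?_
      calc (1 - ‖z‖ ^ 2) * ‖q‖ ^ 2 ≤ (4 / (1 - ‖a‖ ^ 2) * (1 / 2) ^ k) * ‖q‖ ^ 2 :=
            mul_le_mul_of_nonneg_right h8 (sq_nonneg _)
        _ = _ := by ring
    refine (Real.rpow_le_rpow (U1_IG_nonneg hz1) h10 (by norm_num)).trans (le_of_eq ?_)
    rw [Real.mul_rpow (by positivity) (by positivity)]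
    congr 1
    rw [← Real.rpow_natCast, ← Real.rpow_natCast, ← Real.rpow_mul (by norm_num),
      ← Real.rpow_mul (by norm_num), mul_comm]

end Pool.Agent.MPca0fc2.PV
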