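import Mathlib
import Pool.Agent.Lib.MP_ca0fc2_an.PV.M1b
import Pool.Agent.Lib.MP_ca0fc2_an.PV.U1
import Pool.Agent.Lib.MP_ca0fc2_an.CGInv
import Pool.Agent.Lib.MP_ca0fc2_an.Mg.G049
import Pool.Agent.Lib.MP_ca0fc2_an.PTGrad

set_option autoImplicit false
set_option linter.unusedSectionVars false

open Metric Set MeasureTheory Filter Topology
open scoped InnerProductSpace ENNReal ContDiff

/-! # Lines through a boundary point and automorphisms -/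

namespace Pool.Agent.MPca0fc2.PV

open Pool.Agent.Lib.MP_ca0fc2_an
open Pool.Agent.MPca0fc2.PT
open Pool.Agent.MPca0fc2.TS
open Pool.Agent.MPca0fc2.TE

variable {E : Type*} [NormedAddCommGroup E] [InnerProductSpace ℂ E]

/-- `norm_gg` -/
theorem gg_one {z p : E} (hz : ‖z‖ < 1) (hp : ‖p‖ = 1) : ‖gg z p‖ = 1 := by
  have h := norm_gg hz hp.le
  rw [hp] at h
  have h2 : ‖gg z p‖ ^ 2 = 1 := by
    rw [one_pow, sub_self, mul_zero, zero_div] at h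
    linarith
  nlinarith [norm_nonneg (gg z p)]

/-- Proof. `b = a + ζ (p - a)`, `z + AA z b = (1 - ζ) (z + AA z a) + ζ (z + AA z p)`,
`1 + ⟪z, b⟫ = (1 - ζ) (1 + ⟪z, a⟫) + ζ (1 + ⟪z, p⟫) ≠ 0`, so `gg z b` is the affine combination of
`gg z a` and `gg z p` with the coefficient `ζ (1 + ⟪z, p⟫) / (1 + ⟪z, b⟫)` of `gg z p`. -/
theorem gg_lin {z a p b : E} (hz : ‖z‖ < 1) (ha : ‖a‖ < 1) (hp : ‖p‖ = 1) (hb : b ∈ lin a p)
    (hb1 : ‖b‖ < 1) : gg z b ∈ lin (gg z a) (gg z p) := by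
  obtain ⟨ζ, hζ⟩ := hb
  obtain ⟨da, hda⟩ : ∃ da : ℂ, da = 1 + ⟪z, a⟫_ℂ := ⟨_, rfl⟩
  obtain ⟨dp, hdp⟩ : ∃ dp : ℂ, dp = 1 + ⟪z, p⟫_ℂ := ⟨_, rfl⟩
  obtain ⟨db, hdb⟩ : ∃ db : ℂ, db = 1 + ⟪z, b⟫_ℂ := ⟨_, rfl⟩
  have ha0 : da ≠ 0 := by rw [hda]; exact one_add_ne hz ha.le
  have hp0 : dp ≠ 0 := by rw [hdp]; exact one_add_ne hz hp.le
  have hb0 : db ≠ 0 := by rw [hdb]; exact one_add_ne hz hb1.le
  have hrel : db = (1 - ζ) * da + ζ * dp := by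
    rw [hdb, hda, hdp, hζ, inner_add_right, inner_smul_right, inner_sub_right]
    ring
  have hv : z + AA z b = (1 - ζ) • (z + AA z a) + ζ • (z + AA z p) := by
    rw [hζ, map_add, map_smul, map_sub]
    module
  have k1 : db⁻¹ * (1 - ζ) = da⁻¹ - ζ * dp / db * da⁻¹ := by
    have h1 : (1 - ζ) * da = db - ζ * dp := by rw [hrel]; ring
    field_simp
    linear_combination h1
  have k2 : db⁻¹ * ζ = ζ * dp / db * dp⁻¹ := by
    field_simp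
  refine ⟨ζ * dp / db, ?_⟩
  unfold gg
  rw [← hda, ← hdp, ← hdb, hv, smul_add, smul_smul, smul_smul, k1, k2]
  module

/-- `gg_lin` for `z = - c` and `gg_neg_gg`, `gg_gg_neg`: points of the image family of lines come
from points of the family. -/
theorem gg_linU {c p : E} (hc : ‖c‖ < 1) (hp : ‖p‖ = 1) {A : Set E} (hA : ∀ a ∈ A, ‖a‖ < 1)
    {b : E} (hb : b ∈ linU A p) (hb1 : ‖b‖ < 1) :
    gg (-c) b ∈ linU (gg (-c) '' A) (gg (-c) p) := by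
  obtain ⟨a, haA, hab⟩ := hb
  have hc' : ‖-c‖ < 1 := by rwa [norm_neg]
  exact ⟨gg (-c) a, mem_image_of_mem _ haA, gg_lin hc' (hA a haA) hp hab hb1⟩

theorem gg_linU' {c p : E} (hc : ‖c‖ < 1) (hp : ‖p‖ = 1) {A : Set E} (hA : ∀ a ∈ A, ‖a‖ < 1)
    {b : E} (hb : b ∈ linU (gg (-c) '' A) (gg (-c) p)) (hb1 : ‖b‖ < 1) : gg c b ∈ linU A p := by
  obtain ⟨a', ⟨a, haA, rfl⟩, hab⟩ := hb
  have hc' : ‖-c‖ < 1 := by rwa [norm_neg]
  refine ⟨a, haA, ?_⟩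
  have h := gg_lin hc (gg_lt hc' (hA a haA)) (gg_one hc' hp) hab hb1
  rwa [CG.gg_gg_neg hc (hA a haA).le, CG.gg_gg_neg hc hp.le] at h

end Pool.Agent.MPca0fc2.PV
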