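import Mathlib
import Pool.Agent.Lib.MP_ca0fc2_an.PV.M1b
import Pool.Agent.Lib.MP_ca0fc2_an.PV.M10
import Pool.Agent.Lib.MP_ca0fc2_an.PV.U1
import Pool.Agent.Lib.MP_ca0fc2_an.CGInv
import Pool.Agent.Lib.MP_ca0fc2_an.Mg.G049
import Pool.Agent.Lib.MP_ca0fc2_an.PTGrad

set_option autoImplicit false
set_option linter.unusedSectionVars false

open Metric Set MeasureTheory Filter Topology
open scoped InnerProductSpace ENNReal ContDiff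

/-! # Lines through a boundary point and automorphisms -/

namespace Pool.Agent.MPca0fc2.PV

open Pool.Agent.Lib.MP_ca0fc2_an
open Pool.Agent.MPca0fc2.PT
open Pool.Agent.MPca0fc2.TS
open Pool.Agent.MPca0fc2.TE

variable {E : Type*} [NormedAddCommGroup E] [InnerProductSpace ℂ E]

private theorem M10b_gg_self {c : E} (hc : ‖c‖ < 1) : gg (-c) c = 0 := by
  have h := gg_neg_gg hc (x := (0 : E)) (by simp)
  rwa [gg_zero] at h

/-- the points of the line through `c` and `p` -/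
private theorem M10b_line {c p b w : E} (hc : ‖c‖ < 1) (hp : ‖p‖ = 1) (hb : b ∈ lin c p)
    (hb1 : ‖b‖ < 1) (hw : ‖w‖ < 1) : HH b (gg c w) ≤ ro (Pe (gg (-c) p)) w := by
  have hc' : ‖-c‖ < 1 := by rwa [norm_neg]
  have hb' : ‖gg (-c) b‖ < 1 := gg_lt hc' hb1
  have h1 : HH b (gg c w) = HH (gg (-c) b) w := by
    have h := HH_gg hc hb' hw
    rwa [CG.gg_gg_neg hc hb1.le] at h
  have hp' : ‖gg (-c) p‖ = 1 := gg_one hc' hp
  have h2 := gg_lin hc' hc hp hb hb1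
  rw [M10b_gg_self hc] at h2
  rw [h1, ← rs_zero hp' hw]
  exact HH_lin_le hp' (by simp) h2 hb' hw

/-- Proof. Let `z = gg c w`. If `b ∈ linU A' p'` in the ball then `gg c b ∈ linU A p` (`gg_linU'`),
`HH b w = HH (gg c b) z ≤ K HH b₀ z = K HH b₀' w`, `b₀' = gg (-c) b₀ ∈ lin 0 p'` (`gg_lin`,
`gg (-c) c = 0`), and `HH b₀' w ≤ ro (Pe p') w` (`HH_lin_le` with `a = 0`, `rs_zero`). -/
theorem Nr_gg {c p w : E} (hc : ‖c‖ < 1) (hp : ‖p‖ = 1) (hw : ‖w‖ < 1) {A : Set E}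
    (hA : ∀ a ∈ A, ‖a‖ < 1) {K : ℝ} (hK : 0 ≤ K)
    (h : ∃ b₀ ∈ lin c p, ‖b₀‖ < 1 ∧ ∀ b ∈ linU A p, ‖b‖ < 1 → HH b (gg c w) ≤ K * HH b₀ (gg c w)) :
    Nr K (gg (-c) '' A) (gg (-c) p) w := by
  intro b hb hb1
  obtain ⟨b₀, hb₀, hb₀1, hb₀h⟩ := h
  have h1 : HH b w = HH (gg c b) (gg c w) := (HH_gg hc hb1 hw).symm
  rw [h1]
  refine (hb₀h (gg c b) (gg_linU' hc hp hA hb hb1) (gg_lt hc hb1)).trans ?_
  exact mul_le_mul_of_nonneg_left (M10b_line hc hp hb₀ hb₀1 hw) hK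

/-- `gg c` is continuous at `gg (-c) p` (`hasFDerivAt_gg`), with the value `p`. -/
theorem gg_cont {c p : E} (hc : ‖c‖ < 1) (hp : ‖p‖ = 1) {s : ℝ} (hs : 0 < s) :
    ∃ s' : ℝ, 0 < s' ∧ ∀ w : E, ‖w‖ < 1 → ‖w - gg (-c) p‖ < s' → ‖gg c w - p‖ < s := by
  have hc' : ‖-c‖ < 1 := by rwa [norm_neg]
  have h1 : ContinuousAt (gg c) (gg (-c) p) :=
    (hasFDerivAt_gg hc (gg_le hc' hp.le)).continuousAt
  obtain ⟨s', hs', h2⟩ := Metric.continuousAt_iff.mp h1 s hs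
  refine ⟨s', hs', fun w _ hw => ?_⟩
  have h3 := h2 (x := w) (by rwa [dist_eq_norm])
  rwa [dist_eq_norm, CG.gg_gg_neg hc hp.le] at h3

variable [FiniteDimensional ℂ E]

/-- Proof. `gg_aut`, `IG_aut` (`IG2 (u ∘ gg c) w ≤ IG2 u (gg c w)`, monotonicity of the power),
`HH_gg`, `gg_linU`, `gg_cont`, the same sequence. -/
theorem CalmN_gg {κ : ℝ} (hκ : 0 ≤ κ) {c p : E} (hc : ‖c‖ < 1) (hp : ‖p‖ = 1) {A : Set E}
    (hA : ∀ a ∈ A, ‖a‖ < 1) {u : E → ℂ} (hu : CalmN κ (linU A p) p u) :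
    CalmN κ (linU (gg (-c) '' A) (gg (-c) p)) (gg (-c) p) (fun w => u (gg c w)) := by
  have hc' : ‖-c‖ < 1 := by rwa [norm_neg]
  obtain ⟨hu1, ⟨C, hC⟩, s, hs, W, hW, hk⟩ := hu
  obtain ⟨s', hs', hcont⟩ := gg_cont hc hp hs
  refine ⟨hu1.comp (CG.gg_holo hc) fun w hw => CG.gg_maps hc hw,
    ⟨C, fun w hw => hC _ (CG.gg_maps hc hw)⟩, s', hs', W, hW, fun k w hw hws hb => ?_⟩
  have hw1 : ‖w‖ < 1 := mem_ball_zero_iff.mp hw
  refine (Real.rpow_le_rpow (gd_IG_nonneg hw1) (CG.IG_aut hu1 (gg_aut hc) hw1)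
    (by positivity)).trans ?_
  refine hk k (gg c w) (CG.gg_maps hc hw) (hcont w hw1 hws) fun b hbS hb1 => ?_
  have hb' : ‖gg (-c) b‖ < 1 := gg_lt hc' hb1
  have h1 : HH b (gg c w) = HH (gg (-c) b) w := by
    have h := HH_gg hc hb' hw1
    rwa [CG.gg_gg_neg hc hb1.le] at h
  rw [h1]
  exact hb _ (gg_linU hc hp hA hbS hb1) hb'

/-- Proof. If `2 ^ n * ro (Pe p') w ≤ 1`, `p' = gg (-c) p`, then `2 ^ n * HH b (gg c w) ≤ 1` for
`b ∈ lin c p` in the ball: `HH b (gg c w) = HH (gg (-c) b) w ≤ ro (Pe p') w` as in `Nr_gg`. -/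
theorem calm_line {c p : E} (hc : ‖c‖ < 1) (hp : ‖p‖ = 1) {u : E → ℂ} (hu : Calm 1 (lin c p) u) :
    ∃ W : ℕ → ℝ, Summable W ∧ ∀ (n : ℕ) (w : E), w ∈ ball (0 : E) 1 →
      2 ^ n * ro (Pe (gg (-c) p)) w ≤ 1 → Real.sqrt (IG2 (fun w => u (gg c w)) w) ≤ W n := by
  obtain ⟨hu1, -, W, hW, hk⟩ := hu
  refine ⟨W, hW, fun n w hw hr => ?_⟩
  have hw1 : ‖w‖ < 1 := mem_ball_zero_iff.mp hw
  rw [Real.sqrt_eq_rpow]
  refine (Real.rpow_le_rpow (gd_IG_nonneg hw1) (CG.IG_aut hu1 (gg_aut hc) hw1)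
    (by norm_num)).trans ?_
  refine hk n (gg c w) (CG.gg_maps hc hw) fun b hbS hb1 => ?_
  refine le_trans ?_ hr
  exact mul_le_mul_of_nonneg_left (M10b_line hc hp hbS hb1 hw1) (by positivity)

end Pool.Agent.MPca0fc2.PV
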