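import Mathlib
import Pool.Agent.Lib.MP_ca0fc2_an.PV.M0
import Pool.Agent.Lib.MP_ca0fc2_an.PV.U1
import Pool.Agent.Lib.MP_ca0fc2_an.PTGrad

set_option autoImplicit false
set_option linter.unusedSectionVars false

open Metric Set MeasureTheory Filter Topology
open scoped InnerProductSpace ENNReal ContDiff

/-! # Locally calm functions -/

namespace Pool.Agent.MPca0fc2.PV

open Pool.Agent.Lib.MP_ca0fc2_an
open Pool.Agent.MPca0fc2.PT

variable {E : Type*} [NormedAddCommGroup E] [InnerProductSpace ℂ E] [FiniteDimensional ℂ E]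

private theorem M12_IG_nonneg {u : E → ℂ} {w : E} (hw : ‖w‖ < 1) : 0 ≤ IG2 u w := by
  unfold IG2
  have h1 : ‖fderiv ℂ u w w‖ ≤ ‖fderiv ℂ u w‖ :=
    ((fderiv ℂ u w).le_opNorm w).trans (mul_le_of_le_one_right (norm_nonneg _) hw.le)
  have h2 : ‖fderiv ℂ u w w‖ ^ 2 ≤ ‖fderiv ℂ u w‖ ^ 2 := pow_le_pow_left₀ (norm_nonneg _) h1 2
  have h3 : 0 ≤ 1 - ‖w‖ ^ 2 := by nlinarith [norm_nonneg w]
  exact mul_nonneg h3 (by linarith)

/-- with `s = 1` -/
theorem Calm.toN {κ : ℝ} {S : Set E} {u : E → ℂ} (h : Calm κ S u) (p : E) : CalmN κ S p u := by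
  obtain ⟨h1, h2, W, hW, hk⟩ := h
  exact ⟨h1, h2, 1, one_pos, W, hW, fun k z hz _ hb => hk k z hz hb⟩

/-- the invariant gradient is the same, the bound changes by a constant -/
theorem CalmN.sub_const {κ : ℝ} {S : Set E} {p : E} {u : E → ℂ} (h : CalmN κ S p u) (c : ℂ) :
    CalmN κ S p (fun z => u z - c) := by
  obtain ⟨h1, ⟨C, hC⟩, s, hs, W, hW, hk⟩ := h
  refine ⟨h1.sub_const c, ⟨C + ‖c‖, fun z hz => (norm_sub_le _ _).trans (by linarith [hC z hz])⟩,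
    s, hs, W, hW, fun k z hz hzp hb => ?_⟩
  have hI : IG2 (fun z => u z - c) z = IG2 u z := by
    unfold IG2
    rw [fderiv_sub_const]
  rw [hI]
  exact hk k z hz hzp hb

/-- `W' k = |W k| ^ 2`, as `Calm.one_two` (U1; /team-store/MP_ca0fc2_PV_U1.lean) -/
theorem CalmN.one_two {S : Set E} {p : E} {u : E → ℂ} (h : CalmN 1 S p u) : CalmN 2 S p u := by
  obtain ⟨h1, hC, s, hs, W, hW, hk⟩ := h
  refine ⟨h1, hC, s, hs, fun k => W k ^ 2, ?_, fun k z hz hzp hb => ?_⟩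
  · refine Summable.of_norm_bounded_eventually_nat hW.norm ?_
    have h0 := hW.norm.tendsto_atTop_zero
    filter_upwards [h0.eventually_le_const zero_lt_one] with i hi
    rw [norm_pow]
    nlinarith [norm_nonneg (W i)]
  · have h3 := hk k z hz hzp hb
    have h4 : 0 ≤ IG2 u z := M12_IG_nonneg (mem_ball_zero_iff.mp hz)
    have h5 : IG2 u z ^ ((2 : ℝ) / 2) = (IG2 u z ^ ((1 : ℝ) / 2)) ^ 2 := by
      rw [← Real.rpow_natCast (IG2 u z ^ ((1 : ℝ) / 2)) 2, ← Real.rpow_mul h4]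
      norm_num
    rw [h5]
    exact pow_le_pow_left₀ (Real.rpow_nonneg h4 _) h3 2

/-- `calm_affine` for `lin a p ⊆ linU A p` -/
theorem calmN_affine {A : Set E} (hne : A.Nonempty) (hA : ∀ a ∈ A, ‖a‖ < 1) (p q : E) :
    CalmN 1 (linU A p) p (fun z => 1 - ⟪q, z⟫_ℂ) := by
  obtain ⟨a, ha⟩ := hne
  obtain ⟨h1, h2, W, hW, hk⟩ := calm_affine (hA a ha) p q
  exact ⟨h1, h2, 1, one_pos, W, hW, fun k z hz _ hb =>
    hk k z hz fun b hb1 hb2 => hb b ⟨a, ha, hb1⟩ hb2⟩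

end Pool.Agent.MPca0fc2.PV
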