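import Mathlib
import Pool.Agent.Lib.MP_ca0fc2_an.PV.M8
import Pool.Agent.Lib.MP_ca0fc2_an.PV.A3

set_option autoImplicit false
set_option linter.unusedSectionVars false

open Metric Set MeasureTheory Filter Topology
open scoped InnerProductSpace ENNReal ContDiff

/-! # The depth relative to a set, and the weight of a density with a profile -/

namespace Pool.Agent.MPca0fc2.PV

open Pool.Agent.MPca0fc2.PT
open Pool.Agent.MPca0fc2.TS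
open Pool.Agent.MPca0fc2.TE

variable {E : Type*} [NormedAddCommGroup E] [InnerProductSpace ℂ E]

variable [FiniteDimensional ℂ E] [MeasurableSpace E] [BorelSpace E]

omit [FiniteDimensional ℂ E] [MeasurableSpace E] [BorelSpace E] in
private theorem M8b_den {x y : E} (hx : ‖x‖ < 1) (hy : ‖y‖ < 1) :
    0 < ‖1 - ⟪x, y⟫_ℂ‖ ∧ 1 - ‖x‖ ^ 2 ≤ 2 * ‖1 - ⟪x, y⟫_ℂ‖ := by
  have h1 := norm_inner_le_norm (𝕜 := ℂ) x y
  have h2 := norm_sub_norm_le (1 : ℂ) ⟪x, y⟫_ℂ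
  rw [norm_one] at h2
  have hx0 := norm_nonneg x
  have hy0 := norm_nonneg y
  have h3 : 0 ≤ ‖x‖ * (1 - ‖y‖) := mul_nonneg hx0 (by linarith)
  constructor
  · nlinarith
  · nlinarith [sq_nonneg (1 - ‖x‖)]

private theorem M8b_r32 {D a b R : ℝ} (hD : 0 < D) (ha : 0 < a) (hb : 0 < b) (hR0 : 0 ≤ R)
    (hR : R ≤ 4 * (D ^ 2 / (a * b))) :
    R ^ (1 / 32 : ℝ) ≤ 2 * (D ^ (1 / 16 : ℝ) * (a ^ (-(1 / 32) : ℝ) * b ^ (-(1 / 32) : ℝ))) := by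
  have h1 : R ^ (1 / 32 : ℝ) ≤ (4 * (D ^ 2 / (a * b))) ^ (1 / 32 : ℝ) :=
    Real.rpow_le_rpow hR0 hR (by norm_num)
  have h2 : (4 : ℝ) ^ (1 / 32 : ℝ) ≤ 2 := by
    have h3 : (4 : ℝ) ^ (1 / 32 : ℝ) ≤ ((2 : ℝ) ^ (32 : ℕ)) ^ (1 / 32 : ℝ) :=
      Real.rpow_le_rpow (by norm_num) (by norm_num) (by norm_num)
    have h4 : ((2 : ℝ) ^ (32 : ℕ)) ^ (1 / 32 : ℝ) = 2 := by
      rw [← Real.rpow_natCast, ← Real.rpow_mul (by norm_num)]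
      norm_num
    linarith
  have h3 : (D ^ 2) ^ (1 / 32 : ℝ) = D ^ (1 / 16 : ℝ) := by
    rw [← Real.rpow_natCast, ← Real.rpow_mul hD.le]
    norm_num
  rw [Real.mul_rpow (by norm_num) (by positivity), Real.div_rpow (by positivity) (by positivity),
    Real.mul_rpow ha.le hb.le, h3] at h1
  rw [Real.rpow_neg ha.le, Real.rpow_neg hb.le, ← mul_inv, ← div_eq_mul_inv]
  have h5 : 0 ≤ D ^ (1 / 16 : ℝ) / (a ^ (1 / 32 : ℝ) * b ^ (1 / 32 : ℝ)) := by positivity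
  nlinarith

private theorem M8b_real {m : ℕ} {D a b T G R S : ℝ} (hD : 0 < D) (ha : 0 < a) (hb : 0 < b)
    (haD : a ≤ 2 * D) (hT : 0 ≤ T) (hG : G ≤ (R ^ (1 / 32 : ℝ) + S ^ (1 / 32 : ℝ)) * T)
    (hR0 : 0 ≤ R) (hS0 : 0 ≤ S) (hR : R ≤ 4 * (D ^ 2 / (a * b))) (hS : S ≤ 4 * (D ^ 2 / (a * b))) :
    a ^ (m + 3) * G / a ^ (m + 2) * D ^ (-(((m + 3 : ℕ) : ℝ) + 1 / 4)) ≤
      8 * T * b ^ (-(1 / 32) : ℝ) * D ^ (-((m : ℝ) + 2 + 7 / 32)) := by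
  have h1 := M8b_r32 hD ha hb hR0 hR
  have h2 := M8b_r32 hD ha hb hS0 hS
  obtain ⟨κ, hκ⟩ : ∃ κ, κ = D ^ (-(((m + 3 : ℕ) : ℝ) + 1 / 4)) := ⟨_, rfl⟩
  have hκ0 : 0 < κ := by rw [hκ]; positivity
  have h3 : a ^ (m + 3) * G / a ^ (m + 2) = a * G := by
    rw [pow_succ]
    field_simp
  have h4 : G ≤ (2 * (D ^ (1 / 16 : ℝ) * (a ^ (-(1 / 32) : ℝ) * b ^ (-(1 / 32) : ℝ))) +
      2 * (D ^ (1 / 16 : ℝ) * (a ^ (-(1 / 32) : ℝ) * b ^ (-(1 / 32) : ℝ)))) * T :=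
    hG.trans (mul_le_mul_of_nonneg_right (add_le_add h1 h2) hT)
  have h6 : a * a ^ (-(1 / 32) : ℝ) ≤ 2 * D ^ (31 / 32 : ℝ) := by
    have h7 : a * a ^ (-(1 / 32) : ℝ) = a ^ (31 / 32 : ℝ) := by
      nth_rewrite 1 [← Real.rpow_one a]
      rw [← Real.rpow_add ha]
      norm_num
    rw [h7]
    have h8 : a ^ (31 / 32 : ℝ) ≤ (2 * D) ^ (31 / 32 : ℝ) :=
      Real.rpow_le_rpow ha.le haD (by norm_num)
    rw [Real.mul_rpow (by norm_num) hD.le] at h8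
    have h9 : (2 : ℝ) ^ (31 / 32 : ℝ) ≤ 2 ^ (1 : ℝ) :=
      Real.rpow_le_rpow_of_exponent_le (by norm_num) (by norm_num)
    rw [Real.rpow_one] at h9
    have h10 : 0 ≤ D ^ (31 / 32 : ℝ) := by positivity
    nlinarith
  have h7 : D ^ (31 / 32 : ℝ) * D ^ (1 / 16 : ℝ) * κ = D ^ (-((m : ℝ) + 2 + 7 / 32)) := by
    rw [hκ, ← Real.rpow_add hD, ← Real.rpow_add hD]
    congr 1
    push_cast
    ring
  rw [h3, ← hκ, ← h7]
  have hb0 : 0 ≤ b ^ (-(1 / 32) : ℝ) := by positivity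
  have hd0 : 0 ≤ D ^ (1 / 16 : ℝ) := by positivity
  calc a * G * κ ≤ a * ((2 * (D ^ (1 / 16 : ℝ) * (a ^ (-(1 / 32) : ℝ) * b ^ (-(1 / 32) : ℝ))) +
      2 * (D ^ (1 / 16 : ℝ) * (a ^ (-(1 / 32) : ℝ) * b ^ (-(1 / 32) : ℝ)))) * T) * κ := by gcongr
    _ = 4 * T * b ^ (-(1 / 32) : ℝ) * (a * a ^ (-(1 / 32) : ℝ) * D ^ (1 / 16 : ℝ) * κ) := by ring
    _ ≤ 4 * T * b ^ (-(1 / 32) : ℝ) * (2 * D ^ (31 / 32 : ℝ) * D ^ (1 / 16 : ℝ) * κ) := by gcongr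
    _ = _ := by ring

omit [FiniteDimensional ℂ E] [MeasurableSpace E] [BorelSpace E] in
/-- the ratio of the depths -/
private theorem M8b_rat {S : Set E} (hS : (S ∩ ball 0 1).Nonempty) {x y : E} (hx : ‖x‖ < 1)
    (hy : ‖y‖ < 1) : HS S x / HS S y ≤
      4 * (‖1 - ⟪x, y⟫_ℂ‖ ^ 2 / ((1 - ‖x‖ ^ 2) * (1 - ‖y‖ ^ 2))) ∧
      HS S y / HS S x ≤ 4 * (‖1 - ⟪x, y⟫_ℂ‖ ^ 2 / ((1 - ‖x‖ ^ 2) * (1 - ‖y‖ ^ 2))) := by
  have h1 := HS_mul hS hx hy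
  have h2 := HS_mul hS hy hx
  rw [HH_comm y x] at h2
  have hH := HH_pos hx hy
  have hpx := (HS_pos hS hx).1
  have hpy := (HS_pos hS hy).1
  have h3 : ‖1 - ⟪x, y⟫_ℂ‖ ^ 2 / ((1 - ‖x‖ ^ 2) * (1 - ‖y‖ ^ 2)) = (HH x y)⁻¹ := by
    unfold HH
    rw [inv_div]
  rw [h3, ← div_eq_mul_inv]
  constructor
  · rw [div_le_div_iff₀ hpy hH]
    exact h1
  · rw [div_le_div_iff₀ hpx hH]
    exact h2

/-- Proof. As `pv_Om` (A3; the file is /team-store/MP_ca0fc2_PV_A3.lean). With `D = ‖1 - ⟪x, y⟫‖`,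
`d x = 1 - ‖x‖² ≤ 2 D`, `d y ≤ 2 D`: `HS_mul` (and `HH_comm`) gives `HS S x / HS S y` and
`HS S y / HS S x` at most `4 / HH x y = 4 D² / (d x d y)`, so by `Th_cmp`
`G x ≤ 3 (D² / (d x d y))^(1/32) T`, `T = Th W (HS S y)`, and the integrand is
`≤ 3 T d x^(31/32) D^(-(m+3) - 1/4 + 1/16) (d y)^(-1/32) ≤ C T D^(-(m+2) - 7/32) (d y)^(-1/32)`;
`pv_ker` for `c = 7/32` gives `C T (d y)^(-1/4)`. -/
theorem pv_Om2 (μ : Measure E) [μ.IsAddHaarMeasure] {m : ℕ} (hm : 1 ≤ m)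
    (hdim : Module.finrank ℂ E = m + 1) :
    ∃ C : ℝ, 0 < C ∧ ∀ S : Set E, (S ∩ ball 0 1).Nonempty → ∀ W : ℕ → ℝ, (∀ i, 0 ≤ W i) →
      Summable W → ∀ G : E → ℝ, AEMeasurable G (μ.restrict (ball 0 1)) →
      (∀ x ∈ ball (0 : E) 1, 0 ≤ G x ∧ G x ≤ Th W (HS S x)) →
      ∀ y : E, ‖y‖ < 1 → Om (nuG μ m (m + 3) G) (m + 3) y ≤ C * Th W (HS S y) := by
  have hprop : ProperSpace E := FiniteDimensional.proper ℂ E
  obtain ⟨C1, hC1, hk1⟩ := pv_ker μ hm hdim (c := 7 / 32) (by norm_num) (by norm_num)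
  refine ⟨8 * C1, by positivity, ?_⟩
  intro S hS W hW0 hW G hGm hG y hy
  obtain ⟨T, hT⟩ : ∃ T, T = Th W (HS S y) := ⟨_, rfl⟩
  have hry : 0 < HS S y := (HS_pos hS hy).1
  have hT0 : 0 ≤ T := by
    rw [hT]
    exact Th_nonneg hW0 hry
  have hb : 0 < 1 - ‖y‖ ^ 2 := by nlinarith [norm_nonneg y]
  have hcont : Continuous fun x : E => ‖1 - ⟪x, y⟫_ℂ‖ := by fun_prop
  have hkr : ∀ p : ℝ, Measurable fun x : E => ‖1 - ⟪x, y⟫_ℂ‖ ^ p := fun p =>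
    hcont.measurable.pow_const _
  have hkm : ∀ p : ℝ, Measurable fun x : E => ENNReal.ofReal (‖1 - ⟪x, y⟫_ℂ‖ ^ p) := fun p =>
    ENNReal.measurable_ofReal.comp (hkr p)
  have hyb : y ∈ ball (0 : E) 1 := by rwa [mem_ball_zero_iff]
  have hgm : AEMeasurable (fun x : E => ENNReal.ofReal
      ((1 - ‖x‖ ^ 2) ^ (m + 3) * G x / (1 - ‖x‖ ^ 2) ^ (m + 2))) (μ.restrict (ball 0 1)) := by
    apply AEMeasurable.ennreal_ofReal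
    have h5 : Measurable fun x : E => 1 - ‖x‖ ^ 2 := measurable_const.sub (measurable_norm.pow_const 2)
    exact ((h5.pow_const (m + 3)).aemeasurable.mul hGm).div (h5.pow_const (m + 2)).aemeasurable
  obtain ⟨b, hbdef⟩ : ∃ b, b = 1 - ‖y‖ ^ 2 := ⟨_, rfl⟩
  have hk1' := hk1 y hyb
  rw [← hbdef] at hb hk1'
  have hle : ∫⁻ x, ENNReal.ofReal (‖1 - ⟪x, y⟫_ℂ‖ ^ (-(((m + 3 : ℕ) : ℝ) + 1 / 4)))
      ∂(nuG μ m (m + 3) G) ≤ ENNReal.ofReal (8 * C1 * b ^ (-(1 / 4) : ℝ) * T) := by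
    unfold nuG
    rw [lintegral_withDensity_eq_lintegral_mul₀ hgm (hkm _).aemeasurable]
    have h1 : ∀ x ∈ ball (0 : E) 1, ((fun x : E => ENNReal.ofReal
        ((1 - ‖x‖ ^ 2) ^ (m + 3) * G x / (1 - ‖x‖ ^ 2) ^ (m + 2))) *
        fun x : E => ENNReal.ofReal (‖1 - ⟪x, y⟫_ℂ‖ ^ (-(((m + 3 : ℕ) : ℝ) + 1 / 4)))) x ≤
        ENNReal.ofReal (8 * T * b ^ (-(1 / 32) : ℝ)) *
          ENNReal.ofReal (‖1 - ⟪x, y⟫_ℂ‖ ^ (-((m : ℝ) + 2 + 7 / 32))) := by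
      intro x hx
      obtain ⟨hG0, hG1⟩ := hG x hx
      rw [mem_ball_zero_iff] at hx
      obtain ⟨hD, haD⟩ := M8b_den hx hy
      have ha : 0 < 1 - ‖x‖ ^ 2 := by nlinarith [norm_nonneg x]
      obtain ⟨hc1, hc2⟩ := M8b_rat hS hx hy
      have hrx := (HS_pos hS hx).1
      have hTh := Th_cmp hW0 hW hrx hry
      rw [← hT] at hTh
      rw [← hbdef] at hc1 hc2
      rw [Pi.mul_apply, ← ENNReal.ofReal_mul (by positivity), ← ENNReal.ofReal_mul (by positivity)]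
      apply ENNReal.ofReal_le_ofReal
      exact M8b_real hD ha hb haD hT0 (hG1.trans hTh) (by positivity) (by positivity) hc1 hc2
    calc _ ≤ ∫⁻ x in ball (0 : E) 1, ENNReal.ofReal (8 * T * b ^ (-(1 / 32) : ℝ)) *
          ENNReal.ofReal (‖1 - ⟪x, y⟫_ℂ‖ ^ (-((m : ℝ) + 2 + 7 / 32))) ∂μ :=
          setLIntegral_mono' measurableSet_ball h1
      _ = ENNReal.ofReal (8 * T * b ^ (-(1 / 32) : ℝ)) *
          ∫⁻ x in ball (0 : E) 1, ENNReal.ofReal (‖1 - ⟪x, y⟫_ℂ‖ ^ (-((m : ℝ) + 2 + 7 / 32))) ∂μ := by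
          rw [lintegral_const_mul _ (hkm _)]
      _ ≤ ENNReal.ofReal (8 * T * b ^ (-(1 / 32) : ℝ)) *
          ENNReal.ofReal (C1 * b ^ (-(7 / 32) : ℝ)) := by gcongr
      _ = ENNReal.ofReal (8 * C1 * b ^ (-(1 / 4) : ℝ) * T) := by
          rw [← ENNReal.ofReal_mul (by positivity)]
          congr 1
          have h2 : b ^ (-(1 / 32) : ℝ) * b ^ (-(7 / 32) : ℝ) = b ^ (-(1 / 4) : ℝ) := by
            rw [← Real.rpow_add hb]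
            norm_num
          rw [← h2]
          ring
  have hPP : PP (nuG μ m (m + 3) G) (((m + 3 : ℕ) : ℝ) + 1 / 4) y ≤
      8 * C1 * b ^ (-(1 / 4) : ℝ) * T := by
    unfold PP
    rw [integral_eq_lintegral_of_nonneg_ae (ae_of_all _ fun _ => Real.rpow_nonneg (norm_nonneg _) _)
      (hkr _).aestronglyMeasurable]
    exact ENNReal.toReal_le_of_le_ofReal (by positivity) hle
  unfold Om
  rw [← hT, ← hbdef]
  calc b ^ (1 / 4 : ℝ) * PP (nuG μ m (m + 3) G) (((m + 3 : ℕ) : ℝ) + 1 / 4) y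
      ≤ b ^ (1 / 4 : ℝ) * (8 * C1 * b ^ (-(1 / 4) : ℝ) * T) := by gcongr
    _ = 8 * C1 * T * (b ^ (1 / 4 : ℝ) * b ^ (-(1 / 4) : ℝ)) := by ring
    _ = 8 * C1 * T := by
        rw [← Real.rpow_add hb]
        norm_num

end Pool.Agent.MPca0fc2.PV
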