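import Mathlib
import Pool.Agent.Lib.MP_ca0fc2_an.PV.M8b
import Pool.Agent.Lib.MP_ca0fc2_an.PV.A3

set_option autoImplicit false
set_option linter.unusedSectionVars false

open Metric Set MeasureTheory Filter Topology
open scoped InnerProductSpace ENNReal ContDiff

/-! # The depth relative to a set, and the weight of a density with a profile -/

namespace Pool.Agent.MPca0fc2.PV

open Pool.Agent.MPca0fc2.PT
open Pool.Agent.MPca0fc2.TS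
open Pool.Agent.MPca0fc2.TE

variable {E : Type*} [NormedAddCommGroup E] [InnerProductSpace ℂ E]

variable [FiniteDimensional ℂ E] [MeasurableSpace E] [BorelSpace E]

private theorem M8c_PP (μ : Measure E) {m : ℕ} {G : E → ℝ}
    (hGm : AEMeasurable G (μ.restrict (ball 0 1))) (q : ℝ) (y : E) :
    PP (nuG μ m (m + 3) G) q y = (∫⁻ x in ball (0 : E) 1,
      ENNReal.ofReal ((1 - ‖x‖ ^ 2) ^ (m + 3) * G x / (1 - ‖x‖ ^ 2) ^ (m + 2)) *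
        ENNReal.ofReal (‖1 - ⟪x, y⟫_ℂ‖ ^ (-q)) ∂μ).toReal := by
  have hcont : Continuous fun x : E => ‖1 - ⟪x, y⟫_ℂ‖ := by fun_prop
  have hkr : Measurable fun x : E => ‖1 - ⟪x, y⟫_ℂ‖ ^ (-q) := hcont.measurable.pow_const _
  have hkm : Measurable fun x : E => ENNReal.ofReal (‖1 - ⟪x, y⟫_ℂ‖ ^ (-q)) :=
    ENNReal.measurable_ofReal.comp hkr
  have hgm : AEMeasurable (fun x : E => ENNReal.ofReal
      ((1 - ‖x‖ ^ 2) ^ (m + 3) * G x / (1 - ‖x‖ ^ 2) ^ (m + 2))) (μ.restrict (ball 0 1)) := by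
    apply AEMeasurable.ennreal_ofReal
    have h5 : Measurable fun x : E => 1 - ‖x‖ ^ 2 := measurable_const.sub (measurable_norm.pow_const 2)
    exact ((h5.pow_const (m + 3)).aemeasurable.mul hGm).div (h5.pow_const (m + 2)).aemeasurable
  unfold PP
  rw [integral_eq_lintegral_of_nonneg_ae (ae_of_all _ fun _ => Real.rpow_nonneg (norm_nonneg _) _)
    hkr.aestronglyMeasurable]
  unfold nuG
  rw [lintegral_withDensity_eq_lintegral_mul₀ hgm hkm.aemeasurable]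
  rfl

private theorem M8c_bd (μ : Measure E) {m : ℕ} {G : E → ℝ} {B c q : ℝ} {y : E} (hB : 0 ≤ B)
    (hc : 0 < c) (hq : 0 ≤ q) (hG : ∀ x ∈ ball (0 : E) 1, 0 ≤ G x ∧ G x ≤ B)
    (hd : ∀ x ∈ ball (0 : E) 1, G x ≠ 0 → c ≤ ‖1 - ⟪x, y⟫_ℂ‖) :
    ∫⁻ x in ball (0 : E) 1,
      ENNReal.ofReal ((1 - ‖x‖ ^ 2) ^ (m + 3) * G x / (1 - ‖x‖ ^ 2) ^ (m + 2)) *
        ENNReal.ofReal (‖1 - ⟪x, y⟫_ℂ‖ ^ (-q)) ∂μ ≤
      ENNReal.ofReal (B * c ^ (-q)) * μ (ball 0 1) := by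
  have h1 : ∀ x ∈ ball (0 : E) 1,
      ENNReal.ofReal ((1 - ‖x‖ ^ 2) ^ (m + 3) * G x / (1 - ‖x‖ ^ 2) ^ (m + 2)) *
        ENNReal.ofReal (‖1 - ⟪x, y⟫_ℂ‖ ^ (-q)) ≤ ENNReal.ofReal (B * c ^ (-q)) := by
    intro x hx
    obtain ⟨hG0, hGB⟩ := hG x hx
    have hx' : ‖x‖ < 1 := by rwa [mem_ball_zero_iff] at hx
    have ha : 0 < 1 - ‖x‖ ^ 2 := by nlinarith [norm_nonneg x]
    have ha1 : 1 - ‖x‖ ^ 2 ≤ 1 := by nlinarith [norm_nonneg x]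
    have h3 : (1 - ‖x‖ ^ 2) ^ (m + 3) * G x / (1 - ‖x‖ ^ 2) ^ (m + 2) = (1 - ‖x‖ ^ 2) * G x := by
      rw [pow_succ]
      field_simp
    rw [h3, ← ENNReal.ofReal_mul (mul_nonneg ha.le hG0)]
    apply ENNReal.ofReal_le_ofReal
    by_cases h0 : G x = 0
    · rw [h0, mul_zero, zero_mul]
      positivity
    · have h4 : ‖1 - ⟪x, y⟫_ℂ‖ ^ (-q) ≤ c ^ (-q) :=
        Real.rpow_le_rpow_of_nonpos hc (hd x hx h0) (by linarith)
      have h5 : (1 - ‖x‖ ^ 2) * G x ≤ B := by nlinarith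
      exact mul_le_mul h5 h4 (Real.rpow_nonneg (norm_nonneg _) _) hB
  calc _ ≤ ∫⁻ _ in ball (0 : E) 1, ENNReal.ofReal (B * c ^ (-q)) ∂μ :=
        setLIntegral_mono' measurableSet_ball h1
    _ = _ := by rw [lintegral_const, Measure.restrict_apply_univ]

omit [FiniteDimensional ℂ E] [MeasurableSpace E] [BorelSpace E] in
private theorem M8c_far {p x y : E} (hp : ‖p‖ = 1) (hx : ‖x‖ < 1) {s : ℝ} (hs : 0 < s)
    (hxs : s ≤ ‖x - p‖) (hys : ‖y - p‖ < s ^ 2 / 4) : s ^ 2 / 4 ≤ ‖1 - ⟪x, y⟫_ℂ‖ := by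
  have h1 : ‖x - p‖ ^ 2 = ‖x‖ ^ 2 - 2 * (⟪x, p⟫_ℂ).re + ‖p‖ ^ 2 := by
    have := @norm_sub_sq ℂ E _ _ _ x p
    simpa using this
  have h2 : s ^ 2 ≤ ‖x - p‖ ^ 2 := by gcongr
  have h3 : ‖⟪x, p - y⟫_ℂ‖ ≤ ‖y - p‖ := by
    have h4 := norm_inner_le_norm (𝕜 := ℂ) x (p - y)
    rw [norm_sub_rev p y] at h4
    nlinarith [norm_nonneg (y - p), norm_nonneg x]
  have h5 : (1 - ⟪x, y⟫_ℂ).re = (1 - (⟪x, p⟫_ℂ).re) + (⟪x, p - y⟫_ℂ).re := by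
    rw [inner_sub_right, Complex.sub_re, Complex.sub_re, Complex.one_re]
    ring
  have h6 : -‖⟪x, p - y⟫_ℂ‖ ≤ (⟪x, p - y⟫_ℂ).re := by
    have := Complex.abs_re_le_norm (⟪x, p - y⟫_ℂ)
    exact (abs_le.1 this).1
  have h7 : (1 - ⟪x, y⟫_ℂ).re ≤ ‖1 - ⟪x, y⟫_ℂ‖ := Complex.re_le_norm _
  rw [hp] at h1
  nlinarith [norm_nonneg x]

/-- Local version. Proof. `s' = min 1 (s² / 4)`. For `‖x - p‖ ≥ s`, `‖y - p‖ < s'`:
`re (1 - ⟪x, p⟫) ≥ ‖x - p‖² / 2` (`‖x‖ ≤ 1`), `‖⟪x, p - y⟫‖ ≤ s'`, so `‖1 - ⟪x, y⟫‖ ≥ s² / 4` and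
the part of the integral over these `x` is at most `C B`; it is multiplied by `(1 - ‖y‖²)^(1/4)`.
For the part over `‖x - p‖ < s` use `pv_Om2` with the function `G` cut off (`Set.indicator`). -/
theorem pv_OmN (μ : Measure E) [μ.IsAddHaarMeasure] {m : ℕ} (hm : 1 ≤ m)
    (hdim : Module.finrank ℂ E = m + 1) {p : E} (hp : ‖p‖ = 1) {s : ℝ} (hs : 0 < s) {B : ℝ} :
    ∃ C s' : ℝ, 0 < C ∧ 0 < s' ∧ ∀ S : Set E, (S ∩ ball 0 1).Nonempty → ∀ W : ℕ → ℝ,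
      (∀ i, 0 ≤ W i) → Summable W → ∀ G : E → ℝ, AEMeasurable G (μ.restrict (ball 0 1)) →
      (∀ x ∈ ball (0 : E) 1, 0 ≤ G x ∧ G x ≤ B) →
      (∀ x ∈ ball (0 : E) 1, ‖x - p‖ < s → G x ≤ Th W (HS S x)) →
      ∀ y : E, ‖y‖ < 1 → ‖y - p‖ < s' → Om (nuG μ m (m + 3) G) (m + 3) y ≤
        C * (Th W (HS S y) + (1 - ‖y‖ ^ 2) ^ (1 / 4 : ℝ)) := by
  classical
  have hprop : ProperSpace E := FiniteDimensional.proper ℂ E
  obtain ⟨C1, hC1, hk1⟩ := pv_Om2 μ hm hdim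
  obtain ⟨q, hq⟩ : ∃ q : ℝ, q = ((m + 3 : ℕ) : ℝ) + 1 / 4 := ⟨_, rfl⟩
  have hq0 : 0 ≤ q := by rw [hq]; positivity
  obtain ⟨K2, hK2⟩ : ∃ K2 : ℝ, K2 = max B 0 * (s ^ 2 / 4) ^ (-q) * (μ (ball 0 1)).toReal := ⟨_, rfl⟩
  have hBm : 0 ≤ max B 0 := le_max_right _ _
  have hK20 : 0 ≤ K2 := by rw [hK2]; positivity
  have hs4 : 0 < s ^ 2 / 4 := by positivity
  refine ⟨C1 + 1 + K2, min 1 (s ^ 2 / 4), by positivity, lt_min one_pos hs4, ?_⟩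
  intro S hS W hW0 hW G hGm hG hG1 y hy hys
  have hys' : ‖y - p‖ < s ^ 2 / 4 := hys.trans_le (min_le_right _ _)
  have hT0 : 0 ≤ Th W (HS S y) := Th_nonneg hW0 (HS_pos hS hy).1
  have hb : 0 < 1 - ‖y‖ ^ 2 := by nlinarith [norm_nonneg y]
  have hGB : ∀ x ∈ ball (0 : E) 1, 0 ≤ G x ∧ G x ≤ max B 0 := fun x hx =>
    ⟨(hG x hx).1, (hG x hx).2.trans (le_max_left _ _)⟩
  -- the two parts of `G`
  obtain ⟨G1, hG1d⟩ : ∃ G1 : E → ℝ, G1 = (ball p s).indicator G := ⟨_, rfl⟩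
  obtain ⟨G2, hG2d⟩ : ∃ G2 : E → ℝ, G2 = (ball p s)ᶜ.indicator G := ⟨_, rfl⟩
  have hG1m : AEMeasurable G1 (μ.restrict (ball 0 1)) := by
    rw [hG1d]; exact hGm.indicator measurableSet_ball
  have hin : ∀ x, x ∈ ball p s → G1 x = G x ∧ G2 x = 0 := by
    intro x hx
    rw [hG1d, hG2d]
    exact ⟨Set.indicator_of_mem hx _, Set.indicator_of_notMem (by simpa using hx) _⟩
  have hout : ∀ x, x ∉ ball p s → G1 x = 0 ∧ G2 x = G x := by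
    intro x hx
    rw [hG1d, hG2d]
    exact ⟨Set.indicator_of_notMem hx _, Set.indicator_of_mem (by simpa using hx) _⟩
  have hG1b : ∀ x ∈ ball (0 : E) 1, 0 ≤ G1 x ∧ G1 x ≤ max B 0 := by
    intro x hx
    by_cases h : x ∈ ball p s
    · rw [(hin x h).1]; exact hGB x hx
    · rw [(hout x h).1]; exact ⟨le_rfl, hBm⟩
  have hG2b : ∀ x ∈ ball (0 : E) 1, 0 ≤ G2 x ∧ G2 x ≤ max B 0 := by
    intro x hx
    by_cases h : x ∈ ball p s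
    · rw [(hin x h).2]; exact ⟨le_rfl, hBm⟩
    · rw [(hout x h).2]; exact hGB x hx
  have hG1T : ∀ x ∈ ball (0 : E) 1, 0 ≤ G1 x ∧ G1 x ≤ Th W (HS S x) := by
    intro x hx
    refine ⟨(hG1b x hx).1, ?_⟩
    by_cases h : x ∈ ball p s
    · rw [(hin x h).1]
      rw [mem_ball, dist_eq_norm] at h
      exact hG1 x hx h
    · rw [(hout x h).1]
      rw [mem_ball_zero_iff] at hx
      exact Th_nonneg hW0 (HS_pos hS hx).1
  have hOm1 := hk1 S hS W hW0 hW G1 hG1m hG1T y hy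
  -- the integrals
  have hL2 := M8c_bd μ (m := m) (y := y) (q := q) hBm hs4 hq0 hG2b (by
    intro x hx hx0
    have h : x ∉ ball p s := fun h => hx0 (hin x h).2
    rw [mem_ball, dist_eq_norm, not_lt] at h
    rw [mem_ball_zero_iff] at hx
    exact M8c_far hp hx hs h hys')
  have hL1 := M8c_bd μ (m := m) (y := y) (q := q) (c := 1 - ‖y‖) hBm (by linarith) hq0 hG1b (by
    intro x hx _
    rw [mem_ball_zero_iff] at hx
    have h1 := norm_inner_le_norm (𝕜 := ℂ) x y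
    have h2 := norm_sub_norm_le (1 : ℂ) ⟪x, y⟫_ℂ
    rw [norm_one] at h2
    nlinarith [norm_nonneg x, norm_nonneg y])
  have hL1f := ne_top_of_le_ne_top (ENNReal.mul_ne_top ENNReal.ofReal_ne_top
    measure_ball_lt_top.ne) hL1
  have hadd : ∫⁻ x in ball (0 : E) 1,
      ENNReal.ofReal ((1 - ‖x‖ ^ 2) ^ (m + 3) * G x / (1 - ‖x‖ ^ 2) ^ (m + 2)) *
        ENNReal.ofReal (‖1 - ⟪x, y⟫_ℂ‖ ^ (-q)) ∂μ ≤
      ∫⁻ x in ball (0 : E) 1,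
        ENNReal.ofReal ((1 - ‖x‖ ^ 2) ^ (m + 3) * G1 x / (1 - ‖x‖ ^ 2) ^ (m + 2)) *
          ENNReal.ofReal (‖1 - ⟪x, y⟫_ℂ‖ ^ (-q)) ∂μ +
      ∫⁻ x in ball (0 : E) 1,
        ENNReal.ofReal ((1 - ‖x‖ ^ 2) ^ (m + 3) * G2 x / (1 - ‖x‖ ^ 2) ^ (m + 2)) *
          ENNReal.ofReal (‖1 - ⟪x, y⟫_ℂ‖ ^ (-q)) ∂μ := by
    have hcont : Continuous fun x : E => ‖1 - ⟪x, y⟫_ℂ‖ := by fun_prop
    have hkr : Measurable fun x : E => ‖1 - ⟪x, y⟫_ℂ‖ ^ (-q) := hcont.measurable.pow_const _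
    have hgm : AEMeasurable (fun x : E => ENNReal.ofReal
        ((1 - ‖x‖ ^ 2) ^ (m + 3) * G1 x / (1 - ‖x‖ ^ 2) ^ (m + 2)) *
          ENNReal.ofReal (‖1 - ⟪x, y⟫_ℂ‖ ^ (-q))) (μ.restrict (ball 0 1)) := by
      refine AEMeasurable.mul (AEMeasurable.ennreal_ofReal ?_) hkr.ennreal_ofReal.aemeasurable
      have h5 : Measurable fun x : E => 1 - ‖x‖ ^ 2 :=
        measurable_const.sub (measurable_norm.pow_const 2)
      exact ((h5.pow_const (m + 3)).aemeasurable.mul hG1m).div (h5.pow_const (m + 2)).aemeasurable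
    rw [← lintegral_add_left' hgm]
    refine setLIntegral_mono' measurableSet_ball fun x hx => ?_
    by_cases h : x ∈ ball p s
    · rw [(hin x h).1]
      exact le_self_add
    · rw [(hout x h).2]
      exact le_add_self
  have hL2f := ne_top_of_le_ne_top (ENNReal.mul_ne_top ENNReal.ofReal_ne_top
    measure_ball_lt_top.ne) hL2
  have hPP : PP (nuG μ m (m + 3) G) q y ≤ PP (nuG μ m (m + 3) G1) q y + K2 := by
    rw [M8c_PP μ hGm, M8c_PP μ hG1m]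
    refine (ENNReal.toReal_mono (ENNReal.add_ne_top.2 ⟨hL1f, hL2f⟩) hadd).trans ?_
    rw [ENNReal.toReal_add hL1f hL2f]
    have h8 := ENNReal.toReal_mono (ENNReal.mul_ne_top ENNReal.ofReal_ne_top
      measure_ball_lt_top.ne) hL2
    rw [ENNReal.toReal_mul, ENNReal.toReal_ofReal (by positivity), ← hK2] at h8
    linarith
  unfold Om at hOm1 ⊢
  rw [← hq] at hOm1 ⊢
  have hb4 : 0 < (1 - ‖y‖ ^ 2) ^ (1 / 4 : ℝ) := Real.rpow_pos_of_pos hb _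
  calc (1 - ‖y‖ ^ 2) ^ (1 / 4 : ℝ) * PP (nuG μ m (m + 3) G) q y
      ≤ (1 - ‖y‖ ^ 2) ^ (1 / 4 : ℝ) * (PP (nuG μ m (m + 3) G1) q y + K2) := by gcongr
    _ = (1 - ‖y‖ ^ 2) ^ (1 / 4 : ℝ) * PP (nuG μ m (m + 3) G1) q y +
        K2 * (1 - ‖y‖ ^ 2) ^ (1 / 4 : ℝ) := by ring
    _ ≤ C1 * Th W (HS S y) + K2 * (1 - ‖y‖ ^ 2) ^ (1 / 4 : ℝ) := by gcongr
    _ ≤ (C1 + 1 + K2) * (Th W (HS S y) + (1 - ‖y‖ ^ 2) ^ (1 / 4 : ℝ)) := by
        have e1 : 0 ≤ K2 * Th W (HS S y) := by positivity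
        have e2 : 0 ≤ C1 * (1 - ‖y‖ ^ 2) ^ (1 / 4 : ℝ) := by positivity
        nlinarith

end Pool.Agent.MPca0fc2.PV
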