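import Mathlib
import Pool.Agent.Lib.MP_ca0fc2_an.PV.M1b
import Pool.Agent.Lib.MP_ca0fc2_an.TE.G1

set_option autoImplicit false

open Metric Set MeasureTheory Filter Topology
open scoped InnerProductSpace ENNReal ContDiff

/-! # The geodesic from the nearest line does not come near the other lines -/

namespace Pool.Agent.MPca0fc2.PV

open Pool.Agent.MPca0fc2.PT
open Pool.Agent.MPca0fc2.TS
open Pool.Agent.MPca0fc2.TE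

variable {E : Type*} [NormedAddCommGroup E] [InnerProductSpace ℂ E]

/-- Proof. Let `T = tt p z + ‖zt p z‖²` (it is the same for the points `z_r = pt (Pe p) r z`, by
`tt_pt`, `zt_pt`), `β = zt p a`, `T_β r = tt p z_r + ‖zt p z_r - β‖² = T - 2 r re ⟪β, zt p z⟫ +
‖β‖²`, an affine function of `r`. `HH_lin_eq` and the hypothesis give `rs p β z ≤ K ro (Pe p) z =
K rs p 0 z` (`rs_zero`, `zt p 0 = 0`), so `T ≤ K T_β 1`; `T ≤ T_β 0 ≤ K T_β 0`. So `T ≤ K T_β r`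
for `0 ≤ r ≤ 1`, and for `b ∈ lin a p`: `HH b z_r ≤ rs p β z_r = tt p z_r / T_β r ≤
K tt p z_r / T = K ro (Pe p) z_r` (`HH_lin_le`, `rs_zero`; `‖z_r‖ < 1` by `pyth`). -/
theorem Nr_pt {p z : E} (hp : ‖p‖ = 1) {A : Set E} (hA : ∀ a ∈ A, ‖a‖ < 1) {K : ℝ} (hK : 1 ≤ K)
    (hz : ‖z‖ < 1) (h : Nr K A p z) {r : ℝ} (hr0 : 0 ≤ r) (hr1 : r ≤ 1) :
    Nr K A p (pt (Pe p) r z) := by
  have hpr := Pe_prj hp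
  have hz2 : ‖z‖ ^ 2 < 1 := by nlinarith [norm_nonneg z]
  have hpy := pyth hpr z
  have hr2 : r ^ 2 ≤ 1 := by nlinarith
  have hDp := Dp_eq hpr r z
  have hzr : ‖pt (Pe p) r z‖ < 1 := by
    have h1 : 0 < 1 - ‖pt (Pe p) r z‖ ^ 2 := by
      rw [hDp]
      unfold Dp
      nlinarith [sq_nonneg ‖z - Pe p z‖, mul_nonneg (sub_nonneg.mpr hr2) (sq_nonneg ‖z - Pe p z‖)]
    nlinarith [norm_nonneg (pt (Pe p) r z)]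
  have hzt0 : zt p (0 : E) = 0 := by
    unfold zt
    simp
  obtain ⟨ζ, hζ⟩ : ∃ ζ : E, ζ = zt p z := ⟨_, rfl⟩
  obtain ⟨t, ht⟩ : ∃ t : ℝ, t = tt p z := ⟨_, rfl⟩
  have htpos : 0 < t := by
    rw [ht]
    exact tt_pos hp hz
  have htr : tt p (pt (Pe p) r z) = t + (1 - r ^ 2) * ‖ζ‖ ^ 2 := by rw [tt_pt hp hz r, ht, hζ]
  have htrpos : 0 < t + (1 - r ^ 2) * ‖ζ‖ ^ 2 := by
    have := mul_nonneg (sub_nonneg.mpr hr2) (sq_nonneg ‖ζ‖)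
    linarith
  rintro b ⟨a, ha, hb⟩ hb1
  refine (HH_lin_le hp (hA a ha) hb hb1 hzr).trans ?_
  rw [← rs_zero hp hzr]
  obtain ⟨b0, hb0, hb01, hb02⟩ := HH_lin_eq hp (hA a ha) hz
  have h1 := h b0 ⟨a, ha, hb0⟩ hb01
  rw [hb02, ← rs_zero hp hz] at h1
  obtain ⟨β, hβ⟩ : ∃ β : E, β = zt p a := ⟨_, rfl⟩
  unfold rs at h1 ⊢
  rw [hzt0] at h1 ⊢
  rw [sub_zero] at h1 ⊢
  rw [htr, zt_pt hp r]
  rw [← ht, ← hζ, ← hβ] at h1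
  rw [← hζ, ← hβ]
  have e1 : ‖(r : ℂ) • ζ - β‖ ^ 2 = r ^ 2 * ‖ζ‖ ^ 2 - 2 * r * (⟪ζ, β⟫_ℂ).re + ‖β‖ ^ 2 := by
    rw [norm_sub_sq (𝕜 := ℂ), norm_smul, inner_smul_left]
    simp only [Complex.conj_ofReal, RCLike.re_to_complex, Complex.re_ofReal_mul,
      Complex.norm_real, Real.norm_eq_abs]
    rw [mul_pow, sq_abs]
    ring
  have e2 : ‖(r : ℂ) • ζ‖ ^ 2 = r ^ 2 * ‖ζ‖ ^ 2 := by
    rw [norm_smul, mul_pow, Complex.norm_real, Real.norm_eq_abs, sq_abs]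
  have e3 : ‖ζ - β‖ ^ 2 = ‖ζ‖ ^ 2 - 2 * (⟪ζ, β⟫_ℂ).re + ‖β‖ ^ 2 := by
    rw [norm_sub_sq (𝕜 := ℂ)]
    simp only [RCLike.re_to_complex]
  obtain ⟨w, hw⟩ : ∃ w : ℝ, w = (⟪ζ, β⟫_ℂ).re := ⟨_, rfl⟩
  have hT : 0 < t + ‖ζ‖ ^ 2 := by positivity
  have hT1 : 0 < t + ‖ζ - β‖ ^ 2 := by positivity
  have h2 : t + ‖ζ‖ ^ 2 ≤ K * (t + ‖ζ - β‖ ^ 2) := by
    rw [← mul_div_assoc, div_le_div_iff₀ hT1 hT] at h1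
    have h3 : t * (t + ‖ζ‖ ^ 2) ≤ t * (K * (t + ‖ζ - β‖ ^ 2)) := by nlinarith
    exact le_of_mul_le_mul_left h3 htpos
  have hTr : 0 < t + (1 - r ^ 2) * ‖ζ‖ ^ 2 + ‖(r : ℂ) • ζ - β‖ ^ 2 := by positivity
  have hT' : 0 < t + (1 - r ^ 2) * ‖ζ‖ ^ 2 + ‖(r : ℂ) • ζ‖ ^ 2 := by positivity
  have hTe : t + (1 - r ^ 2) * ‖ζ‖ ^ 2 + ‖(r : ℂ) • ζ‖ ^ 2 = t + ‖ζ‖ ^ 2 := by
    rw [e2]
    ring
  have h4 : t + ‖ζ‖ ^ 2 ≤ K * (t + (1 - r ^ 2) * ‖ζ‖ ^ 2 + ‖(r : ℂ) • ζ - β‖ ^ 2) := by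
    rw [e3, ← hw] at h2
    rw [e1, ← hw]
    have h5 : t + ‖ζ‖ ^ 2 ≤ K * (t + ‖ζ‖ ^ 2 + ‖β‖ ^ 2) := by
      have h6 : t + ‖ζ‖ ^ 2 ≤ t + ‖ζ‖ ^ 2 + ‖β‖ ^ 2 := by
        have := sq_nonneg ‖β‖
        linarith
      have h7 : 1 * (t + ‖ζ‖ ^ 2 + ‖β‖ ^ 2) ≤ K * (t + ‖ζ‖ ^ 2 + ‖β‖ ^ 2) :=
        mul_le_mul_of_nonneg_right hK (by positivity)
      linarith
    have h8 := mul_le_mul_of_nonneg_left h2 hr0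
    have h9 := mul_le_mul_of_nonneg_left h5 (sub_nonneg.mpr hr1)
    have h10 : K * (t + (1 - r ^ 2) * ‖ζ‖ ^ 2 + (r ^ 2 * ‖ζ‖ ^ 2 - 2 * r * w + ‖β‖ ^ 2)) =
        r * (K * (t + (‖ζ‖ ^ 2 - 2 * w + ‖β‖ ^ 2))) +
          (1 - r) * (K * (t + ‖ζ‖ ^ 2 + ‖β‖ ^ 2)) := by ring
    rw [h10]
    calc t + ‖ζ‖ ^ 2 = r * (t + ‖ζ‖ ^ 2) + (1 - r) * (t + ‖ζ‖ ^ 2) := by ring
      _ ≤ _ := add_le_add h8 h9
  rw [← mul_div_assoc, div_le_div_iff₀ hTr hT', hTe]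
  have h12 := mul_le_mul_of_nonneg_left h4 htrpos.le
  nlinarith

end Pool.Agent.MPca0fc2.PV
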