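import Mathlib
import Pool.Agent.Lib.MP_ca0fc2_an.PV.M2
import Pool.Agent.Lib.MP_ca0fc2_an.PV.M8c
import Pool.Agent.Lib.MP_ca0fc2_an.PV.T2
import Pool.Agent.Lib.MP_ca0fc2_an.TE.Main
import Pool.Agent.Lib.MP_ca0fc2_an.TE.Ln
import Pool.Agent.Lib.MP_ca0fc2_an.PTGrad

set_option autoImplicit false
set_option linter.unusedSectionVars false

open Metric Set MeasureTheory Filter Topology
open scoped InnerProductSpace ENNReal ContDiff

/-! # Solutions which are bounded where the line through `0` is the nearest one -/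

namespace Pool.Agent.MPca0fc2.PV

open Pool.Agent.MPca0fc2.PT
open Pool.Agent.MPca0fc2.TS
open Pool.Agent.MPca0fc2.TE

variable {E : Type*} [NormedAddCommGroup E] [InnerProductSpace ℂ E] [FiniteDimensional ℂ E]

/-- The integral of a weight over one geodesic. Proof. `Φ' y = min (Φ y) (A * Th W (ro P y))`,
`GI Φ P z = GI Φ' P z`, `pv_GI`. -/
theorem GI_at {P : E →L[ℂ] E} (h : Prj P) {Φ : E → ℝ} {A : ℝ} (hA : 0 ≤ A) {W : ℕ → ℝ}
    (hW0 : ∀ i, 0 ≤ W i) (hW : Summable W) (hΦ0 : ∀ y : E, ‖y‖ < 1 → 0 ≤ Φ y) {z : E}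
    (hz : ‖z‖ < 1) (hΦ : ∀ t : ℝ, 0 ≤ t → t ≤ 1 → Φ (pt P t z) ≤ A * Th W (ro P (pt P t z))) :
    GI Φ P z ≤ 200 * A * ∑' i, W i := by
  obtain ⟨Φ', hΦ'⟩ : ∃ Φ' : E → ℝ, Φ' = fun y => min (Φ y) (A * Th W (ro P y)) := ⟨_, rfl⟩
  have h1 : GI Φ P z = GI Φ' P z := by
    unfold GI
    apply setIntegral_congr_fun measurableSet_Icc
    intro t ht
    have h2 := hΦ t ht.1 ht.2
    simp only [hΦ']
    rw [min_eq_left h2]
  rw [h1]
  refine pv_GI h hA hW0 hW (fun y hy => ?_) (fun y hy => ?_) hz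
  · rw [hΦ']
    exact le_min (hΦ0 y hy) (mul_nonneg hA (Th_nonneg hW0 (ro_pos h hy).1))
  · rw [hΦ']
    exact min_le_right _ _

end Pool.Agent.MPca0fc2.PV
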