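import Mathlib
import Pool.Agent.Lib.MP_ca0fc2_an.PV.T1
import Pool.Agent.Lib.MP_ca0fc2_an.PV.A1
import Pool.Agent.Lib.MP_ca0fc2_an.Mg.G055
import Pool.Agent.Lib.MP_ca0fc2_an.TS.Sharp
import Pool.Agent.Lib.MP_ca0fc2_an.Mg.G051
import Pool.Agent.Lib.MP_ca0fc2_an.CGInv

set_option autoImplicit false
set_option linter.unusedSectionVars false

open Metric Set MeasureTheory Filter Topology
open scoped InnerProductSpace ENNReal ContDiff

/-! # The smooth solution built from a solution on a cell -/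

namespace Pool.Agent.MPca0fc2.PV

open Pool.Agent.MPca0fc2.PT
open Pool.Agent.MPca0fc2.QT
open Pool.Agent.MPca0fc2.TS
open Pool.Agent.MPca0fc2.TE

variable {E : Type*} [NormedAddCommGroup E] [InnerProductSpace ℂ E]

/-- `gg'_zero_surj` gives `v` with `gg' z 0 v = ξ`, `‖v‖ ≤ 3 gau (1 - ‖z‖²) z ξ`, and `IG_rep`
(CGInv) gives `‖fderiv ℂ u z ξ‖ ≤ √(IG2 u z) ‖v‖`. -/
theorem grad_le [FiniteDimensional ℂ E] {u : E → ℂ} {z : E} (hz : ‖z‖ < 1) (ξ : E) :
    ‖fderiv ℂ u z ξ‖ ≤ 3 * Real.sqrt (IG2 u z) * gau (1 - ‖z‖ ^ 2) z ξ := by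
  obtain ⟨v, hv, hvn⟩ := gg'_zero_surj hz ξ
  obtain ⟨b, hb, hbn⟩ := CG.IG_rep (u := u) hz
  rw [← hv, hb v, hv]
  have hb1 : ‖b‖ = Real.sqrt (IG2 u z) := by
    rw [← hbn, Real.sqrt_sq (norm_nonneg b)]
  calc ‖⟪b, v⟫_ℂ‖ ≤ ‖b‖ * ‖v‖ := norm_inner_le_norm b v
    _ ≤ Real.sqrt (IG2 u z) * (3 * gau (1 - ‖z‖ ^ 2) z ξ) := by
        rw [hb1]
        exact mul_le_mul_of_nonneg_left hvn (Real.sqrt_nonneg _)
    _ = _ := by ring

/-! ### auxiliary facts -/

/-- a smooth cut off on the line, divided by the variable -/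
private theorem Q3_chi {s : ℝ} (hs : 0 < s) : ∃ ψ χ : ℝ → ℝ, ContDiff ℝ 2 ψ ∧ ContDiff ℝ 2 χ ∧
    (∀ t, ψ t + t * χ t = 1) ∧ (∀ t, 3 * s ^ 2 / 4 ≤ t → ψ t = 0) ∧ ∀ t, ψ t ∈ Icc (0 : ℝ) 1 := by
  have hs2 : 0 < s ^ 2 := by positivity
  have hψ : ContDiff ℝ 2 (fun t : ℝ => Real.smoothTransition (3 - 4 * t / s ^ 2)) := by
    refine Real.smoothTransition.contDiff.comp ?_
    fun_prop
  refine ⟨fun t => Real.smoothTransition (3 - 4 * t / s ^ 2),
    fun t => (1 - Real.smoothTransition (3 - 4 * t / s ^ 2)) / t, hψ, ?_, ?_, ?_, ?_⟩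
  · rw [contDiff_iff_contDiffAt]
    intro t
    rcases lt_or_ge t (s ^ 2 / 2) with ht | ht
    · have h1 : (fun t : ℝ => (1 - Real.smoothTransition (3 - 4 * t / s ^ 2)) / t) =ᶠ[𝓝 t]
          fun _ => (0 : ℝ) := by
        filter_upwards [Iio_mem_nhds ht] with x hx
        have hx' : x < s ^ 2 / 2 := hx
        have h2 : 1 ≤ 3 - 4 * x / s ^ 2 := by
          have : 4 * x / s ^ 2 ≤ 2 := by
            rw [div_le_iff₀ hs2]
            linarith
          linarith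
        rw [Real.smoothTransition.one_of_one_le h2, sub_self, zero_div]
      exact contDiffAt_const.congr_of_eventuallyEq h1
    · have h0 : t ≠ 0 := by
        have : 0 < s ^ 2 / 2 := by positivity
        linarith
      exact (contDiffAt_const.sub hψ.contDiffAt).div contDiffAt_id h0
  · intro t
    rcases eq_or_ne t 0 with ht | ht
    · subst ht
      have h2 : (1 : ℝ) ≤ 3 - 4 * 0 / s ^ 2 := by norm_num
      simp only [Real.smoothTransition.one_of_one_le h2]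
      norm_num
    · field_simp
      ring
  · intro t ht
    apply Real.smoothTransition.zero_of_nonpos
    have : 3 ≤ 4 * t / s ^ 2 := by
      rw [le_div_iff₀ hs2]
      linarith
    linarith
  · intro t
    exact ⟨Real.smoothTransition.nonneg _, Real.smoothTransition.le_one _⟩

private theorem Q3_bd {g : ℝ → ℝ} (hg : ContDiff ℝ 2 g) (T : ℝ) :
    ∃ C, 0 ≤ C ∧ ∀ t ∈ Icc (0 : ℝ) T, |g t| ≤ C ∧ |deriv g t| ≤ C := by
  obtain ⟨C₁, h₁⟩ := isCompact_Icc.exists_bound_of_continuousOn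
    (hg.continuous.continuousOn (s := Icc (0 : ℝ) T))
  obtain ⟨C₂, h₂⟩ := isCompact_Icc.exists_bound_of_continuousOn
    ((hg.continuous_deriv (by norm_num)).continuousOn (s := Icc (0 : ℝ) T))
  refine ⟨max 0 (max C₁ C₂), le_max_left _ _, fun t ht => ⟨?_, ?_⟩⟩
  · exact (h₁ t ht).trans ((le_max_left _ _).trans (le_max_right _ _))
  · exact (h₂ t ht).trans ((le_max_right _ _).trans (le_max_right _ _))

/-- the derivative of the square sum -/
private theorem Q3_tau {l : ℕ} {b : Fin l → E → ℂ} {z : E}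
    (hb : ∀ i, DifferentiableAt ℂ (b i) z) {B g : ℝ} (hbB : ∀ i, ‖b i z‖ ≤ B) {v : E}
    (hg : ∀ i, ‖fderiv ℂ (b i) z v‖ ≤ g) :
    DifferentiableAt ℝ (fun z => ∑ i, ‖b i z‖ ^ 2) z ∧
      |fderiv ℝ (fun z => ∑ i, ‖b i z‖ ^ 2) z v| ≤ l * (2 * (B * g)) := by
  have h1 : ∀ i, HasFDerivAt (fun z => ‖b i z‖ ^ 2)
      (2 • (innerSL ℝ (b i z)).comp ((fderiv ℂ (b i) z).restrictScalars ℝ)) z := fun i =>
    ((hb i).hasFDerivAt.restrictScalars ℝ).norm_sq
  have h2 := HasFDerivAt.fun_sum (u := Finset.univ) fun i _ => h1 i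
  refine ⟨h2.differentiableAt, ?_⟩
  rw [h2.fderiv, sum_apply]
  have h3 : ∀ i : Fin l, |(2 • (innerSL ℝ (b i z)).comp
      ((fderiv ℂ (b i) z).restrictScalars ℝ)) v| ≤ 2 * (B * g) := by
    intro i
    have e : (2 • (innerSL ℝ (b i z)).comp ((fderiv ℂ (b i) z).restrictScalars ℝ)) v =
        2 * ⟪b i z, fderiv ℂ (b i) z v⟫_ℝ := by
      simp [two_mul, two_smul]
    rw [e, abs_mul, abs_two]
    have h4 : |⟪b i z, fderiv ℂ (b i) z v⟫_ℝ| ≤ ‖b i z‖ * ‖fderiv ℂ (b i) z v‖ :=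
      abs_real_inner_le_norm _ _
    have h5 : ‖b i z‖ * ‖fderiv ℂ (b i) z v‖ ≤ B * g :=
      mul_le_mul (hbB i) (hg i) (norm_nonneg _) ((norm_nonneg _).trans (hbB i))
    linarith
  calc |∑ i, (2 • (innerSL ℝ (b i z)).comp ((fderiv ℂ (b i) z).restrictScalars ℝ)) v|
      ≤ ∑ i : Fin l, |(2 • (innerSL ℝ (b i z)).comp
        ((fderiv ℂ (b i) z).restrictScalars ℝ)) v| := Finset.abs_sum_le_sum_abs _ _
    _ ≤ ∑ _i : Fin l, 2 * (B * g) := Finset.sum_le_sum fun i _ => h3 i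
    _ = l * (2 * (B * g)) := by simp

/-- the conjugate linear derivative of a real function of a real function -/
private theorem Q3_D01 {ψ : ℝ → ℝ} (hψ : ContDiff ℝ 2 ψ) {τ : E → ℝ} {z : E}
    (hτ : DifferentiableAt ℝ τ z) {ξ : E} {C g : ℝ} (hC : |deriv ψ (τ z)| ≤ C)
    (hg : ∀ v, v = ξ ∨ v = Complex.I • ξ → |fderiv ℝ τ z v| ≤ g) :
    DifferentiableAt ℝ (fun z => ((ψ (τ z) : ℝ) : ℂ)) z ∧
      ‖D01 (fun z => ((ψ (τ z) : ℝ) : ℂ)) z ξ‖ ≤ C * g := by
  have h1 : HasFDerivAt (fun z => ψ (τ z)) (deriv ψ (τ z) • fderiv ℝ τ z) z := by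
    have h2 : HasDerivAt ψ (deriv ψ (τ z)) (τ z) :=
      ((hψ.differentiable (by norm_num)) (τ z)).hasDerivAt
    exact h2.comp_hasFDerivAt z hτ.hasFDerivAt
  have h2 : HasFDerivAt (fun z => ((ψ (τ z) : ℝ) : ℂ))
      (Complex.ofRealCLM.comp (deriv ψ (τ z) • fderiv ℝ τ z)) z :=
    Complex.ofRealCLM.hasFDerivAt.comp z h1
  have hC0 : 0 ≤ C := (abs_nonneg _).trans hC
  refine ⟨h2.differentiableAt, ?_⟩
  have h3 : ∀ v, v = ξ ∨ v = Complex.I • ξ →
      ‖fderiv ℝ (fun z => ((ψ (τ z) : ℝ) : ℂ)) z v‖ ≤ C * g := by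
    intro v hv
    rw [h2.fderiv]
    have e : (Complex.ofRealCLM.comp (deriv ψ (τ z) • fderiv ℝ τ z)) v =
        ((deriv ψ (τ z) * fderiv ℝ τ z v : ℝ) : ℂ) := by simp
    rw [e, Complex.norm_real, Real.norm_eq_abs, abs_mul]
    exact mul_le_mul hC (hg v hv) (abs_nonneg _) hC0
  rw [D01_apply, norm_smul]
  have h4 : ‖(2⁻¹ : ℂ)‖ = 2⁻¹ := by norm_num
  rw [h4]
  have h5 := norm_add_le (fderiv ℝ (fun z => ((ψ (τ z) : ℝ) : ℂ)) z ξ)
    (Complex.I • fderiv ℝ (fun z => ((ψ (τ z) : ℝ) : ℂ)) z (Complex.I • ξ))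
  rw [norm_smul, Complex.norm_I, one_mul] at h5
  have h6 := h3 ξ (Or.inl rfl)
  have h7 := h3 (Complex.I • ξ) (Or.inr rfl)
  linarith

/-- the conjugate linear derivative of the conjugate of a holomorphic function -/
private theorem Q3_conj {b : E → ℂ} {z : E} (hb : DifferentiableAt ℂ b z) (ξ : E) :
    DifferentiableAt ℝ (fun z => (starRingEnd ℂ) (b z)) z ∧
      ‖D01 (fun z => (starRingEnd ℂ) (b z)) z ξ‖ ≤ ‖fderiv ℂ b z ξ‖ := by
  have h1 : HasFDerivAt (fun z => (starRingEnd ℂ) (b z))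
      ((Complex.conjCLE : ℂ →L[ℝ] ℂ).comp ((fderiv ℂ b z).restrictScalars ℝ)) z :=
    (Complex.conjCLE : ℂ →L[ℝ] ℂ).hasFDerivAt.comp z (hb.hasFDerivAt.restrictScalars ℝ)
  refine ⟨h1.differentiableAt, ?_⟩
  have h3 : ∀ v, fderiv ℝ (fun z => (starRingEnd ℂ) (b z)) z v =
      (starRingEnd ℂ) (fderiv ℂ b z v) := by
    intro v
    rw [h1.fderiv]
    rfl
  rw [D01_apply, h3, h3, map_smul, smul_eq_mul, smul_eq_mul, smul_eq_mul, map_mul, Complex.conj_I]
  have e : (2⁻¹ : ℂ) * ((starRingEnd ℂ) (fderiv ℂ b z ξ) + Complex.I *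
      (-Complex.I * (starRingEnd ℂ) (fderiv ℂ b z ξ))) = (starRingEnd ℂ) (fderiv ℂ b z ξ) := by
    have : Complex.I * (-Complex.I * (starRingEnd ℂ) (fderiv ℂ b z ξ)) =
        (starRingEnd ℂ) (fderiv ℂ b z ξ) := by
      rw [← mul_assoc, mul_neg, Complex.I_mul_I, neg_neg, one_mul]
    rw [this]
    ring
  rw [e, RCLike.norm_conj]

/-- the conjugate linear derivative of the components -/
private theorem Q3_pi {n : ℕ} {R : E → Fin n → ℂ} {z : E} (hR : DifferentiableAt ℝ R z) (ξ : E)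
    (j : Fin n) : D01 R z ξ j = D01 (fun z => R z j) z ξ := by
  have h1 : fderiv ℝ (fun z => R z j) z = (ContinuousLinearMap.proj j).comp (fderiv ℝ R z) :=
    ((ContinuousLinearMap.proj (R := ℝ) (φ := fun _ : Fin n => ℂ) j).hasFDerivAt.comp z
      hR.hasFDerivAt).fderiv
  rw [D01_apply, D01_apply, h1]
  rfl

/-- Proof. Let `τ z = ∑ i, ‖b i z‖²` (real smooth on the ball), `φ z = smoothTransition
(3 - 4 τ z / s²)` (`= 1` for `τ ≤ s²/2` and `= 0` for `τ ≥ 3 s²/4`). `R z = ` (on the first `N`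
indices `φ z * k j z`, on the last `l` indices `(1 - φ z) * conj (b i z) / τ z`). It is of class
`C²` on the ball: near a point with `τ z < s²` the functions `k j` are holomorphic, near a point
with `τ z > 3 s²/4` one has `φ = 0`; near a point with `τ z < s²/2` one has `1 - φ = 0`, near a
point with `τ z > s²/4` one can divide by `τ`. `∑ f j z * R z j = φ + (1 - φ) = 1`. Bounded.
`D01` of the components: `k j D01 φ` and `D01 [(1 - φ) conj (b i) / τ]`, at most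
`C ∑ i, ‖fderiv ℂ (b i) z ξ‖ ≤ 3 C l W' gau` for `W' ≥ √(IG2 (b i) z)` (`grad_le`), where
`W' = |W k|`, `2 ^ k * ro P z ≤ 1`, `|W k| ≤ 2 Th |W| (ro P z)` (`Th_ge`). -/
theorem cell_R [FiniteDimensional ℂ E] {P : E →L[ℂ] E} (hP : Prj P) {N l : ℕ}
    {f : Fin N → E → ℂ} {b : Fin l → E → ℂ}
    (hb : ∀ i, DifferentiableOn ℂ (b i) (ball 0 1)) {B : ℝ}
    (hbB : ∀ i, ∀ z ∈ ball (0 : E) 1, ‖b i z‖ ≤ B) {s : ℝ} (hs : 0 < s) {k : Fin N → E → ℂ}
    (hk : ∀ j, DifferentiableOn ℂ (k j) {z | z ∈ ball (0 : E) 1 ∧ ∑ i, ‖b i z‖ ^ 2 < s ^ 2})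
    (hkB : ∀ j, ∀ z ∈ ball (0 : E) 1, ∑ i, ‖b i z‖ ^ 2 < s ^ 2 → ‖k j z‖ ≤ B)
    (hfk : ∀ z ∈ ball (0 : E) 1, ∑ i, ‖b i z‖ ^ 2 < s ^ 2 → ∑ j, f j z * k j z = 1)
    {W : ℕ → ℝ} (hW0 : ∀ i, 0 ≤ W i) (hW : Summable W)
    (hbW : ∀ (n : ℕ) (z : E), z ∈ ball (0 : E) 1 → 2 ^ n * ro P z ≤ 1 →
      ∀ i, Real.sqrt (IG2 (b i) z) ≤ W n) :
    ∃ (R : E → Fin (N + l) → ℂ) (C : ℝ), ContDiffOn ℝ 2 R (ball 0 1) ∧ ∀ z ∈ ball (0 : E) 1,
      ∑ j, (Fin.append f b j) z * R z j = 1 ∧ ‖R z‖ ≤ C ∧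
        ∀ ξ : E, ‖D01 R z ξ‖ ≤ C * Th W (ro P z) * gau (1 - ‖z‖ ^ 2) z ξ := by
  classical
  obtain ⟨ψ, χ, hψ, hχ, hsum, hψ0, hψ1⟩ := Q3_chi hs
  set τ : E → ℝ := fun z => ∑ i, ‖b i z‖ ^ 2 with hτ
  have hB : ∀ i : Fin l, 0 ≤ B := fun i => (norm_nonneg _).trans (hbB i 0 (mem_ball_self one_pos))
  -- replace the constant by a nonnegative one
  obtain ⟨B', hB'0, hB'B⟩ : ∃ B' : ℝ, 0 ≤ B' ∧ B ≤ B' := ⟨max 0 B, le_max_left _ _, le_max_right _ _⟩
  have hbB' : ∀ i, ∀ z ∈ ball (0 : E) 1, ‖b i z‖ ≤ B' := fun i z hz => (hbB i z hz).trans hB'B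
  have hkB' : ∀ j, ∀ z ∈ ball (0 : E) 1, τ z < s ^ 2 → ‖k j z‖ ≤ B' := fun j z hz h =>
    (hkB j z hz h).trans hB'B
  have hτ0 : ∀ z, 0 ≤ τ z := fun z => Finset.sum_nonneg fun i _ => by positivity
  have hτT : ∀ z ∈ ball (0 : E) 1, τ z ≤ l * B' ^ 2 := by
    intro z hz
    calc τ z ≤ ∑ _i : Fin l, B' ^ 2 := Finset.sum_le_sum fun i _ =>
          pow_le_pow_left₀ (norm_nonneg _) (hbB' i z hz) 2
      _ = l * B' ^ 2 := by simp
  obtain ⟨Cψ, hCψ0, hCψ⟩ := Q3_bd hψ (l * B' ^ 2)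
  obtain ⟨Cχ, hCχ0, hCχ⟩ := Q3_bd hχ (l * B' ^ 2)
  -- smoothness of the data
  have hbc : ∀ i, ContDiffOn ℝ 2 (b i) (ball 0 1) := fun i => age_hol_c2 isOpen_ball (hb i)
  have hτc : ContDiffOn ℝ 2 τ (ball 0 1) := ContDiffOn.sum fun i _ => (hbc i).norm_sq ℝ
  have hτcont : ContinuousOn τ (ball 0 1) := hτc.continuousOn
  set U : Set E := {z | z ∈ ball (0 : E) 1 ∧ τ z < s ^ 2} with hU
  have hUo : IsOpen U := by
    have := hτcont.isOpen_inter_preimage isOpen_ball (isOpen_Iio (a := s ^ 2))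
    exact this
  have hkc : ∀ j, ContDiffOn ℝ 2 (k j) U := fun j => age_hol_c2 hUo (hk j)
  -- the two kinds of components
  set R₁ : Fin N → E → ℂ := fun j z => ((ψ (τ z) : ℝ) : ℂ) * k j z with hR₁
  set R₂ : Fin l → E → ℂ := fun i z => ((χ (τ z) : ℝ) : ℂ) * (starRingEnd ℂ) (b i z) with hR₂
  -- near a point with large `τ` the first kind vanishes
  have hfar : ∀ z ∈ ball (0 : E) 1, ¬ τ z < s ^ 2 → ∀ᶠ x in 𝓝 z, ∀ j, R₁ j x = 0 := by
    intro z hz hzs
    have h1 : 3 * s ^ 2 / 4 < τ z := by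
      have : 0 < s ^ 2 := by positivity
      linarith [not_lt.mp hzs]
    have h2 := (hτcont.continuousAt (isOpen_ball.mem_nhds hz)).eventually_const_lt h1
    filter_upwards [h2] with x hx j
    simp only [hR₁]
    rw [hψ0 (τ x) hx.le, Complex.ofReal_zero, zero_mul]
  have hc₁ : ∀ j, ∀ z ∈ ball (0 : E) 1, ContDiffAt ℝ 2 (R₁ j) z := by
    intro j z hz
    by_cases hzs : τ z < s ^ 2
    · have h1 : ContDiffAt ℝ 2 (k j) z := (hkc j).contDiffAt (hUo.mem_nhds ⟨hz, hzs⟩)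
      have h2 : ContDiffAt ℝ 2 τ z := hτc.contDiffAt (isOpen_ball.mem_nhds hz)
      have h3 : ContDiffAt ℝ 2 (fun z => ((ψ (τ z) : ℝ) : ℂ)) z :=
        Complex.ofRealCLM.contDiff.contDiffAt.comp z (hψ.contDiffAt.comp z h2)
      exact h3.mul h1
    · have h1 : R₁ j =ᶠ[𝓝 z] fun _ => (0 : ℂ) := by
        filter_upwards [hfar z hz hzs] with x hx using hx j
      exact contDiffAt_const.congr_of_eventuallyEq h1
  have hc₂ : ∀ i, ∀ z ∈ ball (0 : E) 1, ContDiffAt ℝ 2 (R₂ i) z := by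
    intro i z hz
    have h1 : ContDiffAt ℝ 2 (b i) z := (hbc i).contDiffAt (isOpen_ball.mem_nhds hz)
    have h2 : ContDiffAt ℝ 2 τ z := hτc.contDiffAt (isOpen_ball.mem_nhds hz)
    have h3 : ContDiffAt ℝ 2 (fun z => ((χ (τ z) : ℝ) : ℂ)) z :=
      Complex.ofRealCLM.contDiff.contDiffAt.comp z (hχ.contDiffAt.comp z h2)
    have h4 : ContDiffAt ℝ 2 (fun z => (starRingEnd ℂ) (b i z)) z :=
      (Complex.conjCLE.toContinuousLinearMap.contDiff.contDiffAt (n := 2)).comp z h1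
    exact h3.mul h4
  set R : E → Fin (N + l) → ℂ := fun z => Fin.append (fun j => R₁ j z) (fun i => R₂ i z) with hR
  have hcR : ∀ z ∈ ball (0 : E) 1, ContDiffAt ℝ 2 R z := by
    intro z hz
    rw [contDiffAt_pi]
    intro j
    refine Fin.addCases (fun j => ?_) (fun i => ?_) j
    · have : (fun z => R z (Fin.castAdd l j)) = R₁ j := by
        funext x
        simp only [hR, Fin.append_left]
      rw [this]
      exact hc₁ j z hz
    · have : (fun z => R z (Fin.natAdd N i)) = R₂ i := by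
        funext x
        simp only [hR, Fin.append_right]
      rw [this]
      exact hc₂ i z hz
  set C₀ : ℝ := (Cψ * (l * (2 * B')) * B') + (Cχ + Cχ * (l * (2 * B')) * B') + B' + Cχ * B' with hC₀
  have hC₀0 : 0 ≤ C₀ := by positivity
  refine ⟨R, 6 * C₀, fun z hz => (hcR z hz).contDiffWithinAt, fun z hz => ⟨?_, ?_, ?_⟩⟩
  · -- the equation
    rw [Fin.sum_univ_add]
    simp only [hR, Fin.append_left, Fin.append_right]
    have e1 : ∑ j, f j z * R₁ j z = ((ψ (τ z) : ℝ) : ℂ) := by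
      by_cases hzs : τ z < s ^ 2
      · have h1 := hfk z hz hzs
        calc ∑ j, f j z * R₁ j z = ((ψ (τ z) : ℝ) : ℂ) * ∑ j, f j z * k j z := by
              rw [Finset.mul_sum]
              refine Finset.sum_congr rfl fun j _ => ?_
              simp only [hR₁]
              ring
          _ = _ := by rw [h1, mul_one]
      · have h1 := (hfar z hz hzs).self_of_nhds
        have h2 : ψ (τ z) = 0 := by
          apply hψ0
          have : 0 < s ^ 2 := by positivity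
          linarith [not_lt.mp hzs]
        rw [h2, Complex.ofReal_zero]
        refine Finset.sum_eq_zero fun j _ => ?_
        rw [h1 j, mul_zero]
    have e2 : ∑ i, b i z * R₂ i z = ((τ z * χ (τ z) : ℝ) : ℂ) := by
      calc ∑ i, b i z * R₂ i z = ((χ (τ z) : ℝ) : ℂ) * ∑ i, ((‖b i z‖ ^ 2 : ℝ) : ℂ) := by
            rw [Finset.mul_sum]
            refine Finset.sum_congr rfl fun i _ => ?_
            simp only [hR₂]
            have : b i z * (starRingEnd ℂ) (b i z) = ((‖b i z‖ ^ 2 : ℝ) : ℂ) := by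
              rw [Complex.mul_conj, Complex.normSq_eq_norm_sq]
            rw [← this]
            ring
        _ = _ := by
            rw [hτ, ← Complex.ofReal_sum]
            push_cast
            ring
    rw [e1, e2, ← Complex.ofReal_add, hsum, Complex.ofReal_one]
  · -- the bound
    rw [pi_norm_le_iff_of_nonneg (by positivity)]
    intro j
    have hT := hCψ (τ z) ⟨hτ0 z, hτT z hz⟩
    have hT' := hCχ (τ z) ⟨hτ0 z, hτT z hz⟩
    refine Fin.addCases (fun j => ?_) (fun i => ?_) j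
    · simp only [hR, Fin.append_left]
      by_cases hzs : τ z < s ^ 2
      · simp only [hR₁]
        rw [norm_mul, Complex.norm_real, Real.norm_eq_abs, abs_of_nonneg (hψ1 _).1]
        have h1 : ψ (τ z) * ‖k j z‖ ≤ 1 * B' :=
          mul_le_mul (hψ1 _).2 (hkB' j z hz hzs) (norm_nonneg _) zero_le_one
        have h2 : B' ≤ C₀ := by
          rw [hC₀]
          have : 0 ≤ (Cψ * (l * (2 * B')) * B') + (Cχ + Cχ * (l * (2 * B')) * B') := by positivity
          have : 0 ≤ Cχ * B' := by positivity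
          linarith
        linarith
      · rw [(hfar z hz hzs).self_of_nhds j, norm_zero]
        positivity
    · simp only [hR, Fin.append_right, hR₂]
      rw [norm_mul, Complex.norm_real, Real.norm_eq_abs, RCLike.norm_conj]
      have h1 : |χ (τ z)| * ‖b i z‖ ≤ Cχ * B' := mul_le_mul hT'.1 (hbB' i z hz) (norm_nonneg _) hCχ0
      have h2 : Cχ * B' ≤ C₀ := by
        rw [hC₀]
        have : 0 ≤ (Cψ * (l * (2 * B')) * B') + (Cχ + Cχ * (l * (2 * B')) * B') + B' := by positivity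
        linarith
      linarith
  · -- the derivative
    intro ξ
    have hz1 : ‖z‖ < 1 := mem_ball_zero_iff.mp hz
    obtain ⟨hr0, hr1⟩ := ro_pos hP hz1
    obtain ⟨n, hn, hWn⟩ := Th_ge hW0 hW hr0 hr1
    set G : ℝ := gau (1 - ‖z‖ ^ 2) z ξ with hG
    have hG0 : 0 ≤ G := by
      have : 0 ≤ 1 - ‖z‖ ^ 2 := by nlinarith [norm_nonneg z]
      rw [hG]
      unfold gau
      positivity
    have hTh : 0 ≤ Th W (ro P z) := Th_nonneg hW0 hr0
    set g : ℝ := 6 * (Th W (ro P z) * G) with hg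
    have hg0 : 0 ≤ g := by positivity
    have hbd : ∀ i, DifferentiableAt ℂ (b i) z := fun i =>
      (hb i).differentiableAt (isOpen_ball.mem_nhds hz)
    have hgb : ∀ i, ‖fderiv ℂ (b i) z ξ‖ ≤ g := by
      intro i
      have h1 := grad_le (u := b i) hz1 ξ
      have h2 : Real.sqrt (IG2 (b i) z) ≤ 2 * Th W (ro P z) := (hbW n z hz hn i).trans hWn
      calc ‖fderiv ℂ (b i) z ξ‖ ≤ 3 * Real.sqrt (IG2 (b i) z) * G := h1
        _ ≤ 3 * (2 * Th W (ro P z)) * G := by gcongr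
        _ = g := by rw [hg]; ring
    have hgv : ∀ v, v = ξ ∨ v = Complex.I • ξ → ∀ i, ‖fderiv ℂ (b i) z v‖ ≤ g := by
      rintro v (rfl | rfl) i
      · exact hgb i
      · rw [map_smul, norm_smul, Complex.norm_I, one_mul]
        exact hgb i
    have hτd : DifferentiableAt ℝ τ z := (hτc.contDiffAt (isOpen_ball.mem_nhds hz)).differentiableAt
      (by norm_num)
    have hτv : ∀ v, v = ξ ∨ v = Complex.I • ξ → |fderiv ℝ τ z v| ≤ l * (2 * (B' * g)) := fun v hv =>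
      (Q3_tau hbd (fun i => hbB' i z hz) (hgv v hv)).2
    have hT := hCψ (τ z) ⟨hτ0 z, hτT z hz⟩
    have hT' := hCχ (τ z) ⟨hτ0 z, hτT z hz⟩
    obtain ⟨dψ, Dψ⟩ := Q3_D01 hψ hτd hT.2 hτv
    obtain ⟨dχ, Dχ⟩ := Q3_D01 hχ hτd hT'.2 hτv
    have hfin : 6 * C₀ * Th W (ro P z) * G = C₀ * g := by rw [hg]; ring
    rw [hfin, pi_norm_le_iff_of_nonneg (by positivity)]
    intro j
    rw [Q3_pi ((hcR z hz).differentiableAt (by norm_num))]
    refine Fin.addCases (fun j => ?_) (fun i => ?_) j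
    · have e : (fun z => R z (Fin.castAdd l j)) = R₁ j := by
        funext x
        simp only [hR, Fin.append_left]
      rw [e]
      by_cases hzs : τ z < s ^ 2
      · have hkd : DifferentiableAt ℂ (k j) z :=
          (hk j).differentiableAt (hUo.mem_nhds ⟨hz, hzs⟩)
        have h1 := D01_smul dψ (hkd.restrictScalars ℝ) ξ
        rw [D01_holo hkd, zero_apply, smul_zero, zero_add] at h1
        have h2 : D01 (R₁ j) z ξ = D01 (fun z => ((ψ (τ z) : ℝ) : ℂ)) z ξ • k j z := h1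
        rw [h2, norm_smul]
        calc ‖D01 (fun z => ((ψ (τ z) : ℝ) : ℂ)) z ξ‖ * ‖k j z‖
            ≤ (Cψ * (l * (2 * (B' * g)))) * B' :=
              mul_le_mul Dψ (hkB' j z hz hzs) (norm_nonneg _) (by positivity)
          _ = (Cψ * (l * (2 * B')) * B') * g := by ring
          _ ≤ C₀ * g := by
              apply mul_le_mul_of_nonneg_right _ hg0
              rw [hC₀]
              have : 0 ≤ (Cχ + Cχ * (l * (2 * B')) * B') + B' + Cχ * B' := by positivity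
              linarith
      · have h1 : R₁ j =ᶠ[𝓝 z] fun _ => (0 : ℂ) := by
          filter_upwards [hfar z hz hzs] with x hx using hx j
        rw [D01_apply, h1.fderiv_eq, fderiv_const_apply]
        simp only [zero_apply, smul_zero, add_zero, norm_zero]
        positivity
    · have e : (fun z => R z (Fin.natAdd N i)) = R₂ i := by
        funext x
        simp only [hR, Fin.append_right]
      rw [e]
      obtain ⟨dc, Dc⟩ := Q3_conj (hbd i) ξ
      have h1 := D01_smul dχ dc ξ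
      have h2 : D01 (R₂ i) z ξ = ((χ (τ z) : ℝ) : ℂ) • D01 (fun z => (starRingEnd ℂ) (b i z)) z ξ +
          D01 (fun z => ((χ (τ z) : ℝ) : ℂ)) z ξ • (starRingEnd ℂ) (b i z) := h1
      rw [h2]
      refine (norm_add_le _ _).trans ?_
      rw [norm_smul, norm_smul, Complex.norm_real, Real.norm_eq_abs, RCLike.norm_conj]
      calc |χ (τ z)| * ‖D01 (fun z => (starRingEnd ℂ) (b i z)) z ξ‖ +
            ‖D01 (fun z => ((χ (τ z) : ℝ) : ℂ)) z ξ‖ * ‖b i z‖
          ≤ Cχ * g + (Cχ * (l * (2 * (B' * g)))) * B' :=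
            add_le_add (mul_le_mul hT'.1 (Dc.trans (hgb i)) (norm_nonneg _) hCχ0)
              (mul_le_mul Dχ (hbB' i z hz) (norm_nonneg _) (by positivity))
        _ = (Cχ + Cχ * (l * (2 * B')) * B') * g := by ring
        _ ≤ C₀ * g := by
            apply mul_le_mul_of_nonneg_right _ hg0
            rw [hC₀]
            have : 0 ≤ (Cψ * (l * (2 * B')) * B') := by positivity
            have : 0 ≤ B' + Cχ * B' := by positivity
            linarith

end Pool.Agent.MPca0fc2.PV
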