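import Mathlib
import Pool.Agent.Lib.MP_ca0fc2_an.PV.A4
import Pool.Agent.Lib.MP_ca0fc2_an.PV.T2
import Pool.Agent.Lib.MP_ca0fc2_an.PV.Q1
import Pool.Agent.Lib.MP_ca0fc2_an.PV.Q2
import Pool.Agent.Lib.MP_ca0fc2_an.PV.Q3
import Pool.Agent.Lib.MP_ca0fc2_an.TE.Ln

set_option autoImplicit false
set_option linter.unusedSectionVars false

open Metric Set MeasureTheory Filter Topology
open scoped InnerProductSpace ENNReal ContDiff

/-! # Solutions on cells of functions which are calm (exponent 1) off a line through `0` -/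

namespace Pool.Agent.MPca0fc2.PV

open Pool.Agent.MPca0fc2.PT
open Pool.Agent.MPca0fc2.QT
open Pool.Agent.MPca0fc2.TS
open Pool.Agent.MPca0fc2.TE

variable {E : Type*} [NormedAddCommGroup E] [InnerProductSpace ℂ E] [FiniteDimensional ℂ E]

private theorem Q4_low {n : ℕ} {F R : Fin n → ℂ} {C : ℝ} (h : ∑ j, F j * R j = 1)
    (hR : ∀ j, ‖R j‖ ≤ C) : ((C ^ 2 + 1) * (n + 1))⁻¹ ≤ ∑ j, ‖F j‖ ^ 2 := by
  have h1 : (1 : ℝ) ≤ C * ∑ j, ‖F j‖ := by
    calc (1 : ℝ) = ‖∑ j, F j * R j‖ := by rw [h, norm_one]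
      _ ≤ ∑ j, ‖F j * R j‖ := norm_sum_le _ _
      _ ≤ ∑ j, C * ‖F j‖ := by
          refine Finset.sum_le_sum fun j _ => ?_
          rw [norm_mul, mul_comm]
          exact mul_le_mul_of_nonneg_right (hR j) (norm_nonneg _)
      _ = C * ∑ j, ‖F j‖ := by rw [Finset.mul_sum]
  have h2 : (∑ j, ‖F j‖) ^ 2 ≤ n * ∑ j, ‖F j‖ ^ 2 := by
    have := sq_sum_le_card_mul_sum_sq (s := (Finset.univ : Finset (Fin n))) (f := fun j => ‖F j‖)
    simpa using this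
  have h0 : 0 ≤ ∑ j, ‖F j‖ := Finset.sum_nonneg fun j _ => norm_nonneg _
  have hS : 0 ≤ ∑ j, ‖F j‖ ^ 2 := Finset.sum_nonneg fun j _ => sq_nonneg _
  have h3 : (1 : ℝ) ≤ C ^ 2 * (n * ∑ j, ‖F j‖ ^ 2) := by
    calc (1 : ℝ) ≤ (C * ∑ j, ‖F j‖) ^ 2 := by nlinarith
      _ = C ^ 2 * (∑ j, ‖F j‖) ^ 2 := by ring
      _ ≤ C ^ 2 * (n * ∑ j, ‖F j‖ ^ 2) := mul_le_mul_of_nonneg_left h2 (sq_nonneg _)
  have hn : (0 : ℝ) ≤ n := Nat.cast_nonneg n
  rw [inv_le_iff_one_le_mul₀' (by positivity)]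
  nlinarith [mul_nonneg (sq_nonneg C) hS, mul_nonneg hn hS]

/-- Corona on the slice without normalisation. -/
private theorem Q4_slice {n : ℕ} {e : E} (he : ‖e‖ = 1) {F : Fin n → E → ℂ}
    (hF : ∀ j, DifferentiableOn ℂ (F j) (ball 0 1)) {B δ : ℝ} (hδ : 0 < δ)
    (hFB : ∀ j, ∀ z ∈ ball (0 : E) 1, ‖F j z‖ ≤ B)
    (hFδ : ∀ z ∈ ball (0 : E) 1, δ ≤ ∑ j, ‖F j z‖ ^ 2) :
    ∃ (g : Fin n → E → ℂ) (A : ℝ),
      (∀ j, DifferentiableOn ℂ (fun z => g j (((innerSL ℂ e).smulRight e) z)) (ball 0 1)) ∧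
      ∀ z ∈ ball (0 : E) 1,
        ∑ j, F j (((innerSL ℂ e).smulRight e) z) * g j (((innerSL ℂ e).smulRight e) z) = 1 ∧
        ∀ j, ‖g j (((innerSL ℂ e).smulRight e) z)‖ ≤ A := by
  set lam : ℝ := Real.sqrt n * |B| + 1 with hlam
  have hlam0 : 0 < lam := by positivity
  have hlam1 : 1 ≤ lam := by
    have : 0 ≤ Real.sqrt n * |B| := by positivity
    linarith
  have hlamC : (lam : ℂ) ≠ 0 := by
    exact_mod_cast hlam0.ne'
  have hδ' : 0 < δ / lam ^ 2 := by positivity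
  obtain ⟨A, hA, hline⟩ := line_sol (E := E) n hδ'
  have hnorm : ∀ j z, ‖(lam : ℂ)⁻¹ * F j z‖ ^ 2 = ‖F j z‖ ^ 2 / lam ^ 2 := by
    intro j z
    rw [norm_mul, norm_inv, Complex.norm_real, Real.norm_of_nonneg hlam0.le]
    field_simp
  obtain ⟨g, hg1, hg2⟩ := hline e he (fun j z => (lam : ℂ)⁻¹ * F j z)
    (fun j => (hF j).const_mul _) (by
      intro z hz
      simp only [hnorm]
      rw [← Finset.sum_div]
      constructor
      · exact div_le_div_of_nonneg_right (hFδ z hz) (by positivity)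
      · rw [div_le_one (by positivity)]
        calc ∑ j, ‖F j z‖ ^ 2 ≤ ∑ _j : Fin n, |B| ^ 2 := by
              refine Finset.sum_le_sum fun j _ => ?_
              exact pow_le_pow_left₀ (norm_nonneg _) ((hFB j z hz).trans (le_abs_self B)) 2
          _ = n * |B| ^ 2 := by simp
          _ = (Real.sqrt n * |B|) ^ 2 := by
              rw [mul_pow, Real.sq_sqrt (Nat.cast_nonneg n)]
          _ ≤ lam ^ 2 := by
              refine pow_le_pow_left₀ (by positivity) ?_ 2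
              rw [hlam]
              linarith)
  refine ⟨fun j z => (lam : ℂ)⁻¹ * g j z, A, fun j => (hg1 j).const_mul _, ?_⟩
  intro z hz
  obtain ⟨h1, h2⟩ := hg2 z hz
  constructor
  · rw [← h1]
    refine Finset.sum_congr rfl fun j _ => ?_
    ring
  · intro j
    have h3 : ‖g j (((innerSL ℂ e).smulRight e) z)‖ ^ 2 ≤ A ^ 2 :=
      (Finset.single_le_sum (f := fun j => ‖g j (((innerSL ℂ e).smulRight e) z)‖ ^ 2)
        (fun i _ => sq_nonneg _) (Finset.mem_univ j)).trans h2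
    have h4 : ‖g j (((innerSL ℂ e).smulRight e) z)‖ ≤ A := by
      have := abs_le_of_sq_le_sq h3 hA.le
      exact (le_abs_self _).trans this
    have h5 : ‖(lam : ℂ)⁻¹‖ ≤ 1 := by
      rw [norm_inv, Complex.norm_real, Real.norm_of_nonneg hlam0.le]
      exact inv_le_one_of_one_le₀ hlam1
    calc ‖(lam : ℂ)⁻¹ * g j (((innerSL ℂ e).smulRight e) z)‖
        = ‖(lam : ℂ)⁻¹‖ * ‖g j (((innerSL ℂ e).smulRight e) z)‖ := norm_mul _ _
      _ ≤ 1 * A := mul_le_mul h5 h4 (norm_nonneg _) zero_le_one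
      _ = A := one_mul A

/-- Proof. `borelize E`, `μ = Measure.addHaar`, `m + 1 = finrank`, `M = m + 3`,
`P = (innerSL ℂ e).smulRight e`, `ro P z = (1 - ‖z‖²) / (1 - ‖⟪e, z⟫‖²)`. Let `W' k = |W k|`,
`W' 0 = |W 0| + 1`. `cell_R` (for `f, b, W'`) gives `R` for `F = Fin.append f b`. Since
`∑ F j R j = 1` with `R` bounded, `∑ ‖F j‖² ≥ δ₀ > 0` on the ball. `line_sol` (for `F / λ`,
`λ = √(N + l) |B| + 1`, so that the sum of squares is at most `1`) gives `g` on the slice; divide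
it by `λ`. Let `G x = Th W' (ro P x)`, `ν = nuG μ m (m + 3) G`: `OnB ν` (`nuG_OnB`, `Th_le`,
`ro_pos`), `Om ν M y ≤ C Th W' (ro P y) ≤ C ∑' W'` (`pv_Om`, `Th_aem`), `Th W' (ro P z) ≤
C Om ν M z` (`pv_low`), `GI (Om ν M) P z ≤ C` (`pv_GI` with `Om_nonneg`). `core` gives the solution
for `F`; split it with `Fin.castAdd`, `Fin.natAdd` (`Fin.sum_univ_add`, `Fin.append_left`,
`Fin.append_right`). -/
theorem pv_cell (hE : 2 ≤ Module.finrank ℂ E) {e : E} (he : ‖e‖ = 1) {N l : ℕ}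
    {f : Fin N → E → ℂ} {b : Fin l → E → ℂ} (hf : ∀ j, DifferentiableOn ℂ (f j) (ball 0 1))
    (hb : ∀ i, DifferentiableOn ℂ (b i) (ball 0 1)) {B : ℝ}
    (hfB : ∀ j, ∀ z ∈ ball (0 : E) 1, ‖f j z‖ ≤ B) (hbB : ∀ i, ∀ z ∈ ball (0 : E) 1, ‖b i z‖ ≤ B)
    {s : ℝ} (hs : 0 < s) {k : Fin N → E → ℂ}
    (hk : ∀ j, DifferentiableOn ℂ (k j) {z | z ∈ ball (0 : E) 1 ∧ ∑ i, ‖b i z‖ ^ 2 < s ^ 2})
    (hkB : ∀ j, ∀ z ∈ ball (0 : E) 1, ∑ i, ‖b i z‖ ^ 2 < s ^ 2 → ‖k j z‖ ≤ B)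
    (hfk : ∀ z ∈ ball (0 : E) 1, ∑ i, ‖b i z‖ ^ 2 < s ^ 2 → ∑ j, f j z * k j z = 1)
    {W : ℕ → ℝ} (hW : Summable W)
    (hbW : ∀ (n : ℕ) (z : E), z ∈ ball (0 : E) 1 → 2 ^ n * (1 - ‖z‖ ^ 2) ≤ 1 - ‖⟪e, z⟫_ℂ‖ ^ 2 →
      ∀ i, Real.sqrt (IG2 (b i) z) ≤ W n) :
    ∃ (h : Fin N → E → ℂ) (h' : Fin l → E → ℂ) (C : ℝ),
      (∀ j, DifferentiableOn ℂ (h j) (ball 0 1)) ∧ (∀ i, DifferentiableOn ℂ (h' i) (ball 0 1)) ∧
      ∀ z ∈ ball (0 : E) 1, ∑ j, f j z * h j z + ∑ i, b i z * h' i z = 1 ∧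
        (∀ j, ‖h j z‖ ≤ C) ∧ ∀ i, ‖h' i z‖ ≤ C := by
  obtain ⟨m, hdim⟩ : ∃ m, Module.finrank ℂ E = m + 1 := ⟨Module.finrank ℂ E - 1, by omega⟩
  have hm : 1 ≤ m := by omega
  let _ : MeasurableSpace E := borel E
  have _ : BorelSpace E := ⟨rfl⟩
  have hnt : Nontrivial E := Module.nontrivial_of_finrank_pos (R := ℂ) (by omega)
  set μ : Measure E := Measure.addHaar with hμ
  set P : E →L[ℂ] E := (innerSL ℂ e).smulRight e with hPdef
  have hP : Prj P := prj_line he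
  have hPn : ∀ z, ‖P z‖ = ‖⟪e, z⟫_ℂ‖ := by
    intro z
    rw [hPdef]
    simp [norm_smul, he]
  have hW0 : ∀ i, 0 ≤ (fun i => |W i|) i := fun i => abs_nonneg _
  have hWs : Summable fun i => |W i| := hW.abs
  have hbW' : ∀ (n : ℕ) (z : E), z ∈ ball (0 : E) 1 → 2 ^ n * ro P z ≤ 1 →
      ∀ i, Real.sqrt (IG2 (b i) z) ≤ (fun i => |W i|) n := by
    intro n z hz hro i
    refine (hbW n z hz ?_ i).trans (le_abs_self _)
    have hz1 : ‖z‖ < 1 := mem_ball_zero_iff.mp hz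
    have hz2 : ‖P z‖ ≤ ‖z‖ := by
      have := pyth hP z
      have h2 : ‖P z‖ ^ 2 ≤ ‖z‖ ^ 2 := by nlinarith [sq_nonneg ‖z - P z‖]
      exact (abs_le_of_sq_le_sq' h2 (norm_nonneg _)).2
    have hpos : 0 < 1 - ‖P z‖ ^ 2 := by nlinarith [norm_nonneg (P z), norm_nonneg z]
    rw [ro, ← mul_div_assoc, div_le_one hpos, hPn] at hro
    exact hro
  obtain ⟨R, C1, hR2, hR⟩ := cell_R hP hb hbB hs hk hkB hfk hW0 hWs hbW'
  have hF : ∀ j, DifferentiableOn ℂ (Fin.append f b j) (ball 0 1) := by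
    intro j
    refine Fin.addCases (fun i => ?_) (fun i => ?_) j
    · rw [Fin.append_left]; exact hf i
    · rw [Fin.append_right]; exact hb i
  have hFB : ∀ j, ∀ z ∈ ball (0 : E) 1, ‖Fin.append f b j z‖ ≤ B := by
    intro j
    refine Fin.addCases (fun i => ?_) (fun i => ?_) j
    · rw [Fin.append_left]; exact hfB i
    · rw [Fin.append_right]; exact hbB i
  have hδ₀ : 0 < ((C1 ^ 2 + 1) * (((N + l : ℕ) : ℝ) + 1))⁻¹ := by positivity
  obtain ⟨g, A, hg1, hg2⟩ := Q4_slice he hF hδ₀ hFB (fun z hz =>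
    Q4_low (hR z hz).1 (fun j => (norm_le_pi_norm (R z) j).trans (hR z hz).2.1))
  have hro : ∀ z : E, ‖z‖ < 1 → 0 < ro P z := fun z hz => (ro_pos hP hz).1
  have hT0 : ∀ z : E, ‖z‖ < 1 → 0 ≤ Th (fun i => |W i|) (ro P z) := fun z hz =>
    Th_nonneg hW0 (hro z hz)
  have hν : OnB (nuG μ m (m + 3) (fun x => Th (fun i => |W i|) (ro P x))) :=
    nuG_OnB μ (by omega) (B := ∑' i, |W i|) (fun x hx =>
      ⟨hT0 x (mem_ball_zero_iff.mp hx), Th_le hW0 hWs (hro x (mem_ball_zero_iff.mp hx))⟩)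
  obtain ⟨CO, hCO, hOm⟩ := pv_Om μ hm hdim
  obtain ⟨CL, hCL, hlow⟩ := pv_low μ hm hdim
  have hOm1 : ∀ y : E, ‖y‖ < 1 →
      Om (nuG μ m (m + 3) (fun x => Th (fun i => |W i|) (ro P x))) (m + 3) y ≤
        CO * Th (fun i => |W i|) (ro P y) := fun y hy =>
    hOm P hP _ hW0 hWs _ (Th_aem μ hP hW0 hWs)
      (fun x hx => ⟨hT0 x (mem_ball_zero_iff.mp hx), le_rfl⟩) y hy
  have hlow1 : ∀ y : E, ‖y‖ < 1 → Th (fun i => |W i|) (ro P y) ≤
      CL * Om (nuG μ m (m + 3) (fun x => Th (fun i => |W i|) (ro P x))) (m + 3) y := fun y hy =>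
    hlow P hP _ hW0 hWs y hy
  have hS : 0 ≤ ∑' i, |W i| := tsum_nonneg fun i => abs_nonneg _
  have hCS : 0 ≤ CO * ∑' i, |W i| := mul_nonneg hCO.le hS
  have hC1L : 0 ≤ |C1| * CL := mul_nonneg (abs_nonneg _) hCL.le
  have hOmC : ∀ y ∈ ball (0 : E) 1,
      Om (nuG μ m (m + 3) (fun x => Th (fun i => |W i|) (ro P x))) (m + 3) y ≤
        200 * CO * (∑' i, |W i|) + CO * (∑' i, |W i|) + |C1| + |C1| * CL := by
    intro y hy
    have h1 := hOm1 y (mem_ball_zero_iff.mp hy)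
    have h2 := mul_le_mul_of_nonneg_left
      (Th_le hW0 hWs (hro y (mem_ball_zero_iff.mp hy))) hCO.le
    have h3 : 0 ≤ 200 * CO * ∑' i, |W i| := by nlinarith
    linarith [abs_nonneg C1]
  have hGI : ∀ z ∈ ball (0 : E) 1,
      GI (Om (nuG μ m (m + 3) (fun x => Th (fun i => |W i|) (ro P x))) (m + 3)) P z ≤
        200 * CO * (∑' i, |W i|) + CO * (∑' i, |W i|) + |C1| + |C1| * CL := by
    intro z hz
    have h1 := pv_GI hP hCO.le hW0 hWs (fun y hy => Om_nonneg hy) hOm1 (mem_ball_zero_iff.mp hz)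
    linarith [abs_nonneg C1]
  have hRC : ∀ z ∈ ball (0 : E) 1,
      ‖R z‖ ≤ 200 * CO * (∑' i, |W i|) + CO * (∑' i, |W i|) + |C1| + |C1| * CL := by
    intro z hz
    have h1 := (hR z hz).2.1.trans (le_abs_self C1)
    have h3 : 0 ≤ 200 * CO * ∑' i, |W i| := by nlinarith
    linarith
  have hRD : ∀ z ∈ ball (0 : E) 1, ∀ ξ : E,
      ‖D01 R z ξ‖ ≤ (200 * CO * (∑' i, |W i|) + CO * (∑' i, |W i|) + |C1| + |C1| * CL) *
        Om (nuG μ m (m + 3) (fun x => Th (fun i => |W i|) (ro P x))) (m + 3) z *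
          gau (1 - ‖z‖ ^ 2) z ξ := by
    intro z hz ξ
    have hz1 : ‖z‖ < 1 := mem_ball_zero_iff.mp hz
    have hd : 0 ≤ 1 - ‖z‖ ^ 2 := by nlinarith [norm_nonneg z]
    have hg : 0 ≤ gau (1 - ‖z‖ ^ 2) z ξ := by
      rw [gau]
      positivity
    have hO : 0 ≤ Om (nuG μ m (m + 3) (fun x => Th (fun i => |W i|) (ro P x))) (m + 3) z :=
      Om_nonneg hz1
    refine ((hR z hz).2.2 ξ).trans (mul_le_mul_of_nonneg_right ?_ hg)
    calc C1 * Th (fun i => |W i|) (ro P z) ≤ |C1| * Th (fun i => |W i|) (ro P z) :=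
          mul_le_mul_of_nonneg_right (le_abs_self _) (hT0 z hz1)
      _ ≤ |C1| * (CL * Om (nuG μ m (m + 3) (fun x => Th (fun i => |W i|) (ro P x))) (m + 3) z) :=
          mul_le_mul_of_nonneg_left (hlow1 z hz1) (abs_nonneg _)
      _ = |C1| * CL * Om (nuG μ m (m + 3) (fun x => Th (fun i => |W i|) (ro P x))) (m + 3) z := by
          ring
      _ ≤ _ := by
          refine mul_le_mul_of_nonneg_right ?_ hO
          have h3 : 0 ≤ 200 * CO * ∑' i, |W i| := by nlinarith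
          linarith [abs_nonneg C1]
  obtain ⟨h, C, hh, hhz⟩ := core μ hm hdim hF hFB hP hg1
    (fun z hz => hg2 z hz) hν hOmC hGI hR2 hRC (fun z hz => (hR z hz).1) hRD
  refine ⟨fun j => h (Fin.castAdd l j), fun i => h (Fin.natAdd N i), C, fun j => hh _,
    fun i => hh _, ?_⟩
  intro z hz
  obtain ⟨h1, _, h3⟩ := hhz z hz
  refine ⟨?_, fun j => h3 _, fun i => h3 _⟩
  rw [Fin.sum_univ_add] at h1
  simp only [Fin.append_left, Fin.append_right] at h1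
  exact h1

end Pool.Agent.MPca0fc2.PV
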