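import Mathlib
import Pool.Agent.Lib.MP_ca0fc2_an.PV.U1
import Pool.Agent.Lib.MP_ca0fc2_an.TE.Main
import Pool.Agent.Lib.MP_ca0fc2_an.PV.Q4

set_option autoImplicit false
set_option linter.unusedSectionVars false

open Metric Set MeasureTheory Filter Topology
open scoped InnerProductSpace ENNReal ContDiff

/-! # The theorems for an arbitrary complex line which meets the ball -/

namespace Pool.Agent.MPca0fc2.PV

open Pool.Agent.Lib.MP_ca0fc2_an
open Pool.Agent.MPca0fc2.PT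

variable {E : Type*} [NormedAddCommGroup E] [InnerProductSpace ℂ E] [FiniteDimensional ℂ E]

/-- Proof. As `calm_two`, with `pv_cell`; the cell of `b ∘ gg a` is the preimage of the cell.
`Real.sqrt (IG2 ..) = IG2 .. ^ (1/2)`. -/
theorem calm_cell (hE : 2 ≤ Module.finrank ℂ E) {a p : E} (ha : ‖a‖ < 1) (hp : ‖p‖ = 1) {N l : ℕ}
    {f : Fin N → E → ℂ} {b : Fin l → E → ℂ} (hf : ∀ j, DifferentiableOn ℂ (f j) (ball 0 1))
    {B : ℝ} (hfB : ∀ j, ∀ z ∈ ball (0 : E) 1, ‖f j z‖ ≤ B) (hb : ∀ i, Calm 1 (lin a p) (b i))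
    {s : ℝ} (hs : 0 < s) {k : Fin N → E → ℂ}
    (hk : ∀ j, DifferentiableOn ℂ (k j) {z | z ∈ ball (0 : E) 1 ∧ ∑ i, ‖b i z‖ ^ 2 < s ^ 2})
    (hkB : ∀ j, ∀ z ∈ ball (0 : E) 1, ∑ i, ‖b i z‖ ^ 2 < s ^ 2 → ‖k j z‖ ≤ B)
    (hfk : ∀ z ∈ ball (0 : E) 1, ∑ i, ‖b i z‖ ^ 2 < s ^ 2 → ∑ j, f j z * k j z = 1) :
    ∃ (h : Fin N → E → ℂ) (h' : Fin l → E → ℂ) (C : ℝ),
      (∀ j, DifferentiableOn ℂ (h j) (ball 0 1)) ∧ (∀ i, DifferentiableOn ℂ (h' i) (ball 0 1)) ∧
      ∀ z ∈ ball (0 : E) 1, ∑ j, f j z * h j z + ∑ i, b i z * h' i z = 1 ∧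
        (∀ j, ‖h j z‖ ≤ C) ∧ ∀ i, ‖h' i z‖ ≤ C := by
  classical
  obtain ⟨e, he, hpv⟩ := pv_aff ha hp
  have haut := gg_aut ha
  choose hb1 hb2 hb3 using hb
  choose Cb hCb using hb2
  choose W hWs hW using hb3
  have hW' : Summable (fun k => ∑ i, |W i k|) := summable_sum fun j _ => (hWs j).abs
  have hcf : ∀ j, DifferentiableOn ℂ (fun z => f j (gg a z)) (ball 0 1) := fun j =>
    (hf j).comp haut.hol fun z hz => haut.map z hz
  have hcb : ∀ i, DifferentiableOn ℂ (fun z => b i (gg a z)) (ball 0 1) := fun i =>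
    (hb1 i).comp haut.hol fun z hz => haut.map z hz
  set B' : ℝ := |B| + ∑ i, |Cb i| with hB'
  have hsum0 : 0 ≤ ∑ i, |Cb i| := Finset.sum_nonneg fun i _ => abs_nonneg _
  have hBB' : B ≤ B' := by
    have := le_abs_self B
    rw [hB']; linarith
  have hfB' : ∀ j, ∀ z ∈ ball (0 : E) 1, ‖f j (gg a z)‖ ≤ B' := fun j z hz =>
    (hfB j _ (haut.map z hz)).trans hBB'
  have hbB' : ∀ i, ∀ z ∈ ball (0 : E) 1, ‖b i (gg a z)‖ ≤ B' := fun i z hz => by
    have h1 := (hCb i _ (haut.map z hz)).trans (le_abs_self _)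
    have h2 : |Cb i| ≤ ∑ i, |Cb i| :=
      Finset.single_le_sum (f := fun i => |Cb i|) (fun i _ => abs_nonneg _) (Finset.mem_univ i)
    have h3 := abs_nonneg B
    rw [hB']; linarith
  obtain ⟨h, h', C, hh, hh', hsol⟩ := pv_cell hE he (f := fun j z => f j (gg a z))
    (b := fun i z => b i (gg a z)) hcf hcb hfB' hbB' hs (k := fun j z => k j (gg a z))
    (fun j => (hk j).comp (haut.hol.mono fun z hz => hz.1) fun z hz =>
      ⟨haut.map z hz.1, hz.2⟩)
    (fun j z hz hz2 => (hkB j _ (haut.map z hz) hz2).trans hBB')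
    (fun z hz hz2 => hfk _ (haut.map z hz) hz2) hW' (by
      intro n z hz hn i
      have hz' := mem_ball_zero_iff.mp hz
      have h1 : IG2 (fun x => b i (gg a x)) z ≤ IG2 (b i) (gg a z) :=
        CG.IG_aut (hb1 i) haut hz'
      have h2 := hW i n (gg a z) (haut.map z hz) (fun x hx hx1 => hpv n z hz' hn x hx hx1)
      rw [← Real.sqrt_eq_rpow] at h2
      exact (((Real.sqrt_le_sqrt h1).trans h2).trans (le_abs_self _)).trans
        (Finset.single_le_sum (f := fun i => |W i n|) (fun i _ => abs_nonneg _)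
          (Finset.mem_univ i)))
  refine ⟨fun j z => h j (gg (-a) z), fun i z => h' i (gg (-a) z), C,
    fun j => (hh j).comp haut.hol' fun z hz => haut.map' z hz,
    fun i => (hh' i).comp haut.hol' fun z hz => haut.map' z hz, ?_⟩
  intro z hz
  have h3 := hsol (gg (-a) z) (haut.map' z hz)
  refine ⟨?_, h3.2⟩
  rw [← h3.1]
  simp only [haut.right z hz]

end Pool.Agent.MPca0fc2.PV
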