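import Mathlib
import Pool.Agent.Lib.MP_ca0fc2_an.PV.M1
import Pool.Agent.Lib.MP_ca0fc2_an.CGInv
import Pool.Agent.Lib.MP_ca0fc2_an.PTGrad

set_option autoImplicit false

open Metric Set MeasureTheory Filter Topology
open scoped InnerProductSpace ENNReal ContDiff

/-! # The derivatives of the coordinates -/

namespace Pool.Agent.MPca0fc2.PV

open Pool.Agent.Lib.MP_ca0fc2_an
open Pool.Agent.MPca0fc2.PT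
open Pool.Agent.MPca0fc2.TS
open Pool.Agent.MPca0fc2.TE

variable {E : Type*} [NormedAddCommGroup E] [InnerProductSpace ℂ E]

/-- `gg' z 0 v = AA z v - ⟪z, v⟫ z`, `AA z v = √d v + (1 + √d)⁻¹ ⟪z, v⟫ z`, `d = 1 - ‖z‖²`,
`‖z‖² = (1 - √d) (1 + √d)`. -/
theorem gg'_facts {z : E} (hz : ‖z‖ < 1) (v : E) :
    ⟪z, gg' z 0 v⟫_ℂ = ((1 - ‖z‖ ^ 2 : ℝ) : ℂ) * ⟪z, v⟫_ℂ ∧
      ‖gg' z 0 v‖ ≤ 2 * Real.sqrt (1 - ‖z‖ ^ 2) * ‖v‖ := by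
  have h0 : gg' z 0 v = AA z v - ⟪z, v⟫_ℂ • z := by
    simp [gg', gg_zero, innerSL_apply_apply]
  have hd : 0 < 1 - ‖z‖ ^ 2 := by nlinarith [norm_nonneg z]
  refine ⟨?_, ?_⟩
  · rw [h0, inner_sub_right, inner_smul_right, geo_inner_AA hz.le, geo_self]
    push_cast
    ring
  · have h2 : ‖gg' z 0 v‖ ^ 2 = (1 - ‖z‖ ^ 2) * (‖v‖ ^ 2 - ‖⟪z, v⟫_ℂ‖ ^ 2) := by
      have e1 : ⟪AA z v, ⟪z, v⟫_ℂ • z⟫_ℂ = ((‖⟪z, v⟫_ℂ‖ ^ 2 : ℝ) : ℂ) := by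
        rw [inner_smul_right, geo_inner_AA' hz.le, ← inner_conj_symm v z, Complex.mul_conj,
          Complex.normSq_eq_norm_sq]
      have e2 : (⟪AA z v, ⟪z, v⟫_ℂ • z⟫_ℂ).re = ‖⟪z, v⟫_ℂ‖ ^ 2 := by
        rw [e1, Complex.ofReal_re]
      have e3 : ‖gg' z 0 v‖ ^ 2 = ‖AA z v‖ ^ 2 - 2 * (⟪AA z v, ⟪z, v⟫_ℂ • z⟫_ℂ).re +
          ‖⟪z, v⟫_ℂ • z‖ ^ 2 := by
        rw [h0, @norm_sub_sq ℂ]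
        rfl
      rw [e3, e2, geo_dist_sq hz.le, norm_smul, mul_pow]
      ring
    have h3 : ‖gg' z 0 v‖ ≤ Real.sqrt (1 - ‖z‖ ^ 2) * ‖v‖ := by
      apply le_of_sq_le_sq _ (by positivity)
      rw [h2, mul_pow, Real.sq_sqrt hd.le]
      apply mul_le_mul_of_nonneg_left _ hd.le
      have := sq_nonneg ‖⟪z, v⟫_ℂ‖
      linarith
    have h4 : 0 ≤ Real.sqrt (1 - ‖z‖ ^ 2) * ‖v‖ := by positivity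
    linarith

/-- the data of the proofs below -/
private theorem M3_data {p z : E} (hp : ‖p‖ = 1) (hz : ‖z‖ < 1) :
    0 < ‖1 - ⟪p, z⟫_ℂ‖ ∧ 0 < tt p z ∧
      Real.sqrt (1 - ‖z‖ ^ 2) = Real.sqrt (tt p z) * ‖1 - ⟪p, z⟫_ℂ‖ ∧
      ‖z - ⟪p, z⟫_ℂ • p‖ = ‖zt p z‖ * ‖1 - ⟪p, z⟫_ℂ‖ ∧
      ‖zt p z‖ ≤ Real.sqrt (tt p z + ‖zt p z‖ ^ 2) ∧
      Real.sqrt (tt p z) ≤ Real.sqrt (tt p z + ‖zt p z‖ ^ 2) := by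
  have hD : 0 < ‖1 - ⟪p, z⟫_ℂ‖ := norm_pos_iff.mpr (den_ne hp hz)
  have ht := tt_pos hp hz
  have hd : 0 < 1 - ‖z‖ ^ 2 := by nlinarith [norm_nonneg z]
  refine ⟨hD, ht, ?_, ?_, ?_, ?_⟩
  · have h1 : 1 - ‖z‖ ^ 2 = tt p z * ‖1 - ⟪p, z⟫_ℂ‖ ^ 2 := by
      unfold tt
      field_simp
    rw [h1, Real.sqrt_mul ht.le, Real.sqrt_sq hD.le]
  · unfold zt
    rw [norm_smul, norm_inv]
    field_simp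
  · apply Real.le_sqrt_of_sq_le
    linarith
  · apply Real.sqrt_le_sqrt
    have := sq_nonneg ‖zt p z‖
    linarith

private theorem M3_xi {p z : E} (hp : ‖p‖ = 1) (hz : ‖z‖ < 1) (v : E) :
    ‖⟪p, gg' z 0 v⟫_ℂ‖ ≤ 2 * (Real.sqrt (tt p z) * ‖1 - ⟪p, z⟫_ℂ‖) * ‖v‖ ∧
      ‖gg' z 0 v‖ ≤ 2 * (Real.sqrt (tt p z) * ‖1 - ⟪p, z⟫_ℂ‖) * ‖v‖ := by
  obtain ⟨-, -, h3, -, -, -⟩ := M3_data hp hz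
  obtain ⟨-, h2⟩ := gg'_facts hz v
  rw [h3] at h2
  refine ⟨?_, h2⟩
  have h := norm_inner_le_norm (𝕜 := ℂ) p (gg' z 0 v)
  rw [hp, one_mul] at h
  exact h.trans h2

/-- Proof. Let `X = gg' z 0 v`, `ξ = ⟪p, X⟫`, `x = ⟪p, z⟫`, `w = z - x p`, `d = 1 - ‖z‖²`,
`D = ‖1 - x‖`, `t = d / D²`, `T = t + ‖zt p z‖²`; `√d / D = √t`, `‖w‖ / D = ‖zt p z‖ ≤ √T`. Always
`‖ξ‖ ≤ ‖X‖ ≤ 2 √d ‖v‖`. If `‖x‖ ≥ 1/2`: `⟪z, X⟫ = conj x ξ + ⟪w, X - ξ p⟫`, so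
`‖x‖ ‖ξ‖ ≤ d ‖v‖ + ‖w‖ 2 √d ‖v‖` and `‖ξ‖ / D² ≤ 2 (t + 2 ‖zt‖ √t) ‖v‖`. If `‖x‖ < 1/2` then
`D ≥ 1/2` and `‖ξ‖ / D² ≤ 4 √t ‖v‖`. In both cases (`√t ≤ √T`) it is at most
`4 √t (1 + 2 √T) ‖v‖`. -/
theorem xi_le {p z : E} (hp : ‖p‖ = 1) (hz : ‖z‖ < 1) (v : E) :
    ‖⟪p, gg' z 0 v⟫_ℂ‖ / ‖1 - ⟪p, z⟫_ℂ‖ ^ 2 ≤
      4 * Real.sqrt (tt p z) * (1 + 2 * Real.sqrt (tt p z + ‖zt p z‖ ^ 2)) * ‖v‖ := by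
  obtain ⟨hD, ht, h3, h4, h5, h6⟩ := M3_data hp hz
  obtain ⟨hξ, hX⟩ := M3_xi hp hz v
  obtain ⟨hin, -⟩ := gg'_facts hz v
  have hd : 0 < 1 - ‖z‖ ^ 2 := by nlinarith [norm_nonneg z]
  have hst : 0 ≤ Real.sqrt (tt p z) := Real.sqrt_nonneg _
  have hsT : 0 ≤ Real.sqrt (tt p z + ‖zt p z‖ ^ 2) := Real.sqrt_nonneg _
  set X := gg' z 0 v with hXdef
  set D := ‖1 - ⟪p, z⟫_ℂ‖ with hDdef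
  set s := Real.sqrt (tt p z) with hs
  set S := Real.sqrt (tt p z + ‖zt p z‖ ^ 2) with hS
  rw [div_le_iff₀ (by positivity)]
  rcases le_or_gt (1 / 2) ‖⟪p, z⟫_ℂ‖ with hx | hx
  · have e1 : ⟪z, X⟫_ℂ = (starRingEnd ℂ) ⟪p, z⟫_ℂ * ⟪p, X⟫_ℂ + ⟪z - ⟪p, z⟫_ℂ • p, X⟫_ℂ := by
      rw [inner_sub_left, inner_smul_left]
      ring
    have e2 : (starRingEnd ℂ) ⟪p, z⟫_ℂ * ⟪p, X⟫_ℂ = ⟪z, X⟫_ℂ - ⟪z - ⟪p, z⟫_ℂ • p, X⟫_ℂ := by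
      rw [e1]; ring
    have e3 : ‖⟪p, z⟫_ℂ‖ * ‖⟪p, X⟫_ℂ‖ ≤ ‖⟪z, X⟫_ℂ‖ + ‖z - ⟪p, z⟫_ℂ • p‖ * ‖X‖ := by
      have := congrArg norm e2
      rw [norm_mul, Complex.norm_conj] at this
      rw [this]
      calc _ ≤ ‖⟪z, X⟫_ℂ‖ + ‖⟪z - ⟪p, z⟫_ℂ • p, X⟫_ℂ‖ := norm_sub_le _ _
        _ ≤ _ := by
          gcongr
          exact norm_inner_le_norm _ _
    have e4 : ‖⟪z, X⟫_ℂ‖ ≤ (s * D) ^ 2 * ‖v‖ := by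
      rw [hin, norm_mul, Complex.norm_real, Real.norm_eq_abs, abs_of_pos hd, ← h3,
        Real.sq_sqrt hd.le]
      apply mul_le_mul_of_nonneg_left _ hd.le
      have := norm_inner_le_norm (𝕜 := ℂ) z v
      have h7 : ‖z‖ * ‖v‖ ≤ 1 * ‖v‖ := by gcongr
      linarith
    have e5 : ‖z - ⟪p, z⟫_ℂ • p‖ * ‖X‖ ≤ (S * D) * (2 * (s * D) * ‖v‖) := by
      rw [h4]
      gcongr
    have e6 : 1 / 2 * ‖⟪p, X⟫_ℂ‖ ≤ ‖⟪p, z⟫_ℂ‖ * ‖⟪p, X⟫_ℂ‖ := by gcongr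
    have e7 : (s * D) ^ 2 * ‖v‖ ≤ s * S * D ^ 2 * ‖v‖ := by
      have : s * s ≤ s * S := by gcongr
      calc (s * D) ^ 2 * ‖v‖ = s * s * (D ^ 2 * ‖v‖) := by ring
        _ ≤ s * S * (D ^ 2 * ‖v‖) := by gcongr
        _ = _ := by ring
    have e8 : ‖⟪p, X⟫_ℂ‖ ≤ 6 * (s * S * D ^ 2 * ‖v‖) := by
      have : S * D * (2 * (s * D) * ‖v‖) = 2 * (s * S * D ^ 2 * ‖v‖) := by ring
      linarith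
    have e9 : 0 ≤ s * S * D ^ 2 * ‖v‖ := by positivity
    have e10 : 0 ≤ s * D ^ 2 * ‖v‖ := by positivity
    calc ‖⟪p, X⟫_ℂ‖ ≤ 6 * (s * S * D ^ 2 * ‖v‖) := e8
      _ ≤ 4 * (s * D ^ 2 * ‖v‖) + 8 * (s * S * D ^ 2 * ‖v‖) := by linarith
      _ = _ := by ring
  · have e1 : 1 / 2 ≤ D := by
      have := norm_sub_norm_le (1 : ℂ) ⟪p, z⟫_ℂ
      rw [norm_one] at this
      linarith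
    have e2 : 0 ≤ s * D * ‖v‖ := by positivity
    have e3 : s * D * ‖v‖ ≤ 2 * (s * D ^ 2 * ‖v‖) := by
      have : s * D * ‖v‖ * (1 / 2) ≤ s * D * ‖v‖ * D := by gcongr
      nlinarith
    have e4 : 0 ≤ s * S * D ^ 2 * ‖v‖ := by positivity
    calc ‖⟪p, X⟫_ℂ‖ ≤ 2 * (s * D * ‖v‖) := by linarith
      _ ≤ 4 * (s * D ^ 2 * ‖v‖) + 8 * (s * S * D ^ 2 * ‖v‖) := by linarith
      _ = _ := by ring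

/-- Proof. The derivative of `EE p` at `z` in the direction `X` is
`- EE p z * 2 ⟪p, X⟫ / (1 - ⟪p, z⟫)²`; `norm_EE`, `xi_le`. -/
theorem dEE_le {p z : E} (hp : ‖p‖ = 1) (hz : ‖z‖ < 1) (v : E) :
    DifferentiableAt ℂ (EE p) z ∧ ‖fderiv ℂ (EE p) z (gg' z 0 v)‖ ≤
      Real.exp (-(tt p z + ‖zt p z‖ ^ 2)) *
        (8 * Real.sqrt (tt p z) * (1 + 2 * Real.sqrt (tt p z + ‖zt p z‖ ^ 2))) * ‖v‖ := by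
  have hne := den_ne hp hz
  have hx : HasFDerivAt (fun z : E => ⟪p, z⟫_ℂ) (innerSL ℂ p) z := (innerSL ℂ p).hasFDerivAt
  have hh : HasDerivAt (fun x : ℂ => Complex.exp (-((1 + x) / (1 - x))))
      (Complex.exp (-((1 + ⟪p, z⟫_ℂ) / (1 - ⟪p, z⟫_ℂ))) * (-(2 / (1 - ⟪p, z⟫_ℂ) ^ 2)))
      ⟪p, z⟫_ℂ := by
    have h1 : HasDerivAt (fun x : ℂ => (1 + x) / (1 - x)) (2 / (1 - ⟪p, z⟫_ℂ) ^ 2) ⟪p, z⟫_ℂ := by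
      have h2 : HasDerivAt (fun x : ℂ => 1 + x) 1 ⟪p, z⟫_ℂ := (hasDerivAt_id _).const_add 1
      have h3 : HasDerivAt (fun x : ℂ => 1 - x) (-1) ⟪p, z⟫_ℂ := (hasDerivAt_id _).const_sub 1
      refine (h2.fun_div h3 hne).congr_deriv ?_
      ring
    exact h1.fun_neg.cexp
  have hE : HasFDerivAt (EE p) ((Complex.exp (-((1 + ⟪p, z⟫_ℂ) / (1 - ⟪p, z⟫_ℂ))) *
      (-(2 / (1 - ⟪p, z⟫_ℂ) ^ 2))) • innerSL ℂ p) z := hh.comp_hasFDerivAt z hx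
  refine ⟨hE.differentiableAt, ?_⟩
  rw [hE.fderiv, ContinuousLinearMap.smul_apply, innerSL_apply_apply, norm_smul, norm_mul,
    norm_neg, norm_div, norm_pow]
  have e1 : ‖Complex.exp (-((1 + ⟪p, z⟫_ℂ) / (1 - ⟪p, z⟫_ℂ)))‖ =
      Real.exp (-(tt p z + ‖zt p z‖ ^ 2)) := norm_EE hp hz
  rw [e1]
  have e2 := xi_le hp hz v
  have e3 : ‖(2 : ℂ)‖ = 2 := by norm_num
  rw [e3]
  calc Real.exp (-(tt p z + ‖zt p z‖ ^ 2)) * (2 / ‖1 - ⟪p, z⟫_ℂ‖ ^ 2) * ‖⟪p, gg' z 0 v⟫_ℂ‖ =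
        Real.exp (-(tt p z + ‖zt p z‖ ^ 2)) *
          (2 * (‖⟪p, gg' z 0 v⟫_ℂ‖ / ‖1 - ⟪p, z⟫_ℂ‖ ^ 2)) := by ring
    _ ≤ Real.exp (-(tt p z + ‖zt p z‖ ^ 2)) * (2 *
          (4 * Real.sqrt (tt p z) * (1 + 2 * Real.sqrt (tt p z + ‖zt p z‖ ^ 2)) * ‖v‖)) := by
        gcongr
    _ = _ := by ring

/-- Proof. `⟪c, zt p z⟫ = (1 - x)⁻¹ (⟪c, z⟫ - x ⟪c, p⟫)`, `x = ⟪p, z⟫`; the derivative in the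
direction `X` is `⟪c, X - ξ p⟫ / (1 - x) + ⟪c, z - x p⟫ ξ / (1 - x)²`, `ξ = ⟪p, X⟫`. With
`‖X - ξ p‖ ≤ ‖X‖ ≤ 2 √d ‖v‖`, `‖ξ‖ ≤ ‖X‖`, `√d / D = √t`, `‖z - x p‖ / D = ‖zt p z‖`: at most
`2 ‖c‖ (1 + ‖zt p z‖) √t ‖v‖`. -/
theorem dzt_le {p z : E} (hp : ‖p‖ = 1) (hz : ‖z‖ < 1) (c v : E) :
    DifferentiableAt ℂ (fun z => ⟪c, zt p z⟫_ℂ) z ∧
      ‖fderiv ℂ (fun z => ⟪c, zt p z⟫_ℂ) z (gg' z 0 v)‖ ≤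
        2 * ‖c‖ * (1 + ‖zt p z‖) * Real.sqrt (tt p z) * ‖v‖ := by
  have hne := den_ne hp hz
  obtain ⟨hD, ht, h3, h4, h5, h6⟩ := M3_data hp hz
  obtain ⟨hξ, hX⟩ := M3_xi hp hz v
  have hx : HasFDerivAt (fun z : E => ⟪p, z⟫_ℂ) (innerSL ℂ p) z := (innerSL ℂ p).hasFDerivAt
  have hc : HasFDerivAt (fun z : E => ⟪c, z⟫_ℂ) (innerSL ℂ c) z := (innerSL ℂ c).hasFDerivAt
  have hinv : HasDerivAt (fun x : ℂ => (1 - x)⁻¹) (1 / (1 - ⟪p, z⟫_ℂ) ^ 2) ⟪p, z⟫_ℂ := by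
    have h3 : HasDerivAt (fun x : ℂ => 1 - x) (-1) ⟪p, z⟫_ℂ := (hasDerivAt_id _).const_sub 1
    refine (h3.fun_inv hne).congr_deriv ?_
    ring
  have hi : HasFDerivAt (fun z : E => (1 - ⟪p, z⟫_ℂ)⁻¹)
      ((1 / (1 - ⟪p, z⟫_ℂ) ^ 2) • innerSL ℂ p) z := hinv.comp_hasFDerivAt z hx
  have hn : HasFDerivAt (fun z : E => ⟪c, z⟫_ℂ - ⟪p, z⟫_ℂ * ⟪c, p⟫_ℂ)
      (innerSL ℂ c - ⟪c, p⟫_ℂ • innerSL ℂ p) z := hc.fun_sub (hx.mul_const ⟪c, p⟫_ℂ)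
  have hF : HasFDerivAt (fun z : E => ⟪c, zt p z⟫_ℂ)
      ((1 - ⟪p, z⟫_ℂ)⁻¹ • (innerSL ℂ c - ⟪c, p⟫_ℂ • innerSL ℂ p) +
        (⟪c, z⟫_ℂ - ⟪p, z⟫_ℂ * ⟪c, p⟫_ℂ) • ((1 / (1 - ⟪p, z⟫_ℂ) ^ 2) • innerSL ℂ p)) z := by
    have h7 := hi.fun_mul hn
    have e : (fun z : E => ⟪c, zt p z⟫_ℂ) =
        fun z : E => (1 - ⟪p, z⟫_ℂ)⁻¹ * (⟪c, z⟫_ℂ - ⟪p, z⟫_ℂ * ⟪c, p⟫_ℂ) := by
      funext y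
      unfold zt
      rw [inner_smul_right, inner_sub_right, inner_smul_right]
    rw [e]
    exact h7
  refine ⟨hF.differentiableAt, ?_⟩
  rw [hF.fderiv]
  have hval : ((1 - ⟪p, z⟫_ℂ)⁻¹ • (innerSL ℂ c - ⟪c, p⟫_ℂ • innerSL ℂ p) +
        (⟪c, z⟫_ℂ - ⟪p, z⟫_ℂ * ⟪c, p⟫_ℂ) • ((1 / (1 - ⟪p, z⟫_ℂ) ^ 2) • innerSL ℂ p))
          (gg' z 0 v) =
      (1 - ⟪p, z⟫_ℂ)⁻¹ * ⟪c, gg' z 0 v - ⟪p, gg' z 0 v⟫_ℂ • p⟫_ℂ +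
        ⟪c, zt p z⟫_ℂ * ((1 - ⟪p, z⟫_ℂ)⁻¹ * ⟪p, gg' z 0 v⟫_ℂ) := by
    simp only [ContinuousLinearMap.add_apply, ContinuousLinearMap.smul_apply,
      ContinuousLinearMap.sub_apply, innerSL_apply_apply, smul_eq_mul]
    unfold zt
    rw [inner_sub_right, inner_smul_right, inner_smul_right, inner_sub_right, inner_smul_right]
    field_simp
  rw [hval]
  set X := gg' z 0 v with hXdef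
  have hproj : ‖X - ⟪p, X⟫_ℂ • p‖ ≤ ‖X‖ := by
    have hpp : ⟪p, p⟫_ℂ = 1 := by
      rw [geo_self, hp]; norm_num
    have e1 : ⟪X - ⟪p, X⟫_ℂ • p, ⟪p, X⟫_ℂ • p⟫_ℂ = 0 := by
      rw [inner_smul_right, inner_sub_left, inner_smul_left, inner_conj_symm, hpp]
      ring
    have e2 := norm_add_sq_eq_norm_sq_add_norm_sq_of_inner_eq_zero _ _ e1
    rw [sub_add_cancel] at e2
    nlinarith [norm_nonneg X, norm_nonneg (X - ⟪p, X⟫_ℂ • p), norm_nonneg (⟪p, X⟫_ℂ • p)]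
  set D := ‖1 - ⟪p, z⟫_ℂ‖ with hDdef
  set s := Real.sqrt (tt p z) with hs
  have hs0 : 0 ≤ s := Real.sqrt_nonneg _
  have f1 : ‖(1 - ⟪p, z⟫_ℂ)⁻¹ * ⟪c, X - ⟪p, X⟫_ℂ • p⟫_ℂ‖ ≤ 2 * ‖c‖ * s * ‖v‖ := by
    rw [norm_mul, norm_inv, ← hDdef]
    calc D⁻¹ * ‖⟪c, X - ⟪p, X⟫_ℂ • p⟫_ℂ‖ ≤ D⁻¹ * (‖c‖ * ‖X - ⟪p, X⟫_ℂ • p‖) := by
          gcongr
          exact norm_inner_le_norm _ _
      _ ≤ D⁻¹ * (‖c‖ * (2 * (s * D) * ‖v‖)) := by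
          gcongr
          exact hproj.trans hX
      _ = 2 * ‖c‖ * s * ‖v‖ := by field_simp
  have f2 : ‖⟪c, zt p z⟫_ℂ * ((1 - ⟪p, z⟫_ℂ)⁻¹ * ⟪p, X⟫_ℂ)‖ ≤
      ‖c‖ * ‖zt p z‖ * (2 * s * ‖v‖) := by
    rw [norm_mul, norm_mul, norm_inv, ← hDdef]
    calc ‖⟪c, zt p z⟫_ℂ‖ * (D⁻¹ * ‖⟪p, X⟫_ℂ‖) ≤
          (‖c‖ * ‖zt p z‖) * (D⁻¹ * (2 * (s * D) * ‖v‖)) := by
          gcongr
          exact norm_inner_le_norm _ _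
      _ = ‖c‖ * ‖zt p z‖ * (2 * s * ‖v‖) := by field_simp
  calc _ ≤ ‖(1 - ⟪p, z⟫_ℂ)⁻¹ * ⟪c, X - ⟪p, X⟫_ℂ • p⟫_ℂ‖ +
        ‖⟪c, zt p z⟫_ℂ * ((1 - ⟪p, z⟫_ℂ)⁻¹ * ⟪p, X⟫_ℂ)‖ := norm_add_le _ _
    _ ≤ 2 * ‖c‖ * s * ‖v‖ + ‖c‖ * ‖zt p z‖ * (2 * s * ‖v‖) := add_le_add f1 f2
    _ = _ := by ring

end Pool.Agent.MPca0fc2.PV
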