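import Mathlib
import Pool.Agent.Lib.MP_ca0fc2_an.PV.M1b
import Pool.Agent.Lib.MP_ca0fc2_an.PV.M3

set_option autoImplicit false

open Metric Set MeasureTheory Filter Topology
open scoped InnerProductSpace ENNReal ContDiff

/-! # The functions `EE p` and `EE p ⟪c, zt p ·⟫` are calm off every line through `p` -/

namespace Pool.Agent.MPca0fc2.PV

open Pool.Agent.Lib.MP_ca0fc2_an
open Pool.Agent.MPca0fc2.PT
open Pool.Agent.MPca0fc2.TS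
open Pool.Agent.MPca0fc2.TE

variable {E : Type*} [NormedAddCommGroup E] [InnerProductSpace ℂ E] [FiniteDimensional ℂ E]

private theorem M4_pow {K : ℝ} (hK : 0 ≤ K) (k : ℕ) :
    (K * (1 / 2) ^ k) ^ ((1 : ℝ) / 2) = K ^ ((1 : ℝ) / 2) * ((1 / 2 : ℝ) ^ ((1 : ℝ) / 2)) ^ k := by
  rw [Real.mul_rpow hK (by positivity)]
  congr 1
  rw [← Real.rpow_natCast, ← Real.rpow_natCast, ← Real.rpow_mul (by norm_num),
    ← Real.rpow_mul (by norm_num), mul_comm]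

private theorem M4_T {T s : ℝ} (_hs : 0 ≤ s) (h : s ^ 2 ≤ T) :
    s ≤ Real.sqrt T ∧ Real.sqrt T ≤ (1 + T) / 2 ∧ Real.sqrt T ^ 2 = T ∧ 0 ≤ T ∧
      1 + T / 2 ≤ Real.exp (T / 2) ∧ Real.exp (-T) = Real.exp (-T / 2) * Real.exp (-T / 2) ∧
      Real.exp (-T / 2) * Real.exp (T / 2) = 1 := by
  have hT : 0 ≤ T := (sq_nonneg s).trans h
  have h1 := Real.sq_sqrt hT
  refine ⟨Real.le_sqrt_of_sq_le h, ?_, h1, hT, ?_, ?_, ?_⟩
  · nlinarith [sq_nonneg (Real.sqrt T - 1)]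
  · have := Real.add_one_le_exp (T / 2)
    linarith
  · rw [← Real.exp_add]
    congr 1
    ring
  · rw [← Real.exp_add]
    have : -T / 2 + T / 2 = 0 := by ring
    rw [this, Real.exp_zero]

/-- Proof. `IG_rep`: `IG2 u z = ‖b‖²` with `fderiv u z (gg' z 0 v) = ⟪b, v⟫`; take `v = b`. -/
theorem IG_of_le {u : E → ℂ} {z : E} (hz : ‖z‖ < 1) {L : ℝ} (hL : 0 ≤ L)
    (h : ∀ v : E, ‖fderiv ℂ u z (gg' z 0 v)‖ ≤ L * ‖v‖) : IG2 u z ≤ L ^ 2 := by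
  obtain ⟨b, hb, hb2⟩ := CG.IG_rep (u := u) hz
  rw [← hb2]
  have h1 := h b
  rw [hb b] at h1
  have h2 : ‖⟪b, b⟫_ℂ‖ = ‖b‖ ^ 2 := by
    rw [geo_self, Complex.norm_real, norm_pow, norm_norm]
  rw [h2] at h1
  have h3 : ‖b‖ ≤ L := by
    by_contra h4
    have h4' := not_le.mp h4
    have h5 : 0 < ‖b‖ := hL.trans_lt h4'
    nlinarith
  exact pow_le_pow_left₀ (norm_nonneg _) h3 2

/-- Proof. Let `T = tt p z + ‖zt p z‖²`, `t = tt p z`, `β = zt p a`. If `2 ^ k * HH b z ≤ 1` for all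
`b ∈ lin a p` in the ball then `2 ^ k * t / (t + ‖zt p z - β‖²) ≤ 1` (`HH_lin_eq`), and
`t + ‖zt p z - β‖² ≤ 2 T + 2 ‖β‖²`, so `√t e^(-T/2) ≤ √(2 + 2 ‖β‖²) (1/√2)^k` (`T e^(-T) ≤ 1`).
So `IG2 u z ^ (1/2) ≤ C √(2 + 2 ‖β‖²) (1/√2)^k` (`IG_of_le`), a summable sequence. -/
theorem calm_of {p a : E} (hp : ‖p‖ = 1) (ha : ‖a‖ < 1) {u : E → ℂ}
    (hu : DifferentiableOn ℂ u (ball 0 1)) {B : ℝ} (hB : ∀ z ∈ ball (0 : E) 1, ‖u z‖ ≤ B) {C : ℝ}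
    (hC : 0 ≤ C) (h : ∀ z v : E, ‖z‖ < 1 → ‖fderiv ℂ u z (gg' z 0 v)‖ ≤
      C * Real.sqrt (tt p z) * Real.exp (-(tt p z + ‖zt p z‖ ^ 2) / 2) * ‖v‖) :
    Calm 1 (lin a p) u := by
  obtain ⟨K, hK⟩ : ∃ K : ℝ, K = C ^ 2 * (2 + 2 * ‖zt p a‖ ^ 2) := ⟨_, rfl⟩
  have hK0 : 0 ≤ K := by rw [hK]; positivity
  have hr0 : (0 : ℝ) ≤ (1 / 2 : ℝ) ^ ((1 : ℝ) / 2) := by positivity
  have hr1 : (1 / 2 : ℝ) ^ ((1 : ℝ) / 2) < 1 :=
    Real.rpow_lt_one (by norm_num) (by norm_num) (by norm_num)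
  refine ⟨hu, ⟨B, hB⟩, fun k => K ^ ((1 : ℝ) / 2) * ((1 / 2 : ℝ) ^ ((1 : ℝ) / 2)) ^ k,
    (summable_geometric_of_lt_one hr0 hr1).mul_left _, fun k z hz hb => ?_⟩
  have hz1 : ‖z‖ < 1 := mem_ball_zero_iff.mp hz
  obtain ⟨b, hbl, hb1, hbe⟩ := HH_lin_eq hp ha hz1
  have h1 := hb b hbl hb1
  rw [hbe, rs, ← mul_div_assoc] at h1
  have ht := tt_pos hp hz1
  obtain ⟨t, htt⟩ : ∃ t : ℝ, t = tt p z := ⟨_, rfl⟩
  obtain ⟨T, hT⟩ : ∃ T : ℝ, T = tt p z + ‖zt p z‖ ^ 2 := ⟨_, rfl⟩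
  rw [← htt] at ht h1
  have hden : 0 < t + ‖zt p z - zt p a‖ ^ 2 := by positivity
  rw [div_le_one hden] at h1
  have h2 : ‖zt p z - zt p a‖ ^ 2 ≤ 2 * ‖zt p z‖ ^ 2 + 2 * ‖zt p a‖ ^ 2 := by
    have h3 := norm_sub_le (zt p z) (zt p a)
    have h4 := pow_le_pow_left₀ (norm_nonneg _) h3 2
    nlinarith [sq_nonneg (‖zt p z‖ - ‖zt p a‖)]
  have h5 : 2 ^ k * t ≤ 2 * T + 2 * ‖zt p a‖ ^ 2 := by
    rw [hT, ← htt]
    linarith
  have hT0 : 0 ≤ T := by rw [hT, ← htt]; positivity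
  have h6 : IG2 u z ≤ (C * Real.sqrt t * Real.exp (-T / 2)) ^ 2 := by
    refine IG_of_le hz1 (by positivity) fun v => ?_
    have := h z v hz1
    rw [← hT, ← htt] at this
    exact this
  have h7 : (C * Real.sqrt t * Real.exp (-T / 2)) ^ 2 = C ^ 2 * (t * Real.exp (-T)) := by
    rw [mul_pow, mul_pow, Real.sq_sqrt ht.le, _root_.sq (Real.exp (-T / 2)), ← Real.exp_add]
    have h8 : -T / 2 + -T / 2 = -T := by ring
    rw [h8]
    ring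
  have h9 : T * Real.exp (-T) ≤ 1 := by
    have h10 := Real.add_one_le_exp T
    rw [Real.exp_neg, ← div_eq_mul_inv, div_le_one (Real.exp_pos T)]
    linarith
  have h11 : Real.exp (-T) ≤ 1 := Real.exp_le_one_iff.mpr (by linarith)
  have h12 : 2 ^ k * (t * Real.exp (-T)) ≤ 2 + 2 * ‖zt p a‖ ^ 2 := by
    calc 2 ^ k * (t * Real.exp (-T)) = (2 ^ k * t) * Real.exp (-T) := by ring
      _ ≤ (2 * T + 2 * ‖zt p a‖ ^ 2) * Real.exp (-T) :=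
          mul_le_mul_of_nonneg_right h5 (Real.exp_pos _).le
      _ = 2 * (T * Real.exp (-T)) + 2 * ‖zt p a‖ ^ 2 * Real.exp (-T) := by ring
      _ ≤ 2 * 1 + 2 * ‖zt p a‖ ^ 2 * 1 := by gcongr
      _ = _ := by ring
  have h13 : t * Real.exp (-T) ≤ (2 + 2 * ‖zt p a‖ ^ 2) * (1 / 2) ^ k := by
    have h14 : (0 : ℝ) < 2 ^ k := by positivity
    rw [one_div, inv_pow, ← div_eq_mul_inv, le_div_iff₀ h14]
    linarith
  have h15 : IG2 u z ≤ K * (1 / 2) ^ k := by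
    rw [hK]
    calc IG2 u z ≤ C ^ 2 * (t * Real.exp (-T)) := h6.trans_eq h7
      _ ≤ C ^ 2 * ((2 + 2 * ‖zt p a‖ ^ 2) * (1 / 2) ^ k) := by gcongr
      _ = _ := by ring
  exact (Real.rpow_le_rpow (gd_IG_nonneg hz1) h15 (by norm_num)).trans_eq (M4_pow hK0 k)

/-- `dEE_le`, `calm_of`; `8 (1 + 2 √T) e^(-T/2) ≤ 100`. -/
theorem calm_EE {p a : E} (hp : ‖p‖ = 1) (ha : ‖a‖ < 1) : Calm 1 (lin a p) (EE p) := by
  refine calm_of hp ha (C := 100) (B := 1)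
    (fun z hz => (dEE_le hp (mem_ball_zero_iff.mp hz) 0).1.differentiableWithinAt)
    (fun z hz => ?_) (by norm_num) fun z v hz => ?_
  · have hz1 : ‖z‖ < 1 := mem_ball_zero_iff.mp hz
    rw [norm_EE hp hz1]
    have := tt_pos hp hz1
    exact Real.exp_le_one_iff.mpr (by nlinarith [sq_nonneg ‖zt p z‖])
  · have h1 := (dEE_le hp hz v).2
    have ht := tt_pos hp hz
    obtain ⟨T, hT⟩ : ∃ T : ℝ, T = tt p z + ‖zt p z‖ ^ 2 := ⟨_, rfl⟩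
    obtain ⟨-, h3, h4, h5, h6, h7, h8⟩ := M4_T (norm_nonneg (zt p z)) (T := T) (by rw [hT]; linarith)
    rw [← hT] at h1 ⊢
    refine h1.trans ?_
    refine mul_le_mul_of_nonneg_right ?_ (norm_nonneg v)
    have h9 : 8 * (1 + 2 * Real.sqrt T) ≤ 100 * Real.exp (T / 2) := by linarith
    have h10 : Real.exp (-T / 2) * (8 * (1 + 2 * Real.sqrt T)) ≤ 100 := by
      calc Real.exp (-T / 2) * (8 * (1 + 2 * Real.sqrt T)) ≤
          Real.exp (-T / 2) * (100 * Real.exp (T / 2)) :=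
            mul_le_mul_of_nonneg_left h9 (Real.exp_pos _).le
        _ = 100 * (Real.exp (-T / 2) * Real.exp (T / 2)) := by ring
        _ = 100 := by rw [h8, mul_one]
    rw [h7]
    calc Real.exp (-T / 2) * Real.exp (-T / 2) *
        (8 * Real.sqrt (tt p z) * (1 + 2 * Real.sqrt T)) =
        (Real.exp (-T / 2) * (8 * (1 + 2 * Real.sqrt T))) *
          (Real.sqrt (tt p z) * Real.exp (-T / 2)) := by ring
      _ ≤ 100 * (Real.sqrt (tt p z) * Real.exp (-T / 2)) :=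
          mul_le_mul_of_nonneg_right h10 (by positivity)
      _ = _ := by ring

/-- `dEE_le`, `dzt_le`, the product rule, `‖⟪c, zt p z⟫‖ ≤ ‖c‖ √T`, `calm_of`. -/
theorem calm_EEz {p a : E} (hp : ‖p‖ = 1) (ha : ‖a‖ < 1) (c : E) :
    Calm 1 (lin a p) (fun z => EE p z * ⟪c, zt p z⟫_ℂ) := by
  refine calm_of hp ha (C := 42 * ‖c‖) (B := ‖c‖)
    (fun z hz => ((dEE_le hp (mem_ball_zero_iff.mp hz) 0).1.mul
      (dzt_le hp (mem_ball_zero_iff.mp hz) c 0).1).differentiableWithinAt)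
    (fun z hz => ?_) (by positivity) fun z v hz => ?_
  · have hz1 : ‖z‖ < 1 := mem_ball_zero_iff.mp hz
    have ht := tt_pos hp hz1
    rw [norm_mul, norm_EE hp hz1]
    obtain ⟨T, hT⟩ : ∃ T : ℝ, T = tt p z + ‖zt p z‖ ^ 2 := ⟨_, rfl⟩
    obtain ⟨h2, h3, h4, h5, h6, h7, h8⟩ := M4_T (norm_nonneg (zt p z)) (T := T) (by rw [hT]; linarith)
    rw [← hT]
    have h9 := norm_inner_le_norm (𝕜 := ℂ) c (zt p z)
    have h10 : Real.exp (-T) * ‖zt p z‖ ≤ 1 := by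
      have h11 := Real.add_one_le_exp T
      rw [Real.exp_neg, mul_comm, ← div_eq_mul_inv, div_le_one (Real.exp_pos T)]
      linarith
    calc Real.exp (-T) * ‖⟪c, zt p z⟫_ℂ‖ ≤ Real.exp (-T) * (‖c‖ * ‖zt p z‖) :=
          mul_le_mul_of_nonneg_left h9 (Real.exp_pos _).le
      _ = ‖c‖ * (Real.exp (-T) * ‖zt p z‖) := by ring
      _ ≤ ‖c‖ := mul_le_of_le_one_right (norm_nonneg _) h10
  · have ht := tt_pos hp hz
    obtain ⟨hd1, h1⟩ := dEE_le hp hz v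
    obtain ⟨hd2, h2⟩ := dzt_le hp hz c v
    have hne := norm_EE hp hz
    obtain ⟨T, hT⟩ : ∃ T : ℝ, T = tt p z + ‖zt p z‖ ^ 2 := ⟨_, rfl⟩
    obtain ⟨k2, k3, k4, k5, k6, k7, k8⟩ := M4_T (norm_nonneg (zt p z)) (T := T) (by rw [hT]; linarith)
    rw [← hT] at h1 hne ⊢
    have h9 := norm_inner_le_norm (𝕜 := ℂ) c (zt p z)
    have hf : fderiv ℂ (fun z => EE p z * ⟪c, zt p z⟫_ℂ) z (gg' z 0 v) =
        EE p z * fderiv ℂ (fun z => ⟪c, zt p z⟫_ℂ) z (gg' z 0 v) +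
          ⟪c, zt p z⟫_ℂ * fderiv ℂ (EE p) z (gg' z 0 v) := by
      rw [fderiv_fun_mul hd1 hd2]
      simp only [add_apply, smul_apply, smul_eq_mul]
    obtain ⟨s, hs⟩ : ∃ s, s = Real.sqrt T := ⟨_, rfl⟩
    obtain ⟨q, hq⟩ : ∃ q, q = Real.sqrt (tt p z) := ⟨_, rfl⟩
    obtain ⟨e, he⟩ : ∃ e, e = Real.exp (-T / 2) := ⟨_, rfl⟩
    rw [← hs] at h1 k2 k3 k4
    rw [← hq] at h1 h2 ⊢
    rw [k7] at h1 hne
    rw [← he] at h1 hne k8 ⊢
    have he0 : 0 < e := by rw [he]; exact Real.exp_pos _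
    have hq0 : 0 ≤ q := by rw [hq]; exact Real.sqrt_nonneg _
    have hs0 : 0 ≤ s := by rw [hs]; exact Real.sqrt_nonneg _
    have hc0 := norm_nonneg c
    have hv0 := norm_nonneg v
    have hz0 := norm_nonneg (zt p z)
    have h10 : e * (2 * (1 + s) + 8 * s * (1 + 2 * s)) ≤ 42 := by
      have h11 : 2 * (1 + s) + 8 * s * (1 + 2 * s) ≤ 42 * Real.exp (T / 2) := by nlinarith
      calc e * (2 * (1 + s) + 8 * s * (1 + 2 * s)) ≤ e * (42 * Real.exp (T / 2)) :=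
            mul_le_mul_of_nonneg_left h11 he0.le
        _ = 42 * (e * Real.exp (T / 2)) := by ring
        _ = 42 := by rw [k8, mul_one]
    rw [hf]
    calc ‖EE p z * fderiv ℂ (fun z => ⟪c, zt p z⟫_ℂ) z (gg' z 0 v) +
          ⟪c, zt p z⟫_ℂ * fderiv ℂ (EE p) z (gg' z 0 v)‖ ≤
        ‖EE p z‖ * ‖fderiv ℂ (fun z => ⟪c, zt p z⟫_ℂ) z (gg' z 0 v)‖ +
          ‖⟪c, zt p z⟫_ℂ‖ * ‖fderiv ℂ (EE p) z (gg' z 0 v)‖ := by
          rw [← norm_mul, ← norm_mul]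
          exact norm_add_le _ _
      _ ≤ (e * e) * (2 * ‖c‖ * (1 + ‖zt p z‖) * q * ‖v‖) +
          (‖c‖ * ‖zt p z‖) * ((e * e) * (8 * q * (1 + 2 * s)) * ‖v‖) := by
          rw [hne]
          gcongr
      _ ≤ (e * e) * (2 * ‖c‖ * (1 + s) * q * ‖v‖) +
          (‖c‖ * s) * ((e * e) * (8 * q * (1 + 2 * s)) * ‖v‖) := by gcongr
      _ = (e * (2 * (1 + s) + 8 * s * (1 + 2 * s))) * (‖c‖ * q * e * ‖v‖) := by ring
      _ ≤ 42 * (‖c‖ * q * e * ‖v‖) := mul_le_mul_of_nonneg_right h10 (by positivity)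
      _ = _ := by ring

end Pool.Agent.MPca0fc2.PV
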