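import Mathlib
import Pool.Agent.Lib.MP_ca0fc2_an.PV.M4

set_option autoImplicit false

open Metric Set MeasureTheory Filter Topology
open scoped InnerProductSpace ENNReal ContDiff

/-! # Every character chooses a nearest line -/

namespace Pool.Agent.MPca0fc2.PV

open Pool.Agent.Lib.MP_ca0fc2_an
open Pool.Agent.MPca0fc2.PT
open Pool.Agent.MPca0fc2.TS
open Pool.Agent.MPca0fc2.TE

variable {E : Type*} [NormedAddCommGroup E] [InnerProductSpace ℂ E]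

/-- comparison of the depths relative to two lines. Proof. `HH_lin_eq` gives `b₀ ∈ lin a₀ p` with
`HH b₀ z = rs p (zt p a₀) z`; the hypothesis gives `rs p (zt p a) z ≤ K rs p (zt p a₀) z`, and
`HH_lin_le`. -/
theorem near_of {p z a₀ : E} (hp : ‖p‖ = 1) (hz : ‖z‖ < 1) {A : Set E} (hA : ∀ a ∈ A, ‖a‖ < 1)
    (ha₀ : a₀ ∈ A) {K : ℝ} (hK : 0 ≤ K) (h : ∀ a ∈ A, tt p z + ‖zt p z - zt p a₀‖ ^ 2 ≤
      K * (tt p z + ‖zt p z - zt p a‖ ^ 2)) :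
    ∃ b₀ ∈ lin a₀ p, ‖b₀‖ < 1 ∧ ∀ b ∈ linU A p, ‖b‖ < 1 → HH b z ≤ K * HH b₀ z := by
  obtain ⟨b₀, hb₀, hb₁, hb₂⟩ := HH_lin_eq hp (hA a₀ ha₀) hz
  have ht : 0 < tt p z := tt_pos hp hz
  refine ⟨b₀, hb₀, hb₁, ?_⟩
  rintro b ⟨a, ha, hb⟩ hb1
  refine (HH_lin_le hp (hA a ha) hb hb1 hz).trans ?_
  rw [hb₂]
  have h1 := h a ha
  have h2 : 0 < tt p z + ‖zt p z - zt p a‖ ^ 2 := by positivity
  have h3 : 0 < tt p z + ‖zt p z - zt p a₀‖ ^ 2 := by positivity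
  show tt p z / (tt p z + ‖zt p z - zt p a‖ ^ 2) ≤
    K * (tt p z / (tt p z + ‖zt p z - zt p a₀‖ ^ 2))
  rw [← mul_div_assoc, div_le_div_iff₀ h2 h3]
  nlinarith

/-- If `‖EE p z‖` is small then all lines of the finite set `A` have comparable distances. Proof.
`β = max ‖zt p a‖`, `s = exp (-(16 β²))`; `‖EE p z‖ < s` gives `T = tt p z + ‖zt p z‖² > 16 β²`
(`norm_EE`), and `T_a = tt p z + ‖zt p z - zt p a‖² = T - 2 re ⟪zt p a, zt p z⟫ + ‖zt p a‖²`,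
`|2 re ⟪zt p a, zt p z⟫| ≤ 2 β √T ≤ T / 2`, so `T / 2 ≤ T_a ≤ 2 T`; `K = 4`, `near_of`. -/
theorem region_far {p : E} (hp : ‖p‖ = 1) {A : Set E} (hA : ∀ a ∈ A, ‖a‖ < 1) (hAf : A.Finite)
    {a₀ : E} (ha₀ : a₀ ∈ A) : ∃ s : ℝ, 0 < s ∧ ∀ z ∈ ball (0 : E) 1, ‖EE p z‖ < s →
      ∃ b₀ ∈ lin a₀ p, ‖b₀‖ < 1 ∧ ∀ b ∈ linU A p, ‖b‖ < 1 → HH b z ≤ 4 * HH b₀ z := by
  obtain ⟨β, hβ0, hβ⟩ : ∃ β : ℝ, 0 ≤ β ∧ ∀ a ∈ A, ‖zt p a‖ ≤ β := by
    obtain ⟨a₁, ha₁, h1⟩ := exists_max_image A (fun a => ‖zt p a‖) hAf ⟨a₀, ha₀⟩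
    exact ⟨‖zt p a₁‖, norm_nonneg _, h1⟩
  refine ⟨Real.exp (-(16 * β ^ 2)), Real.exp_pos _, fun z hz hE => ?_⟩
  have hz1 : ‖z‖ < 1 := by simpa using hz
  have ht : 0 < tt p z := tt_pos hp hz1
  rw [norm_EE hp hz1, Real.exp_lt_exp] at hE
  refine near_of hp hz1 hA ha₀ (by norm_num) fun a ha => ?_
  obtain ⟨T, hT⟩ : ∃ T : ℝ, T = tt p z + ‖zt p z‖ ^ 2 := ⟨_, rfl⟩
  have hT16 : 16 * β ^ 2 < T := by rw [hT]; linarith
  have hT0 : 0 < T := by rw [hT]; positivity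
  have hn : ‖zt p z‖ ^ 2 ≤ T := by rw [hT]; linarith
  have key : ∀ c ∈ A, T / 2 ≤ tt p z + ‖zt p z - zt p c‖ ^ 2 ∧
      tt p z + ‖zt p z - zt p c‖ ^ 2 ≤ 2 * T := by
    intro c hc
    have h1 := norm_sub_sq (𝕜 := ℂ) (zt p z) (zt p c)
    have h2 : |RCLike.re ⟪zt p z, zt p c⟫_ℂ| ≤ ‖zt p z‖ * ‖zt p c‖ :=
      (RCLike.abs_re_le_norm _).trans (norm_inner_le_norm _ _)
    have h3 : ‖zt p z‖ * ‖zt p c‖ ≤ T / 4 := by
      have h4 : ‖zt p c‖ ^ 2 ≤ T / 16 := by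
        have := pow_le_pow_left₀ (norm_nonneg _) (hβ c hc) 2
        linarith
      refine abs_le_of_sq_le_sq' ?_ (by positivity) |>.2
      calc (‖zt p z‖ * ‖zt p c‖) ^ 2 = ‖zt p z‖ ^ 2 * ‖zt p c‖ ^ 2 := by ring
        _ ≤ T * (T / 16) := mul_le_mul hn h4 (by positivity) hT0.le
        _ = (T / 4) ^ 2 := by ring
    have h5 : ‖zt p c‖ ^ 2 ≤ T / 16 := by
      have := pow_le_pow_left₀ (norm_nonneg _) (hβ c hc) 2
      linarith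
    have h6 := abs_le.1 h2
    have h7 : 0 ≤ ‖zt p c‖ ^ 2 := by positivity
    rw [h1]
    constructor
    · linarith [h6.2]
    · linarith [h6.1]
  have h1 := (key a ha).1
  have h2 := (key a₀ ha₀).2
  linarith

/-- Proof. `a₀ ∈ A` with the smallest `‖η - zt p a‖`. For `a ∈ A` with `zt p a ≠ zt p a₀` one has
`‖η - zt p a‖ ≥ ‖zt p a - zt p a₀‖ / 2`; let `ε > 0` be at most `‖zt p a - zt p a₀‖ / 4` for all
these `a`. If `‖zt p z - η‖ < ε` then `‖zt p z - zt p a‖ ≥ ε` for these `a`, so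
`T_a ≥ ε²`, and `T_{a₀} ≤ 2 T + 2 ‖zt p a₀‖² ≤ K ε²` for `K` large (`T ≤ T₁`); for
`zt p a = zt p a₀` the two are equal. `near_of`. -/
theorem region_near {p : E} (hp : ‖p‖ = 1) {A : Set E} (hA : ∀ a ∈ A, ‖a‖ < 1) (hAf : A.Finite)
    (hne : A.Nonempty) (η : E) (T₁ : ℝ) : ∃ a₀ ∈ A, ∃ ε K : ℝ, 0 < ε ∧ 1 ≤ K ∧
      ∀ z ∈ ball (0 : E) 1, tt p z + ‖zt p z‖ ^ 2 ≤ T₁ → ‖zt p z - η‖ < ε →
        ∃ b₀ ∈ lin a₀ p, ‖b₀‖ < 1 ∧ ∀ b ∈ linU A p, ‖b‖ < 1 → HH b z ≤ K * HH b₀ z := by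
  obtain ⟨a₀, ha₀, hmin⟩ := exists_min_image A (fun a => ‖η - zt p a‖) hAf hne
  obtain ⟨ε, hε, hεD⟩ : ∃ ε : ℝ, 0 < ε ∧ ∀ a ∈ A, zt p a ≠ zt p a₀ →
      4 * ε ≤ ‖zt p a - zt p a₀‖ := by
    by_cases hD : ({a ∈ A | zt p a ≠ zt p a₀} : Set E).Nonempty
    · obtain ⟨a₁, ha₁, h1⟩ := exists_min_image ({a ∈ A | zt p a ≠ zt p a₀} : Set E)
        (fun a => ‖zt p a - zt p a₀‖) (hAf.subset (fun a ha => ha.1)) hD
      refine ⟨‖zt p a₁ - zt p a₀‖ / 4, ?_, fun a ha ha2 => ?_⟩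
      · have := norm_pos_iff.2 (sub_ne_zero.2 ha₁.2)
        positivity
      · have := h1 a ⟨ha, ha2⟩
        linarith
    · refine ⟨1, one_pos, fun a ha ha2 => ?_⟩
      exact absurd ⟨a, ha, ha2⟩ hD
  obtain ⟨Q, hQ⟩ : ∃ Q : ℝ, Q = 2 * |T₁| + 2 * ‖zt p a₀‖ ^ 2 := ⟨_, rfl⟩
  refine ⟨a₀, ha₀, ε, max 1 (Q / ε ^ 2), hε, le_max_left _ _, fun z hz hT hη => ?_⟩
  have hz1 : ‖z‖ < 1 := by simpa using hz
  have ht : 0 < tt p z := tt_pos hp hz1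
  have hK1 : (1 : ℝ) ≤ max 1 (Q / ε ^ 2) := le_max_left _ _
  have hKQ : Q ≤ max 1 (Q / ε ^ 2) * ε ^ 2 := by
    rw [← div_le_iff₀ (by positivity)]
    exact le_max_right _ _
  refine near_of hp hz1 hA ha₀ (zero_le_one.trans hK1) fun a ha => ?_
  by_cases hc : zt p a = zt p a₀
  · rw [hc]
    exact le_mul_of_one_le_left (by positivity) hK1
  · have h1 : ε ≤ ‖zt p z - zt p a‖ := by
      have h2 := hεD a ha hc
      have h3 := hmin a ha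
      have h4 : ‖zt p a - zt p a₀‖ ≤ ‖η - zt p a‖ + ‖η - zt p a₀‖ := by
        have e : zt p a - zt p a₀ = (η - zt p a₀) - (η - zt p a) := by abel
        rw [e]
        refine (norm_sub_le _ _).trans ?_
        linarith
      have h5 : ‖η - zt p a‖ ≤ ‖zt p z - zt p a‖ + ‖zt p z - η‖ := by
        have e : η - zt p a = (zt p z - zt p a) - (zt p z - η) := by abel
        rw [e]
        exact norm_sub_le _ _
      linarith
    have h2 : ε ^ 2 ≤ ‖zt p z - zt p a‖ ^ 2 := pow_le_pow_left₀ hε.le h1 2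
    have h3 : tt p z + ‖zt p z - zt p a₀‖ ^ 2 ≤ Q := by
      have h4 : ‖zt p z - zt p a₀‖ ^ 2 ≤ 2 * ‖zt p z‖ ^ 2 + 2 * ‖zt p a₀‖ ^ 2 := by
        have h5 := pow_le_pow_left₀ (norm_nonneg _) (norm_sub_le (zt p z) (zt p a₀)) 2
        nlinarith [sq_nonneg (‖zt p z‖ - ‖zt p a₀‖)]
      have h6 := le_abs_self T₁
      have h7 : 0 ≤ ‖zt p z‖ ^ 2 := by positivity
      rw [hQ]
      linarith
    calc tt p z + ‖zt p z - zt p a₀‖ ^ 2 ≤ Q := h3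
      _ ≤ max 1 (Q / ε ^ 2) * ε ^ 2 := hKQ
      _ ≤ max 1 (Q / ε ^ 2) * (tt p z + ‖zt p z - zt p a‖ ^ 2) :=
          mul_le_mul_of_nonneg_left (by linarith) (zero_le_one.trans hK1)

variable [FiniteDimensional ℂ E]

/-- Proof. `e_k` an orthonormal basis (`stdOrthonormalBasis ℂ E`), `n = finrank`, `u_0 = EE p`,
`u_{k+1} = EE p ⟪e_k, zt p ·⟫` (`Fin.cons`), `λ = X u`. If `λ_0 = 0`: `region_far` for any `a₀ ∈ A`.
If `λ_0 ≠ 0`: `η = ∑ (λ_{k+1} / λ_0) e_k`, `T₁ = log (2 / ‖λ_0‖)`, `region_near`; if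
`‖u_i z - λ_i‖ < s` with `s ≤ ‖λ_0‖ / 2` then `‖EE p z‖ ≥ ‖λ_0‖ / 2`, so `T ≤ T₁` (`norm_EE`), and
`⟪e_k, zt p z⟫ - λ_{k+1} / λ_0 = (u_{k+1} z λ_0 - λ_{k+1} u_0 z) / (u_0 z λ_0)` is at most
`2 s (‖λ_0‖ + ‖λ_{k+1}‖) / ‖λ_0‖²`; so `‖zt p z - η‖ < ε` for small `s`. `calm_EE`, `calm_EEz`. -/
theorem region_char {p : E} (hp : ‖p‖ = 1) (X : Char Unit E) {A : Set E} (hAf : A.Finite)
    (hne : A.Nonempty) (hA : ∀ a ∈ A, ‖a‖ < 1) : ∃ a₀ ∈ A, ∃ (l : ℕ) (u : Fin l → E → ℂ) (s K : ℝ),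
      0 < s ∧ 1 ≤ K ∧ (∀ i, Calm 1 (lin a₀ p) (u i)) ∧ ∀ z ∈ ball (0 : E) 1,
        (∀ i, ‖u i z - X.φ (fun _ => u i)‖ < s) →
          ∃ b₀ ∈ lin a₀ p, ‖b₀‖ < 1 ∧ ∀ b ∈ linU A p, ‖b‖ < 1 → HH b z ≤ K * HH b₀ z := by
  classical
  obtain ⟨n, hn⟩ : ∃ n : ℕ, n = Module.finrank ℂ E := ⟨_, rfl⟩
  subst hn
  have e := stdOrthonormalBasis ℂ E
  obtain ⟨u, hu⟩ : ∃ u : Fin (Module.finrank ℂ E + 1) → E → ℂ,
      u = Fin.cons (EE p) (fun k z => EE p z * ⟪e k, zt p z⟫_ℂ) := ⟨_, rfl⟩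
  have hu0 : u 0 = EE p := by rw [hu]; rfl
  have huk : ∀ k : Fin (Module.finrank ℂ E), u k.succ = fun z => EE p z * ⟪e k, zt p z⟫_ℂ := by
    intro k
    rw [hu]
    rfl
  have hcalm : ∀ a₀ ∈ A, ∀ i, Calm 1 (lin a₀ p) (u i) := by
    intro a₀ ha₀ i
    refine Fin.cases ?_ (fun k => ?_) i
    · rw [hu0]
      exact calm_EE hp (hA a₀ ha₀)
    · rw [huk]
      exact calm_EEz hp (hA a₀ ha₀) (e k)
  by_cases h0 : X.φ (fun _ => u 0) = 0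
  · obtain ⟨a₀, ha₀⟩ := hne
    obtain ⟨s, hs, h⟩ := region_far hp hA hAf ha₀
    refine ⟨a₀, ha₀, _, u, s, 4, hs, by norm_num, hcalm a₀ ha₀, fun z hz h1 => h z hz ?_⟩
    have h2 := h1 0
    rwa [h0, sub_zero, hu0] at h2
  · obtain ⟨l₀, hl₀⟩ : ∃ l₀ : ℂ, l₀ = X.φ (fun _ => u 0) := ⟨_, rfl⟩
    rw [← hl₀] at h0
    have hl0 : 0 < ‖l₀‖ := norm_pos_iff.2 h0
    obtain ⟨a₀, ha₀, ε, K, hε, hK, h⟩ := region_near hp hA hAf hne
      (∑ k, (X.φ (fun _ => u k.succ) / l₀) • e k) (Real.log (2 / ‖l₀‖))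
    obtain ⟨M, hM⟩ : ∃ M : ℝ, M = ∑ k : Fin (Module.finrank ℂ E),
      2 * (‖l₀‖ + ‖X.φ (fun _ => u k.succ)‖) / ‖l₀‖ ^ 2 := ⟨_, rfl⟩
    have hM0 : 0 ≤ M := by
      rw [hM]
      exact Finset.sum_nonneg fun k _ => by positivity
    obtain ⟨s, hs⟩ : ∃ s : ℝ, s = min (‖l₀‖ / 2) (ε / (M + 1)) := ⟨_, rfl⟩
    have hs0 : 0 < s := by rw [hs]; positivity
    have hs1 : s ≤ ‖l₀‖ / 2 := by rw [hs]; exact min_le_left _ _
    have hs2 : s * M < ε := by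
      have h2 : s ≤ ε / (M + 1) := by rw [hs]; exact min_le_right _ _
      rw [le_div_iff₀ (by positivity)] at h2
      nlinarith
    refine ⟨a₀, ha₀, _, u, s, K, hs0, hK, hcalm a₀ ha₀, fun z hz h1 => h z hz ?_ ?_⟩
    · have hz1 : ‖z‖ < 1 := by simpa using hz
      have h2 := h1 0
      rw [← hl₀, hu0] at h2
      have h3 : ‖l₀‖ / 2 ≤ ‖EE p z‖ := by
        have h4 : ‖l₀‖ ≤ ‖EE p z‖ + ‖EE p z - l₀‖ := by
          have e1 : l₀ = EE p z - (EE p z - l₀) := by ring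
          calc ‖l₀‖ = ‖EE p z - (EE p z - l₀)‖ := by rw [← e1]
            _ ≤ _ := norm_sub_le _ _
        linarith
      rw [norm_EE hp hz1] at h3
      rw [Real.le_log_iff_exp_le (by positivity), le_div_iff₀ hl0]
      have h5 : Real.exp (tt p z + ‖zt p z‖ ^ 2) * Real.exp (-(tt p z + ‖zt p z‖ ^ 2)) = 1 := by
        rw [← Real.exp_add, add_neg_cancel, Real.exp_zero]
      have h6 := Real.exp_pos (tt p z + ‖zt p z‖ ^ 2)
      nlinarith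
    · have hz1 : ‖z‖ < 1 := by simpa using hz
      have h2 := h1 0
      rw [← hl₀, hu0] at h2
      have h3 : ‖l₀‖ / 2 ≤ ‖EE p z‖ := by
        have h4 : ‖l₀‖ ≤ ‖EE p z‖ + ‖EE p z - l₀‖ := by
          have e1 : l₀ = EE p z - (EE p z - l₀) := by ring
          calc ‖l₀‖ = ‖EE p z - (EE p z - l₀)‖ := by rw [← e1]
            _ ≤ _ := norm_sub_le _ _
        linarith
      have hE0 : EE p z ≠ 0 := by
        intro h4
        rw [h4, norm_zero] at h3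
        linarith
      have hk : ∀ k : Fin (Module.finrank ℂ E),
          ‖⟪e k, zt p z⟫_ℂ - X.φ (fun _ => u k.succ) / l₀‖ ≤
            s * (2 * (‖l₀‖ + ‖X.φ (fun _ => u k.succ)‖) / ‖l₀‖ ^ 2) := by
        intro k
        have h4 := h1 k.succ
        obtain ⟨L, hL⟩ : ∃ L : ℂ, L = X.φ (fun _ => u k.succ) := ⟨_, rfl⟩
        rw [← hL] at h4 ⊢
        rw [huk] at h4
        have e1 : ⟪e k, zt p z⟫_ℂ - L / l₀ =
            ((EE p z * ⟪e k, zt p z⟫_ℂ - L) * l₀ - L * (EE p z - l₀)) / (EE p z * l₀) := by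
          field_simp
          ring
        rw [e1, norm_div, norm_mul, div_le_iff₀ (by positivity)]
        have h5 : ‖(EE p z * ⟪e k, zt p z⟫_ℂ - L) * l₀ - L * (EE p z - l₀)‖ ≤
            s * (‖l₀‖ + ‖L‖) := by
          refine (norm_sub_le _ _).trans ?_
          rw [norm_mul, norm_mul]
          have h6 := mul_le_mul_of_nonneg_right h4.le (norm_nonneg l₀)
          have h7 := mul_le_mul_of_nonneg_left h2.le (norm_nonneg L)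
          linarith
        refine h5.trans ?_
        have h8 : s * (‖l₀‖ + ‖L‖) = s * (2 * (‖l₀‖ + ‖L‖) / ‖l₀‖ ^ 2) * (‖l₀‖ / 2 * ‖l₀‖) := by
          field_simp
        rw [h8]
        refine mul_le_mul_of_nonneg_left ?_ (by positivity)
        exact mul_le_mul_of_nonneg_right h3 hl0.le
      have e2 : zt p z - ∑ k, (X.φ (fun _ => u k.succ) / l₀) • e k =
          ∑ k, (⟪e k, zt p z⟫_ℂ - X.φ (fun _ => u k.succ) / l₀) • e k := by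
        conv_lhs => rw [← e.sum_repr' (zt p z)]
        rw [← Finset.sum_sub_distrib]
        exact Finset.sum_congr rfl fun k _ => (sub_smul _ _ _).symm
      rw [e2]
      calc ‖∑ k, (⟪e k, zt p z⟫_ℂ - X.φ (fun _ => u k.succ) / l₀) • e k‖
          ≤ ∑ k, ‖(⟪e k, zt p z⟫_ℂ - X.φ (fun _ => u k.succ) / l₀) • e k‖ := norm_sum_le _ _
        _ ≤ ∑ k : Fin (Module.finrank ℂ E),
            s * (2 * (‖l₀‖ + ‖X.φ (fun _ => u k.succ)‖) / ‖l₀‖ ^ 2) := by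
          refine Finset.sum_le_sum fun k _ => ?_
          rw [norm_smul, e.norm_eq_one, mul_one]
          exact hk k
        _ = s * M := by rw [hM, Finset.mul_sum]
        _ < ε := hs2

end Pool.Agent.MPca0fc2.PV
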