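import Mathlib
import Pool.Agent.Lib.MP_ca0fc2_an.PV.M0
import Pool.Agent.Lib.MP_ca0fc2_an.PV.V3
import Pool.Agent.Lib.MP_ca0fc2_an.Mg.G043

set_option autoImplicit false
set_option linter.unusedSectionVars false

open Metric Set MeasureTheory Filter Topology
open scoped InnerProductSpace ENNReal ContDiff

/-! # One-dimensional data modulo calm functions on the cells of calm functions -/

namespace Pool.Agent.MPca0fc2.PV

open Pool.Agent.Lib.MP_ca0fc2_an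
open Pool.Agent.MPca0fc2.PT
open Pool.Agent.MPca0fc2.TE

variable {n : ℕ}

/-- the character as a character on the algebra of the ball -/
def W9_X (Φ : IND.Char (ball (0 : EuclideanSpace ℂ (Fin n)) 1) Unit) :
    Char Unit (EuclideanSpace ℂ (Fin n)) where
  φ := Φ.φ
  map_add := fun hF hG => Φ.map_add ⟨hF.holo, hF.bdd⟩ ⟨hG.holo, hG.bdd⟩
  map_mul := fun hF hG => Φ.map_mul ⟨hF.holo, hF.bdd⟩ ⟨hG.holo, hG.bdd⟩
  map_const := Φ.map_const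
  bound := fun hF _ hC h => Φ.bound ⟨hF.holo, hF.bdd⟩ hC h

/-- `ℓ²` norms on `Fin N → ℂ` -/
theorem W9_tri {N : ℕ} {x y w : Fin N → ℂ} {a b c : ℝ} (ha : 0 ≤ a) (hb : 0 ≤ b) (hc : 0 ≤ c)
    (hx : ∑ j, ‖x j‖ ^ 2 ≤ a ^ 2) (hy : ∑ j, ‖y j‖ ^ 2 ≤ b ^ 2) (hw : ∑ j, ‖w j‖ ^ 2 ≤ c ^ 2) :
    ∑ j, ‖x j + y j + w j‖ ^ 2 ≤ (a + b + c) ^ 2 := by
  have key : ∀ (u : Fin N → ℂ) (r : ℝ), 0 ≤ r → ∑ j, ‖u j‖ ^ 2 ≤ r ^ 2 →
      ‖(WithLp.toLp 2 u : EuclideanSpace ℂ (Fin N))‖ ≤ r := by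
    intro u r hr h
    rw [EuclideanSpace.norm_eq]
    calc √(∑ j, ‖u j‖ ^ 2) ≤ √(r ^ 2) := Real.sqrt_le_sqrt h
      _ = r := Real.sqrt_sq hr
  have h1 : ‖(WithLp.toLp 2 fun j => x j + y j + w j : EuclideanSpace ℂ (Fin N))‖ ≤ a + b + c := by
    have h2 : (WithLp.toLp 2 fun j => x j + y j + w j : EuclideanSpace ℂ (Fin N)) =
        WithLp.toLp 2 x + WithLp.toLp 2 y + WithLp.toLp 2 w := by
      ext j
      simp
    rw [h2]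
    exact norm_add₃_le.trans (add_le_add (add_le_add (key x a ha hx) (key y b hb hy)) (key w c hc hw))
  rw [EuclideanSpace.norm_eq] at h1
  have h3 : 0 ≤ ∑ j, ‖x j + y j + w j‖ ^ 2 := Finset.sum_nonneg fun j _ => by positivity
  calc ∑ j, ‖x j + y j + w j‖ ^ 2 = √(∑ j, ‖x j + y j + w j‖ ^ 2) ^ 2 := (Real.sq_sqrt h3).symm
    _ ≤ (a + b + c) ^ 2 := pow_le_pow_left₀ (Real.sqrt_nonneg _) h1 2

/-- If the character kills the data `f`, which are within `e` of `v`, then `v` has small values. -/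
theorem W9_kill {Δ : Set (EuclideanSpace ℂ (Fin n))} (Φ : IND.Char Δ Unit) {N : ℕ}
    {f v : Fin N → EuclideanSpace ℂ (Fin n) → ℂ} (hf : ∀ j, IND.BH Δ (IND.cf (f j)))
    (hv : ∀ j, IND.BH Δ (IND.cf (v j))) (h0 : ∀ j, Φ.φ (IND.cf (f j)) = 0) {e : ℝ} (he : 0 ≤ e)
    (hfv : ∀ z ∈ Δ, ∑ j, ‖f j z - v j z‖ ^ 2 ≤ e ^ 2) :
    ∑ j, ‖Φ.φ (IND.cf (v j))‖ ^ 2 ≤ e ^ 2 := by
  obtain ⟨ξ, hξ⟩ : ∃ ξ : Fin N → ℂ, ∀ j, ξ j = Φ.φ (IND.cf (v j)) := ⟨_, fun _ => rfl⟩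
  have hBu : IND.BH Δ fun (_ : Unit) (z : EuclideanSpace ℂ (Fin n)) =>
      ∑ j, starRingEnd ℂ (ξ j) * (v j z - f j z) :=
    IND.BH.sum fun j _ => (IND.BH.const _).mul ((hv j).sub (hf j))
  have hXu : Φ.φ (fun (_ : Unit) (z : EuclideanSpace ℂ (Fin n)) =>
      ∑ j, starRingEnd ℂ (ξ j) * (v j z - f j z)) = ((∑ j, ‖ξ j‖ ^ 2 : ℝ) : ℂ) := by
    have h1 := Φ.map_sum (s := Finset.univ)
      (F := fun j (_ : Unit) (z : EuclideanSpace ℂ (Fin n)) =>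
        starRingEnd ℂ (ξ j) * (v j z - f j z))
      fun j _ => (IND.BH.const _).mul ((hv j).sub (hf j))
    refine h1.trans ?_
    rw [Complex.ofReal_sum]
    refine Finset.sum_congr rfl fun j _ => ?_
    have h2 := Φ.map_mul (IND.BH.const (Δ := Δ) (I := Unit) (starRingEnd ℂ (ξ j)))
      ((hv j).sub (hf j))
    have h3 := IND.Char.map_sub Φ (hv j) (hf j)
    refine h2.trans ?_
    rw [Φ.map_const, h3, h0 j, ← hξ j, sub_zero, mul_comm, Complex.mul_conj,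
      Complex.normSq_eq_norm_sq]
  have h4 : ‖Φ.φ (fun (_ : Unit) (z : EuclideanSpace ℂ (Fin n)) =>
      ∑ j, starRingEnd ℂ (ξ j) * (v j z - f j z))‖ ≤ √(∑ j, ‖ξ j‖ ^ 2) * e := by
    refine Φ.bound hBu (by positivity) fun _ z hz => ?_
    calc ‖∑ j, starRingEnd ℂ (ξ j) * (v j z - f j z)‖
        ≤ ∑ j, ‖ξ j‖ * ‖f j z - v j z‖ := by
          refine (norm_sum_le _ _).trans (Finset.sum_le_sum fun j _ => ?_)
          rw [norm_mul, RCLike.norm_conj, norm_sub_rev]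
      _ ≤ √(∑ j, ‖ξ j‖ ^ 2) * √(∑ j, ‖f j z - v j z‖ ^ 2) :=
          Real.sum_mul_le_sqrt_mul_sqrt _ _ _
      _ ≤ √(∑ j, ‖ξ j‖ ^ 2) * e := by
          refine mul_le_mul_of_nonneg_left ?_ (Real.sqrt_nonneg _)
          calc √(∑ j, ‖f j z - v j z‖ ^ 2) ≤ √(e ^ 2) := Real.sqrt_le_sqrt (hfv z hz)
            _ = e := Real.sqrt_sq he
  have h0' : 0 ≤ ∑ j, ‖ξ j‖ ^ 2 := Finset.sum_nonneg fun j _ => by positivity
  rw [hXu, Complex.norm_real, Real.norm_of_nonneg h0'] at h4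
  have hSe : √(∑ j, ‖ξ j‖ ^ 2) ≤ e := by
    have h1 := Real.mul_self_sqrt h0'
    rcases (Real.sqrt_nonneg (∑ j, ‖ξ j‖ ^ 2)).eq_or_lt with h2 | h2
    · rw [← h2]
      exact he
    · refine le_of_mul_le_mul_left ?_ h2
      rw [h1]
      exact h4
  have h5 : ∑ j, ‖Φ.φ (IND.cf (v j))‖ ^ 2 = ∑ j, ‖ξ j‖ ^ 2 := by simp only [hξ]
  rw [h5]
  calc ∑ j, ‖ξ j‖ ^ 2 = √(∑ j, ‖ξ j‖ ^ 2) ^ 2 := (Real.sq_sqrt h0').symm
    _ ≤ e ^ 2 := pow_le_pow_left₀ (Real.sqrt_nonneg _) hSe 2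

end Pool.Agent.MPca0fc2.PV
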