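import Mathlib
import Pool.Agent.Lib.MP_ca0fc2_an.PV.A3
import Pool.Agent.Lib.MP_ca0fc2_an.PV.T2
import Pool.Agent.Lib.MP_ca0fc2_an.TE.Main
import Pool.Agent.Lib.MP_ca0fc2_an.TE.Ln
import Pool.Agent.Lib.MP_ca0fc2_an.PTGrad

set_option autoImplicit false
set_option linter.unusedSectionVars false

open Metric Set MeasureTheory Filter Topology
open scoped InnerProductSpace ENNReal ContDiff

/-! # Bounded solutions for data which are calm (exponent 2) off a complex line through `0` -/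

namespace Pool.Agent.MPca0fc2.PV

open Pool.Agent.MPca0fc2.PT
open Pool.Agent.MPca0fc2.TS
open Pool.Agent.MPca0fc2.TE

variable {E : Type*} [NormedAddCommGroup E] [InnerProductSpace ℂ E] [FiniteDimensional ℂ E]

/-- Proof. `borelize E`, `μ = Measure.addHaar`, `m + 1 = finrank` (`m ≥ 1`), `M = m + 3`,
`P = (innerSL ℂ e).smulRight e` (`prj_line`; `P z = ⟪e, z⟫ • e`, `‖P z‖ = ‖⟪e, z⟫‖`). Scale:
`F j = f j / B'`, `B' = √N |B| + 1`, so `δ / B'² ≤ ∑ ‖F j‖² ≤ 1` (`N = 0` is excluded by `hδf` at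
`z = 0`; `IG2 (F j) ≤ IG2 (f j)` because `B' ≥ 1`). `line_sol` gives `g`, `A`; `extend_N` gives `h`
with `‖h j z‖ ≤ C (1 + GI (Om (nuE μ m M F) M) P z)`. Let `W' k = |W k|`; for `x` in the ball
`Th_ge` gives `k` with `2 ^ k * ro P x ≤ 1`, so `∑ j, IG2 (F j) x ≤ N W' k ≤ 2 N Th W' (ro P x) =
Th (2 N W') (ro P x)` (`Th_smul`). `nuE_eq`, `gd_IG_meas`, `gd_IG_nonneg`, `pv_Om`, `Om_nonneg`,
`pv_GI`. -/
theorem pv_two (hE : 2 ≤ Module.finrank ℂ E) {e : E} (he : ‖e‖ = 1) {N : ℕ} {f : Fin N → E → ℂ}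
    (hf : ∀ j, DifferentiableOn ℂ (f j) (ball 0 1)) {B : ℝ}
    (hB : ∀ j, ∀ z ∈ ball (0 : E) 1, ‖f j z‖ ≤ B) {δ : ℝ} (hδ : 0 < δ)
    (hδf : ∀ z ∈ ball (0 : E) 1, δ ≤ ∑ j, ‖f j z‖ ^ 2) {W : ℕ → ℝ} (hW : Summable W)
    (hfW : ∀ (k : ℕ) (z : E), z ∈ ball (0 : E) 1 → 2 ^ k * (1 - ‖z‖ ^ 2) ≤ 1 - ‖⟪e, z⟫_ℂ‖ ^ 2 →
      ∀ j, IG2 (f j) z ≤ W k) :
    ∃ (h : Fin N → E → ℂ) (C : ℝ), (∀ j, DifferentiableOn ℂ (h j) (ball 0 1)) ∧
      ∀ z ∈ ball (0 : E) 1, ∑ j, f j z * h j z = 1 ∧ ∀ j, ‖h j z‖ ≤ C := by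
  borelize E
  have hprop : ProperSpace E := FiniteDimensional.proper ℂ E
  obtain ⟨m, hm, hdim⟩ : ∃ m : ℕ, 1 ≤ m ∧ Module.finrank ℂ E = m + 1 :=
    ⟨Module.finrank ℂ E - 1, by omega, by omega⟩
  let μ : Measure E := Measure.addHaar
  obtain ⟨B', hB'⟩ : ∃ B' : ℝ, B' = Real.sqrt N * |B| + 1 := ⟨_, rfl⟩
  have hs0 : 0 ≤ Real.sqrt N * |B| := by positivity
  have hB1 : 1 ≤ B' := by rw [hB']; linarith
  have hB0 : 0 < B' := by linarith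
  obtain ⟨P, hPdef⟩ : ∃ P : E →L[ℂ] E, P = (innerSL ℂ e).smulRight e := ⟨_, rfl⟩
  have hP : Prj P := by rw [hPdef]; exact prj_line he
  have hPn : ∀ x : E, ‖P x‖ = ‖⟪e, x⟫_ℂ‖ := by
    intro x
    rw [hPdef, ContinuousLinearMap.smulRight_apply, innerSL_apply_apply, norm_smul, he, mul_one]
  obtain ⟨F, hFdef⟩ : ∃ F : Fin N → E → ℂ, F = fun j z => ((B' : ℝ) : ℂ)⁻¹ * f j z := ⟨_, rfl⟩
  have hFa : ∀ j z, F j z = ((B' : ℝ) : ℂ)⁻¹ * f j z := fun j z => by rw [hFdef]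
  have hFn : ∀ j z, ‖F j z‖ ^ 2 = ‖f j z‖ ^ 2 / B' ^ 2 := by
    intro j z
    rw [hFa, norm_mul, norm_inv, Complex.norm_real, Real.norm_of_nonneg hB0.le]
    field_simp
  have hFd : ∀ j, DifferentiableOn ℂ (F j) (ball 0 1) := by
    intro j
    rw [hFdef]
    exact (hf j).const_mul _
  have hFs : ∀ z ∈ ball (0 : E) 1, δ / B' ^ 2 ≤ ∑ j, ‖F j z‖ ^ 2 ∧ ∑ j, ‖F j z‖ ^ 2 ≤ 1 := by
    intro z hz
    have e1 : ∑ j, ‖F j z‖ ^ 2 = (∑ j, ‖f j z‖ ^ 2) / B' ^ 2 := by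
      rw [Finset.sum_div]
      exact Finset.sum_congr rfl fun j _ => hFn j z
    rw [e1]
    refine ⟨div_le_div_of_nonneg_right (hδf z hz) (by positivity), ?_⟩
    rw [div_le_one (by positivity)]
    have e2 : ∑ j, ‖f j z‖ ^ 2 ≤ ∑ _j : Fin N, |B| ^ 2 := by
      apply Finset.sum_le_sum
      intro j _
      exact pow_le_pow_left₀ (norm_nonneg _) ((hB j z hz).trans (le_abs_self B)) 2
    rw [Finset.sum_const, Finset.card_univ, Fintype.card_fin, nsmul_eq_mul] at e2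
    have e3 : (Real.sqrt N * |B|) ^ 2 = N * |B| ^ 2 := by
      rw [mul_pow, Real.sq_sqrt (Nat.cast_nonneg N)]
    have e4 : (Real.sqrt N * |B|) ^ 2 ≤ B' ^ 2 :=
      pow_le_pow_left₀ hs0 (by rw [hB']; linarith) 2
    linarith
  obtain ⟨A, hA, hline⟩ := line_sol (E := E) N (δ := δ / B' ^ 2) (by positivity)
  obtain ⟨g, hgd, hg⟩ := hline e he F hFd hFs
  obtain ⟨C1, hC1, hext⟩ := extend_N μ hm hdim N (δ := δ / B' ^ 2) (A := A) (by positivity) hA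
    (M := m + 3) (by omega)
  rw [← hPdef] at hgd hg
  obtain ⟨h, hhd, hh⟩ := hext F hFd hFs P hP g hgd hg
  obtain ⟨C2, hC2, hOm⟩ := pv_Om μ hm hdim
  obtain ⟨W', hW'⟩ : ∃ W' : ℕ → ℝ, W' = fun i => |W i| := ⟨_, rfl⟩
  have hW'0 : ∀ i, 0 ≤ W' i := fun i => by rw [hW']; exact abs_nonneg _
  have hW's : Summable W' := by rw [hW']; exact hW.abs
  obtain ⟨W2, hW2⟩ : ∃ W2 : ℕ → ℝ, W2 = fun i => (2 * (N : ℝ)) * W' i := ⟨_, rfl⟩
  have hW20 : ∀ i, 0 ≤ W2 i := fun i => by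
    rw [hW2]
    exact mul_nonneg (by positivity) (hW'0 i)
  have hW2s : Summable W2 := by rw [hW2]; exact hW's.mul_left _
  have hIG : ∀ (j : Fin N) (x : E), ‖x‖ < 1 → IG2 (F j) x ≤ IG2 (f j) x := by
    intro j x hx
    have hd : DifferentiableAt ℂ (f j) x :=
      (hf j).differentiableAt (isOpen_ball.mem_nhds (by rw [mem_ball_zero_iff]; exact hx))
    have e1 : fderiv ℂ (F j) x = ((B' : ℝ) : ℂ)⁻¹ • fderiv ℂ (f j) x := by
      rw [hFdef]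
      exact fderiv_const_mul hd _
    have e2 : IG2 (F j) x = IG2 (f j) x / B' ^ 2 := by
      unfold IG2
      rw [e1, norm_smul, ContinuousLinearMap.smul_apply, norm_smul, norm_inv, Complex.norm_real,
        Real.norm_of_nonneg hB0.le]
      field_simp
    rw [e2]
    apply div_le_self (gd_IG_nonneg hx)
    exact one_le_pow₀ hB1
  have hG : ∀ x ∈ ball (0 : E) 1, 0 ≤ (∑ j, IG2 (F j) x) ∧
      (∑ j, IG2 (F j) x) ≤ Th W2 (ro P x) := by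
    intro x hx
    rw [mem_ball_zero_iff] at hx
    refine ⟨Finset.sum_nonneg fun j _ => gd_IG_nonneg hx, ?_⟩
    obtain ⟨hr0, hr1⟩ := ro_pos hP hx
    obtain ⟨k, hk1, hk2⟩ := Th_ge hW'0 hW's hr0 hr1
    obtain ⟨-, -, hb, -, -⟩ := rr_facts hP hx 0
    have hk3 : 2 ^ k * (1 - ‖x‖ ^ 2) ≤ 1 - ‖⟪e, x⟫_ℂ‖ ^ 2 := by
      rw [← hPn x]
      unfold ro at hk1
      rw [← mul_div_assoc, div_le_one hb] at hk1
      exact hk1
    have hk4 : ∀ j, IG2 (F j) x ≤ W' k := by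
      intro j
      calc IG2 (F j) x ≤ IG2 (f j) x := hIG j x hx
        _ ≤ W k := hfW k x (by rw [mem_ball_zero_iff]; exact hx) hk3 j
        _ ≤ W' k := by rw [hW']; exact le_abs_self _
    calc ∑ j, IG2 (F j) x ≤ ∑ _j : Fin N, W' k := Finset.sum_le_sum fun j _ => hk4 j
      _ = N * W' k := by
        rw [Finset.sum_const, Finset.card_univ, Fintype.card_fin, nsmul_eq_mul]
      _ ≤ N * (2 * Th W' (ro P x)) := by gcongr
      _ = Th W2 (ro P x) := by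
        rw [hW2, Th_smul]
        ring
  have hGm : AEMeasurable (fun x => ∑ j, IG2 (F j) x) (μ.restrict (ball 0 1)) :=
    (Finset.measurable_fun_sum _ fun j _ => gd_IG_meas (F j)).aemeasurable
  have hGI : ∀ z ∈ ball (0 : E) 1,
      GI (Om (nuE μ m (m + 3) F) (m + 3)) P z ≤ 200 * C2 * ∑' i, W2 i := by
    intro z hz
    rw [mem_ball_zero_iff] at hz
    refine pv_GI hP hC2.le hW20 hW2s (fun y hy => Om_nonneg hy) (fun y hy => ?_) hz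
    rw [nuE_eq]
    exact hOm P hP W2 hW20 hW2s _ hGm hG y hy
  refine ⟨fun j z => ((B' : ℝ) : ℂ)⁻¹ * h j z, C1 * (1 + 200 * C2 * ∑' i, W2 i),
    fun j => (hhd j).const_mul _, fun z hz => ⟨?_, fun j => ?_⟩⟩
  · rw [← (hh z hz).1]
    apply Finset.sum_congr rfl
    intro j _
    rw [hFa]
    ring
  · have e1 := (hh z hz).2.2 j
    have e2 : ‖((B' : ℝ) : ℂ)⁻¹ * h j z‖ ≤ ‖h j z‖ := by
      rw [norm_mul, norm_inv, Complex.norm_real, Real.norm_of_nonneg hB0.le]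
      have e3 : B'⁻¹ ≤ 1 := inv_le_one_of_one_le₀ hB1
      calc B'⁻¹ * ‖h j z‖ ≤ 1 * ‖h j z‖ := by gcongr
        _ = ‖h j z‖ := one_mul _
    calc ‖((B' : ℝ) : ℂ)⁻¹ * h j z‖ ≤ ‖h j z‖ := e2
      _ ≤ C1 * (1 + GI (Om (nuE μ m (m + 3) F) (m + 3)) P z) := e1
      _ ≤ C1 * (1 + 200 * C2 * ∑' i, W2 i) := by
        have e4 := hGI z hz
        gcongr

end Pool.Agent.MPca0fc2.PV
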