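import Mathlib
import Pool.Agent.Lib.MP_ca0fc2_an.PV.M6
import Pool.Agent.Lib.MP_ca0fc2_an.PV.Q4

set_option autoImplicit false
set_option linter.unusedSectionVars false

open Metric Set MeasureTheory Filter Topology
open scoped InnerProductSpace ENNReal ContDiff

/-! # The cell theorem with two levels, for the line through `0` -/

namespace Pool.Agent.MPca0fc2.PV

open Pool.Agent.MPca0fc2.PT
open Pool.Agent.MPca0fc2.QT
open Pool.Agent.MPca0fc2.TS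
open Pool.Agent.MPca0fc2.TE

variable {E : Type*} [NormedAddCommGroup E] [InnerProductSpace ℂ E] [FiniteDimensional ℂ E]

private theorem M7_low {n : ℕ} {F R : Fin n → ℂ} {C : ℝ} (h : ∑ j, F j * R j = 1)
    (hR : ∀ j, ‖R j‖ ≤ C) : ((C ^ 2 + 1) * (n + 1))⁻¹ ≤ ∑ j, ‖F j‖ ^ 2 := by
  have h1 : (1 : ℝ) ≤ C * ∑ j, ‖F j‖ := by
    calc (1 : ℝ) = ‖∑ j, F j * R j‖ := by rw [h, norm_one]
      _ ≤ ∑ j, ‖F j * R j‖ := norm_sum_le _ _
      _ ≤ ∑ j, C * ‖F j‖ := by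
          refine Finset.sum_le_sum fun j _ => ?_
          rw [norm_mul, mul_comm]
          exact mul_le_mul_of_nonneg_right (hR j) (norm_nonneg _)
      _ = C * ∑ j, ‖F j‖ := by rw [Finset.mul_sum]
  have h2 : (∑ j, ‖F j‖) ^ 2 ≤ n * ∑ j, ‖F j‖ ^ 2 := by
    have := sq_sum_le_card_mul_sum_sq (s := (Finset.univ : Finset (Fin n))) (f := fun j => ‖F j‖)
    simpa using this
  have h0 : 0 ≤ ∑ j, ‖F j‖ := Finset.sum_nonneg fun j _ => norm_nonneg _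
  have hS : 0 ≤ ∑ j, ‖F j‖ ^ 2 := Finset.sum_nonneg fun j _ => sq_nonneg _
  have h3 : (1 : ℝ) ≤ C ^ 2 * (n * ∑ j, ‖F j‖ ^ 2) := by
    calc (1 : ℝ) ≤ (C * ∑ j, ‖F j‖) ^ 2 := by nlinarith
      _ = C ^ 2 * (∑ j, ‖F j‖) ^ 2 := by ring
      _ ≤ C ^ 2 * (n * ∑ j, ‖F j‖ ^ 2) := mul_le_mul_of_nonneg_left h2 (sq_nonneg _)
  have hn : (0 : ℝ) ≤ n := Nat.cast_nonneg n
  rw [inv_le_iff_one_le_mul₀' (by positivity)]
  nlinarith [mul_nonneg (sq_nonneg C) hS, mul_nonneg hn hS]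

/-- Corona on the slice without normalisation. -/
private theorem M7_slice {n : ℕ} {e : E} (he : ‖e‖ = 1) {F : Fin n → E → ℂ}
    (hF : ∀ j, DifferentiableOn ℂ (F j) (ball 0 1)) {B δ : ℝ} (hδ : 0 < δ)
    (hFB : ∀ j, ∀ z ∈ ball (0 : E) 1, ‖F j z‖ ≤ B)
    (hFδ : ∀ z ∈ ball (0 : E) 1, δ ≤ ∑ j, ‖F j z‖ ^ 2) :
    ∃ (g : Fin n → E → ℂ) (A : ℝ),
      (∀ j, DifferentiableOn ℂ (fun z => g j (((innerSL ℂ e).smulRight e) z)) (ball 0 1)) ∧
      ∀ z ∈ ball (0 : E) 1,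
        ∑ j, F j (((innerSL ℂ e).smulRight e) z) * g j (((innerSL ℂ e).smulRight e) z) = 1 ∧
        ∀ j, ‖g j (((innerSL ℂ e).smulRight e) z)‖ ≤ A := by
  set lam : ℝ := Real.sqrt n * |B| + 1 with hlam
  have hlam0 : 0 < lam := by positivity
  have hlam1 : 1 ≤ lam := by
    have : 0 ≤ Real.sqrt n * |B| := by positivity
    linarith
  have hlamC : (lam : ℂ) ≠ 0 := by
    exact_mod_cast hlam0.ne'
  have hδ' : 0 < δ / lam ^ 2 := by positivity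
  obtain ⟨A, hA, hline⟩ := line_sol (E := E) n hδ'
  have hnorm : ∀ j z, ‖(lam : ℂ)⁻¹ * F j z‖ ^ 2 = ‖F j z‖ ^ 2 / lam ^ 2 := by
    intro j z
    rw [norm_mul, norm_inv, Complex.norm_real, Real.norm_of_nonneg hlam0.le]
    field_simp
  obtain ⟨g, hg1, hg2⟩ := hline e he (fun j z => (lam : ℂ)⁻¹ * F j z)
    (fun j => (hF j).const_mul _) (by
      intro z hz
      simp only [hnorm]
      rw [← Finset.sum_div]
      constructor
      · exact div_le_div_of_nonneg_right (hFδ z hz) (by positivity)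
      · rw [div_le_one (by positivity)]
        calc ∑ j, ‖F j z‖ ^ 2 ≤ ∑ _j : Fin n, |B| ^ 2 := by
              refine Finset.sum_le_sum fun j _ => ?_
              exact pow_le_pow_left₀ (norm_nonneg _) ((hFB j z hz).trans (le_abs_self B)) 2
          _ = n * |B| ^ 2 := by simp
          _ = (Real.sqrt n * |B|) ^ 2 := by
              rw [mul_pow, Real.sq_sqrt (Nat.cast_nonneg n)]
          _ ≤ lam ^ 2 := by
              refine pow_le_pow_left₀ (by positivity) ?_ 2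
              rw [hlam]
              linarith)
  refine ⟨fun j z => (lam : ℂ)⁻¹ * g j z, A, fun j => (hg1 j).const_mul _, ?_⟩
  intro z hz
  obtain ⟨h1, h2⟩ := hg2 z hz
  constructor
  · rw [← h1]
    refine Finset.sum_congr rfl fun j _ => ?_
    ring
  · intro j
    have h3 : ‖g j (((innerSL ℂ e).smulRight e) z)‖ ^ 2 ≤ A ^ 2 :=
      (Finset.single_le_sum (f := fun j => ‖g j (((innerSL ℂ e).smulRight e) z)‖ ^ 2)
        (fun i _ => sq_nonneg _) (Finset.mem_univ j)).trans h2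
    have h4 : ‖g j (((innerSL ℂ e).smulRight e) z)‖ ≤ A := by
      have := abs_le_of_sq_le_sq h3 hA.le
      exact (le_abs_self _).trans this
    have h5 : ‖(lam : ℂ)⁻¹‖ ≤ 1 := by
      rw [norm_inv, Complex.norm_real, Real.norm_of_nonneg hlam0.le]
      exact inv_le_one_of_one_le₀ hlam1
    calc ‖(lam : ℂ)⁻¹ * g j (((innerSL ℂ e).smulRight e) z)‖
        = ‖(lam : ℂ)⁻¹‖ * ‖g j (((innerSL ℂ e).smulRight e) z)‖ := norm_mul _ _
      _ ≤ 1 * A := mul_le_mul h5 h4 (norm_nonneg _) zero_le_one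
      _ = A := one_mul A

/-- From a smooth solution on the ball to a holomorphic one. Proof: the second half of the proof of
`pv_cell` (Q4). -/
theorem pv_smooth (hE : 2 ≤ Module.finrank ℂ E) {e : E} (he : ‖e‖ = 1) {n : ℕ}
    {F : Fin n → E → ℂ} (hF : ∀ j, DifferentiableOn ℂ (F j) (ball 0 1)) {B : ℝ}
    (hFB : ∀ j, ∀ z ∈ ball (0 : E) 1, ‖F j z‖ ≤ B) {W : ℕ → ℝ} (hW0 : ∀ i, 0 ≤ W i)
    (hW : Summable W) {R : E → Fin n → ℂ} (hR2 : ContDiffOn ℝ 2 R (ball 0 1))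
    (hR : ∀ z ∈ ball (0 : E) 1, ∑ j, F j z * R z j = 1 ∧ ‖R z‖ ≤ B ∧
      ∀ ξ : E, ‖D01 R z ξ‖ ≤ B * Th W (ro (Pe e) z) * gau (1 - ‖z‖ ^ 2) z ξ) :
    ∃ (h : Fin n → E → ℂ) (C : ℝ), (∀ j, DifferentiableOn ℂ (h j) (ball 0 1)) ∧
      ∀ z ∈ ball (0 : E) 1, ∑ j, F j z * h j z = 1 ∧ ∀ j, ‖h j z‖ ≤ C := by
  obtain ⟨m, hdim⟩ : ∃ m, Module.finrank ℂ E = m + 1 := ⟨Module.finrank ℂ E - 1, by omega⟩
  have hm : 1 ≤ m := by omega
  let _ : MeasurableSpace E := borel E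
  have _ : BorelSpace E := ⟨rfl⟩
  have hnt : Nontrivial E := Module.nontrivial_of_finrank_pos (R := ℂ) (by omega)
  set μ : Measure E := Measure.addHaar with hμ
  set P : E →L[ℂ] E := (innerSL ℂ e).smulRight e with hPdef
  have hP : Prj P := prj_line he
  have hPn : ∀ z, ‖P z‖ = ‖⟪e, z⟫_ℂ‖ := by
    intro z
    rw [hPdef]
    simp [norm_smul, he]
  have hPe : Pe e = P := rfl
  rw [hPe] at hR
  have hδ₀ : 0 < ((B ^ 2 + 1) * ((n : ℝ) + 1))⁻¹ := by positivity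
  obtain ⟨g, A, hg1, hg2⟩ := M7_slice he hF hδ₀ hFB (fun z hz =>
    M7_low (hR z hz).1 (fun j => (norm_le_pi_norm (R z) j).trans (hR z hz).2.1))
  have hro : ∀ z : E, ‖z‖ < 1 → 0 < ro P z := fun z hz => (ro_pos hP hz).1
  have hT0 : ∀ z : E, ‖z‖ < 1 → 0 ≤ Th W (ro P z) := fun z hz =>
    Th_nonneg hW0 (hro z hz)
  have hν : OnB (nuG μ m (m + 3) (fun x => Th W (ro P x))) :=
    nuG_OnB μ (by omega) (B := ∑' i, W i) (fun x hx =>
      ⟨hT0 x (mem_ball_zero_iff.mp hx), Th_le hW0 hW (hro x (mem_ball_zero_iff.mp hx))⟩)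
  obtain ⟨CO, hCO, hOm⟩ := pv_Om μ hm hdim
  obtain ⟨CL, hCL, hlow⟩ := pv_low μ hm hdim
  have hOm1 : ∀ y : E, ‖y‖ < 1 →
      Om (nuG μ m (m + 3) (fun x => Th W (ro P x))) (m + 3) y ≤
        CO * Th W (ro P y) := fun y hy =>
    hOm P hP _ hW0 hW _ (Th_aem μ hP hW0 hW)
      (fun x hx => ⟨hT0 x (mem_ball_zero_iff.mp hx), le_rfl⟩) y hy
  have hlow1 : ∀ y : E, ‖y‖ < 1 → Th W (ro P y) ≤
      CL * Om (nuG μ m (m + 3) (fun x => Th W (ro P x))) (m + 3) y := fun y hy =>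
    hlow P hP _ hW0 hW y hy
  have hS : 0 ≤ ∑' i, W i := tsum_nonneg hW0
  have hCS : 0 ≤ CO * ∑' i, W i := mul_nonneg hCO.le hS
  have hBL : 0 ≤ |B| * CL := mul_nonneg (abs_nonneg _) hCL.le
  have hOmC : ∀ y ∈ ball (0 : E) 1,
      Om (nuG μ m (m + 3) (fun x => Th W (ro P x))) (m + 3) y ≤
        200 * CO * (∑' i, W i) + CO * (∑' i, W i) + |B| + |B| * CL := by
    intro y hy
    have h1 := hOm1 y (mem_ball_zero_iff.mp hy)
    have h2 := mul_le_mul_of_nonneg_left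
      (Th_le hW0 hW (hro y (mem_ball_zero_iff.mp hy))) hCO.le
    have h3 : 0 ≤ 200 * CO * ∑' i, W i := by nlinarith
    linarith [abs_nonneg B]
  have hGI : ∀ z ∈ ball (0 : E) 1,
      GI (Om (nuG μ m (m + 3) (fun x => Th W (ro P x))) (m + 3)) P z ≤
        200 * CO * (∑' i, W i) + CO * (∑' i, W i) + |B| + |B| * CL := by
    intro z hz
    have h1 := pv_GI hP hCO.le hW0 hW (fun y hy => Om_nonneg hy) hOm1 (mem_ball_zero_iff.mp hz)
    linarith [abs_nonneg B]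
  have hRC : ∀ z ∈ ball (0 : E) 1,
      ‖R z‖ ≤ 200 * CO * (∑' i, W i) + CO * (∑' i, W i) + |B| + |B| * CL := by
    intro z hz
    have h1 := (hR z hz).2.1.trans (le_abs_self B)
    have h3 : 0 ≤ 200 * CO * ∑' i, W i := by nlinarith
    linarith
  have hRD : ∀ z ∈ ball (0 : E) 1, ∀ ξ : E,
      ‖D01 R z ξ‖ ≤ (200 * CO * (∑' i, W i) + CO * (∑' i, W i) + |B| + |B| * CL) *
        Om (nuG μ m (m + 3) (fun x => Th W (ro P x))) (m + 3) z *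
          gau (1 - ‖z‖ ^ 2) z ξ := by
    intro z hz ξ
    have hz1 : ‖z‖ < 1 := mem_ball_zero_iff.mp hz
    have hd : 0 ≤ 1 - ‖z‖ ^ 2 := by nlinarith [norm_nonneg z]
    have hg : 0 ≤ gau (1 - ‖z‖ ^ 2) z ξ := by
      rw [gau]
      positivity
    have hO : 0 ≤ Om (nuG μ m (m + 3) (fun x => Th W (ro P x))) (m + 3) z :=
      Om_nonneg hz1
    refine ((hR z hz).2.2 ξ).trans (mul_le_mul_of_nonneg_right ?_ hg)
    calc B * Th W (ro P z) ≤ |B| * Th W (ro P z) :=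
          mul_le_mul_of_nonneg_right (le_abs_self _) (hT0 z hz1)
      _ ≤ |B| * (CL * Om (nuG μ m (m + 3) (fun x => Th W (ro P x))) (m + 3) z) :=
          mul_le_mul_of_nonneg_left (hlow1 z hz1) (abs_nonneg _)
      _ = |B| * CL * Om (nuG μ m (m + 3) (fun x => Th W (ro P x))) (m + 3) z := by
          ring
      _ ≤ _ := by
          refine mul_le_mul_of_nonneg_right ?_ hO
          have h3 : 0 ≤ 200 * CO * ∑' i, W i := by nlinarith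
          linarith [abs_nonneg B]
  obtain ⟨h, C, hh, hhz⟩ := core μ hm hdim hF hFB hP hg1
    (fun z hz => hg2 z hz) hν hOmC hGI hR2 hRC (fun z hz => (hR z hz).1) hRD
  exact ⟨h, C, hh, fun z hz => ⟨(hhz z hz).1, (hhz z hz).2.2⟩⟩


/-- Proof. `Ω = {z ∈ ball : ∑ ‖u i z‖² < s²}` is open; `glue_R` on `Ω` for `f`, `b`, `k` (`D01 k = 0`
because `k` is holomorphic; `Φ z = Th |W| (ro (Pe e) z)`; the gradient of `b` by `grad_le` and
`Th_ge`) gives `R₁` on `Ω` for `Fin.append f b`; `glue_R` on the ball for `Fin.append f b`, `u`, `R₁`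
gives `R`; `pv_smooth`, and split the solution. -/
theorem pv_cell2 (hE : 2 ≤ Module.finrank ℂ E) {e : E} (he : ‖e‖ = 1) {N l q : ℕ}
    {f : Fin N → E → ℂ} {b : Fin l → E → ℂ} {u : Fin q → E → ℂ}
    (hf : ∀ j, DifferentiableOn ℂ (f j) (ball 0 1)) (hb : ∀ i, DifferentiableOn ℂ (b i) (ball 0 1))
    (hu : ∀ i, DifferentiableOn ℂ (u i) (ball 0 1)) {B : ℝ}
    (hfB : ∀ j, ∀ z ∈ ball (0 : E) 1, ‖f j z‖ ≤ B) (hbB : ∀ i, ∀ z ∈ ball (0 : E) 1, ‖b i z‖ ≤ B)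
    (huB : ∀ i, ∀ z ∈ ball (0 : E) 1, ‖u i z‖ ≤ B) {s : ℝ} (hs : 0 < s) {k : Fin N → E → ℂ}
    (hk : ∀ j, DifferentiableOn ℂ (k j)
      {z | z ∈ ball (0 : E) 1 ∧ ∑ i, ‖u i z‖ ^ 2 < s ^ 2 ∧ ∑ i, ‖b i z‖ ^ 2 < s ^ 2})
    (hkz : ∀ z ∈ ball (0 : E) 1, ∑ i, ‖u i z‖ ^ 2 < s ^ 2 → ∑ i, ‖b i z‖ ^ 2 < s ^ 2 →
      ∑ j, f j z * k j z = 1 ∧ ∀ j, ‖k j z‖ ≤ B)
    {W : ℕ → ℝ} (hW : Summable W)
    (huW : ∀ (n : ℕ) (z : E), z ∈ ball (0 : E) 1 → 2 ^ n * ro (Pe e) z ≤ 1 →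
      ∀ i, Real.sqrt (IG2 (u i) z) ≤ W n)
    (hbW : ∀ (n : ℕ) (z : E), z ∈ ball (0 : E) 1 → ∑ i, ‖u i z‖ ^ 2 < s ^ 2 →
      2 ^ n * ro (Pe e) z ≤ 1 → ∀ i, Real.sqrt (IG2 (b i) z) ≤ W n) :
    ∃ (h : Fin N → E → ℂ) (h' : Fin l → E → ℂ) (h'' : Fin q → E → ℂ) (C : ℝ),
      (∀ j, DifferentiableOn ℂ (h j) (ball 0 1)) ∧ (∀ i, DifferentiableOn ℂ (h' i) (ball 0 1)) ∧
      (∀ i, DifferentiableOn ℂ (h'' i) (ball 0 1)) ∧ ∀ z ∈ ball (0 : E) 1,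
        ∑ j, f j z * h j z + ∑ i, b i z * h' i z + ∑ i, u i z * h'' i z = 1 ∧
          (∀ j, ‖h j z‖ ≤ C) ∧ (∀ i, ‖h' i z‖ ≤ C) ∧ ∀ i, ‖h'' i z‖ ≤ C := by
  classical
  have hP : Prj (Pe e) := Pe_prj he
  have hW0 : ∀ i, 0 ≤ (fun i => |W i|) i := fun i => abs_nonneg _
  have hWs : Summable fun i => |W i| := hW.abs
  obtain ⟨Φ, hΦ⟩ : ∃ Φ : E → ℝ, Φ = fun z => Th (fun i => |W i|) (ro (Pe e) z) := ⟨_, rfl⟩
  have hro : ∀ z ∈ ball (0 : E) 1, 0 < ro (Pe e) z ∧ ro (Pe e) z ≤ 1 := fun z hz =>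
    ro_pos hP (mem_ball_zero_iff.mp hz)
  have hΦ0 : ∀ z ∈ ball (0 : E) 1, 0 ≤ Φ z := fun z hz => by
    rw [hΦ]
    exact Th_nonneg hW0 (hro z hz).1
  have hgau : ∀ z ∈ ball (0 : E) 1, ∀ ξ : E, 0 ≤ gau (1 - ‖z‖ ^ 2) z ξ := fun z hz ξ => by
    have hz1 : ‖z‖ < 1 := mem_ball_zero_iff.mp hz
    have hd : 0 ≤ 1 - ‖z‖ ^ 2 := by nlinarith [norm_nonneg z]
    rw [gau]
    positivity
  have hgr : ∀ (v : E → ℂ) (z : E), z ∈ ball (0 : E) 1 →
      (∀ n : ℕ, 2 ^ n * ro (Pe e) z ≤ 1 → Real.sqrt (IG2 v z) ≤ W n) → ∀ ξ : E,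
      ‖fderiv ℂ v z ξ‖ ≤ 6 * Φ z * gau (1 - ‖z‖ ^ 2) z ξ := by
    intro v z hz hv ξ
    obtain ⟨n, hn, hWn⟩ := Th_ge hW0 hWs (hro z hz).1 (hro z hz).2
    have h1 := grad_le (u := v) (mem_ball_zero_iff.mp hz) ξ
    have h2 : Real.sqrt (IG2 v z) ≤ 2 * Φ z := by
      rw [hΦ]
      exact ((hv n hn).trans (le_abs_self _)).trans hWn
    have h3 := hgau z hz ξ
    calc ‖fderiv ℂ v z ξ‖ ≤ 3 * Real.sqrt (IG2 v z) * gau (1 - ‖z‖ ^ 2) z ξ := h1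
      _ ≤ 3 * (2 * Φ z) * gau (1 - ‖z‖ ^ 2) z ξ := by gcongr
      _ = 6 * Φ z * gau (1 - ‖z‖ ^ 2) z ξ := by ring
  -- the open sets
  have hcu : ContinuousOn (fun z => ∑ i, ‖u i z‖ ^ 2) (ball (0 : E) 1) :=
    continuousOn_finsetSum _ fun i _ => ((hu i).continuousOn.norm.pow 2)
  have hcb : ContinuousOn (fun z => ∑ i, ‖b i z‖ ^ 2) (ball (0 : E) 1) :=
    continuousOn_finsetSum _ fun i _ => ((hb i).continuousOn.norm.pow 2)
  obtain ⟨Ω, hΩ⟩ : ∃ Ω : Set E, Ω = {z | z ∈ ball (0 : E) 1 ∧ ∑ i, ‖u i z‖ ^ 2 < s ^ 2} := ⟨_, rfl⟩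
  have hΩo : IsOpen Ω := by
    rw [hΩ]
    exact hcu.isOpen_inter_preimage isOpen_ball (isOpen_Iio (a := s ^ 2))
  have hΩB : Ω ⊆ ball (0 : E) 1 := by
    rw [hΩ]
    exact fun z hz => hz.1
  have hΩu : ∀ z ∈ Ω, ∑ i, ‖u i z‖ ^ 2 < s ^ 2 := by
    rw [hΩ]
    exact fun z hz => hz.2
  have hUe : {z | z ∈ Ω ∧ ∑ i, ‖b i z‖ ^ 2 < s ^ 2} =
      {z | z ∈ ball (0 : E) 1 ∧ ∑ i, ‖u i z‖ ^ 2 < s ^ 2 ∧ ∑ i, ‖b i z‖ ^ 2 < s ^ 2} := by
    rw [hΩ]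
    ext z
    exact and_assoc
  have hUo : IsOpen {z | z ∈ ball (0 : E) 1 ∧ ∑ i, ‖u i z‖ ^ 2 < s ^ 2 ∧
      ∑ i, ‖b i z‖ ^ 2 < s ^ 2} := by
    rw [← hUe]
    exact (hcb.mono hΩB).isOpen_inter_preimage hΩo (isOpen_Iio (a := s ^ 2))
  have hB6 : 0 ≤ |B| + 6 := by positivity
  have hBB : B ≤ |B| + 6 := by linarith [le_abs_self B]
  have h66 : 6 ≤ |B| + 6 := by linarith [abs_nonneg B]
  -- first level
  obtain ⟨R₁, C₁, hR₁c, hR₁⟩ := glue_R hΩo hΩB (f := f) (b := b)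
    (fun i => (hb i).mono hΩB) (B := |B| + 6) (fun i z hz => (hbB i z (hΩB hz)).trans hBB) hs
    (Φ := Φ) (fun z hz => hΦ0 z (hΩB hz)) (k := fun z j => k j z)
    (by
      rw [hUe]
      exact contDiffOn_pi.2 fun j => age_hol_c2 hUo (hk j))
    (fun z hz hzb => by
      have h1 := hkz z (hΩB hz) (hΩu z hz) hzb
      refine ⟨h1.1, ?_, ?_⟩
      · rw [pi_norm_le_iff_of_nonneg hB6]
        exact fun j => (h1.2 j).trans hBB
      · intro ξ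
        have h2 : DifferentiableAt ℂ (fun z => (fun j => k j z : Fin N → ℂ)) z := by
          rw [differentiableAt_pi]
          exact fun j => (hk j).differentiableAt (hUo.mem_nhds ⟨hΩB hz, hΩu z hz, hzb⟩)
        rw [D01_holo h2, zero_apply, norm_zero]
        exact mul_nonneg (mul_nonneg hB6 (hΦ0 z (hΩB hz))) (hgau z (hΩB hz) ξ))
    (fun z hz i ξ => by
      refine (hgr (b i) z (hΩB hz) (fun n hn => hbW n z (hΩB hz) (hΩu z hz) hn i) ξ).trans ?_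
      exact mul_le_mul_of_nonneg_right (mul_le_mul_of_nonneg_right h66 (hΦ0 z (hΩB hz)))
        (hgau z (hΩB hz) ξ))
  -- second level
  have hB7 : 0 ≤ |C₁| + (|B| + 6) := by positivity
  have hC₁B : C₁ ≤ |C₁| + (|B| + 6) := by linarith [le_abs_self C₁]
  have hB67 : |B| + 6 ≤ |C₁| + (|B| + 6) := by linarith [abs_nonneg C₁]
  obtain ⟨R, C₂, hRc, hR⟩ := glue_R isOpen_ball (subset_refl (ball (0 : E) 1))
    (f := Fin.append f b) (b := u) hu (B := |C₁| + (|B| + 6))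
    (fun i z hz => (huB i z hz).trans (hBB.trans hB67)) hs (Φ := Φ) hΦ0 (k := R₁)
    (by
      rw [← hΩ]
      exact hR₁c)
    (fun z hz hzu => by
      have hz' : z ∈ Ω := by
        rw [hΩ]
        exact ⟨hz, hzu⟩
      refine ⟨(hR₁ z hz').1, (hR₁ z hz').2.1.trans hC₁B, fun ξ => ((hR₁ z hz').2.2 ξ).trans ?_⟩
      exact mul_le_mul_of_nonneg_right (mul_le_mul_of_nonneg_right hC₁B (hΦ0 z hz))
        (hgau z hz ξ))
    (fun z hz i ξ => by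
      refine (hgr (u i) z hz (fun n hn => huW n z hz hn i) ξ).trans ?_
      exact mul_le_mul_of_nonneg_right (mul_le_mul_of_nonneg_right (h66.trans hB67) (hΦ0 z hz))
        (hgau z hz ξ))
  have hF : ∀ j, DifferentiableOn ℂ (Fin.append (Fin.append f b) u j) (ball 0 1) := by
    intro j
    refine Fin.addCases (fun i => ?_) (fun i => ?_) j
    · rw [Fin.append_left]
      refine Fin.addCases (fun i => ?_) (fun i => ?_) i
      · rw [Fin.append_left]; exact hf i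
      · rw [Fin.append_right]; exact hb i
    · rw [Fin.append_right]; exact hu i
  have hB8 : B ≤ |B| + |C₂| := by linarith [le_abs_self B, abs_nonneg C₂]
  have hFB : ∀ j, ∀ z ∈ ball (0 : E) 1, ‖Fin.append (Fin.append f b) u j z‖ ≤ |B| + |C₂| := by
    intro j
    refine Fin.addCases (fun i => ?_) (fun i => ?_) j
    · rw [Fin.append_left]
      refine Fin.addCases (fun i => ?_) (fun i => ?_) i
      · rw [Fin.append_left]; exact fun z hz => (hfB i z hz).trans hB8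
      · rw [Fin.append_right]; exact fun z hz => (hbB i z hz).trans hB8
    · rw [Fin.append_right]; exact fun z hz => (huB i z hz).trans hB8
  have hC₂B : C₂ ≤ |B| + |C₂| := by linarith [abs_nonneg B, le_abs_self C₂]
  obtain ⟨h, C, hh, hhz⟩ := pv_smooth hE he hF hFB hW0 hWs hRc (fun z hz =>
    ⟨(hR z hz).1, (hR z hz).2.1.trans hC₂B, fun ξ => ((hR z hz).2.2 ξ).trans (by
      have h1 := mul_le_mul_of_nonneg_right (mul_le_mul_of_nonneg_right hC₂B (hΦ0 z hz))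
        (hgau z hz ξ)
      have h2 : Φ z = Th (fun i => |W i|) (ro (Pe e) z) := by rw [hΦ]
      rw [h2] at h1 ⊢
      exact h1)⟩)
  refine ⟨fun j => h (Fin.castAdd q (Fin.castAdd l j)), fun i => h (Fin.castAdd q (Fin.natAdd N i)),
    fun i => h (Fin.natAdd (N + l) i), C, fun j => hh _, fun i => hh _, fun i => hh _, ?_⟩
  intro z hz
  obtain ⟨h1, h3⟩ := hhz z hz
  refine ⟨?_, fun j => h3 _, fun i => h3 _, fun i => h3 _⟩
  rw [Fin.sum_univ_add, Fin.sum_univ_add] at h1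
  simp only [Fin.append_left, Fin.append_right] at h1
  exact h1

end Pool.Agent.MPca0fc2.PV
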