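import Mathlib
import Pool.Agent.Lib.MP_ca0fc2_an.PV.M7
import Pool.Agent.Lib.MP_ca0fc2_an.PV.M10b
import Pool.Agent.Lib.MP_ca0fc2_an.PV.U2

set_option autoImplicit false
set_option linter.unusedSectionVars false

open Metric Set MeasureTheory Filter Topology
open scoped InnerProductSpace ENNReal ContDiff

/-! # The two existence theorems for a family of lines through `p` -/

namespace Pool.Agent.MPca0fc2.PV

open Pool.Agent.Lib.MP_ca0fc2_an
open Pool.Agent.MPca0fc2.PT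
open Pool.Agent.MPca0fc2.TS
open Pool.Agent.MPca0fc2.TE

variable {E : Type*} [NormedAddCommGroup E] [InnerProductSpace ℂ E] [FiniteDimensional ℂ E]

/-- The cell theorem. Proof. `p' = gg (-c) p`, `A' = gg (-c) '' A`; apply `pv_cell2` with `e = p'` to
`f ∘ gg c`, `b ∘ gg c`, `u' = (u, 1 - ⟪p, ·⟫) ∘ gg c` (`Fin.snoc` or `Fin.append`). The sequence for
`u'`: `calm_line` and `calm_affine` (`1 - ⟪p, ·⟫` is in `Calm 1 (lin c p)`). For `b`: `CalmN_gg`
gives `s₁`, `W`; take the radius `s'` of the cell so small that `∑ ‖u' i w‖² < s'²` implies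
`‖u i z‖ < s`, `‖z - p‖ < s` and `‖w - p'‖ < s₁` (`‖z - p‖² ≤ 2 ‖1 - ⟪p, z⟫‖`; `gg_cont` for `-c`);
then `Nr K A' p' w` (`Nr_gg`), so `2 ^ n * ro (Pe p') w ≤ 1` and `K ≤ 2 ^ d` give
`2 ^ (n - d) * HH b w ≤ 1` for `b ∈ linU A' p'`, and `√(IG2 (b ∘ gg c)) ≤ W (n - d)` (`n - d`
natural subtraction; for `n < d` use `HH ≤ 1`), a summable sequence in `n`. The domain of `k ∘ gg c`
contains the cell. Compose the solution with `gg (-c)` (`gg_gg_neg`). -/
theorem cellN (hE : 2 ≤ Module.finrank ℂ E) {p c : E} (hp : ‖p‖ = 1) (hc : ‖c‖ < 1) {A : Set E}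
    (hA : ∀ a ∈ A, ‖a‖ < 1) (hcA : c ∈ A) {N l q : ℕ} {f : Fin N → E → ℂ} {b : Fin l → E → ℂ}
    {u : Fin q → E → ℂ} (hf : ∀ j, DifferentiableOn ℂ (f j) (ball 0 1)) {B : ℝ}
    (hfB : ∀ j, ∀ z ∈ ball (0 : E) 1, ‖f j z‖ ≤ B) (hb : ∀ i, CalmN 1 (linU A p) p (b i))
    (hu : ∀ i, Calm 1 (lin c p) (u i)) {s K : ℝ} (hs : 0 < s) (hK : 1 ≤ K)
    (hreg : ∀ z ∈ ball (0 : E) 1, (∀ i, ‖u i z‖ < s) →
      ∃ b₀ ∈ lin c p, ‖b₀‖ < 1 ∧ ∀ b ∈ linU A p, ‖b‖ < 1 → PT.HH b z ≤ K * PT.HH b₀ z)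
    {k : Fin N → E → ℂ} (hk : ∀ j, DifferentiableOn ℂ (k j)
      {z | z ∈ ball (0 : E) 1 ∧ ‖z - p‖ < s ∧ ∀ i, ‖b i z‖ < s})
    (hkz : ∀ z ∈ ball (0 : E) 1, ‖z - p‖ < s → (∀ i, ‖b i z‖ < s) →
      ∑ j, f j z * k j z = 1 ∧ ∀ j, ‖k j z‖ ≤ B) :
    ∃ (h : Fin N → E → ℂ) (h' : Fin l → E → ℂ) (h'' : Fin q → E → ℂ) (h₀ : E → ℂ) (C : ℝ),
      (∀ j, DifferentiableOn ℂ (h j) (ball 0 1)) ∧ (∀ i, DifferentiableOn ℂ (h' i) (ball 0 1)) ∧
      (∀ i, DifferentiableOn ℂ (h'' i) (ball 0 1)) ∧ DifferentiableOn ℂ h₀ (ball 0 1) ∧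
      ∀ z ∈ ball (0 : E) 1, ∑ j, f j z * h j z + ∑ i, b i z * h' i z + ∑ i, u i z * h'' i z +
        (1 - ⟪p, z⟫_ℂ) * h₀ z = 1 ∧
          (∀ j, ‖h j z‖ ≤ C) ∧ (∀ i, ‖h' i z‖ ≤ C) ∧ (∀ i, ‖h'' i z‖ ≤ C) ∧ ‖h₀ z‖ ≤ C := by
  classical
  have hp' : ‖gg (-c) p‖ = 1 := gg_one (by rwa [norm_neg]) hp
  have hnc : ‖-c‖ < 1 := by rwa [norm_neg]
  have haut : IsBallAut (gg c) (gg (-c)) := gg_aut hc
  have hK0 : 0 ≤ K := le_trans zero_le_one hK
  -- the functions `u` and `1 - ⟪p, ·⟫`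
  set v : Fin (q + 1) → E → ℂ := Fin.snoc (α := fun _ => E → ℂ) u (fun z => 1 - ⟪p, z⟫_ℂ) with hv
  have hv1 : ∀ i : Fin q, v i.castSucc = u i := fun i => by
    rw [hv]; exact Fin.snoc_castSucc (α := fun _ => E → ℂ) _ _ _
  have hv2 : v (Fin.last q) = fun z => 1 - ⟪p, z⟫_ℂ := by
    rw [hv]; exact Fin.snoc_last (α := fun _ => E → ℂ) _ _
  have hvC : ∀ i, Calm 1 (lin c p) (v i) := by
    intro i
    refine Fin.lastCases ?_ (fun i => ?_) i
    · rw [hv2]; exact calm_affine hc p p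
    · rw [hv1]; exact hu i
  have hvL := fun i => calm_line hc hp (hvC i)
  choose Wu hWu hWu' using hvL
  have hbN := fun i => CalmN_gg (κ := 1) zero_le_one hc hp hA (hb i)
  choose hb1 hb2 hb3 using hbN
  choose Cb hCb using hb2
  choose s1 hs1 Wb hWbs hWb using hb3
  choose hv3 hv4 hv5 using hvC
  choose Cv hCv using hv4
  -- common radius
  obtain ⟨t, ht0, ht1⟩ : ∃ t : ℝ, 0 < t ∧ ∀ i, t ≤ s1 i := by
    rcases isEmpty_or_nonempty (Fin l) with hl | hl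
    · exact ⟨1, one_pos, fun i => (hl.false i).elim⟩
    · obtain ⟨i0, hi0⟩ := Finite.exists_min s1
      exact ⟨s1 i0, hs1 i0, hi0⟩
  have hgp : gg c (gg (-c) p) = p := CG.gg_gg_neg hc hp.le
  obtain ⟨t', ht'0, ht'⟩ := gg_cont (c := -c) (p := gg (-c) p) hnc hp' ht0
  rw [neg_neg, hgp] at ht'
  obtain ⟨d, hd⟩ := pow_unbounded_of_one_lt K (one_lt_two)
  set r : ℝ := min s (min (s ^ 2 / 2) (t' ^ 2 / 2)) with hr
  have hr0 : 0 < r := by
    rw [hr]
    refine lt_min hs (lt_min (by positivity) (by positivity))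
  have hrs : r ≤ s := min_le_left _ _
  have hrs2 : r ≤ s ^ 2 / 2 := (min_le_right _ _).trans (min_le_left _ _)
  have hrt2 : r ≤ t' ^ 2 / 2 := (min_le_right _ _).trans (min_le_right _ _)
  -- the cell
  have hcell : ∀ w ∈ ball (0 : E) 1, ∑ i, ‖v i (gg c w)‖ ^ 2 < r ^ 2 →
      (∀ i, ‖u i (gg c w)‖ < s) ∧ ‖gg c w - p‖ < s ∧ ‖gg c w - p‖ < t' := by
    intro w hw hsum
    have hz : gg c w ∈ ball (0 : E) 1 := haut.map w hw
    have hz1 : ‖gg c w‖ < 1 := mem_ball_zero_iff.1 hz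
    have h1 : ∀ i, ‖v i (gg c w)‖ < r := by
      intro i
      have h2 : ‖v i (gg c w)‖ ^ 2 ≤ ∑ i, ‖v i (gg c w)‖ ^ 2 :=
        Finset.single_le_sum (f := fun i => ‖v i (gg c w)‖ ^ 2) (fun i _ => by positivity)
          (Finset.mem_univ i)
      exact lt_of_pow_lt_pow_left₀ 2 hr0.le (h2.trans_lt hsum)
    have h2 : ‖1 - ⟪p, gg c w⟫_ℂ‖ < r := by
      have := h1 (Fin.last q)
      rw [hv2] at this
      exact this
    have h3 : ‖gg c w - p‖ ^ 2 ≤ 2 * ‖1 - ⟪p, gg c w⟫_ℂ‖ := by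
      have e1 : ‖gg c w - p‖ ^ 2 = ‖gg c w‖ ^ 2 - 2 * (⟪p, gg c w⟫_ℂ).re + ‖p‖ ^ 2 := by
        have h4 := norm_sub_sq (𝕜 := ℂ) (gg c w) p
        rw [h4]
        have h5 : RCLike.re ⟪gg c w, p⟫_ℂ = (⟪p, gg c w⟫_ℂ).re := inner_re_symm _ _
        rw [h5]
      have e2 : (1 - ⟪p, gg c w⟫_ℂ).re ≤ ‖1 - ⟪p, gg c w⟫_ℂ‖ := Complex.re_le_norm _
      rw [Complex.sub_re, Complex.one_re] at e2
      have e3 : ‖gg c w‖ ^ 2 ≤ 1 := by
        have := norm_nonneg (gg c w)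
        nlinarith
      rw [e1, hp]
      nlinarith
    refine ⟨fun i => ?_, ?_, ?_⟩
    · have := h1 i.castSucc
      rw [hv1] at this
      exact this.trans_le hrs
    · refine lt_of_pow_lt_pow_left₀ 2 hs.le ?_
      linarith
    · refine lt_of_pow_lt_pow_left₀ 2 ht'0.le ?_
      linarith
  -- bounds
  set B' : ℝ := |B| + ∑ i, |Cb i| + ∑ i, |Cv i| with hB'
  have n1 : 0 ≤ ∑ i, |Cb i| := Finset.sum_nonneg fun i _ => abs_nonneg _
  have n2 : 0 ≤ ∑ i, |Cv i| := Finset.sum_nonneg fun i _ => abs_nonneg _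
  have n3 : B ≤ B' := by
    have := le_abs_self B
    rw [hB']; linarith
  have n4 : ∀ i, Cb i ≤ B' := fun i => by
    have h2 : |Cb i| ≤ ∑ i, |Cb i| :=
      Finset.single_le_sum (f := fun i => |Cb i|) (fun i _ => abs_nonneg _) (Finset.mem_univ i)
    have h3 := abs_nonneg B
    have h4 := le_abs_self (Cb i)
    rw [hB']; linarith
  have n5 : ∀ i, Cv i ≤ B' := fun i => by
    have h2 : |Cv i| ≤ ∑ i, |Cv i| :=
      Finset.single_le_sum (f := fun i => |Cv i|) (fun i _ => abs_nonneg _) (Finset.mem_univ i)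
    have h3 := abs_nonneg B
    have h4 := le_abs_self (Cv i)
    rw [hB']; linarith
  -- the sequence
  set W : ℕ → ℝ := fun n => ∑ i, |Wu i n| + ∑ i, |Wb i (n - d)| with hW
  have hWs : Summable W := by
    refine Summable.add (summable_sum fun i _ => (hWu i).abs) (summable_sum fun i _ => ?_)
    rw [← summable_nat_add_iff d]
    simpa using (hWbs i).abs
  obtain ⟨h, h', h'', C, g1, g2, g3, g4⟩ := pv_cell2 hE hp' (f := fun j w => f j (gg c w))
    (b := fun i w => b i (gg c w)) (u := fun i w => v i (gg c w)) (B := B')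
    (fun j => (hf j).comp haut.hol fun w hw => haut.map w hw) hb1
    (fun i => (hv3 i).comp haut.hol fun w hw => haut.map w hw)
    (fun j w hw => (hfB j _ (haut.map w hw)).trans n3)
    (fun i w hw => (hCb i w hw).trans (n4 i))
    (fun i w hw => (hCv i _ (haut.map w hw)).trans (n5 i)) hr0
    (k := fun j w => k j (gg c w))
    (fun j => (hk j).comp (haut.hol.mono fun w hw => hw.1) fun w hw => by
      obtain ⟨c1, c2, c3⟩ := hcell w hw.1 hw.2.1
      refine ⟨haut.map w hw.1, c2, fun i => ?_⟩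
      have h2 : ‖b i (gg c w)‖ ^ 2 ≤ ∑ i, ‖b i (gg c w)‖ ^ 2 :=
        Finset.single_le_sum (f := fun i => ‖b i (gg c w)‖ ^ 2) (fun i _ => by positivity)
          (Finset.mem_univ i)
      exact (lt_of_pow_lt_pow_left₀ 2 hr0.le (h2.trans_lt hw.2.2)).trans_le hrs)
    (fun w hw hw1 hw2 => by
      obtain ⟨c1, c2, c3⟩ := hcell w hw hw1
      obtain ⟨k1, k2⟩ := hkz _ (haut.map w hw) c2 (fun i => by
        have h2 : ‖b i (gg c w)‖ ^ 2 ≤ ∑ i, ‖b i (gg c w)‖ ^ 2 :=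
          Finset.single_le_sum (f := fun i => ‖b i (gg c w)‖ ^ 2) (fun i _ => by positivity)
            (Finset.mem_univ i)
        exact (lt_of_pow_lt_pow_left₀ 2 hr0.le (h2.trans_lt hw2)).trans_le hrs)
      exact ⟨k1, fun j => (k2 j).trans n3⟩) hWs
    (by
      intro n w hw hn i
      have h1 := hWu' i n w hw hn
      have h2 : |Wu i n| ≤ ∑ i, |Wu i n| :=
        Finset.single_le_sum (f := fun i => |Wu i n|) (fun i _ => abs_nonneg _) (Finset.mem_univ i)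
      have h3 : 0 ≤ ∑ i, |Wb i (n - d)| := Finset.sum_nonneg fun i _ => abs_nonneg _
      have h4 := le_abs_self (Wu i n)
      rw [hW]
      show _ ≤ ∑ i, |Wu i n| + ∑ i, |Wb i (n - d)|
      linarith)
    (by
      intro n w hw hsum hn i
      have hw1 : ‖w‖ < 1 := mem_ball_zero_iff.1 hw
      obtain ⟨c1, c2, c3⟩ := hcell w hw hsum
      have hNr := Nr_gg hc hp hw1 hA hK0 (hreg _ (haut.map w hw) c1)
      have hw2 : ‖w - gg (-c) p‖ < s1 i := by
        have h1 := ht' (gg c w) (mem_ball_zero_iff.1 (haut.map w hw)) c3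
        rw [haut.left w hw] at h1
        exact h1.trans_le (ht1 i)
      have hro : ∀ b' ∈ linU (gg (-c) '' A) (gg (-c) p), ‖b'‖ < 1 →
          2 ^ (n - d) * PT.HH b' w ≤ 1 := by
        intro b' hb' hb'1
        rcases le_total d n with hdn | hdn
        · have h1 := hNr b' hb' hb'1
          have h2 : (2 : ℝ) ^ n = 2 ^ (n - d) * 2 ^ d := by
            rw [← pow_add, Nat.sub_add_cancel hdn]
          have h0 : 0 < PT.HH b' w := HH_pos hb'1 hw1
          have h3 : 0 ≤ ro (Pe (gg (-c) p)) w := by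
            by_contra hneg
            push Not at hneg
            nlinarith
          calc (2 : ℝ) ^ (n - d) * PT.HH b' w ≤ 2 ^ (n - d) * (K * ro (Pe (gg (-c) p)) w) := by
                gcongr
            _ ≤ 2 ^ (n - d) * (2 ^ d * ro (Pe (gg (-c) p)) w) := by
                gcongr
            _ = 2 ^ n * ro (Pe (gg (-c) p)) w := by rw [h2]; ring
            _ ≤ 1 := hn
        · rw [Nat.sub_eq_zero_of_le hdn, pow_zero, one_mul]
          exact HH_le_one hb'1 hw1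
      have h1 := hWb i (n - d) w hw hw2 hro
      rw [← Real.sqrt_eq_rpow] at h1
      have h2 : |Wb i (n - d)| ≤ ∑ i, |Wb i (n - d)| :=
        Finset.single_le_sum (f := fun i => |Wb i (n - d)|) (fun i _ => abs_nonneg _)
          (Finset.mem_univ i)
      have h3 : 0 ≤ ∑ i, |Wu i n| := Finset.sum_nonneg fun i _ => abs_nonneg _
      have h4 := le_abs_self (Wb i (n - d))
      rw [hW]
      show _ ≤ ∑ i, |Wu i n| + ∑ i, |Wb i (n - d)|
      linarith)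
  refine ⟨fun j z => h j (gg (-c) z), fun i z => h' i (gg (-c) z),
    fun i z => h'' i.castSucc (gg (-c) z), fun z => h'' (Fin.last q) (gg (-c) z), C,
    fun j => (g1 j).comp haut.hol' fun z hz => haut.map' z hz,
    fun i => (g2 i).comp haut.hol' fun z hz => haut.map' z hz,
    fun i => (g3 _).comp haut.hol' fun z hz => haut.map' z hz,
    (g3 _).comp haut.hol' fun z hz => haut.map' z hz, ?_⟩
  intro z hz
  obtain ⟨e1, e2, e3, e4⟩ := g4 (gg (-c) z) (haut.map' z hz)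
  refine ⟨?_, e2, e3, fun i => e4 _, e4 _⟩
  rw [Fin.sum_univ_castSucc (f := fun i => v i (gg c (gg (-c) z)) * h'' i (gg (-c) z))] at e1
  simp only [haut.right z hz, hv1, hv2] at e1
  refine Eq.trans ?_ e1
  ring

end Pool.Agent.MPca0fc2.PV
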