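import Mathlib
import Pool.Agent.Lib.MP_ca0fc2_an.PV.M9
import Pool.Agent.Lib.MP_ca0fc2_an.PV.M10b
import Pool.Agent.Lib.MP_ca0fc2_an.PV.U2

set_option autoImplicit false
set_option linter.unusedSectionVars false

open Metric Set MeasureTheory Filter Topology
open scoped InnerProductSpace ENNReal ContDiff

/-! # The two existence theorems for a family of lines through `p` -/

namespace Pool.Agent.MPca0fc2.PV

open Pool.Agent.Lib.MP_ca0fc2_an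
open Pool.Agent.MPca0fc2.PT
open Pool.Agent.MPca0fc2.TS
open Pool.Agent.MPca0fc2.TE

variable {E : Type*} [NormedAddCommGroup E] [InnerProductSpace ℂ E] [FiniteDimensional ℂ E]

/-- small `1 - ⟪p, z⟫` means that `z` is near `p` -/
private theorem M11b_dist {p z : E} (hp : ‖p‖ = 1) (hz : ‖z‖ < 1) {s : ℝ} (hs : 0 < s)
    (h : ‖1 - ⟪p, z⟫_ℂ‖ < s ^ 2 / 2) : ‖z - p‖ < s := by
  have h1 : ‖z - p‖ ^ 2 = ‖z‖ ^ 2 - 2 * RCLike.re ⟪z, p⟫_ℂ + ‖p‖ ^ 2 := norm_sub_sq z p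
  have h2 : RCLike.re ⟪z, p⟫_ℂ = (⟪p, z⟫_ℂ).re := by
    rw [← inner_conj_symm z p]; exact Complex.conj_re _
  have h3 : (1 - ⟪p, z⟫_ℂ).re ≤ ‖1 - ⟪p, z⟫_ℂ‖ := Complex.re_le_norm _
  rw [Complex.sub_re, Complex.one_re] at h3
  rw [h2, hp] at h1
  have h4 : ‖z - p‖ ^ 2 < s ^ 2 := by nlinarith [norm_nonneg z]
  exact lt_of_pow_lt_pow_left₀ 2 hs.le h4

/-- The theorem for data with lower bounds. Proof. `p' = gg (-c) p`, `A' = gg (-c) '' A ∋ 0`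
(`gg (-c) c = 0`); `near_E` for `v ∘ gg c` (`CalmN_gg`) gives `h₁`, `s₁`, `C₁`; `k j = h₁ j ∘ gg (-c)`
is a solution on the ball for `v`, bounded by `C₁` where `‖gg (-c) z - p'‖ < s₁` and
`Nr K A' p' (gg (-c) z)` (`Nr_gg`). So it is bounded on the cell of `(u, 1 - ⟪p, ·⟫)` of a small
radius (as in `cellN`), and `calm_cell` (U2) for the line `lin c p`, data `v`, cell functions
`(u, 1 - ⟪p, ·⟫)` gives the result. -/
theorem nearN (hE : 2 ≤ Module.finrank ℂ E) {p c : E} (hp : ‖p‖ = 1) (hc : ‖c‖ < 1) {A : Set E}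
    (hA : ∀ a ∈ A, ‖a‖ < 1) (hcA : c ∈ A) {N q : ℕ} {v : Fin N → E → ℂ} {u : Fin q → E → ℂ}
    (hv : ∀ j, CalmN 2 (linU A p) p (v j)) {δ : ℝ} (hδ : 0 < δ)
    (hvδ : ∀ z ∈ ball (0 : E) 1, δ ≤ ∑ j, ‖v j z‖ ^ 2)
    (hu : ∀ i, Calm 1 (lin c p) (u i)) {s K : ℝ} (hs : 0 < s) (hK : 1 ≤ K)
    (hreg : ∀ z ∈ ball (0 : E) 1, (∀ i, ‖u i z‖ < s) →
      ∃ b₀ ∈ lin c p, ‖b₀‖ < 1 ∧ ∀ b ∈ linU A p, ‖b‖ < 1 → PT.HH b z ≤ K * PT.HH b₀ z) :
    ∃ (h : Fin N → E → ℂ) (h'' : Fin q → E → ℂ) (h₀ : E → ℂ) (C : ℝ),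
      (∀ j, DifferentiableOn ℂ (h j) (ball 0 1)) ∧ (∀ i, DifferentiableOn ℂ (h'' i) (ball 0 1)) ∧
      DifferentiableOn ℂ h₀ (ball 0 1) ∧ ∀ z ∈ ball (0 : E) 1,
        ∑ j, v j z * h j z + ∑ i, u i z * h'' i z + (1 - ⟪p, z⟫_ℂ) * h₀ z = 1 ∧
          (∀ j, ‖h j z‖ ≤ C) ∧ (∀ i, ‖h'' i z‖ ≤ C) ∧ ‖h₀ z‖ ≤ C := by
  classical
  have hc' : ‖-c‖ < 1 := by rwa [norm_neg]
  have haut := gg_aut hc
  obtain ⟨p', hp'⟩ : ∃ p' : E, p' = gg (-c) p := ⟨_, rfl⟩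
  obtain ⟨A', hA'⟩ : ∃ A' : Set E, A' = gg (-c) '' A := ⟨_, rfl⟩
  have hp'1 : ‖p'‖ = 1 := by rw [hp']; exact gg_one hc' hp
  have h0 : (0 : E) ∈ A' := by
    rw [hA']
    refine ⟨c, hcA, ?_⟩
    have h1 := gg_neg_gg hc (x := (0 : E)) (by simp)
    rwa [gg_zero] at h1
  have hA'1 : ∀ a ∈ A', ‖a‖ < 1 := by
    intro a ha
    rw [hA'] at ha
    obtain ⟨b, hb, rfl⟩ := ha
    exact gg_lt hc' (hA b hb)
  have hback : gg (-(-c)) p' = p := by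
    rw [neg_neg, hp']
    exact CG.gg_gg_neg hc hp.le
  have hf' : ∀ j, CalmN 2 (linU A' p') p' (fun w => v j (gg c w)) := by
    intro j
    have := CalmN_gg (by norm_num : (0 : ℝ) ≤ 2) hc hp hA (hv j)
    rw [← hp', ← hA'] at this
    exact this
  obtain ⟨h₁, s₁, C₁, hs₁, hh₁, hsol₁⟩ := near_E hE hp'1 h0 hA'1 hK hf' hδ
    (fun w hw => hvδ _ (haut.map w hw))
  obtain ⟨s₂, hs₂, hcont⟩ := gg_cont hc' hp'1 hs₁
  rw [hback] at hcont
  -- the bounds for the data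
  choose hv1 hv2 hv3 using hv
  choose Cv hCv using hv2
  set B : ℝ := |C₁| + ∑ j, |Cv j| with hB
  have hsum0 : 0 ≤ ∑ j, |Cv j| := Finset.sum_nonneg fun i _ => abs_nonneg _
  have hCB : C₁ ≤ B := by
    have := le_abs_self C₁
    rw [hB]; linarith
  have hvB : ∀ j, ∀ z ∈ ball (0 : E) 1, ‖v j z‖ ≤ B := fun j z hz => by
    have h1 := (hCv j z hz).trans (le_abs_self _)
    have h2 : |Cv j| ≤ ∑ i, |Cv i| :=
      Finset.single_le_sum (f := fun i => |Cv i|) (fun i _ => abs_nonneg _) (Finset.mem_univ j)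
    have h3 := abs_nonneg C₁
    rw [hB]; linarith
  -- the cell functions
  obtain ⟨u', hu'⟩ : ∃ u' : Fin (q + 1) → E → ℂ,
      u' = Fin.snoc (α := fun _ => E → ℂ) u (fun z => 1 - ⟪p, z⟫_ℂ) := ⟨_, rfl⟩
  have hu'c : ∀ i : Fin q, u' i.castSucc = u i := fun i => by rw [hu', Fin.snoc_castSucc]
  have hu'l : u' (Fin.last q) = fun z => 1 - ⟪p, z⟫_ℂ := by rw [hu', Fin.snoc_last]
  have hu'C : ∀ i, Calm 1 (lin c p) (u' i) := by
    intro i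
    refine Fin.lastCases ?_ (fun j => ?_) i
    · rw [hu'l]; exact calm_affine hc p p
    · rw [hu'c]; exact hu j
  obtain ⟨r, hr⟩ : ∃ r : ℝ, r = min s (s₂ ^ 2 / 2) := ⟨_, rfl⟩
  have hr0 : 0 < r := by rw [hr]; exact lt_min hs (by positivity)
  have hcell : ∀ z ∈ ball (0 : E) 1, ∑ i, ‖u' i z‖ ^ 2 < r ^ 2 →
      (∀ j, ‖h₁ j (gg (-c) z)‖ ≤ B) := by
    intro z hz hzr
    have hz1 := mem_ball_zero_iff.mp hz
    have h1 : ∀ i, ‖u' i z‖ < r := by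
      intro i
      have h2 : ‖u' i z‖ ^ 2 ≤ ∑ i, ‖u' i z‖ ^ 2 :=
        Finset.single_le_sum (f := fun i => ‖u' i z‖ ^ 2) (fun i _ => by positivity)
          (Finset.mem_univ i)
      exact lt_of_pow_lt_pow_left₀ 2 hr0.le (h2.trans_lt hzr)
    have h2 : ∀ i, ‖u i z‖ < s := fun i => by
      have h3 := h1 i.castSucc
      rw [hu'c] at h3
      exact h3.trans_le (hr.le.trans (min_le_left _ _))
    have h3 : ‖1 - ⟪p, z⟫_ℂ‖ < s₂ ^ 2 / 2 := by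
      have h4 := h1 (Fin.last q)
      rw [hu'l] at h4
      exact h4.trans_le (hr.le.trans (min_le_right _ _))
    have h4 : ‖gg (-c) z - p'‖ < s₁ := hcont z hz1 (M11b_dist hp hz1 hs₂ h3)
    have hw := haut.map' z hz
    have h5 : Nr K A' p' (gg (-c) z) := by
      rw [hp', hA']
      refine Nr_gg hc hp (mem_ball_zero_iff.mp hw) hA (by linarith) ?_
      rw [haut.right z hz]
      exact hreg z hz h2
    exact fun j => ((hsol₁ _ hw).2 h4 h5 j).trans hCB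
  obtain ⟨h, h', C, hh, hh', hsol⟩ := calm_cell hE hc hp (f := v) (b := u') hv1 hvB hu'C hr0
    (k := fun j z => h₁ j (gg (-c) z))
    (fun j => ((hh₁ j).comp haut.hol' fun z hz => haut.map' z hz).mono fun z hz => hz.1)
    (fun j z hz hzr => hcell z hz hzr j)
    (fun z hz _ => by
      have h1 := (hsol₁ _ (haut.map' z hz)).1
      simpa only [haut.right z hz] using h1)
  refine ⟨h, fun i => h' i.castSucc, h' (Fin.last q), C, hh, fun i => hh' _, hh' _, ?_⟩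
  intro z hz
  obtain ⟨h1, h2, h3⟩ := hsol z hz
  refine ⟨?_, h2, fun i => h3 _, h3 _⟩
  rw [Fin.sum_univ_castSucc] at h1
  simp only [hu'c, hu'l] at h1
  linear_combination h1

end Pool.Agent.MPca0fc2.PV
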