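import Mathlib
import Pool.Agent.Lib.MP_ca0fc2_an.PV.M5
import Pool.Agent.Lib.MP_ca0fc2_an.PV.M11
import Pool.Agent.Lib.MP_ca0fc2_an.PV.M11b
import Pool.Agent.Lib.MP_ca0fc2_an.PV.M12
import Pool.Agent.Lib.MP_ca0fc2_an.CharLoc

set_option autoImplicit false
set_option linter.unusedSectionVars false

open Metric Set MeasureTheory Filter Topology
open scoped InnerProductSpace ENNReal ContDiff

/-! # Finite unions of complex lines through a boundary point are good -/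

namespace Pool.Agent.MPca0fc2.PV

open Pool.Agent.Lib.MP_ca0fc2_an
open Pool.Agent.MPca0fc2.PT

variable {E : Type*} [NormedAddCommGroup E] [InnerProductSpace ℂ E] [FiniteDimensional ℂ E]

private theorem M12b_BH {u : E → ℂ} (hu : DifferentiableOn ℂ u (ball 0 1)) {C : ℝ}
    (hC : ∀ z ∈ ball (0 : E) 1, ‖u z‖ ≤ C) : BH (fun _ : Unit => u) :=
  ⟨fun _ => hu, C, fun _ z hz => hC z hz⟩

private theorem M12b_BH_calm {κ : ℝ} {S : Set E} {u : E → ℂ} (hu : Calm κ S u) :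
    BH (fun _ : Unit => u) := by
  obtain ⟨h1, ⟨C, hC⟩, -⟩ := hu
  exact M12b_BH h1 hC

/-- sums of products with functions in the kernel are in the kernel -/
private theorem M12b_char (X : Char Unit E) {N : ℕ} {b h : Fin N → E → ℂ}
    (hb : ∀ i, BH (fun _ : Unit => b i)) (hh : ∀ i, BH (fun _ : Unit => h i))
    (h0 : ∀ i, X.φ (fun _ => b i) = 0) :
    BH (fun (_ : Unit) z => ∑ i, b i z * h i z) ∧ X.φ (fun _ z => ∑ i, b i z * h i z) = 0 := by
  have h1 : ∀ k ∈ (Finset.univ : Finset (Fin N)), BH (fun (_ : Unit) z => b k z * h k z) :=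
    fun k _ => (hb k).mul (hh k)
  refine ⟨BH.sum h1, ?_⟩
  rw [X.map_sum h1]
  apply Finset.sum_eq_zero
  intro k _
  rw [X.map_mul (hb k) (hh k), h0 k, zero_mul]

/-- the function `1 - ⟪p, z⟫` is in the kernel of the characters over `p` -/
private theorem M12b_over {p : E} (hp : ‖p‖ = 1) {X : Char Unit E} (hX : Over X p) :
    X.φ (fun _ z => 1 - ⟪p, z⟫_ℂ) = 0 := by
  have h1 := X.map_sub (BH.const (I := Unit) (E := E) 1) (BH.inner (I := Unit) p)
  have h2 : X.φ (fun _ z => 1 - ⟪p, z⟫_ℂ) = X.φ (fun _ _ => (1 : ℂ)) - X.φ (fun _ z => ⟪p, z⟫_ℂ) := h1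
  rw [h2, X.map_const, hX p, inner_self_eq_norm_sq_to_K, hp]
  norm_num

private theorem M12b_sub {X : Char Unit E} {u : E → ℂ} (hu : BH (fun _ : Unit => u)) :
    X.φ (fun _ z => u z - X.φ (fun _ => u)) = 0 := by
  have h1 := X.map_sub hu (BH.const (I := Unit) (E := E) (X.φ (fun _ => u)))
  have h2 : X.φ (fun _ z => u z - X.φ (fun _ => u)) =
      X.φ (fun _ => u) - X.φ (fun _ _ => X.φ (fun _ => u)) := h1
  rw [h2, X.map_const, sub_self]

/-- the distance to `p` is controlled by `1 - ⟪p, z⟫` -/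
private theorem M12b_dist {p z : E} (hp : ‖p‖ = 1) (hz : ‖z‖ < 1) {s : ℝ} (hs : 0 < s)
    (h : ‖1 - ⟪p, z⟫_ℂ‖ < s ^ 2 / 2) : ‖z - p‖ < s := by
  have h1 : ‖z - p‖ ^ 2 = ‖z‖ ^ 2 - 2 * RCLike.re ⟪z, p⟫_ℂ + ‖p‖ ^ 2 := norm_sub_sq z p
  have h2 : RCLike.re ⟪z, p⟫_ℂ = (⟪p, z⟫_ℂ).re := by
    rw [← inner_conj_symm z p]; exact Complex.conj_re _
  have h3 : (1 - ⟪p, z⟫_ℂ).re ≤ ‖1 - ⟪p, z⟫_ℂ‖ := Complex.re_le_norm _
  rw [Complex.sub_re, Complex.one_re] at h3
  rw [h2, hp] at h1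
  have h4 : ‖z‖ ^ 2 < 1 := by
    have := norm_nonneg z
    nlinarith
  have h5 : ‖z - p‖ ^ 2 < s ^ 2 := by rw [h1]; nlinarith
  exact lt_of_pow_lt_pow_left₀ 2 hs.le h5

private theorem M12b_BH_calmN {κ : ℝ} {S : Set E} {p : E} {u : E → ℂ} (hu : CalmN κ S p u) :
    BH (fun _ : Unit => u) := by
  obtain ⟨h1, ⟨C, hC⟩, -⟩ := hu
  exact M12b_BH h1 hC

/-- Proof. `X` over `p`. `region_char` gives `c ∈ A`, `u`, `s₁`, `K`; `u' i = u i - X (u i)`
(`Calm.sub_const`), `b i = a i - X (a i)` (`CalmN.sub_const`), `min s s₁`. `sol`: `cellN`; apply `X`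
to the identity (`X (b i) = X (u' i) = 0`, `X (1 - ⟪p, ·⟫) = 1 - ⟪p, p⟫ = 0` by `Over`):
`∑ X (f j) X (h j) = 1`. `near`: if there is no such `z` then for the data
`v' = (a i - X (a i), v j - X (v j), 1 - ⟪p, ·⟫)` (all in `CalmN 2 (linU A p) p`) one has
`∑ ‖v'‖² ≥ (min s (s²/2))²` on the ball (`‖z - p‖² ≤ 2 ‖1 - ⟪p, z⟫‖`); `nearN` and `X`: `0 = 1`. See
`good_lin` (/team-store/MP_ca0fc2_PV_V1.lean). -/
theorem good_linN (hE : 2 ≤ Module.finrank ℂ E) {p : E} (hp : ‖p‖ = 1) {A : Set E}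
    (hAf : A.Finite) (hne : A.Nonempty) (hA : ∀ a ∈ A, ‖a‖ < 1) : GoodN p (linU A p) := by
  obtain ⟨a₀', ha₀'⟩ := hne
  have hne' : A.Nonempty := ⟨a₀', ha₀'⟩
  refine ⟨?_, ?_⟩
  · intro X hX m a ha s hs N f k B hf hfB hk hfk
    by_contra hno
    push Not at hno
    obtain ⟨c₀, hc₀, l, u, s₁, K, hs₁, hK, huC, hreg⟩ := region_char hp X hAf hne' hA
    set c : Fin m → ℂ := fun i => X.φ (fun _ => a i) with hc
    have hbX : ∀ i : Fin m, X.φ (fun _ z => a i z - c i) = 0 := fun i =>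
      M12b_sub (M12b_BH_calmN (ha i))
    have huX : ∀ i : Fin l, X.φ (fun _ z => u i z - X.φ (fun _ => u i)) = 0 := fun i =>
      M12b_sub (M12b_BH_calm (huC i))
    have hs₂ : 0 < min s s₁ := lt_min hs hs₁
    have hbC : ∀ i : Fin m, CalmN 1 (linU A p) p (fun z => a i z - c i) := fun i =>
      (ha i).sub_const _
    have huC' : ∀ i : Fin l, Calm 1 (lin c₀ p) (fun z => u i z - X.φ (fun _ => u i)) := fun i =>
      (huC i).sub_const _
    obtain ⟨h, h', h'', h₀, C, hh, hh', hh'', hh₀, hfin⟩ := cellN hE hp (hA c₀ hc₀) hA hc₀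
      (f := f) (b := fun i z => a i z - c i) (u := fun i z => u i z - X.φ (fun _ => u i)) hf hfB
      hbC huC' hs₂ hK
      (fun z hz h => hreg z hz fun i => (h i).trans_le (min_le_right _ _))
      (k := k) (fun j => (hk j).mono fun z hz => ⟨hz.1, hz.2.1.trans_le (min_le_left _ _),
        fun i => (hz.2.2 i).trans_le (min_le_left _ _)⟩)
      (fun z hz hz1 hz2 => hfk z hz (hz1.trans_le (min_le_left _ _))
        fun i => (hz2 i).trans_le (min_le_left _ _))
    obtain ⟨e1, e2⟩ := M12b_char X (b := f) (h := h) (fun j => M12b_BH (hf j) (hfB j))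
      (fun j => M12b_BH (hh j) fun z hz => (hfin z hz).2.1 j) hno
    obtain ⟨e3, e4⟩ := M12b_char X (b := fun i z => a i z - c i) (h := h')
      (fun i => M12b_BH_calmN (hbC i))
      (fun i => M12b_BH (hh' i) fun z hz => (hfin z hz).2.2.1 i) hbX
    obtain ⟨e5, e6⟩ := M12b_char X (b := fun i z => u i z - X.φ (fun _ => u i)) (h := h'')
      (fun i => M12b_BH_calm (huC' i))
      (fun i => M12b_BH (hh'' i) fun z hz => (hfin z hz).2.2.2.1 i) huX
    have hb1 : BH (fun (_ : Unit) (z : E) => 1 - ⟪p, z⟫_ℂ) := BH.sub (BH.const 1) (BH.inner p)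
    have hb2 : BH (fun (_ : Unit) (z : E) => h₀ z) :=
      M12b_BH hh₀ fun z hz => (hfin z hz).2.2.2.2
    have e7 : BH (fun (_ : Unit) (z : E) => (1 - ⟪p, z⟫_ℂ) * h₀ z) := hb1.mul hb2
    have e8 : X.φ (fun _ z => (1 - ⟪p, z⟫_ℂ) * h₀ z) = 0 := by
      rw [X.map_mul hb1 hb2, M12b_over hp hX, zero_mul]
    have h1 := X.map_add e1 e3
    have h2 := X.map_add (e1.add e3) e5
    have h3 := X.map_add ((e1.add e3).add e5) e7
    rw [h2, h1, e2, e4, e6, e8, add_zero, add_zero, add_zero] at h3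
    have h4 : X.φ (fun _ z => (∑ j, f j z * h j z) + (∑ i, (a i z - c i) * h' i z) +
        (∑ i, (u i z - X.φ (fun _ => u i)) * h'' i z) + (1 - ⟪p, z⟫_ℂ) * h₀ z) =
        X.φ (fun _ _ => (1 : ℂ)) :=
      X.congr (BH.const 1) fun _ z hz => (hfin z hz).1
    rw [X.map_const] at h4
    exact one_ne_zero (h4.symm.trans h3)
  · intro X hX m a ha N v hv s hs
    by_contra hno
    push Not at hno
    obtain ⟨c₀, hc₀, l, u, s₁, K, hs₁, hK, huC, hreg⟩ := region_char hp X hAf hne' hA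
    set c : Fin m → ℂ := fun i => X.φ (fun _ => a i) with hc
    set d : Fin N → ℂ := fun j => X.φ (fun _ => v j) with hd
    set s' : ℝ := min s (s ^ 2 / 2) with hs'
    have hs'0 : 0 < s' := lt_min hs (by positivity)
    set b' : Fin (m + N) → E → ℂ := Fin.append (fun i z => a i z - c i) (fun j z => v j z - d j) with hb'
    have hb'l : ∀ i : Fin m, b' (Fin.castAdd N i) = fun z => a i z - c i := fun i =>
      Fin.append_left _ _ i
    have hb'r : ∀ j : Fin N, b' (Fin.natAdd m j) = fun z => v j z - d j := fun j =>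
      Fin.append_right _ _ j
    set b : Fin (m + N + 1) → E → ℂ :=
      Fin.cons (α := fun _ => E → ℂ) (fun z => 1 - ⟪p, z⟫_ℂ) b' with hb
    have hb0 : b 0 = fun z => 1 - ⟪p, z⟫_ℂ := rfl
    have hbs : ∀ i, b (Fin.succ i) = b' i := fun i => rfl
    have hbC : ∀ i, CalmN 2 (linU A p) p (b i) := by
      intro i
      refine Fin.cases ?_ (fun i => ?_) i
      · rw [hb0]; exact (calmN_affine hne' hA p p).one_two
      · rw [hbs]
        refine Fin.addCases (fun i => ?_) (fun j => ?_) i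
        · rw [hb'l]; exact ((ha i).sub_const _).one_two
        · rw [hb'r]; exact (hv j).sub_const _
    have hbX : ∀ i, X.φ (fun _ => b i) = 0 := by
      intro i
      refine Fin.cases ?_ (fun i => ?_) i
      · rw [hb0]; exact M12b_over hp hX
      · rw [hbs]
        refine Fin.addCases (fun i => ?_) (fun j => ?_) i
        · rw [hb'l]; exact M12b_sub (M12b_BH_calmN (ha i))
        · rw [hb'r]; exact M12b_sub (M12b_BH_calmN (hv j))
    have hlow : ∀ z ∈ ball (0 : E) 1, s' ^ 2 ≤ ∑ i, ‖b i z‖ ^ 2 := by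
      intro z hz
      have hge : ∀ i, s' ≤ ‖b i z‖ → s' ^ 2 ≤ ∑ i, ‖b i z‖ ^ 2 := by
        intro i hi
        have h1 : ‖b i z‖ ^ 2 ≤ ∑ i, ‖b i z‖ ^ 2 :=
          Finset.single_le_sum (f := fun i => ‖b i z‖ ^ 2) (fun _ _ => by positivity)
            (Finset.mem_univ i)
        exact (pow_le_pow_left₀ hs'0.le hi 2).trans h1
      by_cases h0 : s' ≤ ‖1 - ⟪p, z⟫_ℂ‖
      · exact hge 0 h0
      push Not at h0
      have hzp : ‖z - p‖ < s :=
        M12b_dist hp (by simpa using hz) hs (h0.trans_le (min_le_right _ _))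
      by_cases ha' : ∃ i, s ≤ ‖a i z - c i‖
      · obtain ⟨i, hi⟩ := ha'
        refine hge (Fin.succ (Fin.castAdd N i)) ?_
        rw [hbs, hb'l]
        exact (min_le_left _ _).trans hi
      push Not at ha'
      obtain ⟨j, hj⟩ := hno z hz hzp ha'
      refine hge (Fin.succ (Fin.natAdd m j)) ?_
      rw [hbs, hb'r]
      exact (min_le_left _ _).trans hj
    have huX : ∀ i : Fin l, X.φ (fun _ z => u i z - X.φ (fun _ => u i)) = 0 := fun i =>
      M12b_sub (M12b_BH_calm (huC i))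
    have huC' : ∀ i : Fin l, Calm 1 (lin c₀ p) (fun z => u i z - X.φ (fun _ => u i)) := fun i =>
      (huC i).sub_const _
    obtain ⟨h, h'', h₀, C, hh, hh'', hh₀, hfin⟩ := nearN hE hp (hA c₀ hc₀) hA hc₀ hbC
      (δ := s' ^ 2) (by positivity) hlow (u := fun i z => u i z - X.φ (fun _ => u i)) huC' hs₁ hK
      hreg
    obtain ⟨e1, e2⟩ := M12b_char X (b := b) (h := h) (fun i => M12b_BH_calmN (hbC i))
      (fun i => M12b_BH (hh i) fun z hz => (hfin z hz).2.1 i) hbX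
    obtain ⟨e5, e6⟩ := M12b_char X (b := fun i z => u i z - X.φ (fun _ => u i)) (h := h'')
      (fun i => M12b_BH_calm (huC' i))
      (fun i => M12b_BH (hh'' i) fun z hz => (hfin z hz).2.2.1 i) huX
    have hb1 : BH (fun (_ : Unit) (z : E) => 1 - ⟪p, z⟫_ℂ) := BH.sub (BH.const 1) (BH.inner p)
    have hb2 : BH (fun (_ : Unit) (z : E) => h₀ z) :=
      M12b_BH hh₀ fun z hz => (hfin z hz).2.2.2
    have e7 : BH (fun (_ : Unit) (z : E) => (1 - ⟪p, z⟫_ℂ) * h₀ z) := hb1.mul hb2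
    have e8 : X.φ (fun _ z => (1 - ⟪p, z⟫_ℂ) * h₀ z) = 0 := by
      rw [X.map_mul hb1 hb2, M12b_over hp hX, zero_mul]
    have h1 := X.map_add e1 e5
    have h3 := X.map_add (e1.add e5) e7
    rw [h1, e2, e6, e8, add_zero, add_zero] at h3
    have h4 : X.φ (fun _ z => (∑ i, b i z * h i z) +
        (∑ i, (u i z - X.φ (fun _ => u i)) * h'' i z) + (1 - ⟪p, z⟫_ℂ) * h₀ z) =
        X.φ (fun _ _ => (1 : ℂ)) :=
      X.congr (BH.const 1) fun _ z hz => (hfin z hz).1
    rw [X.map_const] at h4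
    exact one_ne_zero (h4.symm.trans h3)

end Pool.Agent.MPca0fc2.PV
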