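import Mathlib
import Pool.Agent.Lib.MP_ca0fc2_an.PV.M0
import Pool.Agent.Lib.MP_ca0fc2_an.Depth

set_option autoImplicit false
set_option linter.unusedSectionVars false

open Metric Set MeasureTheory Filter Topology
open scoped InnerProductSpace ENNReal ContDiff

/-! # The main theorem -/

namespace Pool.Agent.MPca0fc2.PV

open Pool.Agent.Lib.MP_ca0fc2_an
open Pool.Agent.MPca0fc2.PT

variable {E : Type*} [NormedAddCommGroup E] [InnerProductSpace ℂ E] [FiniteDimensional ℂ E]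

/-- THE CELL BOUND. Proof. Let `λ = X u` and suppose `‖λ‖ > κ`. Apply `GoodN.sol` with `N = 1`,
`f 0 z = 1 - u z / λ`, `k 0 z = (1 - u z / λ)⁻¹`, of norm at most `(1 - κ/‖λ‖)⁻¹` on the cell;
`X (f 0) = 1 - λ / λ = 0`: a contradiction. -/
theorem char_cellN {p : E} {S : Set E} (hS : GoodN p S) (X : Char Unit E) (hX : Over X p) {m : ℕ}
    {a : Fin m → E → ℂ} (ha : ∀ i, CalmN 1 S p (a i)) {s : ℝ} (hs : 0 < s) {u : E → ℂ}
    (hu : DifferentiableOn ℂ u (ball 0 1)) {B : ℝ} (huB : ∀ z ∈ ball (0 : E) 1, ‖u z‖ ≤ B) {κ : ℝ}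
    (hκ : 0 ≤ κ) (h : ∀ z ∈ ball (0 : E) 1, ‖z - p‖ < s →
      (∀ i, ‖a i z - X.φ (fun _ => a i)‖ < s) → ‖u z‖ ≤ κ) : ‖X.φ (fun _ => u)‖ ≤ κ := by
  by_contra hcon
  push Not at hcon
  have hBu : BH fun (_ : Unit) => u := ⟨fun _ => hu, B, fun _ => huB⟩
  obtain ⟨lam, hlam⟩ : ∃ lam : ℂ, lam = X.φ (fun _ => u) := ⟨_, rfl⟩
  rw [← hlam] at hcon
  have hlpos : 0 < ‖lam‖ := hκ.trans_lt hcon
  have hl0 : lam ≠ 0 := norm_pos_iff.1 hlpos
  have hlow : 0 < 1 - ‖lam‖⁻¹ * κ := by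
    have : ‖lam‖⁻¹ * κ < 1 := by
      rw [inv_mul_lt_iff₀ hlpos, mul_one]
      exact hcon
    linarith
  have hnorm : ∀ z ∈ ball (0 : E) 1, ‖z - p‖ < s → (∀ i, ‖a i z - X.φ (fun _ => a i)‖ < s) →
      1 - ‖lam‖⁻¹ * κ ≤ ‖1 - lam⁻¹ * u z‖ := by
    intro z hz h1 h2
    have h3 := h z hz h1 h2
    have h4 : ‖lam⁻¹ * u z‖ ≤ ‖lam‖⁻¹ * κ := by
      rw [norm_mul, norm_inv]
      exact mul_le_mul_of_nonneg_left h3 (inv_nonneg.2 hlpos.le)
    have h5 := norm_sub_norm_le (1 : ℂ) (lam⁻¹ * u z)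
    rw [norm_one] at h5
    linarith
  have hne : ∀ z ∈ {z | z ∈ ball (0 : E) 1 ∧ ‖z - p‖ < s ∧
      ∀ i, ‖a i z - X.φ (fun _ => a i)‖ < s}, 1 - lam⁻¹ * u z ≠ 0 := by
    rintro z ⟨h1, h2, h3⟩ h4
    have h5 := hnorm z h1 h2 h3
    rw [h4, norm_zero] at h5
    linarith
  have hdf : DifferentiableOn ℂ (fun z => 1 - lam⁻¹ * u z) (ball 0 1) :=
    (differentiableOn_const _).sub ((differentiableOn_const _).mul hu)
  obtain ⟨j, hj⟩ := hS.sol X hX m a ha s hs 1 (fun _ z => 1 - lam⁻¹ * u z)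
    (fun _ z => (1 - lam⁻¹ * u z)⁻¹) (max (1 + ‖lam‖⁻¹ * B) (1 - ‖lam‖⁻¹ * κ)⁻¹)
    (fun _ => hdf) (fun _ z hz => by
      refine le_trans ?_ (le_max_left _ _)
      refine (norm_sub_le _ _).trans ?_
      rw [norm_one, norm_mul, norm_inv]
      have := mul_le_mul_of_nonneg_left (huB z hz) (inv_nonneg.2 hlpos.le)
      linarith)
    (fun _ => (hdf.mono fun z hz => hz.1).inv hne)
    (fun z hz h1 h2 => by
      refine ⟨?_, fun _ => ?_⟩
      · rw [Fin.sum_univ_one]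
        exact mul_inv_cancel₀ (hne z ⟨hz, h1, h2⟩)
      · refine le_trans ?_ (le_max_right _ _)
        rw [norm_inv]
        exact inv_anti₀ hlow (hnorm z hz h1 h2))
  refine hj ?_
  have h1 := X.map_sub (BH.const 1) ((BH.const (I := Unit) (E := E) lam⁻¹).mul hBu)
  have h2 := X.map_smul lam⁻¹ hBu
  have h3 := X.map_const 1
  calc X.φ (fun _ z => 1 - lam⁻¹ * u z) = X.φ (fun _ _ => 1) - X.φ (fun _ z => lam⁻¹ * u z) := h1
    _ = 1 - lam⁻¹ * X.φ (fun _ => u) := by rw [h2, h3]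
    _ = 0 := by rw [← hlam, inv_mul_cancel₀ hl0, sub_self]

/-- Proof. Let `ξ j = X (v j)`. Suppose all `X (f j) = 0`. For complex numbers `γ j` let
`u = ∑ γ j (v j - f j)`; by Cauchy-Schwarz `‖u‖ ≤ √(∑ ‖γ j‖²) e` on the cell, so by `char_cell`
`‖∑ γ j ξ j‖ = ‖X u‖ ≤ √(∑ ‖γ j‖²) e`; with `γ j = conj (ξ j)`: `∑ ‖ξ j‖² ≤ e²`.
`GoodN.near` for a small `s' ≤ s` gives `z` in the cell with `‖v j z - ξ j‖ < s'`; then
`√(∑ ‖f j z‖²) ≤ e + √N s' + e < δ` (triangle inequality in `EuclideanSpace ℂ (Fin N)`). -/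
theorem char_twoN {p : E} {S : Set E} (hS : GoodN p S) (X : Char Unit E) (hX : Over X p) {m N : ℕ}
    {a : Fin m → E → ℂ} (ha : ∀ i, CalmN 1 S p (a i)) {v : Fin N → E → ℂ}
    (hv : ∀ j, CalmN 2 S p (v j)) {s : ℝ} (hs : 0 < s) {f : Fin N → E → ℂ}
    (hf : ∀ j, DifferentiableOn ℂ (f j) (ball 0 1)) {B : ℝ}
    (hfB : ∀ j, ∀ z ∈ ball (0 : E) 1, ‖f j z‖ ≤ B) {δ e : ℝ}
    (hfδ : ∀ z ∈ ball (0 : E) 1, δ ^ 2 ≤ ∑ j, ‖f j z‖ ^ 2) (he0 : 0 ≤ e) (he : 2 * e < δ)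
    (hfv : ∀ z ∈ ball (0 : E) 1, ‖z - p‖ < s → (∀ i, ‖a i z - X.φ (fun _ => a i)‖ < s) →
      ∑ j, ‖f j z - v j z‖ ^ 2 ≤ e ^ 2) : ∃ j, X.φ (fun _ => f j) ≠ 0 := by
  by_contra hcon
  push Not at hcon
  obtain ⟨ξ, hξ⟩ : ∃ ξ : Fin N → ℂ, ∀ j, ξ j = X.φ (fun _ => v j) := ⟨_, fun _ => rfl⟩
  have hBf : ∀ j, BH fun (_ : Unit) => f j := fun j => ⟨fun _ => hf j, B, fun _ => hfB j⟩
  have hBv : ∀ j, BH fun (_ : Unit) => v j := fun j => by
    obtain ⟨h1, ⟨C, hC⟩, -⟩ := hv j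
    exact ⟨fun _ => h1, C, fun _ => hC⟩
  have hBu : BH fun (_ : Unit) (z : E) => ∑ j, starRingEnd ℂ (ξ j) * (v j z - f j z) :=
    BH.sum fun j _ => (BH.const _).mul ((hBv j).sub (hBf j))
  have hXu : X.φ (fun (_ : Unit) (z : E) => ∑ j, starRingEnd ℂ (ξ j) * (v j z - f j z)) =
      ((∑ j, ‖ξ j‖ ^ 2 : ℝ) : ℂ) := by
    have h1 := X.map_sum (s := Finset.univ)
      (F := fun j (_ : Unit) (z : E) => starRingEnd ℂ (ξ j) * (v j z - f j z))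
      fun j _ => (BH.const _).mul ((hBv j).sub (hBf j))
    refine h1.trans ?_
    rw [Complex.ofReal_sum]
    refine Finset.sum_congr rfl fun j _ => ?_
    have h2 := X.map_smul (starRingEnd ℂ (ξ j)) ((hBv j).sub (hBf j))
    have h3 := X.map_sub (hBv j) (hBf j)
    refine h2.trans ?_
    rw [h3, hcon j, ← hξ j, sub_zero, mul_comm, Complex.mul_conj, Complex.normSq_eq_norm_sq]
  have hcell : ‖X.φ (fun (_ : Unit) (z : E) => ∑ j, starRingEnd ℂ (ξ j) * (v j z - f j z))‖ ≤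
      √(∑ j, ‖ξ j‖ ^ 2) * e := by
    obtain ⟨C, hC⟩ := hBu.bdd
    refine char_cellN hS X hX ha hs (hBu.holo ()) (hC ()) (by positivity) ?_
    intro z hz h1 h2
    have h3 := hfv z hz h1 h2
    calc ‖∑ j, starRingEnd ℂ (ξ j) * (v j z - f j z)‖
        ≤ ∑ j, ‖ξ j‖ * ‖f j z - v j z‖ := by
          refine (norm_sum_le _ _).trans (Finset.sum_le_sum fun j _ => ?_)
          rw [norm_mul, RCLike.norm_conj, norm_sub_rev]
      _ ≤ √(∑ j, ‖ξ j‖ ^ 2) * √(∑ j, ‖f j z - v j z‖ ^ 2) :=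
          Real.sum_mul_le_sqrt_mul_sqrt _ _ _
      _ ≤ √(∑ j, ‖ξ j‖ ^ 2) * e := by
          refine mul_le_mul_of_nonneg_left ?_ (Real.sqrt_nonneg _)
          calc √(∑ j, ‖f j z - v j z‖ ^ 2) ≤ √(e ^ 2) := Real.sqrt_le_sqrt h3
            _ = e := Real.sqrt_sq he0
  have hSe : √(∑ j, ‖ξ j‖ ^ 2) ≤ e := by
    have h0 : 0 ≤ ∑ j, ‖ξ j‖ ^ 2 := Finset.sum_nonneg fun j _ => by positivity
    rw [hXu, Complex.norm_real, Real.norm_of_nonneg h0] at hcell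
    have h1 := Real.mul_self_sqrt h0
    rcases (Real.sqrt_nonneg (∑ j, ‖ξ j‖ ^ 2)).eq_or_lt with h2 | h2
    · rw [← h2]
      exact he0
    · refine le_of_mul_le_mul_left ?_ h2
      rw [h1]
      exact hcell
  have hN : 0 < √(N : ℝ) + 1 := by positivity
  obtain ⟨s', hs'⟩ : ∃ s' : ℝ, s' = min s ((δ - 2 * e) / (2 * (√(N : ℝ) + 1))) := ⟨_, rfl⟩
  have hs'0 : 0 < s' := by
    rw [hs']
    exact lt_min hs (div_pos (by linarith) (by linarith))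
  have hs's : s' ≤ s := by
    rw [hs']
    exact min_le_left _ _
  have hs'N : √(N : ℝ) * s' < δ - 2 * e := by
    have h1 : s' ≤ (δ - 2 * e) / (2 * (√(N : ℝ) + 1)) := by
      rw [hs']
      exact min_le_right _ _
    rw [le_div_iff₀ (by linarith)] at h1
    nlinarith [Real.sqrt_nonneg (N : ℝ)]
  obtain ⟨z, hz, h1, h2, h3⟩ := hS.near X hX m a ha N v hv s' hs'0
  have h4 := hfv z hz (h1.trans_le hs's) fun i => (h2 i).trans_le hs's
  have hFV : ‖(WithLp.toLp 2 fun j => f j z - v j z : EuclideanSpace ℂ (Fin N))‖ ≤ e := by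
    rw [EuclideanSpace.norm_eq]
    calc √(∑ j, ‖f j z - v j z‖ ^ 2) ≤ √(e ^ 2) := Real.sqrt_le_sqrt h4
      _ = e := Real.sqrt_sq he0
  have hVX : ‖(WithLp.toLp 2 fun j => v j z - ξ j : EuclideanSpace ℂ (Fin N))‖ ≤
      √(N : ℝ) * s' := by
    rw [EuclideanSpace.norm_eq]
    have h5 : ∑ j, ‖v j z - ξ j‖ ^ 2 ≤ (N : ℝ) * s' ^ 2 := by
      calc ∑ j, ‖v j z - ξ j‖ ^ 2 ≤ ∑ _j : Fin N, s' ^ 2 := by
            refine Finset.sum_le_sum fun j _ => ?_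
            have := h3 j
            rw [← hξ j] at this
            exact pow_le_pow_left₀ (norm_nonneg _) this.le 2
        _ = (N : ℝ) * s' ^ 2 := by
            rw [Finset.sum_const, Finset.card_univ, Fintype.card_fin, nsmul_eq_mul]
    calc √(∑ j, ‖v j z - ξ j‖ ^ 2) ≤ √((N : ℝ) * s' ^ 2) := Real.sqrt_le_sqrt h5
      _ = √(N : ℝ) * s' := by
          rw [Real.sqrt_mul (Nat.cast_nonneg N), Real.sqrt_sq hs'0.le]
  have hXi : ‖(WithLp.toLp 2 ξ : EuclideanSpace ℂ (Fin N))‖ ≤ e := by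
    rw [EuclideanSpace.norm_eq]
    exact hSe
  have hF : ‖(WithLp.toLp 2 fun j => f j z : EuclideanSpace ℂ (Fin N))‖ < δ := by
    have h5 : (WithLp.toLp 2 fun j => f j z : EuclideanSpace ℂ (Fin N)) =
        (WithLp.toLp 2 fun j => f j z - v j z) + (WithLp.toLp 2 fun j => v j z - ξ j) +
          WithLp.toLp 2 ξ := by
      ext j
      simp
    rw [h5]
    calc _ ≤ ‖(WithLp.toLp 2 fun j => f j z - v j z : EuclideanSpace ℂ (Fin N)) +
          WithLp.toLp 2 fun j => v j z - ξ j‖ +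
          ‖(WithLp.toLp 2 ξ : EuclideanSpace ℂ (Fin N))‖ := norm_add_le _ _
      _ ≤ e + √(N : ℝ) * s' + e := by
          have h6 := norm_add_le
            (WithLp.toLp 2 fun j => f j z - v j z : EuclideanSpace ℂ (Fin N))
            (WithLp.toLp 2 fun j => v j z - ξ j : EuclideanSpace ℂ (Fin N))
          linarith
      _ < δ := by linarith
  rw [EuclideanSpace.norm_eq] at hF
  have h6 := hfδ z hz
  have h7 : δ ≤ √(∑ j, ‖f j z‖ ^ 2) := Real.le_sqrt_of_sq_le h6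
  exact absurd hF (not_lt.2 h7)

/-- THE MAIN THEOREM. Proof. `unimod_of_chars` (Depth.lean) for `I = Unit`, `F j _ = f j`; `X` a
character, `p` from `Char.exists_point`. If `‖p‖ < 1`: `Char.gleason` gives `X (f j) = f j p`
(`map_const`), and not all `f j p` are `0` by `hfδ`. If `‖p‖ = 1`: `H p` for `c i = X (a i)` and
`GoodN.sol` or `char_two`. -/
theorem main_localN {N : ℕ} {f : Fin N → E → ℂ}
    (hf : ∀ j, DifferentiableOn ℂ (f j) (ball 0 1)) {B : ℝ}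
    (hfB : ∀ j, ∀ z ∈ ball (0 : E) 1, ‖f j z‖ ≤ B) {δ : ℝ} (hδ : 0 < δ)
    (hfδ : ∀ z ∈ ball (0 : E) 1, δ ^ 2 ≤ ∑ j, ‖f j z‖ ^ 2)
    (H : ∀ p : E, ‖p‖ = 1 → ∃ (S : Set E) (m : ℕ) (a : Fin m → E → ℂ) (s : ℝ), GoodN p S ∧
      0 < s ∧ (∀ i, CalmN 1 S p (a i)) ∧ ∀ c : Fin m → ℂ,
        (∃ (k : Fin N → E → ℂ) (C : ℝ),
          (∀ j, DifferentiableOn ℂ (k j)
            {z | z ∈ ball (0 : E) 1 ∧ ‖z - p‖ < s ∧ ∀ i, ‖a i z - c i‖ < s}) ∧
          ∀ z ∈ ball (0 : E) 1, ‖z - p‖ < s → (∀ i, ‖a i z - c i‖ < s) →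
            ∑ j, f j z * k j z = 1 ∧ ∀ j, ‖k j z‖ ≤ C) ∨
        ∃ (v : Fin N → E → ℂ) (e : ℝ), (∀ j, CalmN 2 S p (v j)) ∧ 0 ≤ e ∧ 2 * e < δ ∧
          ∀ z ∈ ball (0 : E) 1, ‖z - p‖ < s → (∀ i, ‖a i z - c i‖ < s) →
            ∑ j, ‖f j z - v j z‖ ^ 2 ≤ e ^ 2) :
    ∃ (h : Fin N → E → ℂ) (C : ℝ), (∀ j, DifferentiableOn ℂ (h j) (ball 0 1)) ∧
      ∀ z ∈ ball (0 : E) 1, ∑ j, f j z * h j z = 1 ∧ ∀ j, ‖h j z‖ ≤ C := by
  have hBf : ∀ j, BH fun (_ : Unit) => f j := fun j => ⟨fun _ => hf j, B, fun _ => hfB j⟩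
  obtain ⟨G, hG, hG1⟩ := unimod_of_chars (I := Unit) (F := fun j _ => f j) hBf (by
    intro X
    obtain ⟨p, hp, hX⟩ := X.exists_point
    rcases lt_or_eq_of_le hp with hp1 | hp1
    · by_contra hcon
      push Not at hcon
      have h1 : ∀ j, f j p = 0 := fun j => by
        have h2 := X.gleason hp1 hX (hBf j)
        rw [hcon j] at h2
        have h3 := X.map_const (f j p)
        exact h3.symm.trans h2.symm
      have h2 := hfδ p (mem_ball_zero_iff.2 hp1)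
      simp only [h1, norm_zero] at h2
      rw [Finset.sum_const, zero_pow two_ne_zero, smul_zero] at h2
      nlinarith [pow_pos hδ 2]
    · obtain ⟨S, m, a, s, hS, hs, ha, hc⟩ := H p hp1
      rcases hc fun i => X.φ (fun _ => a i) with ⟨k, C, hk, hk1⟩ | ⟨v, e, hv, he0, he, hfv⟩
      · exact hS.sol X hX m a ha s hs N f k (max B C) hf
          (fun j z hz => (hfB j z hz).trans (le_max_left _ _)) hk
          (fun z hz h1 h2 => ⟨(hk1 z hz h1 h2).1, fun j =>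
            ((hk1 z hz h1 h2).2 j).trans (le_max_right _ _)⟩)
      · exact char_twoN hS X hX ha hv hs hf hfB hfδ he0 he hfv)
  choose C hC0 hC using fun j => (hG j).bdd'
  refine ⟨fun j => G j (), ∑ j, C j, fun j => (hG j).holo (), fun z hz => ⟨hG1 () z hz, ?_⟩⟩
  intro j
  refine (hC j () z hz).trans ?_
  exact Finset.single_le_sum (f := C) (fun i _ => (hC0 i).le) (Finset.mem_univ j)

end Pool.Agent.MPca0fc2.PV
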