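import Mathlib
import Pool.Agent.Lib.MP_ca0fc2_an.PV.M0
import Pool.Agent.Lib.MP_ca0fc2_an.PV.V3

set_option autoImplicit false
set_option linter.unusedSectionVars false

open Metric Set MeasureTheory Filter Topology
open scoped InnerProductSpace ENNReal ContDiff

/-! # The functions calm near a point are an algebra; local uniform limits of such functions -/

namespace Pool.Agent.MPca0fc2.PV

open Pool.Agent.Lib.MP_ca0fc2_an
open Pool.Agent.MPca0fc2.PT
open Pool.Agent.MPca0fc2.TE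

variable {E : Type*} [NormedAddCommGroup E] [InnerProductSpace ℂ E]

/-- Near `p` the function is a uniform limit of functions which are calm off sets of the
family `Fam` near `p`. -/
def RegN (Fam : Set (Set E)) (p : E) (u : E → ℂ) : Prop := ∀ ε : ℝ, 0 < ε →
  ∃ (S : Set E) (s : ℝ) (F : E → ℂ), S ∈ Fam ∧ 0 < s ∧ CalmN 1 S p F ∧
    ∀ z ∈ ball (0 : E) 1, ‖z - p‖ < s → ‖u z - F z‖ ≤ ε

theorem CalmN.mono {κ : ℝ} {S S' : Set E} (hS : S ⊆ S') {p : E} {u : E → ℂ}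
    (h : CalmN κ S p u) : CalmN κ S' p u := by
  obtain ⟨hd, hb, s, hs, W, hW, hk⟩ := h
  exact ⟨hd, hb, s, hs, W, hW, fun k z hz hzp hS' =>
    hk k z hz hzp fun b hb1 hb2 => hS' b (hS hb1) hb2⟩

theorem Calm.local {κ : ℝ} {S : Set E} {u : E → ℂ} (h : Calm κ S u) (p : E) :
    CalmN κ S p u := by
  obtain ⟨hd, hb, W, hW, hk⟩ := h
  exact ⟨hd, hb, 1, one_pos, W, hW, fun k z hz _ hS' => hk k z hz hS'⟩

theorem CalmN.const (S : Set E) (p : E) (c : ℂ) : CalmN 1 S p (fun _ => c) :=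
  (Calm.const S c).local p

variable [FiniteDimensional ℂ E]

theorem CalmN.add {S : Set E} {p : E} {u v : E → ℂ} (hu : CalmN 1 S p u)
    (hv : CalmN 1 S p v) : CalmN 1 S p (fun z => u z + v z) := by
  obtain ⟨hud, ⟨Cu, hCu⟩, su, hsu, Wu, hWu, hku⟩ := hu
  obtain ⟨hvd, ⟨Cv, hCv⟩, sv, hsv, Wv, hWv, hkv⟩ := hv
  refine ⟨hud.add hvd, ⟨Cu + Cv, fun z hz => (norm_add_le _ _).trans (add_le_add (hCu z hz) (hCv z hz))⟩,
    min su sv, lt_min hsu hsv, fun k => Wu k + Wv k, hWu.add hWv, ?_⟩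
  intro k z hz hzp hS
  have h1 := hku k z hz (hzp.trans_le (min_le_left _ _)) hS
  have h2 := hkv k z hz (hzp.trans_le (min_le_right _ _)) hS
  rw [← Real.sqrt_eq_rpow] at h1 h2 ⊢
  exact (IG_add hud hvd (mem_ball_zero_iff.mp hz)).trans (add_le_add h1 h2)

theorem CalmN.mul {S : Set E} {p : E} {u v : E → ℂ} (hu : CalmN 1 S p u)
    (hv : CalmN 1 S p v) : CalmN 1 S p (fun z => u z * v z) := by
  obtain ⟨hud, ⟨Cu, hCu⟩, su, hsu, Wu, hWu, hku⟩ := hu
  obtain ⟨hvd, ⟨Cv, hCv⟩, sv, hsv, Wv, hWv, hkv⟩ := hv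
  refine ⟨hud.mul hvd, ⟨Cu * Cv, fun z hz => ?_⟩,
    min su sv, lt_min hsu hsv, fun k => Cu * Wv k + Cv * Wu k,
    (hWv.mul_left Cu).add (hWu.mul_left Cv), ?_⟩
  · rw [norm_mul]
    exact mul_le_mul (hCu z hz) (hCv z hz) (norm_nonneg _) ((norm_nonneg _).trans (hCu z hz))
  · intro k z hz hzp hS
    have h1 := hku k z hz (hzp.trans_le (min_le_left _ _)) hS
    have h2 := hkv k z hz (hzp.trans_le (min_le_right _ _)) hS
    rw [← Real.sqrt_eq_rpow] at h1 h2 ⊢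
    refine (IG_mul hud hvd (mem_ball_zero_iff.mp hz)).trans (add_le_add ?_ ?_)
    · exact mul_le_mul (hCu z hz) h2 (Real.sqrt_nonneg _) ((norm_nonneg _).trans (hCu z hz))
    · exact mul_le_mul (hCv z hz) h1 (Real.sqrt_nonneg _) ((norm_nonneg _).trans (hCv z hz))

omit [FiniteDimensional ℂ E] in
theorem RegN.const {Fam : Set (Set E)} (hF : Dir Fam) (p : E) (c : ℂ) :
    RegN Fam p (fun _ => c) := by
  intro ε hε
  obtain ⟨S, hS⟩ := hF.1
  refine ⟨S, 1, fun _ => c, hS, one_pos, CalmN.const S p c, fun z _ _ => ?_⟩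
  rw [sub_self, norm_zero]
  exact hε.le

omit [FiniteDimensional ℂ E] in
theorem RegN.of_calm {Fam : Set (Set E)} {p : E} {S : Set E} (hS : S ∈ Fam) {u : E → ℂ}
    (hu : CalmN 1 S p u) : RegN Fam p u := by
  intro ε hε
  refine ⟨S, 1, u, hS, one_pos, hu, fun z _ _ => ?_⟩
  rw [sub_self, norm_zero]
  exact hε.le

omit [FiniteDimensional ℂ E] in
theorem RegS.regN {Fam : Set (Set E)} {p : E} {u : E → ℂ} (h : RegS Fam p u) :
    RegN Fam p u := by
  intro ε hε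
  obtain ⟨S, s, F, hS, hs, hF, hb⟩ := h ε hε
  exact ⟨S, s, F, hS, hs, hF.local p, hb⟩

theorem RegN.add {Fam : Set (Set E)} (hF : Dir Fam) {p : E} {u v : E → ℂ} (hu : RegN Fam p u)
    (hv : RegN Fam p v) : RegN Fam p (fun z => u z + v z) := by
  intro ε hε
  obtain ⟨S, s, F, hS, hs, hCF, hFb⟩ := hu (ε / 2) (half_pos hε)
  obtain ⟨S', s', F', hS', hs', hCF', hFb'⟩ := hv (ε / 2) (half_pos hε)
  obtain ⟨S'', hS'', h1, h2⟩ := hF.2 S hS S' hS'
  refine ⟨S'', min s s', fun z => F z + F' z, hS'', lt_min hs hs', (hCF.mono h1).add (hCF'.mono h2), ?_⟩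
  intro z hz hzp
  have h3 := hFb z hz (lt_of_lt_of_le hzp (min_le_left _ _))
  have h4 := hFb' z hz (lt_of_lt_of_le hzp (min_le_right _ _))
  have h5 : u z + v z - (F z + F' z) = (u z - F z) + (v z - F' z) := by ring
  rw [h5]
  refine (norm_add_le _ _).trans ?_
  linarith

/-- First the approximants for `ε = 1` show that `u` and `v` are bounded near `p`, say by `K ≥ 1`;
then take approximants with the error `ε' ≤ 1` small, and `‖u v - F G‖ ≤ K ε' + (K + 1) ε'`. -/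
theorem RegN.mul {Fam : Set (Set E)} (hF : Dir Fam) {p : E} {u v : E → ℂ} (hu : RegN Fam p u)
    (hv : RegN Fam p v) : RegN Fam p (fun z => u z * v z) := by
  intro ε hε
  obtain ⟨S1, s1, F1, hS1, hs1, hC1, hb1⟩ := hu 1 one_pos
  obtain ⟨S2, s2, F2, hS2, hs2, hC2, hb2⟩ := hv 1 one_pos
  obtain ⟨C1, hC1'⟩ := hC1.2.1
  obtain ⟨C2, hC2'⟩ := hC2.2.1
  obtain ⟨K, hKdef⟩ : ∃ K : ℝ, K = |C1| + |C2| + 1 := ⟨_, rfl⟩
  have hK1 : 1 ≤ K := by
    rw [hKdef]
    have := abs_nonneg C1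
    have := abs_nonneg C2
    linarith
  obtain ⟨ε', hε'def⟩ : ∃ e : ℝ, e = min 1 (ε / (2 * K + 1)) := ⟨_, rfl⟩
  have hKpos : 0 < 2 * K + 1 := by linarith
  have hε' : 0 < ε' := by
    rw [hε'def]
    exact lt_min one_pos (div_pos hε hKpos)
  have hε1 : ε' ≤ 1 := by
    rw [hε'def]
    exact min_le_left _ _
  have hε2 : ε' * (2 * K + 1) ≤ ε := by
    have h1 : ε' ≤ ε / (2 * K + 1) := by
      rw [hε'def]
      exact min_le_right _ _
    exact (le_div_iff₀ hKpos).mp h1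
  obtain ⟨S, s, F, hS, hs, hCF, hFb⟩ := hu ε' hε'
  obtain ⟨S', s', F', hS', hs', hCF', hFb'⟩ := hv ε' hε'
  obtain ⟨S'', hS'', h1, h2⟩ := hF.2 S hS S' hS'
  refine ⟨S'', min (min s s') (min s1 s2), fun z => F z * F' z, hS'',
    lt_min (lt_min hs hs') (lt_min hs1 hs2), (hCF.mono h1).mul (hCF'.mono h2), ?_⟩
  intro z hz hzp
  have hzs : ‖z - p‖ < s := lt_of_lt_of_le hzp ((min_le_left _ _).trans (min_le_left _ _))
  have hzs' : ‖z - p‖ < s' := lt_of_lt_of_le hzp ((min_le_left _ _).trans (min_le_right _ _))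
  have hzs1 : ‖z - p‖ < s1 := lt_of_lt_of_le hzp ((min_le_right _ _).trans (min_le_left _ _))
  have hzs2 : ‖z - p‖ < s2 := lt_of_lt_of_le hzp ((min_le_right _ _).trans (min_le_right _ _))
  have e1 := hFb z hz hzs
  have e2 := hFb' z hz hzs'
  have e3 := hb1 z hz hzs1
  have e4 := hb2 z hz hzs2
  have e5 : ‖u z‖ ≤ K := by
    have h3 : u z = (u z - F1 z) + F1 z := by ring
    have h4 : ‖u z‖ ≤ ‖u z - F1 z‖ + ‖F1 z‖ := by
      conv_lhs => rw [h3]
      exact norm_add_le _ _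
    have h5 := (hC1' z hz).trans (le_abs_self C1)
    have h6 := abs_nonneg C2
    rw [hKdef]
    linarith
  have e6 : ‖v z‖ ≤ K := by
    have h3 : v z = (v z - F2 z) + F2 z := by ring
    have h4 : ‖v z‖ ≤ ‖v z - F2 z‖ + ‖F2 z‖ := by
      conv_lhs => rw [h3]
      exact norm_add_le _ _
    have h5 := (hC2' z hz).trans (le_abs_self C2)
    have h6 := abs_nonneg C1
    rw [hKdef]
    linarith
  have e7 : ‖F' z‖ ≤ K + 1 := by
    have h3 : F' z = v z - (v z - F' z) := by ring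
    have h4 : ‖F' z‖ ≤ ‖v z‖ + ‖v z - F' z‖ := by
      conv_lhs => rw [h3]
      exact norm_sub_le _ _
    linarith
  have e8 : u z * v z - F z * F' z = u z * (v z - F' z) + (u z - F z) * F' z := by ring
  rw [e8]
  refine (norm_add_le _ _).trans ?_
  rw [norm_mul, norm_mul]
  have e9 : ‖u z‖ * ‖v z - F' z‖ ≤ K * ε' := mul_le_mul e5 e2 (norm_nonneg _) (by linarith)
  have e10 : ‖u z - F z‖ * ‖F' z‖ ≤ ε' * (K + 1) := mul_le_mul e1 e7 (norm_nonneg _) hε'.le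
  nlinarith

theorem RegN.lim {Fam : Set (Set E)} {p : E} {u : E → ℂ} (h : ∀ ε : ℝ, 0 < ε → ∃ v : E → ℂ,
    RegN Fam p v ∧ ∀ z ∈ ball (0 : E) 1, ‖u z - v z‖ ≤ ε) : RegN Fam p u := by
  intro ε hε
  obtain ⟨v, hv, hv2⟩ := h (ε / 2) (half_pos hε)
  obtain ⟨S, s, F, hS, hs, hCF, hFb⟩ := hv (ε / 2) (half_pos hε)
  refine ⟨S, s, F, hS, hs, hCF, fun z hz hzp => ?_⟩
  have h1 := hv2 z hz
  have h2 := hFb z hz hzp
  have h3 : u z - F z = (u z - v z) + (v z - F z) := by ring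
  rw [h3]
  refine (norm_add_le _ _).trans ?_
  linarith

/-- `Algebra.adjoin_induction` -/
theorem RegN.of_adjoin {Fam : Set (Set E)} (hF : Dir Fam) {p : E} {G : Set (E → ℂ)}
    (hG : ∀ u ∈ G, RegN Fam p u) {u : E → ℂ} (hu : u ∈ Algebra.adjoin ℂ G) : RegN Fam p u := by
  induction hu using Algebra.adjoin_induction with
  | mem x hx => exact hG x hx
  | algebraMap r => exact RegN.const hF p r
  | add x y _ _ hx hy => exact RegN.add hF hx hy
  | mul x y _ _ hx hy => exact RegN.mul hF hx hy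

end Pool.Agent.MPca0fc2.PV
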