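import Mathlib
import Pool.Agent.Lib.MP_ca0fc2_an.PV.M0
import Pool.Agent.Lib.MP_ca0fc2_an.PV.V3
import Pool.Agent.Lib.MP_ca0fc2_an.TS.Gr

set_option autoImplicit false
set_option linter.unusedSectionVars false

open Metric Set MeasureTheory Filter Topology
open scoped InnerProductSpace ENNReal ContDiff

/-! # Functions which are calm off an arbitrary complex line are calm near every point -/

namespace Pool.Agent.MPca0fc2.PV

open Pool.Agent.Lib.MP_ca0fc2_an
open Pool.Agent.MPca0fc2.PT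
open Pool.Agent.MPca0fc2.TS

variable {E : Type*} [NormedAddCommGroup E] [InnerProductSpace ℂ E] [FiniteDimensional ℂ E]

/-- the invariant gradient of a bounded function is bounded -/
theorem W6_IG_bdd {u : E → ℂ} (hd : DifferentiableOn ℂ u (ball 0 1)) {C : ℝ}
    (hC : ∀ z ∈ ball (0 : E) 1, ‖u z‖ ≤ C) :
    ∃ B : ℝ, ∀ z ∈ ball (0 : E) 1, IG2 u z ^ ((1 : ℝ) / 2) ≤ B := by
  obtain ⟨lam, hlam⟩ : ∃ lam : ℝ, lam = |C| + 1 := ⟨_, rfl⟩
  have hl : 0 < lam := by rw [hlam]; positivity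
  refine ⟨lam, fun z hz => ?_⟩
  have hz1 : ‖z‖ < 1 := mem_ball_zero_iff.mp hz
  have h1 : IG2 (fun z => ((lam⁻¹ : ℝ) : ℂ) * u z) z ≤ 1 := by
    letI : MeasurableSpace E := borel E
    haveI : BorelSpace E := ⟨rfl⟩
    apply IG2_le (hd.const_mul _) _ hz1
    intro y hy
    rw [norm_mul, Complex.norm_real, Real.norm_of_nonneg (inv_nonneg.mpr hl.le), inv_mul_le_iff₀ hl,
      mul_one]
    have := hC y hy
    have := le_abs_self C
    linarith
  have hda : DifferentiableAt ℂ u z := hd.differentiableAt (isOpen_ball.mem_nhds hz)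
  have h2 : IG2 (fun z => ((lam⁻¹ : ℝ) : ℂ) * u z) z = (lam⁻¹) ^ 2 * IG2 u z := by
    unfold IG2
    have hf : fderiv ℂ (fun z => ((lam⁻¹ : ℝ) : ℂ) * u z) z = ((lam⁻¹ : ℝ) : ℂ) • fderiv ℂ u z :=
      fderiv_const_mul hda _
    rw [hf, norm_smul, smul_apply, smul_eq_mul, norm_mul, Complex.norm_real, Real.norm_of_nonneg
      (inv_nonneg.mpr hl.le)]
    ring
  rw [h2] at h1
  have h3 : IG2 u z ≤ lam ^ 2 := by
    have h4 : IG2 u z = lam ^ 2 * (lam⁻¹ ^ 2 * IG2 u z) := by field_simp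
    rw [h4]
    have : 0 < lam ^ 2 := by positivity
    nlinarith
  rw [← Real.sqrt_eq_rpow]
  calc Real.sqrt (IG2 u z) ≤ Real.sqrt (lam ^ 2) := Real.sqrt_le_sqrt h3
    _ = lam := Real.sqrt_sq hl.le

end Pool.Agent.MPca0fc2.PV
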