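import Mathlib
import Pool.Agent.Lib.MP_ca0fc2_an.PV.W3
import Pool.Agent.Lib.MP_ca0fc2_an.PV.V4

set_option autoImplicit false
set_option linter.unusedSectionVars false

open Metric Set MeasureTheory Filter Topology
open scoped InnerProductSpace ENNReal ContDiff

/-! # The functions `F (P z + r (z - P z))`, `r < 1`, `P` the projection on a line through `0` -/

namespace Pool.Agent.MPca0fc2.PV

open Pool.Agent.Lib.MP_ca0fc2_an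
open Pool.Agent.MPca0fc2.PT
open Pool.Agent.MPca0fc2.TE

variable {E : Type*} [NormedAddCommGroup E] [InnerProductSpace ℂ E] [FiniteDimensional ℂ E]

/-- the functions `F (⟪e, z⟫ e + r (z - ⟪e, z⟫ e))`, `F` bounded and holomorphic, `r < 1` -/
def Push : Set (E → ℂ) :=
  {u | ∃ (F : E → ℂ) (e : E) (r : ℝ), DifferentiableOn ℂ F (ball 0 1) ∧
    (∃ C : ℝ, ∀ z ∈ ball (0 : E) 1, ‖F z‖ ≤ C) ∧ ‖e‖ = 1 ∧ 0 ≤ r ∧ r < 1 ∧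
    ∀ z ∈ ball (0 : E) 1, u z = F (⟪e, z⟫_ℂ • e + (r : ℂ) • (z - ⟪e, z⟫_ℂ • e))}

private theorem W7_orth {e : E} (he : ‖e‖ = 1) (z : E) (c : ℂ) :
    ⟪c • e, z - ⟪e, z⟫_ℂ • e⟫_ℂ = 0 := by
  rw [inner_smul_left, inner_sub_right, inner_smul_right, inner_self_eq_norm_sq_to_K, he]
  simp

private theorem W7_perp {e : E} (he : ‖e‖ = 1) (z : E) :
    ‖z - ⟪e, z⟫_ℂ • e‖ ^ 2 = ‖z‖ ^ 2 - ‖⟪e, z⟫_ℂ‖ ^ 2 := by
  have h1 : ‖z‖ ^ 2 = ‖⟪e, z⟫_ℂ • e‖ ^ 2 + ‖z - ⟪e, z⟫_ℂ • e‖ ^ 2 := by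
    have h2 := norm_add_sq (𝕜 := ℂ) (⟪e, z⟫_ℂ • e) (z - ⟪e, z⟫_ℂ • e)
    rw [W7_orth he] at h2
    rw [add_sub_cancel] at h2
    rw [h2]; simp
  rw [norm_smul, he, mul_one] at h1
  linarith

private theorem W7_norm {e : E} (he : ‖e‖ = 1) (z : E) (r : ℝ) :
    ‖⟪e, z⟫_ℂ • e + (r : ℂ) • (z - ⟪e, z⟫_ℂ • e)‖ ^ 2 =
      ‖⟪e, z⟫_ℂ‖ ^ 2 + r ^ 2 * (‖z‖ ^ 2 - ‖⟪e, z⟫_ℂ‖ ^ 2) := by
  have h2 := norm_add_sq (𝕜 := ℂ) (⟪e, z⟫_ℂ • e) ((r : ℂ) • (z - ⟪e, z⟫_ℂ • e))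
  rw [inner_smul_right, W7_orth he] at h2
  rw [h2, norm_smul, norm_smul, he, mul_pow, mul_pow, W7_perp he]
  simp

private theorem W7_le {e : E} (he : ‖e‖ = 1) (z : E) : ‖⟪e, z⟫_ℂ‖ ≤ ‖z‖ := by
  have := norm_inner_le_norm (𝕜 := ℂ) e z
  rwa [he, one_mul] at this

theorem push_mem {e : E} (he : ‖e‖ = 1) {r : ℝ} (hr0 : 0 ≤ r) (hr1 : r < 1) {z : E}
    (hz : z ∈ ball (0 : E) 1) :
    ⟪e, z⟫_ℂ • e + (r : ℂ) • (z - ⟪e, z⟫_ℂ • e) ∈ ball (0 : E) 1 := by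
  rw [mem_ball_zero_iff] at hz ⊢
  have h1 := W7_norm he z r
  have h2 := W7_le he z
  have h3 : r ^ 2 ≤ 1 := by nlinarith
  have h4 : 0 ≤ ‖z‖ ^ 2 - ‖⟪e, z⟫_ℂ‖ ^ 2 := by nlinarith [norm_nonneg ⟪e, z⟫_ℂ]
  have h5 : ‖⟪e, z⟫_ℂ • e + (r : ℂ) • (z - ⟪e, z⟫_ℂ • e)‖ ^ 2 ≤ ‖z‖ ^ 2 := by
    rw [h1]
    nlinarith
  have h6 : ‖⟪e, z⟫_ℂ • e + (r : ℂ) • (z - ⟪e, z⟫_ℂ • e)‖ ≤ ‖z‖ :=
    le_of_sq_le_sq h5 (norm_nonneg _)
  exact h6.trans_lt hz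

/-- If `‖⟪e, p⟫‖ = 1` then `p` is a multiple of `e` and the function is calm off `lin 0 p`;
otherwise it is continuous at `p`. -/
theorem RegN.of_push {p : E} (hp : ‖p‖ = 1) {Fam : Set (Set E)} (hF : Dir Fam)
    (h0 : ∃ S ∈ Fam, lin 0 p ⊆ S) {u : E → ℂ} (hu : u ∈ (Push : Set (E → ℂ))) : RegN Fam p u := by
  obtain ⟨F, e, r, hd, ⟨C, hC⟩, he, hr0, hr1, hr⟩ := hu
  obtain ⟨S, hS, hSp⟩ := h0
  have hle : ‖⟪e, p⟫_ℂ‖ ≤ 1 := by have := W7_le he p; rwa [hp] at this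
  by_cases h1 : ‖⟪e, p⟫_ℂ‖ = 1
  · have hpe : p = ⟪e, p⟫_ℂ • e := by
      have h2 := W7_perp he p
      rw [hp, h1, sub_self] at h2
      have h3 : ‖p - ⟪e, p⟫_ℂ • e‖ = 0 := by
        have := pow_eq_zero_iff (two_ne_zero) |>.1 h2
        exact this
      exact sub_eq_zero.1 (norm_eq_zero.1 h3)
    have hPe : ∀ z : E, ⟪p, z⟫_ℂ • p = ⟪e, z⟫_ℂ • e := by
      intro z
      have hcc : (starRingEnd ℂ) ⟪e, p⟫_ℂ * ⟪e, p⟫_ℂ = 1 := by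
        rw [mul_comm, Complex.mul_conj, Complex.normSq_eq_norm_sq, h1]; simp
      calc ⟪p, z⟫_ℂ • p = ⟪⟪e, p⟫_ℂ • e, z⟫_ℂ • (⟪e, p⟫_ℂ • e) := by rw [← hpe]
        _ = (((starRingEnd ℂ) ⟪e, p⟫_ℂ * ⟪e, p⟫_ℂ) * ⟪e, z⟫_ℂ) • e := by
            rw [inner_smul_left, smul_smul]; congr 1; ring
        _ = ⟪e, z⟫_ℂ • e := by rw [hcc, one_mul]
    intro ε hε
    refine ⟨S, 1, fun z => F (pt (Pe p) r z), hS, one_pos,
      (Calm.mono hSp (calm_pt hp hr0 hr1 hd hC)).local p, ?_⟩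
    intro z hz _
    change ‖u z - F (pt (Pe p) r z)‖ ≤ ε
    rw [pt_Pe, hPe z, hr z hz, sub_self, norm_zero]
    exact hε.le
  · have hlt : ‖⟪e, p⟫_ℂ‖ < 1 := lt_of_le_of_ne hle h1
    set q : E := ⟪e, p⟫_ℂ • e + (r : ℂ) • (p - ⟪e, p⟫_ℂ • e) with hq
    have hqn : ‖q‖ < 1 := by
      have h2 : ‖q‖ ^ 2 < 1 := by
        rw [hq, W7_norm he, hp]
        have h3 : ‖⟪e, p⟫_ℂ‖ ^ 2 < 1 := by
          have := norm_nonneg ⟪e, p⟫_ℂ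
          nlinarith
        have h4 : r ^ 2 < 1 := by nlinarith
        nlinarith [sq_nonneg ‖⟪e, p⟫_ℂ‖]
      nlinarith [norm_nonneg q]
    have hqb : q ∈ ball (0 : E) 1 := by simpa [mem_ball, dist_zero_right] using hqn
    have hcu : ContinuousAt F q := (hd.differentiableAt (isOpen_ball.mem_nhds hqb)).continuousAt
    have hcT : Continuous fun z : E => ⟪e, z⟫_ℂ • e + (r : ℂ) • (z - ⟪e, z⟫_ℂ • e) := by
      fun_prop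
    have hcomp : ContinuousAt (fun z : E => F (⟪e, z⟫_ℂ • e + (r : ℂ) • (z - ⟪e, z⟫_ℂ • e))) p :=
      ContinuousAt.comp (f := fun z : E => ⟪e, z⟫_ℂ • e + (r : ℂ) • (z - ⟪e, z⟫_ℂ • e)) (g := F)
        hcu hcT.continuousAt
    refine (RegS.of_cont hF (c := F q) ?_).regN
    refine Tendsto.congr' ?_ (hcomp.tendsto.mono_left nhdsWithin_le_nhds)
    filter_upwards [self_mem_nhdsWithin] with z hz
    exact (hr z hz).symm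

/-- functions continuous on the closed ball -/
theorem RegN.of_alg {p : E} (hp : ‖p‖ = 1) {Fam : Set (Set E)} (hF : Dir Fam) {u : E → ℂ}
    (hu : ContinuousOn u (closedBall 0 1)) : RegN Fam p u := by
  refine (RegS.of_cont hF (c := u p) ?_).regN
  have h1 : p ∈ closedBall (0 : E) 1 := by simp [hp]
  exact (hu p h1).tendsto.mono_left (nhdsWithin_mono _ ball_subset_closedBall)

end Pool.Agent.MPca0fc2.PV
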